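import Pool.Agent.LibUS38.Del

/-! Growth of `N` at a cusp, local. -/

open Matrix Complex Filter
open UpperHalfPlane hiding I
open scoped ComplexOrder ContDiff

namespace US38

open SP38

variable {m : ℕ} {w : ℤ} {K : ℕ} {p : Fin m → ℤ} {s : Equiv.Perm (Fin m)}
  {Q : Matrix (Fin m) (Fin m) ℝ} {G : ℂ → Matrix (Fin m) (Fin m) ℂ} {ν : ℂ → Fin m → ℂ}
  {Δ : Subgroup (Matrix.SpecialLinearGroup (Fin 2) ℝ)} {z : ℂ}
  {N : Matrix (Fin m ⊕ Unit) (Fin m ⊕ Unit) ℝ} {Ψ : ℂ → Matrix (Fin m) (Fin m) ℂ}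
  {β : ℂ → Fin m → ℂ} {ε : ℝ}

/-- a self adjoint projector does not increase the norm -/
theorem grow_qf_proj_le {M R : Matrix (Fin m) (Fin m) ℂ} (hM : M.PosDef) (hR : adj M R = R)
    (hRR : R * R = R) (x : Fin m → ℂ) : qf M (R *ᵥ x) ≤ qf M x := by
  have h1 : star (R *ᵥ x) ⬝ᵥ (M *ᵥ (R *ᵥ x)) = star (R *ᵥ x) ⬝ᵥ (M *ᵥ x) := by
    rw [inner_adj hM R (R *ᵥ x) x, hR, Matrix.mulVec_mulVec, hRR]
  have h2 : qf M (R *ᵥ x) ≤ √(qf M (R *ᵥ x)) * √(qf M x) := by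
    calc qf M (R *ᵥ x) = (star (R *ᵥ x) ⬝ᵥ (M *ᵥ (R *ᵥ x))).re := rfl
      _ ≤ ‖star (R *ᵥ x) ⬝ᵥ (M *ᵥ (R *ᵥ x))‖ := Complex.re_le_norm _
      _ = ‖star (R *ᵥ x) ⬝ᵥ (M *ᵥ x)‖ := by rw [h1]
      _ ≤ √(qf M (R *ᵥ x)) * √(qf M x) := norm_inner_le hM _ _
  have ha : 0 ≤ qf M (R *ᵥ x) := qf_nonneg hM _
  have hb : 0 ≤ qf M x := qf_nonneg hM _
  have h3 := Real.sq_sqrt ha
  have h4 := Real.sq_sqrt hb
  have h5 := Real.sqrt_nonneg (qf M (R *ᵥ x))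
  have h6 := Real.sqrt_nonneg (qf M x)
  by_contra hlt
  push Not at hlt
  have h7 : √(qf M x) < √(qf M (R *ᵥ x)) := Real.sqrt_lt_sqrt hb hlt
  nlinarith

theorem grow_norm_imv_le (x : Fin m → ℂ) : ‖imv x‖ ≤ ‖x‖ := by
  refine (pi_norm_le_iff_of_nonneg (norm_nonneg x)).mpr fun i => ?_
  refine le_trans ?_ (norm_le_pi_norm x i)
  rw [imv, Complex.norm_real, Real.norm_eq_abs]
  exact Complex.abs_im_le_norm _

/-- growth in the coordinate of the cusp -/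
theorem CuspData.growth (h : CuspData w p Q N Ψ β ε) (hs : ∀ j, p (s j) = w - p j)
    (hK : ∀ j, |p j| ≤ K) :
    ∃ C : ℕ, ∀ᶠ ζ in strip, qf (metr w K Q (PP p s (GG N Ψ ζ)))
      (Rm w (PP p s (GG N Ψ ζ)) *ᵥ imv (VV N β ζ)) ≤ ζ.im ^ C := by
  obtain ⟨C1, hC1⟩ := h.exists_compare hs hK
  obtain ⟨C2, hC2⟩ := exists_eV_le h.nil
  obtain ⟨B, hB, hβ⟩ := nex2_vec_bound (b := β) (fun i => nex2_cont h.eps (h.holb i))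
  refine ⟨C1 + (C2 + 1) * 2, ?_⟩
  filter_upwards [hC1, hC2, tendsto_qq.eventually hβ, h.eventually, mon1_im (max B 1)]
    with ζ h1 h2 h3 h4 h5
  have hy1 : 1 ≤ ζ.im := (le_max_right _ _).trans h5
  have hyB : B ≤ ζ.im := (le_max_left _ _).trans h5
  have hy0 : 0 ≤ ζ.im := zero_le_one.trans hy1
  have hd := (h.phs ζ h4).hd hs hK
  have hM : (metr w K Q (PP p s (GG N Ψ ζ))).PosDef := hd.posDef
  have e1 : ‖(Sum.elim (β (qq ζ)) 1 : Fin m ⊕ Unit → ℂ)‖ ≤ ζ.im := by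
    refine (pi_norm_le_iff_of_nonneg hy0).mpr fun i => ?_
    rcases i with i | i
    · simp only [Sum.elim_inl]
      exact (norm_le_pi_norm _ i).trans (h3.trans hyB)
    · simpa using hy1
  have e2 : ‖VV N β ζ‖ ≤ ζ.im ^ (C2 + 1) := by
    have e3 : ‖VV N β ζ‖ ≤ ‖eV N ζ *ᵥ Sum.elim (β (qq ζ)) 1‖ := by
      refine (pi_norm_le_iff_of_nonneg (norm_nonneg _)).mpr fun i => ?_
      exact norm_le_pi_norm (eV N ζ *ᵥ Sum.elim (β (qq ζ)) 1) (Sum.inl i)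
    calc ‖VV N β ζ‖ ≤ ‖eV N ζ *ᵥ Sum.elim (β (qq ζ)) 1‖ := e3
      _ ≤ ζ.im ^ C2 * ‖(Sum.elim (β (qq ζ)) 1 : Fin m ⊕ Unit → ℂ)‖ := (h2 _).1
      _ ≤ ζ.im ^ C2 * ζ.im := mul_le_mul_of_nonneg_left e1 (pow_nonneg hy0 _)
      _ = ζ.im ^ (C2 + 1) := by ring
  calc qf (metr w K Q (PP p s (GG N Ψ ζ))) (Rm w (PP p s (GG N Ψ ζ)) *ᵥ imv (VV N β ζ))
      ≤ qf (metr w K Q (PP p s (GG N Ψ ζ))) (imv (VV N β ζ)) :=
        grow_qf_proj_le hM (adj_Rm hd) (Rm_Rm hd) _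
    _ ≤ ζ.im ^ C1 * ‖imv (VV N β ζ)‖ ^ 2 := (h1 _).1
    _ ≤ ζ.im ^ C1 * (ζ.im ^ (C2 + 1)) ^ 2 := by
        refine mul_le_mul_of_nonneg_left ?_ (pow_nonneg hy0 _)
        exact pow_le_pow_left₀ (norm_nonneg _) ((grow_norm_imv_le _).trans e2) 2
    _ = ζ.im ^ (C1 + (C2 + 1) * 2) := by rw [← pow_mul, ← pow_add]

end US38
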