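import Pool.Agent.LibSP38.HD1
import Pool.Agent.LibSP38.WirtM

/-! Wirtinger calculus for vectors, the hermitian form. -/

open Matrix Complex
open scoped ComplexOrder ContDiff

namespace US38

open SP38

variable {m : ℕ} {w : ℤ} {K : ℕ} {Q : Matrix (Fin m) (Fin m) ℝ} {Ω : Set ℂ}
  {P : ℂ → ℤ → Matrix (Fin m) (Fin m) ℂ} {θ A : ℂ → Matrix (Fin m) (Fin m) ℂ}
  {x y : ℂ → Fin m → ℂ} {z : ℂ}

def SmV (Ω : Set ℂ) (x : ℂ → Fin m → ℂ) : Prop := ∀ i, SmS Ω (fun z => x z i)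

noncomputable def DV (x : ℂ → Fin m → ℂ) (z : ℂ) : Fin m → ℂ := fun i => dz (fun z => x z i) z

noncomputable def DVb (x : ℂ → Fin m → ℂ) (z : ℂ) : Fin m → ℂ := fun i => dzb (fun z => x z i) z

/-- the hermitian form, linear in `x` -/
noncomputable def hm (M : Matrix (Fin m) (Fin m) ℂ) (x y : Fin m → ℂ) : ℂ := star y ⬝ᵥ (M *ᵥ x)

/-- the conjugate Higgs field -/
noncomputable def tb (θ : ℂ → Matrix (Fin m) (Fin m) ℂ) (z : ℂ) : Matrix (Fin m) (Fin m) ℂ :=
  (θ z).map (starRingEnd ℂ)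

/-- covariant derivatives -/
noncomputable def D1 (θ : ℂ → Matrix (Fin m) (Fin m) ℂ) (x : ℂ → Fin m → ℂ) (z : ℂ) :
    Fin m → ℂ := DV x z - θ z *ᵥ x z

noncomputable def D2 (θ : ℂ → Matrix (Fin m) (Fin m) ℂ) (x : ℂ → Fin m → ℂ) (z : ℂ) :
    Fin m → ℂ := DVb x z - tb θ z *ᵥ x z

theorem SmV.mulVec (hA : Sm Ω A) (hx : SmV Ω x) : SmV Ω (fun z => A z *ᵥ x z) := by
  intro i
  unfold SmS
  simp only [Matrix.mulVec, dotProduct]
  exact ContDiffOn.sum fun k _ => ContDiffOn.mul (hA i k) (hx k)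

theorem SmV.sub (hx : SmV Ω x) (hy : SmV Ω y) : SmV Ω (fun z => x z - y z) :=
  fun i => ContDiffOn.sub (hx i) (hy i)

theorem DV_mulVec (hΩ : IsOpen Ω) (hz : z ∈ Ω) (hA : Sm Ω A) (hx : SmV Ω x) :
    DV (fun z => A z *ᵥ x z) z = DZ A z *ᵥ x z + A z *ᵥ DV x z := by
  funext i
  simp only [DV, Pi.add_apply, Matrix.mulVec, dotProduct]
  rw [← Finset.sum_add_distrib]
  have e := WirtM_dz_sum (Finset.univ : Finset (Fin m)) (f := fun k z => A z i k * x z k) (z := z)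
    fun k _ => ((hA i k).differentiableAt hΩ hz).mul ((hx k).differentiableAt hΩ hz)
  exact e.trans (Finset.sum_congr rfl fun k _ =>
    dz_mul ((hA i k).differentiableAt hΩ hz) ((hx k).differentiableAt hΩ hz))

theorem DVb_mulVec (hΩ : IsOpen Ω) (hz : z ∈ Ω) (hA : Sm Ω A) (hx : SmV Ω x) :
    DVb (fun z => A z *ᵥ x z) z = DB A z *ᵥ x z + A z *ᵥ DVb x z := by
  funext i
  simp only [DVb, Pi.add_apply, Matrix.mulVec, dotProduct]
  rw [← Finset.sum_add_distrib]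
  have e := WirtM_dzb_sum (Finset.univ : Finset (Fin m)) (f := fun k z => A z i k * x z k) (z := z)
    fun k _ => ((hA i k).differentiableAt hΩ hz).mul ((hx k).differentiableAt hΩ hz)
  exact e.trans (Finset.sum_congr rfl fun k _ =>
    dzb_mul ((hA i k).differentiableAt hΩ hz) ((hx k).differentiableAt hΩ hz))

theorem DV_sub (hΩ : IsOpen Ω) (hz : z ∈ Ω) (hx : SmV Ω x) (hy : SmV Ω y) :
    DV (fun z => x z - y z) z = DV x z - DV y z := by
  funext i
  exact WirtM_dz_sub ((hx i).differentiableAt hΩ hz) ((hy i).differentiableAt hΩ hz)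

theorem DVb_sub (hΩ : IsOpen Ω) (hz : z ∈ Ω) (hx : SmV Ω x) (hy : SmV Ω y) :
    DVb (fun z => x z - y z) z = DVb x z - DVb y z := by
  funext i
  exact WirtM_dzb_sub ((hx i).differentiableAt hΩ hz) ((hy i).differentiableAt hΩ hz)

variable {M : Matrix (Fin m) (Fin m) ℂ}

theorem hm_self (hM : M.PosDef) (x : Fin m → ℂ) : hm M x x = (qf M x : ℂ) := by
  apply Complex.ext
  · rfl
  · rw [Complex.ofReal_im]
    exact qf_im hM x

theorem hm_comm (hM : M.PosDef) (x y : Fin m → ℂ) : hm M x y = (starRingEnd ℂ) (hm M y x) := by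
  have hH : Mᴴ = M := hM.isHermitian
  have h1 : (starRingEnd ℂ) (hm M y x) = star (star x ⬝ᵥ (M *ᵥ y)) := rfl
  rw [h1, ← Matrix.star_dotProduct_star, star_star, Matrix.star_mulVec, hH,
    ← Matrix.dotProduct_mulVec]
  rfl

theorem hm_add_left (x x' y : Fin m → ℂ) : hm M (x + x') y = hm M x y + hm M x' y := by
  unfold hm
  rw [Matrix.mulVec_add, dotProduct_add]

theorem hm_sub_left (x x' y : Fin m → ℂ) : hm M (x - x') y = hm M x y - hm M x' y := by
  unfold hm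
  rw [Matrix.mulVec_sub, dotProduct_sub]

theorem hm_sub_right (x y y' : Fin m → ℂ) : hm M x (y - y') = hm M x y - hm M x y' := by
  unfold hm
  rw [star_sub, sub_dotProduct]

theorem hm_adj (hM : M.PosDef) (X : Matrix (Fin m) (Fin m) ℂ) (x y : Fin m → ℂ) :
    hm M (X *ᵥ x) y = hm M x (adj M X *ᵥ y) := inner_adj hM X y x

theorem norm_hm_le (hM : M.PosDef) (x y : Fin m → ℂ) : ‖hm M x y‖ ^ 2 ≤ qf M x * qf M y := by
  have h1 : ‖hm M x y‖ ≤ √(qf M y) * √(qf M x) := norm_inner_le hM y x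
  calc ‖hm M x y‖ ^ 2 ≤ (√(qf M y) * √(qf M x)) ^ 2 := pow_le_pow_left₀ (norm_nonneg _) h1 2
    _ = qf M x * qf M y := by
        rw [mul_pow, Real.sq_sqrt (qf_nonneg hM y), Real.sq_sqrt (qf_nonneg hM x), mul_comm]

/-- the Hodge metric is real -/
theorem Hm_metr_real {P : ℤ → Matrix (Fin m) (Fin m) ℂ} (h : HD w K Q P) :
    (metr w K Q P).map (starRingEnd ℂ) = metr w K Q P := by
  have hP0 : ∀ a, a ∉ Finset.Icc (-(K : ℤ)) K → P a = 0 := by
    intro a ha
    apply h.supp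
    rw [Finset.mem_Icc] at ha
    by_contra hh
    exact ha (abs_le.mp (not_lt.mp hh))
  have hQ : ((cm Q)ᵀ).map (starRingEnd ℂ) = (cm Q)ᵀ := by
    ext i j
    simp [cm]
  have hI : ∀ a : ℤ, (starRingEnd ℂ) (I ^ (2 * a - w)) = I ^ (2 * (w - a) - w) := by
    intro a
    rw [map_zpow₀, Complex.conj_I, ← Complex.inv_I, _root_.inv_zpow']
    congr 1
    ring
  have h1 : (metr w K Q P).map (starRingEnd ℂ) =
      ∑ a ∈ Finset.Icc (-(K : ℤ)) K, (I ^ (2 * (w - a) - w)) • ((cm Q)ᵀ * P (w - a)) := by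
    ext i j
    rw [Matrix.map_apply, metr, Matrix.sum_apply, Matrix.sum_apply, map_sum]
    refine Finset.sum_congr rfl fun a _ => ?_
    rw [Matrix.smul_apply, Matrix.smul_apply, smul_eq_mul, smul_eq_mul, map_mul, hI]
    congr 1
    have h2 : ((cm Q)ᵀ * P a).map (starRingEnd ℂ) = (cm Q)ᵀ * P (w - a) := by
      rw [Matrix.map_mul, hQ, h.conj]
    rw [← h2]
    rfl
  rw [h1, metr]
  refine Finset.sum_bij_ne_zero (fun a _ _ => w - a) ?_ ?_ ?_ ?_
  · intro a ha hne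
    by_contra hh
    apply hne
    rw [hP0 _ hh, Matrix.mul_zero, smul_zero]
  · intro a _ _ b _ _ hab
    simpa using hab
  · intro b hb hne
    refine ⟨w - b, ?_, ?_, ?_⟩
    · by_contra hh
      apply hne
      have h3 : P b = 0 := by
        have h4 := h.conj (w - b)
        rw [hP0 _ hh, sub_sub_cancel] at h4
        rw [← h4]
        ext i j
        simp
      rw [h3, Matrix.mul_zero, smul_zero]
    · rwa [sub_sub_cancel]
    · rw [sub_sub_cancel]
  · intro a _ _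
    rfl

/-- conjugation -/
theorem hm_cj {P : ℤ → Matrix (Fin m) (Fin m) ℂ} (h : HD w K Q P) (x y : Fin m → ℂ) :
    hm (metr w K Q P) (cj x) (cj y) = (starRingEnd ℂ) (hm (metr w K Q P) x y) := by
  have h1 : metr w K Q P *ᵥ cj x = cj (metr w K Q P *ᵥ x) := by
    rw [hd1_cj_mulVec, Hm_metr_real h]
  unfold hm
  rw [h1]
  simp only [dotProduct, map_sum, map_mul]
  refine Finset.sum_congr rfl fun i _ => ?_
  rfl

end US38
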