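import Pool.Agent.LibSP38.Gro1
import Pool.Agent.LibUS38.Hm

/-! Derivatives of the Hodge metric. -/

open Matrix Complex
open scoped ComplexOrder ContDiff

namespace US38

open SP38

variable {m : ℕ} {w : ℤ} {K : ℕ} {Q : Matrix (Fin m) (Fin m) ℝ} {Ω : Set ℂ}
  {P : ℂ → ℤ → Matrix (Fin m) (Fin m) ℂ} {θ A : ℂ → Matrix (Fin m) (Fin m) ℂ}
  {x y : ℂ → Fin m → ℂ} {z : ℂ}

variable {M : Matrix (Fin m) (Fin m) ℂ}

/-- the Higgs field and its adjoint -/
theorem hm_theta (h : PV w K Q Ω P θ) (hz : z ∈ Ω) (x y : Fin m → ℂ) :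
    hm (metr w K Q (P z)) (θ z *ᵥ x) y = hm (metr w K Q (P z)) x (tb θ z *ᵥ y) := by
  rw [hm_adj (h.hd z hz).posDef, fam4_adj h hz]
  rfl

theorem hm_tb (h : PV w K Q Ω P θ) (hz : z ∈ Ω) (x y : Fin m → ℂ) :
    hm (metr w K Q (P z)) (tb θ z *ᵥ x) y = hm (metr w K Q (P z)) x (θ z *ᵥ y) := by
  rw [hm_comm (h.hd z hz).posDef, ← hm_theta h hz, ← hm_comm (h.hd z hz).posDef]

theorem Hm2_Sm_metr (h : PV w K Q Ω P θ) : Sm Ω (fun z => metr w K Q (P z)) := by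
  unfold metr
  exact Sm.sum _ fun a _ => ((Sm.const _).mul (h.sm a)).smul _

theorem Hm2_eq (M : Matrix (Fin m) (Fin m) ℂ) (x y : Fin m → ℂ) :
    hm M x y = ∑ i, (starRingEnd ℂ) (y i) * (M *ᵥ x) i := rfl

theorem SmS_hm (hΩ : IsOpen Ω) (h : PV w K Q Ω P θ) (hx : SmV Ω x) (hy : SmV Ω y) :
    SmS Ω (fun z => hm (metr w K Q (P z)) (x z) (y z)) := by
  have _ := hΩ
  simp only [Hm2_eq]
  exact ContDiffOn.sum fun i _ => ContDiffOn.mul (Complex.conjCLE.contDiff.comp_contDiffOn (hy i))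
    (SmV.mulVec (Hm2_Sm_metr h) hx i)

theorem dz_hm (hΩ : IsOpen Ω) (h : PV w K Q Ω P θ) (hx : SmV Ω x) (hy : SmV Ω y) (hz : z ∈ Ω) :
    dz (fun z => hm (metr w K Q (P z)) (x z) (y z)) z =
      hm (metr w K Q (P z)) (D1 θ x z) (y z) + hm (metr w K Q (P z)) (x z) (D2 θ y z) := by
  have hs := SmV.mulVec (Hm2_Sm_metr h) hx
  have hyc : ∀ i, DifferentiableAt ℝ (fun z => (starRingEnd ℂ) (y z i)) z := fun i =>
    Complex.conjCLE.differentiable.differentiableAt.comp z ((hy i).differentiableAt hΩ hz)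
  have hmd : ∀ i, DifferentiableAt ℝ (fun z => (metr w K Q (P z) *ᵥ x z) i) z := fun i =>
    (hs i).differentiableAt hΩ hz
  have h1 : dz (fun z => hm (metr w K Q (P z)) (x z) (y z)) z =
      ∑ i, ((starRingEnd ℂ) (dzb (fun z => y z i) z) * (metr w K Q (P z) *ᵥ x z) i +
        (starRingEnd ℂ) (y z i) * (DV (fun z => metr w K Q (P z) *ᵥ x z) z) i) := by
    simp only [Hm2_eq]
    rw [WirtM_dz_sum (Finset.univ : Finset (Fin m))
      (f := fun i z => (starRingEnd ℂ) (y z i) * (metr w K Q (P z) *ᵥ x z) i) (z := z)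
      fun i _ => (hyc i).mul (hmd i)]
    refine Finset.sum_congr rfl fun i _ => ?_
    rw [dz_mul (hyc i) (hmd i), dz_conj ((hy i).differentiableAt hΩ hz)]
    rfl
  have h2 : dz (fun z => hm (metr w K Q (P z)) (x z) (y z)) z =
      hm (metr w K Q (P z)) (x z) (DVb y z) +
      star (y z) ⬝ᵥ (DV (fun z => metr w K Q (P z) *ᵥ x z) z) := by
    rw [h1, Finset.sum_add_distrib]
    rfl
  rw [h2, DV_mulVec hΩ hz (Hm2_Sm_metr h) hx, h.DZ_metr hΩ hz, dotProduct_add,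
    Matrix.smul_mulVec, dotProduct_smul, ← Matrix.mulVec_mulVec]
  unfold D1 D2
  rw [hm_sub_left, hm_sub_right, ← hm_theta h hz]
  unfold hm
  rw [smul_eq_mul]
  ring

theorem dzb_hm (hΩ : IsOpen Ω) (h : PV w K Q Ω P θ) (hx : SmV Ω x) (hy : SmV Ω y) (hz : z ∈ Ω) :
    dzb (fun z => hm (metr w K Q (P z)) (x z) (y z)) z =
      hm (metr w K Q (P z)) (D2 θ x z) (y z) + hm (metr w K Q (P z)) (x z) (D1 θ y z) := by
  have hev : ∀ᶠ t in nhds z, t ∈ Ω := hΩ.mem_nhds hz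
  have h1 : dzb (fun z => hm (metr w K Q (P z)) (x z) (y z)) z =
      dzb (fun z => (starRingEnd ℂ) (hm (metr w K Q (P z)) (y z) (x z))) z := by
    apply dzb_congr
    refine hev.mono fun t ht => ?_
    exact hm_comm (h.hd t ht).posDef _ _
  rw [h1, dzb_conj ((SmS_hm hΩ h hy hx).differentiableAt hΩ hz), dz_hm hΩ h hy hx hz, map_add,
    ← hm_comm (h.hd z hz).posDef, ← hm_comm (h.hd z hz).posDef, add_comm]

end US38
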