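import Pool.Agent.LibUS38.DelD2
import Pool.Agent.LibUS38.Hm2

/-! The norm of `δ`. -/

open Matrix Complex
open scoped ComplexOrder ContDiff

namespace US38

open SP38

variable {m : ℕ} {w : ℤ} {K : ℕ} {Q : Matrix (Fin m) (Fin m) ℝ} {Ω : Set ℂ}
  {P : ℂ → ℤ → Matrix (Fin m) (Fin m) ℂ} {θ : ℂ → Matrix (Fin m) (Fin m) ℂ}
  {v u : ℂ → Fin m → ℂ} {z : ℂ}

/-- `N = |δ|²` -/
noncomputable def NN (w : ℤ) (K : ℕ) (Q : Matrix (Fin m) (Fin m) ℝ)
    (P : ℂ → ℤ → Matrix (Fin m) (Fin m) ℂ) (v : ℂ → Fin m → ℂ) (z : ℂ) : ℂ :=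
  hm (metr w K Q (P z)) (del w P v z) (del w P v z)

/-- `T = h (θ δ, δ)` -/
noncomputable def TT (w : ℤ) (K : ℕ) (Q : Matrix (Fin m) (Fin m) ℝ)
    (P : ℂ → ℤ → Matrix (Fin m) (Fin m) ℂ) (θ : ℂ → Matrix (Fin m) (Fin m) ℂ)
    (v : ℂ → Fin m → ℂ) (z : ℂ) : ℂ :=
  hm (metr w K Q (P z)) (θ z *ᵥ del w P v z) (del w P v z)

/-- `h (η, δ)` -/
noncomputable def PE (w : ℤ) (K : ℕ) (Q : Matrix (Fin m) (Fin m) ℝ)
    (P : ℂ → ℤ → Matrix (Fin m) (Fin m) ℂ) (θ : ℂ → Matrix (Fin m) (Fin m) ℂ)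
    (v u : ℂ → Fin m → ℂ) (z : ℂ) : ℂ :=
  hm (metr w K Q (P z)) (eta P θ v u z) (del w P v z)

/-- `δ` is fixed by the projector -/
theorem npt_Rm_del (h : Ext w K Q Ω P θ v u) (hz : z ∈ Ω) :
    Rm w (P z) *ᵥ del w P v z = del w P v z := by
  rw [del, Matrix.mulVec_mulVec, Rm_Rm (h.pv.hd z hz)]

theorem npt_hm_Rm (h : Ext w K Q Ω P θ v u) (hz : z ∈ Ω) (x : Fin m → ℂ) :
    hm (metr w K Q (P z)) (Rm w (P z) *ᵥ x) (del w P v z) =
      hm (metr w K Q (P z)) x (del w P v z) := by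
  rw [hm_adj (h.pv.hd z hz).posDef, adj_Rm (h.pv.hd z hz), npt_Rm_del h hz]

/-- pairing a conjugate vector with `δ` -/
theorem npt_hm_cj (h : Ext w K Q Ω P θ v u) (hz : z ∈ Ω) (x : Fin m → ℂ) :
    hm (metr w K Q (P z)) (del w P v z) (cj x) = hm (metr w K Q (P z)) x (del w P v z) := by
  have h1 := hm_cj (h.pv.hd z hz) (del w P v z) x
  rw [h.cj_del hz] at h1
  rw [h1, ← hm_comm (h.pv.hd z hz).posDef]

theorem Ext.dz_NN (h : Ext w K Q Ω P θ v u) (hΩ : IsOpen Ω) (hw : w ≤ -3) (hz : z ∈ Ω) :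
    dz (NN w K Q P v) z = 2 * (PE w K Q P θ v u z - TT w K Q P θ v z) := by
  have h1 := dz_hm hΩ h.pv (h.sm_del hΩ) (h.sm_del hΩ) hz
  have h2 : dz (NN w K Q P v) z =
      dz (fun z => hm (metr w K Q (P z)) (del w P v z) (del w P v z)) z := rfl
  rw [h2, h1, h.D2_del hΩ hz, npt_hm_cj h hz, h.D1_del hΩ hw hz, hm_sub_left, npt_hm_Rm h hz]
  unfold PE TT
  ring

/-- twice the norm of the component of type `(-1, w + 1)` of a real vector is at most the norm -/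
theorem npt_half {P : ℤ → Matrix (Fin m) (Fin m) ℂ} (h : HD w K Q P) (hw : w ≤ -3)
    {x : Fin m → ℂ} (hx : cj x = x) :
    2 * qf (metr w K Q P) (P (-1) *ᵥ x) ≤ qf (metr w K Q P) x := by
  have h1 : qf (metr w K Q P) (P (-1) *ᵥ x) = qf (metr w K Q P) (P (w + 1) *ᵥ x) := by
    rw [h.qf_cj, hx]
    congr 3
  have h0 : ∀ a, 0 ≤ qf (metr w K Q P) (P a *ᵥ x) := fun a => qf_nonneg h.posDef _
  by_cases ha : (-1 : ℤ) ∈ Finset.Icc (-(K : ℤ)) K
  · by_cases hb : w + 1 ∈ Finset.Icc (-(K : ℤ)) K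
    · rw [h.qf_sum x]
      have h2 : ∑ a ∈ ({-1, w + 1} : Finset ℤ), qf (metr w K Q P) (P a *ᵥ x) ≤
          ∑ a ∈ Finset.Icc (-(K : ℤ)) K, qf (metr w K Q P) (P a *ᵥ x) := by
        apply Finset.sum_le_sum_of_subset_of_nonneg
        · intro a haa
          simp only [Finset.mem_insert, Finset.mem_singleton] at haa
          rcases haa with rfl | rfl
          · exact ha
          · exact hb
        · intro a _ _
          exact h0 a
      rw [Finset.sum_pair (by omega)] at h2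
      linarith
    · rw [h1, h.hd2_zero hb]
      simp only [Matrix.zero_mulVec]
      have : qf (metr w K Q P) (0 : Fin m → ℂ) = 0 := by simp [qf]
      rw [this]
      simpa using qf_nonneg h.posDef x
  · rw [h.hd2_zero ha]
    simp only [Matrix.zero_mulVec]
    have : qf (metr w K Q P) (0 : Fin m → ℂ) = 0 := by simp [qf]
    rw [this]
    simpa using qf_nonneg h.posDef x

theorem npt_eta (h : Ext w K Q Ω P θ v u) (hz : z ∈ Ω) :
    P z (-1) *ᵥ eta P θ v u z = eta P θ v u z := by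
  rw [eta, Matrix.mulVec_mulVec, (h.pv.hd z hz).mul, if_pos rfl]

/-- the component of type `(-1, w + 1)` has at most half of the norm -/
theorem Ext.norm_PE_le (h : Ext w K Q Ω P θ v u) (hw : w ≤ -3) (hz : z ∈ Ω) :
    2 * ‖PE w K Q P θ v u z‖ ^ 2 ≤ qf (metr w K Q (P z)) (eta P θ v u z) * (NN w K Q P v z).re := by
  have hd := h.pv.hd z hz
  have h1 : PE w K Q P θ v u z =
      hm (metr w K Q (P z)) (eta P θ v u z) (P z (-1) *ᵥ del w P v z) := by
    rw [PE]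
    conv_lhs => rw [← npt_eta h hz]
    rw [hm_adj hd.posDef, hd.adj_P]
  have h2 : (NN w K Q P v z).re = qf (metr w K Q (P z)) (del w P v z) := by
    rw [NN, hm_self hd.posDef, Complex.ofReal_re]
  have h3 := norm_hm_le hd.posDef (eta P θ v u z) (P z (-1) *ᵥ del w P v z)
  have h4 := npt_half hd hw (h.cj_del hz)
  have h5 := qf_nonneg hd.posDef (eta P θ v u z)
  rw [h1, h2]
  calc 2 * ‖hm (metr w K Q (P z)) (eta P θ v u z) (P z (-1) *ᵥ del w P v z)‖ ^ 2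
      ≤ 2 * (qf (metr w K Q (P z)) (eta P θ v u z) *
        qf (metr w K Q (P z)) (P z (-1) *ᵥ del w P v z)) := by linarith
    _ = qf (metr w K Q (P z)) (eta P θ v u z) *
        (2 * qf (metr w K Q (P z)) (P z (-1) *ᵥ del w P v z)) := by ring
    _ ≤ qf (metr w K Q (P z)) (eta P θ v u z) * qf (metr w K Q (P z)) (del w P v z) :=
        mul_le_mul_of_nonneg_left h4 h5

end US38
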