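import Pool.Agent.LibSP38.WirtS

/-! Wirtinger calculus: chain rule, quotients, smoothness. -/

open Matrix Complex
open UpperHalfPlane hiding I
open scoped ContDiff

namespace US38

open SP38

variable {f g φ N T j : ℂ → ℂ} {z : ℂ} {Ω Ω' : Set ℂ} {ε : ℝ}

theorem wirtC_fderiv_comp (hf : DifferentiableAt ℝ f (φ z)) (hφ : DifferentiableAt ℂ φ z) (w : ℂ) :
    fderiv ℝ (fun z => f (φ z)) z w =
      dz f (φ z) * (w * deriv φ z) +
        dzb f (φ z) * ((starRingEnd ℂ) w * (starRingEnd ℂ) (deriv φ z)) := by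
  have h1 : HasFDerivAt φ ((fderiv ℂ φ z).restrictScalars ℝ) z := hφ.hasFDerivAt.restrictScalars ℝ
  have h2 := (hf.hasFDerivAt.comp z h1).fderiv
  have h3 : fderiv ℝ (fun z => f (φ z)) z w = fderiv ℝ f (φ z) (fderiv ℂ φ z w) := by
    change fderiv ℝ (f ∘ φ) z w = _
    rw [h2]
    rfl
  rw [h3, fderiv_eq_dz hf, fderiv_eq_smul_deriv, smul_eq_mul, map_mul]

theorem dz_comp (hf : DifferentiableAt ℝ f (φ z)) (hφ : DifferentiableAt ℂ φ z) :
    dz (fun z => f (φ z)) z = dz f (φ z) * deriv φ z := by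
  rw [dz, wirtC_fderiv_comp hf hφ, wirtC_fderiv_comp hf hφ, map_one, conj_I]
  linear_combination
    (-(dz f (φ z) * deriv φ z) / 2 + dzb f (φ z) * (starRingEnd ℂ) (deriv φ z) / 2) * I_sq

theorem dzb_comp (hf : DifferentiableAt ℝ f (φ z)) (hφ : DifferentiableAt ℂ φ z) :
    dzb (fun z => f (φ z)) z = dzb f (φ z) * (starRingEnd ℂ) (deriv φ z) := by
  rw [dzb, wirtC_fderiv_comp hf hφ, wirtC_fderiv_comp hf hφ, map_one, conj_I]
  linear_combination
    ((dz f (φ z) * deriv φ z) / 2 - dzb f (φ z) * (starRingEnd ℂ) (deriv φ z) / 2) * I_sq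

theorem wirtC_inv (hg : DifferentiableAt ℝ g z) (h : g z ≠ 0) :
    DifferentiableAt ℝ (fun z => (g z)⁻¹) z := hg.inv h

theorem wirtC_mul_inv (hg : DifferentiableAt ℝ g z) (h : g z ≠ 0) :
    (fun z => g z * (g z)⁻¹) =ᶠ[nhds z] fun _ => 1 := by
  filter_upwards [hg.continuousAt.eventually_ne h] with x hx
  exact mul_inv_cancel₀ hx

theorem wirtC_dz_inv (hg : DifferentiableAt ℝ g z) (h : g z ≠ 0) :
    dz (fun z => (g z)⁻¹) z = -(dz g z / g z ^ 2) := by
  have h1 := dz_mul hg (wirtC_inv hg h)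
  rw [dz_congr (wirtC_mul_inv hg h), dz_const] at h1
  field_simp
  field_simp at h1
  linear_combination -h1

theorem wirtC_dzb_inv (hg : DifferentiableAt ℝ g z) (h : g z ≠ 0) :
    dzb (fun z => (g z)⁻¹) z = -(dzb g z / g z ^ 2) := by
  have h1 := dzb_mul hg (wirtC_inv hg h)
  rw [dzb_congr (wirtC_mul_inv hg h), dzb_const] at h1
  field_simp
  field_simp at h1
  linear_combination -h1

theorem dz_div (hf : DifferentiableAt ℝ f z) (hg : DifferentiableAt ℝ g z) (h : g z ≠ 0) :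
    dz (fun z => f z / g z) z = dz f z / g z - f z * dz g z / g z ^ 2 := by
  have h1 : (fun z => f z / g z) = fun z => f z * (g z)⁻¹ := by
    funext x
    exact div_eq_mul_inv _ _
  rw [h1, dz_mul hf (wirtC_inv hg h), wirtC_dz_inv hg h]
  field_simp
  ring

theorem dzb_div (hf : DifferentiableAt ℝ f z) (hg : DifferentiableAt ℝ g z) (h : g z ≠ 0) :
    dzb (fun z => f z / g z) z = dzb f z / g z - f z * dzb g z / g z ^ 2 := by
  have h1 : (fun z => f z / g z) = fun z => f z * (g z)⁻¹ := by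
    funext x
    exact div_eq_mul_inv _ _
  rw [h1, dzb_mul hf (wirtC_inv hg h), wirtC_dzb_inv hg h]
  field_simp
  ring

theorem SmS_const (c : ℂ) : SmS Ω (fun _ => c) := contDiffOn_const

theorem SmS.addS (hf : SmS Ω f) (hg : SmS Ω g) : SmS Ω (fun z => f z + g z) :=
  ContDiffOn.add hf hg

theorem SmS.mulS (hf : SmS Ω f) (hg : SmS Ω g) : SmS Ω (fun z => f z * g z) :=
  ContDiffOn.mul hf hg

theorem SmS.divS (hf : SmS Ω f) (hg : SmS Ω g) (h : ∀ z ∈ Ω, g z ≠ 0) :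
    SmS Ω (fun z => f z / g z) := by
  have h1 : (fun z => f z / g z) = fun z => f z * (g z)⁻¹ := by
    funext x
    exact div_eq_mul_inv _ _
  rw [h1]
  exact ContDiffOn.mul hf (ContDiffOn.inv hg h)

theorem SmS.compS (hΩ' : IsOpen Ω') (hf : SmS Ω f) (hφ : DifferentiableOn ℂ φ Ω')
    (hm : ∀ z ∈ Ω', φ z ∈ Ω) : SmS Ω' (fun z => f (φ z)) := by
  have h1 : SmS Ω' φ := SmS.of_holo hΩ' hφ
  exact ContDiffOn.comp hf h1 hm

end US38
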