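import Pool.Agent.LibUS38.Inv
import Pool.Agent.LibUS38.NPT
import Pool.Agent.LibUS38.WirtC

/-! Invariance under `Δ`: the Higgs field. -/

open Matrix Complex
open UpperHalfPlane hiding I
open scoped ComplexOrder ContDiff

namespace US38

open SP38

variable {m : ℕ} {w : ℤ} {K : ℕ} {p : Fin m → ℤ} {s : Equiv.Perm (Fin m)}
  {Q : Matrix (Fin m) (Fin m) ℝ} {G : ℂ → Matrix (Fin m) (Fin m) ℂ} {ν : ℂ → Fin m → ℂ}
  {Δ : Subgroup (Matrix.SpecialLinearGroup (Fin 2) ℝ)} {θ : ℂ → Matrix (Fin m) (Fin m) ℂ}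
  {u : ℂ → Fin m → ℂ} {z : ℂ}

/-- an operator of degree `-1` is determined by its commutators with the projectors -/
theorem Inv2_alg {P : ℤ → Matrix (Fin m) (Fin m) ℂ} (h : HD w K Q P)
    {A B : Matrix (Fin m) (Fin m) ℂ} (hAB : ∀ a, A * P a - P a * A = B * P a - P a * B)
    (hA : ∀ a, A * P a = P (a - 1) * A) (hB : ∀ a, B * P a = P (a - 1) * B) : A = B := by
  have h1 : ∀ a, (A - B) * P a = P a * (A - B) := by
    intro a
    have := hAB a
    rw [sub_mul, mul_sub, sub_eq_sub_iff_add_eq_add]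
    rw [sub_eq_sub_iff_add_eq_add] at this
    rw [this]
    abel
  have h2 : ∀ a, (A - B) * P a = P (a - 1) * (A - B) := by
    intro a
    rw [sub_mul, mul_sub, hA, hB]
  have h3 : ∀ a, (A - B) * P a = 0 := by
    intro a
    have h4 : (A - B) * P a = (A - B) * P a * P a := by
      rw [Matrix.mul_assoc, h.mul, if_pos rfl]
    rw [h4, h2, Matrix.mul_assoc, h1, ← Matrix.mul_assoc, h.mul, if_neg (by omega),
      Matrix.zero_mul]
  have h5 : (A - B) * 1 = 0 := by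
    rw [← h.sum, Matrix.mul_sum]
    exact Finset.sum_eq_zero (fun a _ => h3 a)
  rw [Matrix.mul_one] at h5
  exact sub_eq_zero.1 h5

theorem Inv2_DZ_comp {F : ℂ → Matrix (Fin m) (Fin m) ℂ} {φ : ℂ → ℂ} {z : ℂ} {Ω : Set ℂ}
    (hΩ : IsOpen Ω) (hF : Sm Ω F) (hz : φ z ∈ Ω) (hφ : DifferentiableAt ℂ φ z) :
    DZ (fun z => F (φ z)) z = deriv φ z • DZ F (φ z) := by
  ext i j
  simp only [DZ, Matrix.of_apply, Matrix.smul_apply, smul_eq_mul]
  rw [dz_comp (f := fun z => F z i j) (SmS.differentiableAt hΩ (hF i j) hz) hφ, mul_comm]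

/-- invariance of the Higgs field -/
theorem theta_mob (hv : IsVar w p Q G ν) (hs : ∀ j, p (s j) = w - p j) (hK : ∀ j, |p j| ≤ K)
    (hpv : PV w K Q (Hc 0) (fun z => PP p s (G z)) θ)
    {γ : Matrix (Fin m) (Fin m) ℝ} (hu : IsUnit γ) (hγ : γᵀ * Q * γ = Q)
    {δ : Matrix.SpecialLinearGroup (Fin 2) ℝ}
    (hF : ∀ z ∈ Hc 0, ∀ a,
      Fil p (G (mob δ z)) a = (Fil p (G z) a).map (Matrix.mulVecLin (cm γ)))
    (hz : z ∈ Hc 0) :
    deriv (mob δ) z • (θ (mob δ z) * cm γ) = cm γ * θ z := by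
  have hg : IsUnit (cm γ) := by
    have h1 := hu.map (RingHom.mapMatrix Complex.ofRealHom : Matrix (Fin m) (Fin m) ℝ →+* _)
    exact h1
  have hgd : IsUnit (cm γ).det := (Matrix.isUnit_iff_isUnit_det _).1 hg
  have e1 : (cm γ)⁻¹ * cm γ = 1 := Matrix.nonsing_inv_mul _ hgd
  have e2 : cm γ * (cm γ)⁻¹ = 1 := Matrix.mul_nonsing_inv _ hgd
  have hΩ := isOpen_Hc 0
  have hmz := mob_mem δ hz
  have hP : ∀ z ∈ Hc 0, ∀ a, PP p s (G (mob δ z)) a * cm γ = cm γ * PP p s (G z) a :=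
    fun z hz a => PP_mob hv hs hu hγ hz (hF z hz) a
  have hP2 : ∀ z ∈ Hc 0, ∀ a, PP p s (G (mob δ z)) a = cm γ * PP p s (G z) a * (cm γ)⁻¹ := by
    intro z hz a
    rw [← hP z hz a, Matrix.mul_assoc, e2, Matrix.mul_one]
  have hdiff : DifferentiableAt ℂ (mob δ) z :=
    (mob_holo δ).differentiableAt (hΩ.mem_nhds hz)
  -- differentiate
  have hD : ∀ a, deriv (mob δ) z • (θ (mob δ z) * PP p s (G (mob δ z)) a -
      PP p s (G (mob δ z)) a * θ (mob δ z)) =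
      cm γ * (θ z * PP p s (G z) a - PP p s (G z) a * θ z) * (cm γ)⁻¹ := by
    intro a
    have h1 := Inv2_DZ_comp (F := fun z => PP p s (G z) a) hΩ (hpv.sm a) hmz hdiff
    have h2 : DZ (fun z => PP p s (G (mob δ z)) a) z =
        DZ (fun z => cm γ * PP p s (G z) a * (cm γ)⁻¹) z := by
      apply DZ_congr
      filter_upwards [hΩ.mem_nhds hz] with x hx
      exact hP2 x hx a
    have h3 : DZ (fun z => cm γ * PP p s (G z) a * (cm γ)⁻¹) z =
        cm γ * DZ (fun z => PP p s (G z) a) z * (cm γ)⁻¹ := by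
      have h4 := DZ_mul hΩ hz (F := fun _ : ℂ => cm γ) (H := fun z => PP p s (G z) a)
        (Sm.const _) (hpv.sm a)
      rw [DZ_const, Matrix.zero_mul, zero_add] at h4
      have h5 := DZ_mul hΩ hz (F := fun z => cm γ * PP p s (G z) a)
        (H := fun _ : ℂ => (cm γ)⁻¹) (Sm.mul (Sm.const _) (hpv.sm a)) (Sm.const _)
      rw [DZ_const, Matrix.mul_zero, add_zero, h4] at h5
      exact h5
    rw [← hpv.der z hz a, ← h3, ← h2, h1, ← hpv.der (mob δ z) hmz a]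
  have key : deriv (mob δ) z • ((cm γ)⁻¹ * θ (mob δ z) * cm γ) = θ z := by
    apply Inv2_alg (hpv.hd z hz)
    · intro a
      have h1 := congrArg (fun X => (cm γ)⁻¹ * X * cm γ) (hD a)
      have h2 : (cm γ)⁻¹ * (cm γ * (θ z * PP p s (G z) a - PP p s (G z) a * θ z) *
          (cm γ)⁻¹) * cm γ = θ z * PP p s (G z) a - PP p s (G z) a * θ z := by
        simp only [Matrix.mul_assoc]
        rw [e1, Matrix.mul_one, ← Matrix.mul_assoc, e1, Matrix.one_mul]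
      rw [h2] at h1
      rw [← h1, hP2 z hz a]
      simp only [Matrix.mul_smul, Matrix.smul_mul, ← smul_sub, Matrix.mul_sub, Matrix.sub_mul]
      congr 1
      congr 1
      · simp only [Matrix.mul_assoc]
        rw [e1, Matrix.mul_one]
      · simp only [Matrix.mul_assoc]
        rw [← Matrix.mul_assoc (cm γ)⁻¹ (cm γ), e1, Matrix.one_mul]
    · intro a
      have h1 := hpv.deg (mob δ z) hmz a
      rw [hP2 z hz a, hP2 z hz (a - 1)] at h1
      have h2 := congrArg (fun X => deriv (mob δ) z • ((cm γ)⁻¹ * X * cm γ)) h1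
      simp only [Matrix.mul_assoc] at h2
      rw [e1, Matrix.mul_one, ← Matrix.mul_assoc (cm γ)⁻¹ (cm γ), e1, Matrix.one_mul] at h2
      simp only [Matrix.mul_smul, Matrix.smul_mul, Matrix.mul_assoc]
      exact h2
    · exact hpv.deg z hz
  rw [← key, Matrix.mul_smul]
  congr 1
  simp only [← Matrix.mul_assoc]
  rw [e2, Matrix.one_mul]

theorem Inv2_hF (hd : DescendsR p Q G ν Δ) {δ : Matrix.SpecialLinearGroup (Fin 2) ℝ}
    (hδ : δ ∈ Δ) : ∃ (γ : Matrix (Fin m) (Fin m) ℝ) (b : Fin m → ℝ), IsUnit γ ∧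
      γᵀ * Q * γ = Q ∧ ∀ z ∈ Hc 0,
      (∀ a, Fil p (G (mob δ z)) a = (Fil p (G z) a).map (Matrix.mulVecLin (cm γ))) ∧
      ν (mob δ z) - (cm γ *ᵥ ν z + ofR b) ∈ Fil p (G (mob δ z)) 0 := by
  obtain ⟨γ, b, hu, hγ, h⟩ := hd δ hδ
  refine ⟨γ, b, hu, hγ, fun z hz => ?_⟩
  have h1 := h ⟨z, hz⟩
  rw [← mob_coe] at h1
  exact h1

theorem NN_mob (hv : IsVar w p Q G ν) (hs : ∀ j, p (s j) = w - p j) (hK : ∀ j, |p j| ≤ K)
    (hd : DescendsR p Q G ν Δ) {δ : Matrix.SpecialLinearGroup (Fin 2) ℝ} (hδ : δ ∈ Δ)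
    (hz : z ∈ Hc 0) :
    NN w K Q (fun z => PP p s (G z)) (fun z => imv (ν z)) (mob δ z) =
      NN w K Q (fun z => PP p s (G z)) (fun z => imv (ν z)) z := by
  obtain ⟨γ, b, hu, hγ, h⟩ := Inv2_hF hd hδ
  simp only [NN]
  rw [del_mob hv hs hu hγ hz (h z hz).1 (h z hz).2]
  exact hm_transport hγ (fun a => PP_mob hv hs hu hγ hz (h z hz).1 a) _ _

theorem TT_mob (hv : IsVar w p Q G ν) (hs : ∀ j, p (s j) = w - p j) (hK : ∀ j, |p j| ≤ K)
    (hpv : PV w K Q (Hc 0) (fun z => PP p s (G z)) θ)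
    (hd : DescendsR p Q G ν Δ) {δ : Matrix.SpecialLinearGroup (Fin 2) ℝ} (hδ : δ ∈ Δ)
    (hz : z ∈ Hc 0) :
    pb (mob δ) (TT w K Q (fun z => PP p s (G z)) θ (fun z => imv (ν z))) z =
      TT w K Q (fun z => PP p s (G z)) θ (fun z => imv (ν z)) z := by
  obtain ⟨γ, b, hu, hγ, h⟩ := Inv2_hF hd hδ
  simp only [TT, pb]
  rw [del_mob hv hs hu hγ hz (h z hz).1 (h z hz).2, Matrix.mulVec_mulVec]
  have hθ := theta_mob hv hs hK hpv hu hγ (fun z hz => (h z hz).1) hz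
  rw [← hm_transport (w := w) (K := K) hγ (fun a => PP_mob hv hs hu hγ hz (h z hz).1 a)
    (θ z *ᵥ _) _, Matrix.mulVec_mulVec, ← hθ]
  simp only [hm]
  rw [Matrix.smul_mulVec, Matrix.mulVec_smul, dotProduct_smul, smul_eq_mul, mul_comm]

end US38
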