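import Pool.Agent.LibSP38.Glo2
import Pool.Agent.LibUS38.Grow
import Pool.Agent.LibUS38.Inv2

/-! Growth of `N` at a cusp. -/

open Matrix Complex Filter
open UpperHalfPlane hiding I
open scoped ComplexOrder ContDiff

namespace US38

open SP38

variable {m : ℕ} {w : ℤ} {K : ℕ} {p : Fin m → ℤ} {s : Equiv.Perm (Fin m)}
  {Q : Matrix (Fin m) (Fin m) ℝ} {G : ℂ → Matrix (Fin m) (Fin m) ℂ} {ν : ℂ → Fin m → ℂ}
  {Δ : Subgroup (Matrix.SpecialLinearGroup (Fin 2) ℝ)} {z : ℂ}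
  {N : Matrix (Fin m ⊕ Unit) (Fin m ⊕ Unit) ℝ} {Ψ : ℂ → Matrix (Fin m) (Fin m) ℂ}
  {β : ℂ → Fin m → ℂ} {ε : ℝ}

theorem grow2_imv_sub (x y : Fin m → ℂ) : imv (x - y) = imv x - imv y := by
  funext i
  simp [imv]

/-- polynomial growth of `N` at the cusp -/
theorem NN_growth (hv : IsVar w p Q G ν) (hs : ∀ j, p (s j) = w - p j) (hK : ∀ j, |p j| ≤ K)
    (hd : DescendsR p Q G ν Δ) {σ : Matrix.SpecialLinearGroup (Fin 2) ℝ}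
    (ha : AdmissibleAt p Q G ν Δ σ) :
    ∃ (C : ℕ) (Y₀ : ℝ), ∀ ζ : ℂ, 0 < ζ.im → Y₀ ≤ ζ.im →
      (NN w K Q (fun z => PP p s (G z)) (fun z => imv (ν z)) (mob σ ζ)).re ≤ ζ.im ^ C := by
  obtain ⟨h, N, Ψ, β, ε, hh, hmem, -, hcd, hτ⟩ := hv.cuspData_cusp ha
  obtain ⟨C, hC⟩ := CuspData.growth (K := K) hcd hs hK
  obtain ⟨y, hy⟩ := glo2_strip hC
  obtain ⟨y', hy'⟩ : ∃ y : ℝ, ∀ ζ : ℂ, y < ζ.im → ‖qq ζ‖ < ε := by
    refine ⟨-Real.log ε / (2 * Real.pi), fun ζ hζ => ?_⟩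
    rw [norm_qq, ← Real.lt_log_iff_exp_lt hcd.eps]
    rw [div_lt_iff₀ (by positivity)] at hζ
    nlinarith
  refine ⟨C + 1, max (max (y * h) ((y' + 1) * h)) (h⁻¹ ^ C), fun ζ hζ0 hζ => ?_⟩
  have hζ1 : y * h ≤ ζ.im := le_trans (le_trans (le_max_left _ _) (le_max_left _ _)) hζ
  have hζ2 : (y' + 1) * h ≤ ζ.im := le_trans (le_trans (le_max_right _ _) (le_max_left _ _)) hζ
  have hζ3 : h⁻¹ ^ C ≤ ζ.im := le_trans (le_max_right _ _) hζ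
  set τ : ℍ := ⟨ζ, hζ0⟩ with hτdef
  have hτim : τ.im = ζ.im := rfl
  obtain ⟨δ, τ', hδ, h3, h4, h5, h6⟩ := glo2_move hh hmem τ
  have e1 : mob σ ζ = ((σ • τ : ℍ) : ℂ) := mob_coe σ τ
  have hmemH : ((σ • τ : ℍ) : ℂ) ∈ Hc 0 := (σ • τ).im_pos
  have e2 := NN_mob (K := K) hv hs hK hd hδ hmemH
  rw [mob_coe, h3] at e2
  rw [e1, ← e2]
  set ξ : ℂ := (τ' : ℂ) / h with hξ
  have hξim : ξ.im = ζ.im / h := by
    rw [hξ, Complex.div_ofReal_im, UpperHalfPlane.coe_im, h4, hτim]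
  have hξ1 : y ≤ ξ.im := by
    rw [hξim, le_div_iff₀ hh]
    exact hζ1
  have hξ2 : y' < ξ.im := by
    rw [hξim, lt_div_iff₀ hh]
    nlinarith
  have hqq : ‖qq ξ‖ < ε := hy' ξ hξ2
  obtain ⟨h8, h9⟩ := hτ τ' hqq
  have hphs : IsPHS w p Q (G ((σ • τ' : ℍ) : ℂ)) := hv.phs _ (σ • τ').im_pos
  have hphs' : IsPHS w p Q (GG N Ψ ξ) := hcd.phs ξ hqq
  have hPP : PP p s (G ((σ • τ' : ℍ) : ℂ)) = PP p s (GG N Ψ ξ) := by
    funext a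
    exact hphs.PP_congr hphs' hs h8 a
  have hx : Rm w (PP p s (G ((σ • τ' : ℍ) : ℂ))) *ᵥ imv (ν ((σ • τ' : ℍ) : ℂ)) =
      Rm w (PP p s (G ((σ • τ' : ℍ) : ℂ))) *ᵥ imv (VV N β ξ) := by
    have h10 := Rm_imv_Fil hphs hs h9
    rw [grow2_imv_sub, Matrix.mulVec_sub] at h10
    exact sub_eq_zero.1 h10
  have hval : (NN w K Q (fun z => PP p s (G z)) (fun z => imv (ν z))
      ((σ • τ' : ℍ) : ℂ)).re = qf (metr w K Q (PP p s (GG N Ψ ξ)))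
        (Rm w (PP p s (GG N Ψ ξ)) *ᵥ imv (VV N β ξ)) := by
    rw [← hPP, ← hx]
    rfl
  rw [hval]
  have h10 := hy ξ hξ1 h5 h6
  refine h10.trans ?_
  rw [hξim, div_eq_mul_inv, mul_pow, pow_succ]
  exact mul_le_mul_of_nonneg_left hζ3 (by positivity)

end US38
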