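import Pool.Agent.LibSP38.Fam2
import Pool.Agent.LibSP38.HD2

/-! The trace of the Hodge projectors. -/

open Matrix Complex
open scoped ComplexOrder ContDiff

namespace US38

open SP38

variable {m : ℕ} {w : ℤ} {K : ℕ} {p : Fin m → ℤ} {s : Equiv.Perm (Fin m)}
  {Q : Matrix (Fin m) (Fin m) ℝ} {G : Matrix (Fin m) (Fin m) ℂ}

theorem lev_trace_PI (h : IsPHS w p Q G) (hs : ∀ j, p (s j) = w - p j) (k : ℤ) :
    Matrix.trace (PI p s k G) = ((Finset.univ.filter (fun j => k ≤ p j)).card : ℂ) := by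
  have h1 := (Matrix.isUnit_iff_isUnit_det _).mp (h.isUnit_AA hs k)
  rw [PI, Matrix.trace_mul_comm, ← Matrix.mul_assoc, Matrix.nonsing_inv_mul _ h1, Matrix.one_mul,
    EE, Matrix.trace_diagonal, Finset.sum_ite, Finset.sum_const_zero, add_zero, Finset.sum_const,
    nsmul_eq_mul, mul_one]

theorem trace_PP (h : IsPHS w p Q G) (hs : ∀ j, p (s j) = w - p j) (a : ℤ) :
    Matrix.trace (PP p s G a) = ((Finset.univ.filter (fun j => p j = a)).card : ℂ) := by
  rw [PP, Matrix.trace_sub, lev_trace_PI h hs, lev_trace_PI h hs]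
  have h1 : Finset.univ.filter (fun j => a ≤ p j) =
      Finset.univ.filter (fun j => a + 1 ≤ p j) ∪ Finset.univ.filter (fun j => p j = a) := by
    ext j
    simp only [Finset.mem_filter, Finset.mem_univ, true_and, Finset.mem_union]
    omega
  have h2 : Disjoint (Finset.univ.filter (fun j => a + 1 ≤ p j))
      (Finset.univ.filter (fun j => p j = a)) := by
    rw [Finset.disjoint_left]
    intro j hj hj'
    simp only [Finset.mem_filter, Finset.mem_univ, true_and] at hj hj'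
    omega
  rw [h1, Finset.card_union_of_disjoint h2]
  push_cast
  ring

theorem lev_adj {P : ℤ → Matrix (Fin m) (Fin m) ℂ} (h : HD w K Q P) : adj (metr w K Q P)
    (YY K P - ((w : ℂ) / 2) • (1 : Matrix (Fin m) (Fin m) ℂ)) =
    YY K P - ((w : ℂ) / 2) • (1 : Matrix (Fin m) (Fin m) ℂ) := by
  rw [adj_sub, h.adj_YY, adj_smul, adj_one h.posDef, map_div₀, map_intCast, map_ofNat]

theorem lev_eq {P : ℤ → Matrix (Fin m) (Fin m) ℂ} (h : HD w K Q P) :
    YY K P - ((w : ℂ) / 2) • (1 : Matrix (Fin m) (Fin m) ℂ) =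
      ∑ a ∈ Finset.Icc (-(K : ℤ)) K, ((a : ℂ) - w / 2) • P a := by
  rw [YY, ← h.sum, Finset.smul_sum, ← Finset.sum_sub_distrib]
  exact Finset.sum_congr rfl fun a _ => (sub_smul _ _ _).symm

theorem lev_sq {P : ℤ → Matrix (Fin m) (Fin m) ℂ} (h : HD w K Q P) :
    (YY K P - ((w : ℂ) / 2) • (1 : Matrix (Fin m) (Fin m) ℂ)) *
      (YY K P - ((w : ℂ) / 2) • (1 : Matrix (Fin m) (Fin m) ℂ)) =
      ∑ a ∈ Finset.Icc (-(K : ℤ)) K, (((a : ℂ) - w / 2) ^ 2) • P a := by
  rw [lev_eq h, Finset.sum_mul]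
  refine Finset.sum_congr rfl fun a ha => ?_
  rw [Finset.mul_sum, Finset.sum_eq_single_of_mem a ha]
  · rw [Matrix.smul_mul, Matrix.mul_smul, h.mul, if_pos rfl, smul_smul, sq]
  · intro b _ hb
    rw [Matrix.smul_mul, Matrix.mul_smul, h.mul, if_neg (fun e => hb e.symm)]
    simp

theorem hs_YY_PP (h : IsPHS w p Q G) (hs' : ∀ j, p (s j) = w - p j) (hK : ∀ j, |p j| ≤ K) :
    hs (metr w K Q (PP p s G))
      (YY K (PP p s G) - ((w : ℂ) / 2) • (1 : Matrix (Fin m) (Fin m) ℂ)) ≤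
      ∑ j, ((p j : ℝ) - w / 2) ^ 2 := by
  have hd := h.hd hs' hK
  rw [hs, lev_adj hd, lev_sq hd, Matrix.trace_sum, Complex.re_sum]
  apply le_of_eq
  have h1 : ∀ a ∈ Finset.Icc (-(K : ℤ)) K,
      (Matrix.trace ((((a : ℂ) - w / 2) ^ 2) • PP p s G a)).re =
        ∑ j ∈ Finset.univ.filter (fun j => p j = a), ((p j : ℝ) - w / 2) ^ 2 := by
    intro a _
    rw [Matrix.trace_smul, trace_PP h hs', smul_eq_mul]
    have h2 : ∑ j ∈ Finset.univ.filter (fun j => p j = a), ((p j : ℝ) - w / 2) ^ 2 =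
        ∑ j ∈ Finset.univ.filter (fun j => p j = a), ((a : ℝ) - w / 2) ^ 2 := by
      refine Finset.sum_congr rfl fun j hj => ?_
      rw [(Finset.mem_filter.1 hj).2]
    rw [h2, Finset.sum_const, nsmul_eq_mul]
    have h3 : ((a : ℂ) - w / 2) ^ 2 *
        ((Finset.univ.filter (fun j => p j = a)).card : ℂ) =
        (((Finset.univ.filter (fun j => p j = a)).card * ((a : ℝ) - w / 2) ^ 2 : ℝ) : ℂ) := by
      push_cast
      ring
    rw [h3, Complex.ofReal_re]
  rw [Finset.sum_congr rfl h1]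
  apply Finset.sum_fiberwise_of_maps_to
  intro j _
  rw [Finset.mem_Icc]
  exact abs_le.1 (hK j)

end US38
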