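import Pool.Agent.LibSP38.Fam4

/-! The curvature inequality. -/

open Matrix Complex
open scoped ComplexOrder ContDiff

namespace US38

open SP38

variable {m : ℕ} {w : ℤ} {K : ℕ} {Q : Matrix (Fin m) (Fin m) ℝ}
variable {Ω : Set ℂ} {P : ℂ → ℤ → Matrix (Fin m) (Fin m) ℂ} {θ : ℂ → Matrix (Fin m) (Fin m) ℂ}

theorem curv_adj {P : ℤ → Matrix (Fin m) (Fin m) ℂ} (h : HD w K Q P) : adj (metr w K Q P)
    (YY K P - ((w : ℂ) / 2) • (1 : Matrix (Fin m) (Fin m) ℂ)) =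
    YY K P - ((w : ℂ) / 2) • (1 : Matrix (Fin m) (Fin m) ℂ) := by
  rw [adj_sub, h.adj_YY, adj_smul, adj_one h.posDef, map_div₀, map_intCast, map_ofNat]

/-- the curvature inequality with the centered grading operator -/
theorem curvature_B (hΩ : IsOpen Ω) (h : PV w K Q Ω P θ) {B : ℝ} (hB : 0 < B) {z : ℂ}
    (hz : z ∈ Ω) (hY : hs (metr w K Q (P z))
      (YY K (P z) - ((w : ℂ) / 2) • (1 : Matrix (Fin m) (Fin m) ℂ)) ≤ B) :
    (ff θ z).re ^ 3 / B ≤
      (ff θ z).re * (dzb (dz (ff θ)) z).re - ‖dz (ff θ) z‖ ^ 2 := by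
  have hM := (h.hd z hz).posDef
  have hθ := fam4_adj h hz
  have hθ' : adj (metr w K Q (P z)) ((θ z).map (starRingEnd ℂ)) = θ z := by
    rw [← hθ, adj_adj hM]
  have hD : adj (metr w K Q (P z)) (DZ θ z) = (DZ θ z).map (starRingEnd ℂ) :=
    (h.hd z hz).adj_deg (h.DZ_θ_deg hΩ hz) (h.DZ_θ_skew hΩ hz)
  have hff := h.ff_eq hz
  rw [h.dzb_dz_ff hΩ hz, h.dz_ff hΩ hz]
  set L := θ z * (θ z).map (starRingEnd ℂ) - (θ z).map (starRingEnd ℂ) * θ z with hL
  have hLadj : adj (metr w K Q (P z)) L = L := by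
    rw [hL, adj_sub, adj_mul hM, adj_mul hM, hθ, hθ']
  have hYadj := curv_adj (h.hd z hz)
  have hL0 : Matrix.trace L = 0 := by
    rw [hL, Matrix.trace_sub, Matrix.trace_mul_comm, sub_self]
  have h1 : Matrix.trace (L * (YY K (P z) -
      ((w : ℂ) / 2) • (1 : Matrix (Fin m) (Fin m) ℂ))) = -ff θ z := by
    rw [Matrix.mul_sub, Matrix.trace_sub, Matrix.mul_smul, Matrix.trace_smul, Matrix.mul_one, hL0,
      smul_zero, sub_zero]
    exact (h.hd z hz).trace_comm_YY (h.deg z hz) _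
  have h2 : (ff θ z).re ^ 2 ≤ hs (metr w K Q (P z)) L * B := by
    have h3 := norm_trace_sq_le hM L (YY K (P z) -
      ((w : ℂ) / 2) • (1 : Matrix (Fin m) (Fin m) ℂ))
    rw [hYadj, h1, norm_neg] at h3
    have h4 : (ff θ z).re ^ 2 ≤ ‖ff θ z‖ ^ 2 := by
      rw [← sq_abs]
      exact pow_le_pow_left₀ (abs_nonneg _) (Complex.abs_re_le_norm _) 2
    refine h4.trans (h3.trans ?_)
    exact mul_le_mul_of_nonneg_left hY (hs_nonneg hM L)
  have h5 : ‖Matrix.trace (DZ θ z * (θ z).map (starRingEnd ℂ))‖ ^ 2 ≤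
      hs (metr w K Q (P z)) (DZ θ z) * (ff θ z).re := by
    have h3 := norm_trace_sq_le hM (DZ θ z) (θ z)
    rw [hθ] at h3
    rw [hff.2]
    exact h3
  have h6 : (Matrix.trace (DZ θ z * (DZ θ z).map (starRingEnd ℂ)) + Matrix.trace (L ^ 2)).re =
      hs (metr w K Q (P z)) (DZ θ z) + hs (metr w K Q (P z)) L := by
    rw [Complex.add_re]
    unfold hs
    rw [hD, hLadj, pow_two]
  rw [h6]
  have hf0 : 0 ≤ (ff θ z).re := by
    rw [hff.2]
    exact hs_nonneg hM _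
  rw [div_le_iff₀ hB]
  have h9 : (ff θ z).re * (ff θ z).re ^ 2 ≤
      (ff θ z).re * (hs (metr w K Q (P z)) L * B) :=
    mul_le_mul_of_nonneg_left h2 hf0
  have h10 : 0 ≤ (hs (metr w K Q (P z)) (DZ θ z) * (ff θ z).re -
      ‖Matrix.trace (DZ θ z * (θ z).map (starRingEnd ℂ))‖ ^ 2) * B :=
    mul_nonneg (by linarith) hB.le
  nlinarith [h9, h10]

end US38
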