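import Pool.Agent.LibUS38.AhlH
import Pool.Agent.LibUS38.Curv

/-! The Ahlfors bound for the Higgs field. -/

open Matrix Complex
open scoped ComplexOrder ContDiff

namespace US38

open SP38

variable {m : ℕ} {w : ℤ} {K : ℕ} {Q : Matrix (Fin m) (Fin m) ℝ}
variable {P : ℂ → ℤ → Matrix (Fin m) (Fin m) ℂ} {θ : ℂ → Matrix (Fin m) (Fin m) ℂ}

theorem lev2_pos (h : PV w K Q (Hc 0) P θ) {B : ℝ} (hB : 0 < B)
    (hY : ∀ z ∈ Hc 0, hs (metr w K Q (P z))
      (YY K (P z) - ((w : ℂ) / 2) • (1 : Matrix (Fin m) (Fin m) ℂ)) ≤ B) {z : ℂ}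
    (hz : z ∈ Hc 0) : hs (metr w K Q (P z)) (θ z) ≤ B / (2 * z.im ^ 2) := by
  have hΩ := isOpen_Hc 0
  have hsm : SmS (Hc 0) (ff θ) := (h.smθ.mul h.smθ.conj).trace
  have h1 := ahlfors_H (f := ff θ) hsm (fun z hz => (h.ff_eq hz).1)
    (fun z hz => by
      rw [(h.ff_eq (z := z) hz).2]
      exact hs_nonneg (h.hd z hz).posDef _)
    (κ := 1 / B) (by positivity)
    (fun z hz => by
      rw [one_div_mul_eq_div]
      exact curvature_B hΩ h hB hz (hY z hz)) hz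
  rw [(h.ff_eq (z := z) hz).2] at h1
  refine h1.trans (le_of_eq ?_)
  have h2 : z.im ≠ 0 := by
    have : 0 < z.im := hz
    exact this.ne'
  have h3 : B ≠ 0 := hB.ne'
  field_simp

theorem hs_theta_B (h : PV w K Q (Hc 0) P θ) {B : ℝ} (hB : 0 ≤ B)
    (hY : ∀ z ∈ Hc 0, hs (metr w K Q (P z))
      (YY K (P z) - ((w : ℂ) / 2) • (1 : Matrix (Fin m) (Fin m) ℂ)) ≤ B) {z : ℂ}
    (hz : z ∈ Hc 0) : hs (metr w K Q (P z)) (θ z) ≤ B / (2 * z.im ^ 2) := by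
  have h0 : (0 : ℝ) < z.im := hz
  apply le_of_forall_pos_le_add
  intro e he
  have h1 : 0 < e * (2 * z.im ^ 2) := by positivity
  have h2 := lev2_pos h (B := B + e * (2 * z.im ^ 2)) (by linarith)
    (fun x hx => (hY x hx).trans (by linarith)) hz
  refine h2.trans (le_of_eq ?_)
  have h3 : z.im ≠ 0 := h0.ne'
  field_simp

end US38
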