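import Pool.Agent.LibSP38.Gro1

/-!
# A uniform bound for the number of split points (MP_eeb1a4_ag)
-/

open Matrix Complex
open UpperHalfPlane hiding I

namespace US38

open SP38

variable {m : ℕ} {ι : Type} [Fintype ι]

/-- `X = Δ \ ℍ` is a curve: `Δ` acts freely and properly discontinuously, the horoballs
`σ i {Im > 1}` are disjoint cusp neighbourhoods of width `h i` (the generator of the stabilizer
of a cusp can have trace `2` or `-2`), the rest of `X` is compact, and `D` is a measurable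
fundamental domain. -/
structure IsCurve (Δ : Subgroup (Matrix.SpecialLinearGroup (Fin 2) ℝ))
    (σ : ι → Matrix.SpecialLinearGroup (Fin 2) ℝ) (h : ι → ℝ) (D : Set ℍ) : Prop where
  free : ∀ δ ∈ Δ, ∀ τ : ℍ, δ • τ = τ → δ = 1
  disc : ∀ K : Set ℍ, IsCompact K → {δ | δ ∈ Δ ∧ ∃ τ ∈ K, δ • τ ∈ K}.Finite
  width : ∀ i, 0 < h i ∧ (σ i * trans (h i) * (σ i)⁻¹ ∈ Δ ∨ -(σ i * trans (h i) * (σ i)⁻¹) ∈ Δ)
  cusp : ∀ i j (τ τ' : ℍ), 1 < τ.im → 1 < τ'.im → ∀ δ ∈ Δ, δ • (σ i • τ) = σ j • τ' →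
    i = j ∧ ∃ n : ℤ, (τ' : ℂ) = τ + n * h i
  cpt : ∃ K : Set ℍ, IsCompact K ∧ ∀ τ : ℍ, ∃ δ ∈ Δ, δ • τ ∈ K ∨
    ∃ i, 1 < ((σ i)⁻¹ • (δ • τ) : ℍ).im
  meas : MeasurableSet D
  fund : ∀ τ : ℍ, ∃! δ, δ ∈ Δ ∧ δ • τ ∈ D

/-- The extension descends to `Δ \ ℍ`: every `δ ∈ Δ` acts through a real automorphism `γ` of
`(ℝ^m, Q)` and a real vector `b` (integral ones for a variation with integral structure). -/
def DescendsR (p : Fin m → ℤ) (Q : Matrix (Fin m) (Fin m) ℝ)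
    (G : ℂ → Matrix (Fin m) (Fin m) ℂ) (ν : ℂ → Fin m → ℂ)
    (Δ : Subgroup (Matrix.SpecialLinearGroup (Fin 2) ℝ)) : Prop :=
  ∀ δ ∈ Δ, ∃ (γ : Matrix (Fin m) (Fin m) ℝ) (b : Fin m → ℝ), IsUnit γ ∧ γᵀ * Q * γ = Q ∧
    ∀ τ : ℍ,
      (∀ a, Fil p (G ((δ • τ : ℍ) : ℂ)) a = (Fil p (G (τ : ℂ)) a).map (Matrix.mulVecLin (cm γ))) ∧
      ν ((δ • τ : ℍ) : ℂ) - (cm γ *ᵥ ν (τ : ℂ) + ofR b) ∈ Fil p (G ((δ • τ : ℍ) : ℂ)) 0

/-! ### auxiliary definitions (not used in the statement) -/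

/-- the Moebius map -/
noncomputable def mob (g : Matrix.SpecialLinearGroup (Fin 2) ℝ) (z : ℂ) : ℂ :=
  ((g 0 0 : ℝ) * z + (g 0 1 : ℝ)) / ((g 1 0 : ℝ) * z + (g 1 1 : ℝ))

/-- pull back of the `(1,0)`-form `j dz` by `φ` -/
noncomputable def pb (φ j : ℂ → ℂ) (ζ : ℂ) : ℂ := j (φ ζ) * deriv φ ζ

/-- the `(1,0)`-form `∂ log (N + ε) / 2 + 2 T / (N + ε)` -/
noncomputable def jj (N T : ℂ → ℂ) (ε : ℝ) (z : ℂ) : ℂ := (dz N z / 2 + 2 * T z) / (N z + ε)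

/-- its divergence -/
noncomputable def rho (j : ℂ → ℂ) (z : ℂ) : ℝ := 2 * (dzb j z).re

/-- flux through the horocycle of height `y` -/
noncomputable def flux (J : ℂ → ℂ) (h y : ℝ) : ℝ := ∫ x in (0 : ℝ)..h, (I * J (x + y * I)).re

/-- a nonnegative invariant function `N` with an invariant `(1,0)`-form `T`, such that
`log N` is subharmonic up to `κ / y²` and an exact term -/
structure Pot (Δ : Subgroup (Matrix.SpecialLinearGroup (Fin 2) ℝ)) (κ : ℝ) (N T : ℂ → ℂ) :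
    Prop where
  kappa : 0 ≤ κ
  smN : SmS (Hc 0) N
  smT : SmS (Hc 0) T
  im : ∀ z ∈ Hc 0, (N z).im = 0
  nn : ∀ z ∈ Hc 0, 0 ≤ (N z).re
  bd : ∀ z ∈ Hc 0, ‖T z‖ ≤ √κ / z.im * (N z).re
  ineq : ∀ ε : ℝ, 0 < ε → ∀ z ∈ Hc 0, -(κ / z.im ^ 2) ≤ rho (jj N T ε) z
  invN : ∀ δ ∈ Δ, ∀ z ∈ Hc 0, N (mob δ z) = N z
  invT : ∀ δ ∈ Δ, ∀ z ∈ Hc 0, pb (mob δ) T z = T z

end US38
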