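import Pool.Agent.LibUS38.Defs

/-! Maximal sets of inequivalent points. -/

open Matrix Complex Filter Topology MeasureTheory
open UpperHalfPlane hiding I
open scoped ComplexOrder ContDiff

namespace US38

open SP38

variable {ι : Type} [Fintype ι] {m : ℕ} {w : ℤ} {p : Fin m → ℤ} {s : Equiv.Perm (Fin m)}
  {Q : Matrix (Fin m) (Fin m) ℝ} {G : ℂ → Matrix (Fin m) (Fin m) ℂ} {ν : ℂ → Fin m → ℂ}
  {Δ : Subgroup (Matrix.SpecialLinearGroup (Fin 2) ℝ)}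
  {σ : ι → Matrix.SpecialLinearGroup (Fin 2) ℝ} {h : ι → ℝ} {D : Set ℍ}

/-- a maximal set of inequivalent points with a given invariant property -/
theorem exists_max {S : ℍ → Prop} (hS : ∀ δ ∈ Δ, ∀ τ, S τ → S (δ • τ)) {B : ℝ}
    (hB : ∀ Z : Finset ℍ, (∀ z ∈ Z, S z) →
      (∀ z ∈ Z, ∀ z' ∈ Z, ∀ δ ∈ Δ, δ • z = z' → z = z') → (Z.card : ℝ) ≤ B) :
    ∃ Z : Finset ℍ, (Z.card : ℝ) ≤ B ∧ ∀ τ, S τ → ∃ δ ∈ Δ, δ • τ ∈ Z := by
  classical
  have _ := hS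
  let good : Finset ℍ → Prop := fun Z => (∀ z ∈ Z, S z) ∧
    (∀ z ∈ Z, ∀ z' ∈ Z, ∀ δ ∈ Δ, δ • z = z' → z = z')
  let C : Set ℕ := {n | ∃ Z : Finset ℍ, good Z ∧ Z.card = n}
  have hC0 : C.Nonempty := ⟨0, ∅, ⟨by simp, by simp⟩, rfl⟩
  have hCb : BddAbove C := by
    refine ⟨⌊B⌋₊, ?_⟩
    rintro n ⟨Z, hZ, rfl⟩
    exact Nat.le_floor (hB Z hZ.1 hZ.2)
  obtain ⟨Z, hZ, hZc⟩ := Nat.sSup_mem hC0 hCb
  refine ⟨Z, hB Z hZ.1 hZ.2, fun τ hτ => ?_⟩
  by_contra hcon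
  push Not at hcon
  have hτZ : τ ∉ Z := by
    have := hcon 1 Δ.one_mem
    rwa [one_smul] at this
  have hgood : good (insert τ Z) := by
    refine ⟨?_, ?_⟩
    · intro z hz
      rcases Finset.mem_insert.1 hz with rfl | hz
      · exact hτ
      · exact hZ.1 z hz
    · intro z hz z' hz' δ hδ he
      rcases Finset.mem_insert.1 hz with h1 | h1
      · rcases Finset.mem_insert.1 hz' with h2 | h2
        · rw [h1, h2]
        · rw [h1] at he
          exact absurd (he ▸ h2) (hcon δ hδ)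
      · rcases Finset.mem_insert.1 hz' with h2 | h2
        · exfalso
          apply hcon δ⁻¹ (Δ.inv_mem hδ)
          rw [← h2, ← he, inv_smul_smul]
          exact h1
        · exact hZ.2 z h1 z' h2 δ hδ he
  have h1 : (insert τ Z).card ≤ sSup C := le_csSup hCb ⟨_, hgood, rfl⟩
  rw [Finset.card_insert_of_notMem hτZ, ← hZc] at h1
  omega

end US38
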