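import Pool.Agent.LibUS38.Del

/-! Isolated zeros, small weights. -/

open Matrix Complex Filter Topology
open UpperHalfPlane hiding I
open scoped ComplexOrder ContDiff

namespace US38

open SP38

variable {ι : Type} [Fintype ι] {m : ℕ} {w : ℤ} {p : Fin m → ℤ} {s : Equiv.Perm (Fin m)}
  {Q : Matrix (Fin m) (Fin m) ℝ} {G : ℂ → Matrix (Fin m) (Fin m) ℂ} {ν : ℂ → Fin m → ℂ}
  {Δ : Subgroup (Matrix.SpecialLinearGroup (Fin 2) ℝ)}
  {σ : ι → Matrix.SpecialLinearGroup (Fin 2) ℝ}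

/-- the zeros are isolated -/
theorem isolated (hv : IsVar w p Q G ν) (hs : ∀ j, p (s j) = w - p j)
    (hns : ∀ j, p j < -1 ∨ w - p j < -1) (hflat : ¬ Flat p G ν) {z₀ : ℂ} (hz₀ : 0 < z₀.im) :
    ∀ᶠ z in 𝓝[≠] z₀, ¬ RSplit p G ν z := by
  by_contra hcon
  exact hflat (flat_of_interior hv hs hns hz₀ hcon)

/-- weights `≥ -2`: the extension is flat-split -/
theorem flat_of_weight (hv : IsVar w p Q G ν) (hs : ∀ j, p (s j) = w - p j)
    (hns : ∀ j, p j < -1 ∨ w - p j < -1) (hw : -2 ≤ w) : Flat p G ν := by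
  have hR : ∀ z : ℂ, Rm w (PP p s (G z)) = 0 := by
    intro z
    rw [Rm]
    refine Finset.sum_eq_zero fun b hb => PP_eq_zero (G z) fun j hj => ?_
    rw [Finset.mem_Ioo] at hb
    rcases hns j with h | h <;> omega
  have hsplit : ∀ z : ℂ, 0 < z.im → RSplit p G ν z := by
    intro z hz
    rw [RSplit, split_iff (hv.phs z hz) hs, hR, Matrix.zero_mulVec]
  have hI : 0 < (I : ℂ).im := by simp
  refine flat_of_interior hv hs hns (z₀ := I) hI ?_
  have hev : ∀ᶠ z in 𝓝[≠] (I : ℂ), RSplit p G ν z := by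
    apply eventually_nhdsWithin_of_eventually_nhds
    filter_upwards [glo1_isOpen_uhp.mem_nhds (show (I : ℂ) ∈ {z : ℂ | 0 < z.im} from hI)] with z hz
    exact hsplit z hz
  exact hev.frequently

end US38
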