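import Pool.Agent.LibUS38.NPT

/-! Second derivatives. -/

open Matrix Complex
open scoped ComplexOrder ContDiff

namespace US38

open SP38

variable {m : ℕ} {w : ℤ} {K : ℕ} {Q : Matrix (Fin m) (Fin m) ℝ} {Ω : Set ℂ}
  {P : ℂ → ℤ → Matrix (Fin m) (Fin m) ℂ} {θ : ℂ → Matrix (Fin m) (Fin m) ℂ}
  {v u : ℂ → Fin m → ℂ} {z : ℂ}

theorem npt2_P_del (h : Ext w K Q Ω P θ v u) (hz : z ∈ Ω) {a : ℤ} (ha : w < a ∧ a < 0) :
    P z a *ᵥ del w P v z = P z a *ᵥ v z := by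
  rw [del, Matrix.mulVec_mulVec, (Rm_P (h.pv.hd z hz) a).2, if_pos ha]

theorem npt2_P_del' (h : Ext w K Q Ω P θ v u) (hz : z ∈ Ω) {a : ℤ} (ha : ¬ (w < a ∧ a < 0)) :
    P z a *ᵥ del w P v z = 0 := by
  rw [del, Matrix.mulVec_mulVec, (Rm_P (h.pv.hd z hz) a).2, if_neg ha, Matrix.zero_mulVec]

/-- move a projector to the other side -/
theorem npt2_hm_P (h : Ext w K Q Ω P θ v u) (hz : z ∈ Ω) (a : ℤ) (x y : Fin m → ℂ) :
    hm (metr w K Q (P z)) (P z a *ᵥ x) y = hm (metr w K Q (P z)) x (P z a *ᵥ y) := by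
  rw [hm_adj (h.pv.hd z hz).posDef, (h.pv.hd z hz).adj_P]

theorem npt2_hm_R (h : Ext w K Q Ω P θ v u) (hz : z ∈ Ω) (x y : Fin m → ℂ) :
    hm (metr w K Q (P z)) (Rm w (P z) *ᵥ x) y = hm (metr w K Q (P z)) x (Rm w (P z) *ᵥ y) := by
  rw [hm_adj (h.pv.hd z hz).posDef, adj_Rm (h.pv.hd z hz)]

theorem npt2_hm_zero (M : Matrix (Fin m) (Fin m) ℂ) (x : Fin m → ℂ) : hm M x 0 = 0 := by
  simp [hm]

theorem npt2_zero_hm (M : Matrix (Fin m) (Fin m) ℂ) (x : Fin m → ℂ) : hm M 0 x = 0 := by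
  simp [hm]

/-- `P_{-1} θ δ = 0` -/
theorem npt2_key (h : Ext w K Q Ω P θ v u) (hz : z ∈ Ω) :
    P z (-1) *ᵥ (θ z *ᵥ del w P v z) = 0 := by
  have h1 := h.pv.deg z hz 0
  rw [zero_sub] at h1
  rw [Matrix.mulVec_mulVec, ← h1, ← Matrix.mulVec_mulVec, npt2_P_del' h hz (by omega),
    Matrix.mulVec_zero]

theorem npt2_R_sub (h : Ext w K Q Ω P θ v u) (hz : z ∈ Ω) (x : Fin m → ℂ) :
    Rm w (P z) *ᵥ (Rm w (P z) *ᵥ x) = Rm w (P z) *ᵥ x := by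
  rw [Matrix.mulVec_mulVec, Rm_Rm (h.pv.hd z hz)]

theorem npt2_qf_cj (h : Ext w K Q Ω P θ v u) (hz : z ∈ Ω) (x : Fin m → ℂ) :
    qf (metr w K Q (P z)) (cj x) = qf (metr w K Q (P z)) x := by
  have hd := h.pv.hd z hz
  have h1 := hm_cj hd x x
  rw [hm_self hd.posDef, hm_self hd.posDef, Complex.conj_ofReal] at h1
  exact_mod_cast h1

theorem npt2_cj_R (h : Ext w K Q Ω P θ v u) (hz : z ∈ Ω) (x : Fin m → ℂ) :
    cj (Rm w (P z) *ᵥ x) = Rm w (P z) *ᵥ cj x := by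
  rw [hd1_cj_mulVec, Rm_real (h.pv.hd z hz)]

theorem Ext.dzb_PE (h : Ext w K Q Ω P θ v u) (hΩ : IsOpen Ω) (hw : w ≤ -3) (hz : z ∈ Ω) :
    dzb (PE w K Q P θ v u) z = ((qf (metr w K Q (P z)) (eta P θ v u z) +
      qf (metr w K Q (P z)) (tb θ z *ᵥ (P z (-1) *ᵥ v z)) : ℝ) : ℂ) := by
  have hd := h.pv.hd z hz
  have h1 := dzb_hm hΩ h.pv (h.sm_eta hΩ) (h.sm_del hΩ) hz
  have h2 : dzb (PE w K Q P θ v u) z =
      dzb (fun z => hm (metr w K Q (P z)) (eta P θ v u z) (del w P v z)) z := rfl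
  have h3 : tb θ z *ᵥ (P z (-1) *ᵥ v z) = P z 0 *ᵥ (tb θ z *ᵥ v z) := by
    have h4 := h.pv.degB hz (-1)
    rw [neg_add_cancel] at h4
    rw [Matrix.mulVec_mulVec, Matrix.mulVec_mulVec]
    exact congrArg (fun M => M *ᵥ v z) h4
  have h5 : P z 0 *ᵥ (tb θ z *ᵥ del w P v z) = tb θ z *ᵥ (P z (-1) *ᵥ v z) := by
    rw [← npt2_P_del h hz (by omega : w < -1 ∧ (-1 : ℤ) < 0)]
    have h4 := h.pv.degB hz (-1)
    rw [neg_add_cancel] at h4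
    rw [Matrix.mulVec_mulVec, Matrix.mulVec_mulVec]
    exact (congrArg (fun M => M *ᵥ del w P v z) h4).symm
  have h6 : hm (metr w K Q (P z)) (θ z *ᵥ (tb θ z *ᵥ (P z (-1) *ᵥ v z))) (del w P v z) =
      ((qf (metr w K Q (P z)) (tb θ z *ᵥ (P z (-1) *ᵥ v z)) : ℝ) : ℂ) := by
    rw [hm_theta h.pv hz, ← hm_self hd.posDef]
    conv_lhs => rw [h3]
    rw [npt2_hm_P h hz, h5]
    conv_rhs => arg 2; rw [h3]
    rw [npt2_hm_P h hz]
    congr 1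
    rw [h3, Matrix.mulVec_mulVec (tb θ z *ᵥ v z) (P z 0) (P z 0), hd.mul, if_pos rfl]
  have h7 : hm (metr w K Q (P z)) (eta P θ v u z) (Rm w (P z) *ᵥ (θ z *ᵥ del w P v z)) = 0 := by
    rw [← npt_eta h hz, npt2_hm_P h hz, Matrix.mulVec_mulVec, (Rm_P hd (-1)).2,
      if_pos (by omega), npt2_key h hz, npt2_hm_zero]
  rw [h2, h1, h.D2_eta hΩ hw hz, h.D1_del hΩ hw hz, hm_sub_right, h6, h7, hm_self hd.posDef]
  push_cast
  ring

theorem Ext.dzb_TT (h : Ext w K Q Ω P θ v u) (hΩ : IsOpen Ω) (hw : w ≤ -3) (hz : z ∈ Ω) :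
    dzb (TT w K Q P θ v) z =
      ((-2 * qf (metr w K Q (P z)) (Rm w (P z) *ᵥ (θ z *ᵥ del w P v z)) : ℝ) : ℂ) := by
  have hd := h.pv.hd z hz
  have h1 := dzb_hm hΩ h.pv (SmV.mulVec h.pv.smθ (h.sm_del hΩ)) (h.sm_del hΩ) hz
  have h2 : dzb (TT w K Q P θ v) z =
      dzb (fun z => hm (metr w K Q (P z)) (θ z *ᵥ del w P v z) (del w P v z)) z := rfl
  -- the conjugate of `η`
  have h3 : hm (metr w K Q (P z)) (θ z *ᵥ cj (eta P θ v u z)) (del w P v z) = 0 := by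
    have h4 : cj (eta P θ v u z) = P z (w + 1) *ᵥ cj (eta P θ v u z) := by
      conv_lhs => rw [← npt_eta h hz, hd.hd1_cj]
      congr 2
    have h5 := h.pv.deg z hz (w + 1)
    rw [add_sub_cancel_right] at h5
    rw [h4, Matrix.mulVec_mulVec, h5, ← Matrix.mulVec_mulVec, npt2_hm_P h hz,
      npt2_P_del' h hz (by omega), npt2_hm_zero]
  have h6 : hm (metr w K Q (P z)) (θ z *ᵥ cj (Rm w (P z) *ᵥ (θ z *ᵥ del w P v z)))
      (del w P v z) =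
      ((qf (metr w K Q (P z)) (Rm w (P z) *ᵥ (θ z *ᵥ del w P v z)) : ℝ) : ℂ) := by
    have h7 : cj (Rm w (P z) *ᵥ (θ z *ᵥ del w P v z)) =
        Rm w (P z) *ᵥ (tb θ z *ᵥ del w P v z) := by
      rw [npt2_cj_R h hz, hd1_cj_mulVec, h.cj_del hz]
      rfl
    rw [hm_theta h.pv hz, ← npt2_qf_cj h hz, ← hm_self hd.posDef, h7]
    conv_lhs => arg 2; rw [← npt2_R_sub h hz]
    rw [npt2_hm_R h hz]
  have h8 : hm (metr w K Q (P z)) (θ z *ᵥ del w P v z) (eta P θ v u z) = 0 := by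
    rw [← npt_eta h hz, ← npt2_hm_P h hz, npt2_key h hz, npt2_zero_hm]
  have h9 : hm (metr w K Q (P z)) (θ z *ᵥ del w P v z)
      (Rm w (P z) *ᵥ (θ z *ᵥ del w P v z)) =
      ((qf (metr w K Q (P z)) (Rm w (P z) *ᵥ (θ z *ᵥ del w P v z)) : ℝ) : ℂ) := by
    rw [← hm_self hd.posDef]
    conv_lhs => arg 3; rw [← npt2_R_sub h hz]
    rw [← npt2_hm_R h hz]
  have h10 : ∀ x y : Fin m → ℂ, cj (x - y) = cj x - cj y := by
    intro x y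
    funext i
    simp [cj]
  rw [h2, h1, h.D2_theta_del hΩ hz, h.D2_del hΩ hz, h.D1_del hΩ hw hz, h10, Matrix.mulVec_sub,
    hm_sub_left, hm_sub_right, h3, h6, h8, h9]
  push_cast
  ring

end US38
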