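import Pool.Agent.LibUS38.Mob
import Pool.Agent.LibUS38.WirtC

/-! Pull backs and the form `jj`. -/

open Matrix Complex
open UpperHalfPlane hiding I
open scoped ContDiff

namespace US38

open SP38

variable {f g φ N T j : ℂ → ℂ} {z : ℂ} {Ω Ω' : Set ℂ} {ε : ℝ}

theorem wirtC2_deriv (hΩ' : IsOpen Ω') (hφ : DifferentiableOn ℂ φ Ω') :
    DifferentiableOn ℂ (deriv φ) Ω' := hφ.deriv hΩ'

/-- `dzb` of a pull back -/
theorem dzb_pb (hΩ : IsOpen Ω) (hΩ' : IsOpen Ω') (hj : SmS Ω j) (hφ : DifferentiableOn ℂ φ Ω')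
    (hm : ∀ z ∈ Ω', φ z ∈ Ω) (hz : z ∈ Ω') :
    dzb (pb φ j) z = dzb j (φ z) * ((‖deriv φ z‖ ^ 2 : ℝ) : ℂ) := by
  have h1 : DifferentiableAt ℂ (deriv φ) z :=
    (wirtC2_deriv hΩ' hφ).differentiableAt (hΩ'.mem_nhds hz)
  have h2 : DifferentiableAt ℂ φ z := hφ.differentiableAt (hΩ'.mem_nhds hz)
  have h3 : DifferentiableAt ℝ j (φ z) := SmS.differentiableAt hΩ hj (hm z hz)
  have h4 : DifferentiableAt ℝ (fun z => j (φ z)) z :=
    SmS.differentiableAt hΩ' (SmS.compS hΩ' hj hφ hm) hz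
  have h5 : pb φ j = fun z => (fun z => j (φ z)) z * deriv φ z := rfl
  rw [h5, dzb_mul h4 (h1.restrictScalars ℝ), dzb_of_holo h1, dzb_comp h3 h2, mul_zero, add_zero,
    mul_assoc, mul_comm ((starRingEnd ℂ) (deriv φ z)), mul_conj, normSq_eq_norm_sq]

theorem SmS_pb (hΩ : IsOpen Ω) (hΩ' : IsOpen Ω') (hj : SmS Ω j) (hφ : DifferentiableOn ℂ φ Ω')
    (hm : ∀ z ∈ Ω', φ z ∈ Ω) : SmS Ω' (pb φ j) := by
  have _ := hΩ
  exact SmS.mulS (SmS.compS hΩ' hj hφ hm) (SmS.of_holo hΩ' (wirtC2_deriv hΩ' hφ))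

theorem rho_pb (hΩ : IsOpen Ω) (hΩ' : IsOpen Ω') (hj : SmS Ω j) (hφ : DifferentiableOn ℂ φ Ω')
    (hm : ∀ z ∈ Ω', φ z ∈ Ω) (hz : z ∈ Ω') :
    rho (pb φ j) z = rho j (φ z) * ‖deriv φ z‖ ^ 2 := by
  rw [rho, rho, dzb_pb hΩ hΩ' hj hφ hm hz, re_mul_ofReal]
  ring

theorem wirtC2_ne (hε : 0 < ε) {w : ℂ} (h : 0 ≤ w.re) : w + ε ≠ 0 := by
  intro h0
  have h1 := congrArg Complex.re h0
  rw [add_re, ofReal_re, zero_re] at h1
  linarith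

theorem SmS_jj (hΩ : IsOpen Ω) (hN : SmS Ω N) (hT : SmS Ω T) (him : ∀ z ∈ Ω, (N z).im = 0)
    (hnn : ∀ z ∈ Ω, 0 ≤ (N z).re) (hε : 0 < ε) : SmS Ω (jj N T ε) := by
  have _ := him
  have h1 : SmS Ω (fun z => dz N z / 2 + 2 * T z) :=
    SmS.addS (SmS.divS (SmS.dz hΩ hN) (SmS_const 2) (fun _ _ => two_ne_zero))
      (SmS.mulS (SmS_const 2) hT)
  have h2 : SmS Ω (fun z => N z + (ε : ℂ)) := SmS.addS hN (SmS_const _)
  exact SmS.divS h1 h2 fun z hz => wirtC2_ne hε (hnn z hz)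

theorem jj_pb (hΩ : IsOpen Ω) (hN : SmS Ω N) (hφ : DifferentiableAt ℂ φ z) (hm : φ z ∈ Ω) :
    jj (fun z => N (φ z)) (pb φ T) ε z = pb φ (jj N T ε) z := by
  rw [jj, dz_comp (SmS.differentiableAt hΩ hN hm) hφ, pb, pb, jj]
  ring

theorem dzb_jj (hΩ : IsOpen Ω) (hN : SmS Ω N) (hT : SmS Ω T) (him : ∀ z ∈ Ω, (N z).im = 0)
    (hnn : ∀ z ∈ Ω, 0 ≤ (N z).re) (hε : 0 < ε) (hz : z ∈ Ω) :
    dzb (jj N T ε) z = (dzb (dz N) z / 2 + 2 * dzb T z) / (N z + ε) -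
      (dz N z / 2 + 2 * T z) * dzb N z / (N z + ε) ^ 2 := by
  have _ := him
  have h0 : DifferentiableAt ℝ (dz N) z := SmS.differentiableAt hΩ (SmS.dz hΩ hN) hz
  have h5 : (fun z => dz N z / 2) = fun z => (2 : ℂ)⁻¹ * dz N z := by
    funext x
    rw [div_eq_inv_mul]
  have h1 : DifferentiableAt ℝ (fun z => dz N z / 2) z := by
    rw [h5]
    exact h0.const_mul (2 : ℂ)⁻¹
  have hT' : DifferentiableAt ℝ T z := SmS.differentiableAt hΩ hT hz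
  have hN' : DifferentiableAt ℝ N z := SmS.differentiableAt hΩ hN hz
  have h2 : DifferentiableAt ℝ (fun z => 2 * T z) z := hT'.const_mul 2
  have h3 : DifferentiableAt ℝ (fun z => N z + (ε : ℂ)) z := hN'.add_const _
  have h4 : dzb (fun z => dz N z / 2) z = dzb (dz N) z / 2 := by
    rw [h5, WirtM_dzb_smul _ h0, div_eq_inv_mul]
  have h6 : dzb (fun z => N z + (ε : ℂ)) z = dzb N z := by
    rw [dzb_add hN' (differentiableAt_const _), dzb_const, add_zero]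
  have h7 : jj N T ε = fun z => (fun z => dz N z / 2 + 2 * T z) z / (fun z => N z + (ε : ℂ)) z := rfl
  have h8 : DifferentiableAt ℝ (fun z => dz N z / 2 + 2 * T z) z := h1.add h2
  rw [h7, dzb_div h8 h3 (wirtC2_ne hε (hnn z hz)), h6, dzb_add h1 h2, h4,
    WirtM_dzb_smul 2 hT']

end US38
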