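import Pool.Agent.LibUS38.Half
import Pool.Agent.LibUS38.NPT2
import Pool.Agent.LibUS38.WirtC2

/-! The differential inequality. -/

open Matrix Complex
open scoped ComplexOrder ContDiff

namespace US38

open SP38

variable {m : ℕ} {w : ℤ} {K : ℕ} {Q : Matrix (Fin m) (Fin m) ℝ} {Ω : Set ℂ}
  {P : ℂ → ℤ → Matrix (Fin m) (Fin m) ℂ} {θ : ℂ → Matrix (Fin m) (Fin m) ℂ}
  {v u : ℂ → Fin m → ℂ} {z : ℂ}

theorem Ext.sm_NN (h : Ext w K Q Ω P θ v u) (hΩ : IsOpen Ω) : SmS Ω (NN w K Q P v) :=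
  SmS_hm hΩ h.pv (h.sm_del hΩ) (h.sm_del hΩ)

theorem Ext.sm_TT (h : Ext w K Q Ω P θ v u) (hΩ : IsOpen Ω) : SmS Ω (TT w K Q P θ v) :=
  SmS_hm hΩ h.pv (SmV.mulVec h.pv.smθ (h.sm_del hΩ)) (h.sm_del hΩ)

theorem ineq_sm_PE (h : Ext w K Q Ω P θ v u) (hΩ : IsOpen Ω) : SmS Ω (PE w K Q P θ v u) :=
  SmS_hm hΩ h.pv (h.sm_eta hΩ) (h.sm_del hΩ)

theorem Ext.NN_eq (h : Ext w K Q Ω P θ v u) (hz : z ∈ Ω) :
    NN w K Q P v z = ((qf (metr w K Q (P z)) (del w P v z) : ℝ) : ℂ) ∧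
    0 ≤ (NN w K Q P v z).re := by
  have h1 : NN w K Q P v z = ((qf (metr w K Q (P z)) (del w P v z) : ℝ) : ℂ) :=
    hm_self (h.pv.hd z hz).posDef _
  refine ⟨h1, ?_⟩
  rw [h1, Complex.ofReal_re]
  exact qf_nonneg (h.pv.hd z hz).posDef _

theorem Ext.TT_le (h : Ext w K Q Ω P θ v u) (hz : z ∈ Ω) :
    ‖TT w K Q P θ v z‖ ≤ √(hs (metr w K Q (P z)) (θ z)) * (NN w K Q P v z).re := by
  have hd := h.pv.hd z hz
  rw [(h.NN_eq hz).1, Complex.ofReal_re]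
  have h1 := norm_hm_le hd.posDef (θ z *ᵥ del w P v z) (del w P v z)
  have h2 := qf_mulVec_le hd.posDef (θ z) (del w P v z)
  have h3 := qf_nonneg hd.posDef (del w P v z)
  have h4 := hs_nonneg hd.posDef (θ z)
  refine abs_le_of_sq_le_sq' ?_ (by positivity) |>.2
  rw [mul_pow, Real.sq_sqrt h4]
  calc ‖TT w K Q P θ v z‖ ^ 2
      ≤ qf (metr w K Q (P z)) (θ z *ᵥ del w P v z) * qf (metr w K Q (P z)) (del w P v z) := h1
    _ ≤ (hs (metr w K Q (P z)) (θ z) * qf (metr w K Q (P z)) (del w P v z)) *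
        qf (metr w K Q (P z)) (del w P v z) := mul_le_mul_of_nonneg_right h2 h3
    _ = hs (metr w K Q (P z)) (θ z) * qf (metr w K Q (P z)) (del w P v z) ^ 2 := by ring

theorem ineq_qf_R (h : Ext w K Q Ω P θ v u) (hz : z ∈ Ω) (x : Fin m → ℂ) :
    qf (metr w K Q (P z)) (Rm w (P z) *ᵥ x) ≤ qf (metr w K Q (P z)) x := by
  have hd := h.pv.hd z hz
  have h1 : hm (metr w K Q (P z)) x (Rm w (P z) *ᵥ x) =
      ((qf (metr w K Q (P z)) (Rm w (P z) *ᵥ x) : ℝ) : ℂ) := by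
    rw [← hm_self hd.posDef]
    conv_lhs => arg 3; rw [← npt2_R_sub h hz]
    rw [← npt2_hm_R h hz]
  have h2 := norm_hm_le hd.posDef x (Rm w (P z) *ᵥ x)
  have h3 := qf_nonneg hd.posDef (Rm w (P z) *ᵥ x)
  have h4 := qf_nonneg hd.posDef x
  rw [h1, Complex.norm_real, Real.norm_eq_abs, abs_of_nonneg h3] at h2
  by_contra h5
  push Not at h5
  nlinarith

/-- real numbers: the final inequality -/
theorem ineq_real {a b q r t N ε H : ℝ} (hε : 0 < ε) (hN : 0 ≤ N) (hb : 0 ≤ b)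
    (hq : 0 ≤ q) (hH : 0 ≤ H) (h1 : 2 * a ≤ q * N) (h2 : r ≤ H / 2 * N) (ht : 0 ≤ t) :
    -(2 * H) ≤ 2 * ((q + b + -2 * r) / (N + ε) - 2 * (a - t) / (N + ε) ^ 2) := by
  have hNe : 0 < N + ε := by linarith
  have e1 : (q + b + -2 * r) / (N + ε) - 2 * (a - t) / (N + ε) ^ 2 =
      ((q + b + -2 * r) * (N + ε) - 2 * (a - t)) / (N + ε) ^ 2 := by
    field_simp
  rw [e1, mul_div_assoc', le_div_iff₀ (by positivity)]
  have e2 : -(2 * H) * (N + ε) ^ 2 ≤ -4 * r * (N + ε) := by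
    nlinarith [mul_nonneg hH hε.le, mul_nonneg hH hN, mul_nonneg (mul_nonneg hH hε.le) hNe.le]
  nlinarith [mul_nonneg hb hNe.le, mul_nonneg hq hε.le]

theorem Ext.rho_ge (h : Ext w K Q Ω P θ v u) (hΩ : IsOpen Ω) (hw : w ≤ -3) {ε : ℝ} (hε : 0 < ε)
    (hz : z ∈ Ω) :
    -(2 * hs (metr w K Q (P z)) (θ z)) ≤ rho (jj (NN w K Q P v) (TT w K Q P θ v) ε) z := by
  have hd := h.pv.hd z hz
  have hN := h.sm_NN hΩ
  have hT := h.sm_TT hΩ
  have hP := ineq_sm_PE h hΩ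
  have him : ∀ z ∈ Ω, (NN w K Q P v z).im = 0 := by
    intro z hz
    rw [(h.NN_eq hz).1, Complex.ofReal_im]
  -- derivatives of `N`
  have h1 : dzb (dz (NN w K Q P v)) z =
      2 * (dzb (PE w K Q P θ v u) z - dzb (TT w K Q P θ v) z) := by
    have h2 : dz (NN w K Q P v) =ᶠ[nhds z]
        fun z => 2 * (PE w K Q P θ v u z - TT w K Q P θ v z) := by
      filter_upwards [hΩ.mem_nhds hz] with x hx
      exact h.dz_NN hΩ hw hx
    have h2' : DifferentiableAt ℝ (fun z => PE w K Q P θ v u z - TT w K Q P θ v z) z :=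
      (hP.differentiableAt hΩ hz).sub (hT.differentiableAt hΩ hz)
    rw [dzb_congr h2, WirtM_dzb_smul (2 : ℂ) h2',
      WirtM_dzb_sub (hP.differentiableAt hΩ hz) (hT.differentiableAt hΩ hz)]
  have h3 : dzb (NN w K Q P v) z =
      2 * ((starRingEnd ℂ) (PE w K Q P θ v u z) - (starRingEnd ℂ) (TT w K Q P θ v z)) := by
    have h4 : NN w K Q P v =ᶠ[nhds z] fun z => (starRingEnd ℂ) (NN w K Q P v z) := by
      filter_upwards [hΩ.mem_nhds hz] with x hx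
      rw [(h.NN_eq hx).1, Complex.conj_ofReal]
    rw [dzb_congr h4, dzb_conj (hN.differentiableAt hΩ hz), h.dz_NN hΩ hw hz, map_mul, map_sub,
      Complex.conj_ofNat]
  have h5 := dzb_jj hΩ hN hT him (fun z hz => (h.NN_eq hz).2) hε hz
  set a := PE w K Q P θ v u z with ha
  set t := TT w K Q P θ v z with ht
  set qη := qf (metr w K Q (P z)) (eta P θ v u z) with hqη
  set qb := qf (metr w K Q (P z)) (tb θ z *ᵥ (P z (-1) *ᵥ v z)) with hqb
  set r := qf (metr w K Q (P z)) (Rm w (P z) *ᵥ (θ z *ᵥ del w P v z)) with hr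
  set N := qf (metr w K Q (P z)) (del w P v z) with hNN
  have hNeq : NN w K Q P v z = (N : ℂ) := (h.NN_eq hz).1
  have hN0 : 0 ≤ N := qf_nonneg hd.posDef _
  rw [h1, h3, h.dz_NN hΩ hw hz, h.dzb_PE hΩ hw hz, h.dzb_TT hΩ hw hz, hNeq] at h5
  have h6 : dzb (jj (NN w K Q P v) (TT w K Q P θ v) ε) z =
      (((qη + qb + -2 * r) / (N + ε) : ℝ) : ℂ) -
        ((a + t) * (2 * ((starRingEnd ℂ) a - (starRingEnd ℂ) t))) * ((1 / (N + ε) ^ 2 : ℝ) : ℂ) := by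
    rw [h5]
    push_cast
    ring
  have h7 : ((a + t) * (2 * ((starRingEnd ℂ) a - (starRingEnd ℂ) t))).re =
      2 * (‖a‖ ^ 2 - ‖t‖ ^ 2) := by
    rw [← Complex.normSq_eq_norm_sq, ← Complex.normSq_eq_norm_sq, Complex.normSq_apply,
      Complex.normSq_apply]
    simp
    ring
  have h8 : rho (jj (NN w K Q P v) (TT w K Q P θ v) ε) z =
      2 * ((qη + qb + -2 * r) / (N + ε) - 2 * (‖a‖ ^ 2 - ‖t‖ ^ 2) / (N + ε) ^ 2) := by
    rw [rho, h6, Complex.sub_re, Complex.ofReal_re, Complex.re_mul_ofReal, h7]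
    ring
  rw [h8]
  have h9 : 2 * ‖a‖ ^ 2 ≤ qη * N := by
    have := h.norm_PE_le hw hz
    rw [hNeq, Complex.ofReal_re] at this
    exact this
  have h10 : r ≤ hs (metr w K Q (P z)) (θ z) / 2 * N :=
    (ineq_qf_R h hz _).trans (qf_theta_real_le h.pv hz (h.cj_del hz))
  exact ineq_real hε hN0 (qf_nonneg hd.posDef _) (qf_nonneg hd.posDef _)
    (hs_nonneg hd.posDef _) h9 h10 (by positivity)

end US38
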