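import Pool.Agent.LibUS38.Grow2
import Pool.Agent.LibUS38.Ineq
import Pool.Agent.LibUS38.Lev
import Pool.Agent.LibUS38.Lev2

/-! The potential of a variation. -/

open Matrix Complex Filter Topology
open UpperHalfPlane hiding I
open scoped ComplexOrder ContDiff

namespace US38

open SP38

variable {ι : Type} [Fintype ι] {m : ℕ} {w : ℤ} {p : Fin m → ℤ} {s : Equiv.Perm (Fin m)}
  {Q : Matrix (Fin m) (Fin m) ℝ} {G : ℂ → Matrix (Fin m) (Fin m) ℂ} {ν : ℂ → Fin m → ℂ}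
  {Δ : Subgroup (Matrix.SpecialLinearGroup (Fin 2) ℝ)}
  {σ : ι → Matrix.SpecialLinearGroup (Fin 2) ℝ}

theorem exists_pot (hv : IsVar w p Q G ν) (hd : DescendsR p Q G ν Δ)
    (hs : ∀ j, p (s j) = w - p j) (hw : w ≤ -3) (ha : ∀ i, AdmissibleAt p Q G ν Δ (σ i)) :
    ∃ N T : ℂ → ℂ, Pot Δ (∑ j, ((p j : ℝ) - w / 2) ^ 2) N T ∧
      (∀ z ∈ Hc 0, N z = 0 ↔ RSplit p G ν z) ∧
      ∀ i, ∃ (C : ℕ) (Y₀ : ℝ), ∀ ζ : ℂ, 0 < ζ.im → Y₀ ≤ ζ.im →
        (N (mob (σ i) ζ)).re ≤ ζ.im ^ C := by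
  obtain ⟨K, hK⟩ := glo1_exists_bound p
  obtain ⟨θ, u, hE⟩ := exists_Ext (K := K) hv hs hK
  have hopen : IsOpen (Hc 0) := isOpen_lt continuous_const Complex.continuous_im
  set B : ℝ := ∑ j, ((p j : ℝ) - w / 2) ^ 2 with hB
  have hB0 : 0 ≤ B := Finset.sum_nonneg fun j _ => sq_nonneg _
  have hY : ∀ z ∈ Hc 0, SP38.hs (metr w K Q (PP p s (G z)))
      (YY K (PP p s (G z)) - ((w : ℂ) / 2) • (1 : Matrix (Fin m) (Fin m) ℂ)) ≤ B :=
    fun z hz => hs_YY_PP (hv.phs z hz) hs hK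
  have hθ : ∀ z ∈ Hc 0, SP38.hs (metr w K Q (PP p s (G z))) (θ z) ≤ B / (2 * z.im ^ 2) :=
    fun z hz => hs_theta_B hE.pv hB0 hY hz
  refine ⟨NN w K Q (fun z => PP p s (G z)) (fun z => imv (ν z)),
    TT w K Q (fun z => PP p s (G z)) θ (fun z => imv (ν z)), ?_, ?_, ?_⟩
  · refine ⟨hB0, hE.sm_NN hopen, hE.sm_TT hopen, ?_, ?_, ?_, ?_, ?_, ?_⟩
    · intro z hz
      rw [(hE.NN_eq hz).1]
      exact Complex.ofReal_im _
    · intro z hz
      exact (hE.NN_eq hz).2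
    · intro z hz
      have hz' : 0 < z.im := hz
      refine (hE.TT_le hz).trans (mul_le_mul_of_nonneg_right ?_ (hE.NN_eq hz).2)
      have h1 : SP38.hs (metr w K Q (PP p s (G z))) (θ z) ≤ B / z.im ^ 2 := by
        refine (hθ z hz).trans ?_
        apply div_le_div_of_nonneg_left hB0 (by positivity)
        nlinarith [sq_nonneg z.im]
      calc √(SP38.hs (metr w K Q (PP p s (G z))) (θ z)) ≤ √(B / z.im ^ 2) :=
            Real.sqrt_le_sqrt h1
        _ = √B / z.im := by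
            rw [Real.sqrt_div hB0, Real.sqrt_sq hz'.le]
    · intro ε hε z hz
      have hz' : 0 < z.im := hz
      have h1 := hE.rho_ge hopen hw hε hz
      have h2 := hθ z hz
      refine le_trans ?_ h1
      have h3 : B / z.im ^ 2 = 2 * (B / (2 * z.im ^ 2)) := by
        field_simp
      rw [h3]
      linarith
    · intro δ hδ z hz
      exact NN_mob hv hs hK hd hδ hz
    · intro δ hδ z hz
      exact TT_mob hv hs hK hE.pv hd hδ hz
  · intro z hz
    have hpd := (hE.pv.hd z hz).posDef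
    rw [(hE.NN_eq hz).1, Complex.ofReal_eq_zero]
    unfold RSplit
    rw [split_iff (hv.phs z hz) hs (ν z)]
    constructor
    · intro h0
      by_contra hne
      exact (qf_pos hpd hne).ne' h0
    · intro h0
      have h1 : del w (fun z => PP p s (G z)) (fun z => imv (ν z)) z = 0 := h0
      rw [h1]
      simp [qf]
  · intro i
    exact NN_growth hv hs hK hd (ha i)

end US38
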