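import Pool.Agent.LibUS38.Cnt
import Pool.Agent.LibUS38.Fin0
import Pool.Agent.LibUS38.Iso
import Pool.Agent.LibUS38.PotV

/-! The uniform bound. -/

open Matrix Complex Filter Topology MeasureTheory
open UpperHalfPlane hiding I
open scoped ComplexOrder ContDiff

namespace US38

open SP38

variable {ι : Type} [Fintype ι] {m : ℕ} {w : ℤ} {p : Fin m → ℤ} {s : Equiv.Perm (Fin m)}
  {Q : Matrix (Fin m) (Fin m) ℝ} {G : ℂ → Matrix (Fin m) (Fin m) ℂ} {ν : ℂ → Fin m → ℂ}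
  {Δ : Subgroup (Matrix.SpecialLinearGroup (Fin 2) ℝ)}
  {σ : ι → Matrix.SpecialLinearGroup (Fin 2) ℝ} {h : ι → ℝ} {D : Set ℍ}

/-- inequivalent real split points -/
theorem card_le (hc : IsCurve Δ σ h D) (hv : IsVar w p Q G ν) (hd : DescendsR p Q G ν Δ)
    (hs : ∀ j, p (s j) = w - p j) (hns : ∀ j, p j < -1 ∨ w - p j < -1)
    (ha : ∀ i, AdmissibleAt p Q G ν Δ (σ i)) (hflat : ¬ Flat p G ν) (Z : Finset ℍ)
    (hZ0 : ∀ z ∈ Z, RSplit p G ν (z : ℂ))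
    (hZ : ∀ z ∈ Z, ∀ z' ∈ Z, ∀ δ ∈ Δ, δ • z = z' → z = z') :
    (Z.card : ℝ) * Real.pi ≤ (∑ j, ((p j : ℝ) - w / 2) ^ 2) * (volume D).toReal := by
  have hw : w ≤ -3 := by
    by_contra hcon
    exact hflat (flat_of_weight hv hs hns (by omega))
  obtain ⟨N, T, hP, hNz, hgr⟩ := exists_pot hv hd hs hw ha
  refine zeros_le hc hP hgr ?_ Z ?_ hZ
  · intro z₀ hz₀
    have h1 := isolated hv hs hns hflat hz₀
    have h2 : ∀ᶠ z in 𝓝[≠] z₀, z ∈ Hc 0 :=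
      mem_nhdsWithin_of_mem_nhds ((isOpen_lt continuous_const Complex.continuous_im).mem_nhds hz₀)
    filter_upwards [h1, h2] with z h3 h4 h5
    exact h3 ((hNz z h4).1 h5)
  · intro z hz
    exact (hNz z z.im_pos).2 (hZ0 z hz)

theorem fin_RSplit_smul (hd : DescendsR p Q G ν Δ) {δ : Matrix.SpecialLinearGroup (Fin 2) ℝ}
    (hδ : δ ∈ Δ) (τ : ℍ) (h : RSplit p G ν (τ : ℂ)) : RSplit p G ν ((δ • τ : ℍ) : ℂ) := by
  obtain ⟨γ, b, _, _, hτ⟩ := hd δ hδ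
  obtain ⟨h1, h2⟩ := hτ τ
  obtain ⟨e, he⟩ := h
  refine ⟨γ *ᵥ e + b, ?_⟩
  have h3 : cm γ *ᵥ (ν (τ : ℂ) - ofR e) ∈ Fil p (G ((δ • τ : ℍ) : ℂ)) 0 := by
    rw [h1 0]
    exact Submodule.mem_map_of_mem he
  have h4 := Submodule.add_mem _ h2 h3
  have h5 : ofR (γ *ᵥ e + b) = cm γ *ᵥ ofR e + ofR b := by
    funext i
    simp [ofR, cm, Matrix.mulVec, dotProduct]
  rw [h5]
  have h6 : ν ((δ • τ : ℍ) : ℂ) - (cm γ *ᵥ ofR e + ofR b) =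
      ν ((δ • τ : ℍ) : ℂ) - (cm γ *ᵥ ν (τ : ℂ) + ofR b) + cm γ *ᵥ (ν (τ : ℂ) - ofR e) := by
    rw [Matrix.mulVec_sub]
    abel
  rw [h6]
  exact h4

theorem main (hc : IsCurve Δ σ h D) (hv : IsVar w p Q G ν) (hd : DescendsR p Q G ν Δ)
    (hs : ∀ j, p (s j) = w - p j) (hns : ∀ j, p j < -1 ∨ w - p j < -1)
    (ha : ∀ i, AdmissibleAt p Q G ν Δ (σ i)) (K : Subfield ℝ) :
    (∃ e : Fin m → ℝ, (∀ i, e i ∈ K) ∧ ∀ τ : ℍ, ν (τ : ℂ) - ofR e ∈ Fil p (G (τ : ℂ)) 0) ∨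
    ∃ Z : Finset ℍ, (Z.card : ℝ) * Real.pi ≤ (∑ j, ((p j : ℝ) - w / 2) ^ 2) * (volume D).toReal ∧
      ∀ τ : ℍ, SplitAt K p G ν (τ : ℂ) → ∃ δ ∈ Δ, δ • τ ∈ Z := by
  by_cases hflat : Flat p G ν
  · obtain ⟨e, he⟩ := hflat
    by_cases hex : ∃ τ : ℍ, SplitAt K p G ν (τ : ℂ)
    · obtain ⟨τ, e', he'K, he'⟩ := hex
      left
      refine ⟨e, ?_, fun τ => he _ τ.im_pos⟩
      have h1 := Submodule.sub_mem _ he' (he (τ : ℂ) τ.im_pos)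
      have h2 : ν (τ : ℂ) - ofR e' - (ν (τ : ℂ) - ofR e) = ofR (e - e') := by
        funext i
        simp [ofR]
      rw [h2] at h1
      have h3 := real_mem_Fil (hv.phs (τ : ℂ) τ.im_pos) hs hns h1
      have h4 : e = e' := sub_eq_zero.mp h3
      rw [h4]
      exact he'K
    · right
      refine ⟨∅, ?_, fun τ hτ => absurd ⟨τ, hτ⟩ hex⟩
      simp only [Finset.card_empty, Nat.cast_zero, zero_mul]
      exact mul_nonneg (Finset.sum_nonneg fun j _ => sq_nonneg _) ENNReal.toReal_nonneg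
  · right
    obtain ⟨Z, hZ1, hZ2⟩ := exists_max (Δ := Δ) (S := fun τ : ℍ => RSplit p G ν (τ : ℂ))
      (B := (∑ j, ((p j : ℝ) - w / 2) ^ 2) * (volume D).toReal / Real.pi)
      (fun δ hδ τ hτ => fin_RSplit_smul hd hδ τ hτ)
      (fun Z h1 h2 => by
        rw [le_div_iff₀ Real.pi_pos]
        exact card_le hc hv hd hs hns ha hflat Z h1 h2)
    refine ⟨Z, ?_, fun τ hτ => hZ2 τ ?_⟩
    · rwa [le_div_iff₀ Real.pi_pos] at hZ1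
    · obtain ⟨e, _, he⟩ := hτ
      exact ⟨e, he⟩

end US38
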