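import Pool.Agent.LibUS38.Flu2

/-! The mean of `log (N + ε)` on horocycles. -/

open Matrix Complex
open UpperHalfPlane hiding I
open scoped ContDiff

namespace US38

open SP38

variable {N T J : ℂ → ℂ} {Y₀ h ε : ℝ}

/-- differentiation under the integral over a horocycle -/
theorem cylm_deriv {φ : ℂ → ℝ} {y : ℝ} (hφ : ContDiffOn ℝ 1 φ (Hc Y₀)) (hy : Y₀ < y) (h : ℝ) :
    HasDerivAt (fun y : ℝ => ∫ x in (0 : ℝ)..h, φ (x + y * I))
      (∫ x in (0 : ℝ)..h, fderiv ℝ φ (x + y * I) I) y := by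
  have hΩ := isOpen_Hc Y₀
  have hmem : ∀ x y' : ℝ, Y₀ < y' → ((x : ℂ) + y' * I) ∈ Hc Y₀ := by
    intro x y' hy'
    show Y₀ < ((x : ℂ) + y' * I).im
    simpa using hy'
  have hc1 : ContinuousOn (fun z => fderiv ℝ φ z I) (Hc Y₀) :=
    (hφ.continuousOn_fderiv_of_isOpen hΩ le_rfl).clm_apply continuousOn_const
  set δ := (y - Y₀) / 2 with hδ
  have hδ0 : 0 < δ := by rw [hδ]; linarith
  set K : Set ℂ := (fun p : ℝ × ℝ => (p.1 + p.2 * I : ℂ)) '' (Set.uIcc 0 h ×ˢ Set.Icc (y - δ) (y + δ)) with hK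
  have hKc : IsCompact K := (isCompact_uIcc.prod isCompact_Icc).image (by fun_prop)
  have hKs : K ⊆ Hc Y₀ := by
    rintro _ ⟨p, hp, rfl⟩
    apply hmem
    have := hp.2.1
    rw [hδ] at this
    linarith
  obtain ⟨C, hC⟩ := hKc.exists_bound_of_continuousOn (hc1.mono hKs)
  have hcont : ∀ y' : ℝ, Y₀ < y' → Continuous fun x : ℝ => φ (x + y' * I) := fun y' hy' =>
    hφ.continuousOn.comp_continuous (by fun_prop) fun x => hmem x y' hy'
  have hcont1 : ∀ y' : ℝ, Y₀ < y' → Continuous fun x : ℝ => fderiv ℝ φ (x + y' * I) I := fun y' hy' =>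
    hc1.comp_continuous (by fun_prop) fun x => hmem x y' hy'
  have hball : ∀ y' ∈ Metric.ball y δ, Y₀ < y' := by
    intro y' hy'
    rw [Metric.mem_ball, Real.dist_eq, abs_lt] at hy'
    rw [hδ] at hy'
    linarith [hy'.1]
  refine (intervalIntegral.hasDerivAt_integral_of_dominated_loc_of_deriv_le
    (s := Metric.ball y δ) (bound := fun _ => C)
    (F := fun (y : ℝ) (x : ℝ) => φ (x + y * I)) (F' := fun (y : ℝ) (x : ℝ) => fderiv ℝ φ (x + y * I) I)
    (Metric.ball_mem_nhds y hδ0) ?_ ?_ ?_ ?_ ?_ ?_).2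
  · filter_upwards [Metric.ball_mem_nhds y hδ0] with y' hy'
    exact (hcont y' (hball y' hy')).aestronglyMeasurable
  · exact (hcont y hy).intervalIntegrable _ _
  · exact (hcont1 y hy).aestronglyMeasurable
  · refine Filter.Eventually.of_forall fun x hx y' hy' => hC _ ⟨(x, y'), ⟨?_, ?_⟩, rfl⟩
    · exact Set.uIoc_subset_uIcc hx
    · rw [Metric.mem_ball, Real.dist_eq, abs_lt] at hy'
      constructor <;> simp only <;> linarith [hy'.1, hy'.2]
  · exact intervalIntegrable_const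
  · refine Filter.Eventually.of_forall fun x _ y' hy' => ?_
    have h1 : DifferentiableAt ℝ φ (x + y' * I) :=
      (hφ.contDiffAt (hΩ.mem_nhds (hmem x y' (hball y' hy')))).differentiableAt (by simp)
    have h2 : HasDerivAt (fun y : ℝ => ((x : ℂ) + y * I)) I y' := by
      have := ((hasDerivAt_id y').ofReal_comp.mul_const I).const_add (x : ℂ)
      simpa using this
    exact h1.hasFDerivAt.comp_hasDerivAt y' h2

/-- the derivative of `log (N + ε)` in the vertical direction -/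
theorem cylm_point (hε : 0 < ε) (hN : SmS (Hc Y₀) N)
    (him : ∀ ζ ∈ Hc Y₀, (N ζ).im = 0) (hnn : ∀ ζ ∈ Hc Y₀, 0 ≤ (N ζ).re) {ζ : ℂ} (hζ : ζ ∈ Hc Y₀) :
    fderiv ℝ (fun ζ => Real.log ((N ζ).re + ε)) ζ I =
      4 * (I * jj N T ε ζ).re - 8 * (I * (T ζ / (N ζ + ε))).re := by
  have hΩ := isOpen_Hc Y₀
  have hd : DifferentiableAt ℝ N ζ := SmS.differentiableAt hΩ hN hζ
  have hpos : 0 < (N ζ).re + ε := by linarith [hnn ζ hζ]
  have h1 : HasFDerivAt (fun ζ => (N ζ).re + ε) (Complex.reCLM.comp (fderiv ℝ N ζ)) ζ :=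
    (Complex.reCLM.hasFDerivAt.comp ζ hd.hasFDerivAt).add_const ε
  have h2 := h1.log hpos.ne'
  rw [h2.fderiv]
  have h3 : ∀ w, (fderiv ℝ N ζ w).im = 0 := by
    intro w
    have h4 : HasFDerivAt (fun ζ => (N ζ).im) (Complex.imCLM.comp (fderiv ℝ N ζ)) ζ :=
      Complex.imCLM.hasFDerivAt.comp ζ hd.hasFDerivAt
    have h5 : (fun ζ => (N ζ).im) =ᶠ[nhds ζ] fun _ => 0 := by
      filter_upwards [hΩ.mem_nhds hζ] with z hz
      exact him z hz
    have h6 := (h4.congr_of_eventuallyEq h5.symm).unique (hasFDerivAt_const (0 : ℝ) ζ)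
    have := congrArg (fun L => L w) h6
    simpa using this
  have h7 : (N ζ + ε : ℂ) = (((N ζ).re + ε : ℝ) : ℂ) := by
    apply Complex.ext
    · simp
    · simp [him ζ hζ]
  have h8 : I * jj N T ε ζ = ((I * SP38.dz N ζ) / 2) / (((N ζ).re + ε : ℝ) : ℂ) +
      2 * (I * (T ζ / (N ζ + ε))) := by
    rw [jj, h7]
    have : ((((N ζ).re + ε : ℝ) : ℂ)) ≠ 0 := by exact_mod_cast hpos.ne'
    field_simp
  have h9 : (I * SP38.dz N ζ).re = (fderiv ℝ N ζ I).re / 2 := by
    rw [SP38.dz]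
    have e : I * ((fderiv ℝ N ζ 1 - I * fderiv ℝ N ζ I) / 2) =
        (I * fderiv ℝ N ζ 1 + fderiv ℝ N ζ I) / 2 := by
      linear_combination (-(fderiv ℝ N ζ I) / 2) * I_sq
    rw [e]
    simp only [Complex.div_re, Complex.add_re, Complex.add_im, Complex.mul_re, Complex.I_re, Complex.I_im,
      Complex.re_ofNat, Complex.im_ofNat, h3]
    norm_num [Complex.normSq]
    ring
  have h10 : (((I * SP38.dz N ζ) / 2) / (((N ζ).re + ε : ℝ) : ℂ)).re =
      (fderiv ℝ N ζ I).re / 4 / ((N ζ).re + ε) := by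
    rw [Complex.div_ofReal_re]
    have : ((I * SP38.dz N ζ) / 2).re = (I * SP38.dz N ζ).re / 2 := by
      have := Complex.div_ofReal_re (I * SP38.dz N ζ) 2
      simpa using this
    rw [this, h9]
    ring
  have h11 : (2 * (I * (T ζ / (N ζ + ε)))).re = 2 * (I * (T ζ / (N ζ + ε))).re := by
    rw [Complex.mul_re]; simp
  rw [h8, Complex.add_re, h10, h11]
  simp only [_root_.smul_apply, ContinuousLinearMap.comp_apply, smul_eq_mul, Complex.reCLM_apply]
  field_simp
  ring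

/-- relation between the mean of `log (N + ε)` and the flux -/
theorem hasDerivAt_mean (hh : 0 < h) (hε : 0 < ε) (hN : SmS (Hc Y₀) N) (hT : SmS (Hc Y₀) T)
    (him : ∀ ζ ∈ Hc Y₀, (N ζ).im = 0) (hnn : ∀ ζ ∈ Hc Y₀, 0 ≤ (N ζ).re) {y : ℝ} (hy : Y₀ < y) :
    HasDerivAt (fun y : ℝ => ∫ x in (0 : ℝ)..h, Real.log ((N (x + y * I)).re + ε))
      (4 * flux (jj N T ε) h y -
        8 * ∫ x in (0 : ℝ)..h, (I * (T (x + y * I) / (N (x + y * I) + ε))).re) y := by
  have hΩ := isOpen_Hc Y₀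
  have hmem : ∀ x y' : ℝ, Y₀ < y' → ((x : ℂ) + y' * I) ∈ Hc Y₀ := by
    intro x y' hy'
    show Y₀ < ((x : ℂ) + y' * I).im
    simpa using hy'
  have hne : ∀ z ∈ Hc Y₀, (N z + ε : ℂ) ≠ 0 := by
    intro z hz h0
    have := congrArg Complex.re h0
    simp at this
    linarith [hnn z hz]
  have hφ : ContDiffOn ℝ 1 (fun ζ => Real.log ((N ζ).re + ε)) (Hc Y₀) := by
    apply ContDiffOn.log
    · exact (Complex.reCLM.contDiff.comp_contDiffOn (ContDiffOn.of_le hN (by simp))).add contDiffOn_const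
    · intro z hz
      linarith [hnn z hz]
  have h1 := cylm_deriv hφ hy h
  have hjj : SmS (Hc Y₀) (jj N T ε) := SmS_jj hΩ hN hT him hnn hε
  have hq : SmS (Hc Y₀) (fun z => T z / (N z + ε)) := by
    apply SmS.divS hT (SmS.addS hN (SmS_const _)) hne
  have i1 : IntervalIntegrable (fun x : ℝ => (I * jj N T ε (x + y * I)).re) MeasureTheory.volume 0 h :=
    (Complex.continuous_re.comp (continuous_const.mul
      (hjj.continuousOn.comp_continuous (by fun_prop) fun x => hmem x y hy))).intervalIntegrable _ _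
  have i2 : IntervalIntegrable (fun x : ℝ => (I * (T (x + y * I) / (N (x + y * I) + ε))).re)
      MeasureTheory.volume 0 h :=
    (Complex.continuous_re.comp (continuous_const.mul
      (hq.continuousOn.comp_continuous (f := fun x : ℝ => ((x : ℂ) + y * I)) (by fun_prop)
        fun x => hmem x y hy))).intervalIntegrable _ _
  have h2 : ∫ x in (0 : ℝ)..h, fderiv ℝ (fun ζ => Real.log ((N ζ).re + ε)) (x + y * I) I =
      4 * flux (jj N T ε) h y -
        8 * ∫ x in (0 : ℝ)..h, (I * (T (x + y * I) / (N (x + y * I) + ε))).re := by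
    rw [flux, ← intervalIntegral.integral_const_mul, ← intervalIntegral.integral_const_mul,
      ← intervalIntegral.integral_sub (i1.const_mul 4) (i2.const_mul 8)]
    apply intervalIntegral.integral_congr
    intro x _
    exact cylm_point hε hN him hnn (hmem x y hy)
  rw [← h2]
  exact h1

end US38
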