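import Pool.Agent.LibUS38.Defs

/-! Green formula on a cylinder. -/

open Matrix Complex
open UpperHalfPlane hiding I
open scoped ContDiff

namespace US38

open SP38

variable {N T J : ℂ → ℂ} {Y₀ h ε : ℝ}

/-- differentiation under the integral over a horocycle -/
theorem cyl_deriv {φ : ℂ → ℝ} {y : ℝ} (hφ : ContDiffOn ℝ 1 φ (Hc Y₀)) (hy : Y₀ < y) (h : ℝ) :
    HasDerivAt (fun y : ℝ => ∫ x in (0 : ℝ)..h, φ (x + y * I))
      (∫ x in (0 : ℝ)..h, fderiv ℝ φ (x + y * I) I) y := by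
  have hΩ := isOpen_Hc Y₀
  have hmem : ∀ x y' : ℝ, Y₀ < y' → ((x : ℂ) + y' * I) ∈ Hc Y₀ := by
    intro x y' hy'
    show Y₀ < ((x : ℂ) + y' * I).im
    simpa using hy'
  have hc1 : ContinuousOn (fun z => fderiv ℝ φ z I) (Hc Y₀) :=
    (hφ.continuousOn_fderiv_of_isOpen hΩ le_rfl).clm_apply continuousOn_const
  set δ := (y - Y₀) / 2 with hδ
  have hδ0 : 0 < δ := by rw [hδ]; linarith
  set K : Set ℂ := (fun p : ℝ × ℝ => (p.1 + p.2 * I : ℂ)) '' (Set.uIcc 0 h ×ˢ Set.Icc (y - δ) (y + δ)) with hK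
  have hKc : IsCompact K := (isCompact_uIcc.prod isCompact_Icc).image (by fun_prop)
  have hKs : K ⊆ Hc Y₀ := by
    rintro _ ⟨p, hp, rfl⟩
    apply hmem
    have := hp.2.1
    rw [hδ] at this
    linarith
  obtain ⟨C, hC⟩ := hKc.exists_bound_of_continuousOn (hc1.mono hKs)
  have hcont : ∀ y' : ℝ, Y₀ < y' → Continuous fun x : ℝ => φ (x + y' * I) := fun y' hy' =>
    hφ.continuousOn.comp_continuous (by fun_prop) fun x => hmem x y' hy'
  have hcont1 : ∀ y' : ℝ, Y₀ < y' → Continuous fun x : ℝ => fderiv ℝ φ (x + y' * I) I := fun y' hy' =>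
    hc1.comp_continuous (by fun_prop) fun x => hmem x y' hy'
  have hball : ∀ y' ∈ Metric.ball y δ, Y₀ < y' := by
    intro y' hy'
    rw [Metric.mem_ball, Real.dist_eq, abs_lt] at hy'
    rw [hδ] at hy'
    linarith [hy'.1]
  refine (intervalIntegral.hasDerivAt_integral_of_dominated_loc_of_deriv_le
    (s := Metric.ball y δ) (bound := fun _ => C)
    (F := fun (y : ℝ) (x : ℝ) => φ (x + y * I)) (F' := fun (y : ℝ) (x : ℝ) => fderiv ℝ φ (x + y * I) I)
    (Metric.ball_mem_nhds y hδ0) ?_ ?_ ?_ ?_ ?_ ?_).2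
  · filter_upwards [Metric.ball_mem_nhds y hδ0] with y' hy'
    exact (hcont y' (hball y' hy')).aestronglyMeasurable
  · exact (hcont y hy).intervalIntegrable _ _
  · exact (hcont1 y hy).aestronglyMeasurable
  · refine Filter.Eventually.of_forall fun x hx y' hy' => hC _ ⟨(x, y'), ⟨?_, ?_⟩, rfl⟩
    · exact Set.uIoc_subset_uIcc hx
    · rw [Metric.mem_ball, Real.dist_eq, abs_lt] at hy'
      constructor <;> simp only <;> linarith [hy'.1, hy'.2]
  · exact intervalIntegrable_const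
  · refine Filter.Eventually.of_forall fun x _ y' hy' => ?_
    have h1 : DifferentiableAt ℝ φ (x + y' * I) :=
      (hφ.contDiffAt (hΩ.mem_nhds (hmem x y' (hball y' hy')))).differentiableAt (by simp)
    have h2 : HasDerivAt (fun y : ℝ => ((x : ℂ) + y * I)) I y' := by
      have := ((hasDerivAt_id y').ofReal_comp.mul_const I).const_add (x : ℂ)
      simpa using this
    exact h1.hasFDerivAt.comp_hasDerivAt y' h2

theorem cyl_hasDerivAt_flux (hh : 0 < h) (hJ : SmS (Hc Y₀) J) (hp : ∀ ζ ∈ Hc Y₀, J (ζ + h) = J ζ)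
    {y : ℝ} (hy : Y₀ < y) :
    HasDerivAt (flux J h) (∫ x in (0 : ℝ)..h, rho J (x + y * I)) y := by
  have hΩ := isOpen_Hc Y₀
  have hmem : ∀ x y' : ℝ, Y₀ < y' → ((x : ℂ) + y' * I) ∈ Hc Y₀ := by
    intro x y' hy'
    show Y₀ < ((x : ℂ) + y' * I).im
    simpa using hy'
  have hJ1 : ContDiffOn ℝ 1 J (Hc Y₀) := ContDiffOn.of_le hJ (by simp)
  have hφ : ContDiffOn ℝ 1 (fun ζ => (I * J ζ).re) (Hc Y₀) :=
    Complex.reCLM.contDiff.comp_contDiffOn (contDiffOn_const.mul hJ1)
  have h1 := cyl_deriv hφ hy h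
  have hd : ∀ x : ℝ, DifferentiableAt ℝ J (x + y * I) := fun x =>
    SmS.differentiableAt hΩ hJ (hmem x y hy)
  have h2 : ∀ x : ℝ, fderiv ℝ (fun ζ => (I * J ζ).re) (x + y * I) I =
      rho J (x + y * I) - (fderiv ℝ J (x + y * I) 1).re := by
    intro x
    have h3 : HasFDerivAt (fun ζ => (I * J ζ).re)
        (Complex.reCLM.comp (I • fderiv ℝ J (x + y * I))) (x + y * I) :=
      Complex.reCLM.hasFDerivAt.comp _ ((hd x).hasFDerivAt.const_mul I)
    rw [h3.fderiv]
    simp only [rho, dzb, ContinuousLinearMap.comp_apply, ContinuousLinearMap.smul_apply, smul_eq_mul,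
      Complex.reCLM_apply]
    simp only [Complex.div_re, Complex.add_re, Complex.add_im, Complex.re_ofNat, Complex.im_ofNat]
    norm_num [Complex.normSq]
    ring
  have hc1 : ContinuousOn (fun z => fderiv ℝ J z 1) (Hc Y₀) :=
    (hJ1.continuousOn_fderiv_of_isOpen hΩ le_rfl).clm_apply continuousOn_const
  have hc2 : ContinuousOn (fun z => fderiv ℝ J z I) (Hc Y₀) :=
    (hJ1.continuousOn_fderiv_of_isOpen hΩ le_rfl).clm_apply continuousOn_const
  have hc3 : ContinuousOn (rho J) (Hc Y₀) := by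
    have : ContinuousOn (SP38.dzb J) (Hc Y₀) := (SmS.dzb hΩ hJ).continuousOn
    exact continuousOn_const.mul (Complex.continuous_re.comp_continuousOn this)
  have i1 : IntervalIntegrable (fun x : ℝ => rho J (x + y * I)) MeasureTheory.volume 0 h :=
    (hc3.comp_continuous (by fun_prop) fun x => hmem x y hy).intervalIntegrable _ _
  have c2 : Continuous (fun x : ℝ => fderiv ℝ J (x + y * I) 1) :=
    hc1.comp_continuous (by fun_prop) fun x => hmem x y hy
  have i2 : IntervalIntegrable (fun x : ℝ => (fderiv ℝ J (x + y * I) 1).re) MeasureTheory.volume 0 h :=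
    (Complex.continuous_re.comp c2).intervalIntegrable _ _
  have h4 : ∫ x in (0 : ℝ)..h, (fderiv ℝ J (x + y * I) 1).re = 0 := by
    have h5 : ∀ x ∈ Set.uIcc 0 h, HasDerivAt (fun x : ℝ => (J (x + y * I)).re)
        ((fderiv ℝ J (x + y * I) 1).re) x := by
      intro x _
      have h6 : HasDerivAt (fun x : ℝ => ((x : ℂ) + y * I)) 1 x := by
        have := ((hasDerivAt_id x).ofReal_comp.add_const ((y : ℂ) * I))
        simpa using this
      have h7 := (hd x).hasFDerivAt.comp_hasDerivAt x h6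
      exact (Complex.reCLM.hasFDerivAt.comp_hasDerivAt x h7)
    rw [intervalIntegral.integral_eq_sub_of_hasDerivAt h5 i2]
    have h8 := hp (0 + y * I) (by simpa using hmem 0 y hy)
    have h9 : ((h : ℂ) + y * I) = 0 + y * I + h := by ring
    rw [h9, h8]
    simp
  have h5 : ∫ x in (0 : ℝ)..h, fderiv ℝ (fun ζ => (I * J ζ).re) (x + y * I) I =
      ∫ x in (0 : ℝ)..h, rho J (x + y * I) := by
    rw [intervalIntegral.integral_congr fun x _ => h2 x, intervalIntegral.integral_sub i1 i2, h4, sub_zero]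
  rw [← h5]
  exact h1

theorem cyl_continuous {ψ : ℂ → ℝ} (hψ : ContinuousOn ψ (Hc Y₀)) {Y₁ : ℝ} (h01 : Y₀ < Y₁) (h : ℝ) :
    ContinuousOn (fun y : ℝ => ∫ x in (0 : ℝ)..h, ψ (x + y * I)) (Set.Ici Y₁) := by
  have h1 : Continuous (Function.uncurry fun (y : ℝ) (x : ℝ) => ψ (x + (max y Y₁ : ℝ) * I)) := by
    apply hψ.comp_continuous (f := fun p : ℝ × ℝ => ((p.2 : ℂ) + (max p.1 Y₁ : ℝ) * I)) (by fun_prop)
    intro p
    show Y₀ < ((p.2 : ℂ) + (max p.1 Y₁ : ℝ) * I).im
    simp [h01]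
  have h2 := intervalIntegral.continuous_parametric_intervalIntegral_of_continuous'
    (μ := MeasureTheory.volume) h1 0 h
  refine h2.continuousOn.congr fun y hy => ?_
  have : max y Y₁ = y := max_eq_left hy
  simp only [this]

/-- Green's formula: the flux grows by the integral of `rho` -/
theorem flux_sub (hh : 0 < h) (hJ : SmS (Hc Y₀) J) (hp : ∀ ζ ∈ Hc Y₀, J (ζ + h) = J ζ)
    {Y₁ Y₂ : ℝ} (h01 : Y₀ < Y₁) (h12 : Y₁ ≤ Y₂) :
    flux J h Y₂ - flux J h Y₁ = ∫ y in Y₁..Y₂, ∫ x in (0 : ℝ)..h, rho J (x + y * I) := by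
  have hΩ := isOpen_Hc Y₀
  have hc3 : ContinuousOn (rho J) (Hc Y₀) := by
    have : ContinuousOn (SP38.dzb J) (Hc Y₀) := (SmS.dzb hΩ hJ).continuousOn
    exact continuousOn_const.mul (Complex.continuous_re.comp_continuousOn this)
  rw [intervalIntegral.integral_eq_sub_of_hasDerivAt (f := flux J h)]
  · intro y hy
    rw [Set.uIcc_of_le h12] at hy
    exact cyl_hasDerivAt_flux hh hJ hp (h01.trans_le hy.1)
  · apply ContinuousOn.intervalIntegrable
    rw [Set.uIcc_of_le h12]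
    exact (cyl_continuous hc3 h01 h).mono fun y hy => hy.1

end US38
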