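import Pool.Agent.LibSP38.Mon2
import Pool.Agent.LibUS38.Cyl
import Pool.Agent.LibUS38.WirtC2

/-! Polar coordinates. -/

open Matrix Complex MeasureTheory Filter Topology
open UpperHalfPlane hiding I
open scoped ContDiff

namespace US38

open SP38

variable {Δ : Subgroup (Matrix.SpecialLinearGroup (Fin 2) ℝ)} {κ : ℝ} {N T : ℂ → ℂ}

theorem disc_qq_eq (x y : ℝ) :
    qq (x + y * I) = (Real.exp (-(2 * Real.pi * y)) : ℂ) * qq x := by
  rw [qq, qq, Complex.ofReal_exp, ← Complex.exp_add]
  congr 1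
  push_cast
  linear_combination (2 * (Real.pi : ℂ) * y) * I_sq

theorem disc_qq_real (x : ℝ) :
    qq x = (Real.cos (2 * Real.pi * x) : ℂ) + (Real.sin (2 * Real.pi * x) : ℂ) * I := by
  rw [qq, Complex.ofReal_cos, Complex.ofReal_sin, ← Complex.exp_mul_I]
  congr 1
  push_cast
  ring

theorem disc_norm_qq (x : ℝ) : ‖qq (x : ℂ)‖ = 1 := by
  rw [norm_qq]
  simp

theorem disc_continuous_qq : Continuous qq :=
  continuous_iff_continuousAt.mpr fun ζ => (hasDerivAt_qq ζ).continuousAt

theorem disc_theta (G : ℂ → ℝ) (ρ : ℝ) :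
    ∫ θ in (-Real.pi)..Real.pi, G (ρ * (Real.cos θ + Real.sin θ * I)) =
      2 * Real.pi * ∫ x in (0 : ℝ)..1, G (ρ * qq x) := by
  have hper : Function.Periodic (fun θ : ℝ => G (ρ * (Real.cos θ + Real.sin θ * I)))
      (2 * Real.pi) := by
    intro θ
    simp only [Real.cos_add_two_pi, Real.sin_add_two_pi]
  have h1 := hper.intervalIntegral_add_eq (-Real.pi) 0
  have h2 : -Real.pi + 2 * Real.pi = Real.pi := by ring
  rw [h2, zero_add] at h1
  rw [h1]
  have h3 := intervalIntegral.mul_integral_comp_mul_left (a := 0) (b := 1)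
    (f := fun θ : ℝ => G (ρ * (Real.cos θ + Real.sin θ * I))) (2 * Real.pi)
  rw [mul_zero, mul_one] at h3
  rw [← h3]
  congr 1
  refine intervalIntegral.integral_congr fun x _ => ?_
  simp only [disc_qq_real]

theorem disc_polar {G : ℂ → ℝ} (hG : Continuous G) {r : ℝ} (hr : 0 < r) :
    ∫ z in Metric.ball (0 : ℂ) r, G z =
      ∫ ρ in (0 : ℝ)..r, 2 * Real.pi * ρ * ∫ x in (0 : ℝ)..1, G (ρ * qq x) := by
  have hcont : Continuous fun p : ℝ × ℝ => p.1 * G (p.1 * (Real.cos p.2 + Real.sin p.2 * I)) := by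
    fun_prop
  rw [← integral_indicator measurableSet_ball, ← Complex.integral_comp_polarCoord_symm]
  have h1 : ∀ p ∈ polarCoord.target,
      p.1 • (Metric.ball (0 : ℂ) r).indicator G (Complex.polarCoord.symm p) =
      (Set.Ioo 0 r ×ˢ Set.Ioo (-Real.pi) Real.pi).indicator
        (fun p : ℝ × ℝ => p.1 * G (p.1 * (Real.cos p.2 + Real.sin p.2 * I))) p := by
    rintro ⟨ρ, θ⟩ ⟨h2, h3⟩
    have h2' : 0 < ρ := h2
    by_cases h4 : ρ < r
    · have h5 : Complex.polarCoord.symm (ρ, θ) ∈ Metric.ball (0 : ℂ) r := by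
        rw [mem_ball_zero_iff, Complex.norm_polarCoord_symm, abs_of_pos h2']
        exact h4
      rw [Set.indicator_of_mem h5, Set.indicator_of_mem
        (show (ρ, θ) ∈ Set.Ioo 0 r ×ˢ Set.Ioo (-Real.pi) Real.pi from ⟨⟨h2', h4⟩, h3⟩),
        Complex.polarCoord_symm_apply, smul_eq_mul]
    · have h5 : Complex.polarCoord.symm (ρ, θ) ∉ Metric.ball (0 : ℂ) r := by
        rw [mem_ball_zero_iff, Complex.norm_polarCoord_symm, abs_of_pos h2']
        exact h4
      rw [Set.indicator_of_notMem h5, Set.indicator_of_notMem (fun h6 => h4 h6.1.2), smul_zero]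
  rw [setIntegral_congr_fun polarCoord.open_target.measurableSet h1,
    setIntegral_indicator (measurableSet_Ioo.prod measurableSet_Ioo)]
  have h2 : polarCoord.target ∩ Set.Ioo 0 r ×ˢ Set.Ioo (-Real.pi) Real.pi =
      Set.Ioo 0 r ×ˢ Set.Ioo (-Real.pi) Real.pi := by
    refine Set.inter_eq_right.mpr ?_
    rintro ⟨ρ, θ⟩ ⟨h3, h4⟩
    exact ⟨h3.1, h4⟩
  rw [h2, Measure.volume_eq_prod, setIntegral_prod]
  · rw [intervalIntegral.integral_of_le hr.le, integral_Ioc_eq_integral_Ioo]
    refine setIntegral_congr_fun measurableSet_Ioo fun ρ _ => ?_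
    change ∫ θ in Set.Ioo (-Real.pi) Real.pi, ρ * G (ρ * (Real.cos θ + Real.sin θ * I)) =
      2 * Real.pi * ρ * ∫ x in (0 : ℝ)..1, G (ρ * qq x)
    rw [integral_const_mul, ← integral_Ioc_eq_integral_Ioo,
      ← intervalIntegral.integral_of_le (by linarith [Real.pi_pos]), disc_theta]
    ring
  · rw [← Measure.volume_eq_prod]
    refine (hcont.continuousOn.integrableOn_compact
      (K := Set.Icc 0 r ×ˢ Set.Icc (-Real.pi) Real.pi)
      (isCompact_Icc.prod isCompact_Icc)).mono_set ?_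
    exact Set.prod_mono Set.Ioo_subset_Icc_self Set.Ioo_subset_Icc_self

/-- substitution `ρ = exp (-2 π y)` -/
theorem disc_subst {A : ℝ → ℝ} (hA : Continuous A) (Y₁ Y₂ : ℝ) :
    ∫ y in Y₁..Y₂, (2 * Real.pi * Real.exp (-(2 * Real.pi * y))) ^ 2 *
        A (Real.exp (-(2 * Real.pi * y))) =
      ∫ ρ in Real.exp (-(2 * Real.pi * Y₂))..Real.exp (-(2 * Real.pi * Y₁)),
        2 * Real.pi * ρ * A ρ := by
  have h1 : ∀ y ∈ Set.uIcc Y₁ Y₂, HasDerivAt (fun y : ℝ => Real.exp (-(2 * Real.pi * y)))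
      (-(2 * Real.pi * Real.exp (-(2 * Real.pi * y)))) y := by
    intro y _
    have h2 : HasDerivAt (fun y : ℝ => -(2 * Real.pi * y)) (-(2 * Real.pi)) y := by
      have h0 := (hasDerivAt_id y).const_mul (-(2 * Real.pi))
      rw [mul_one] at h0
      refine h0.congr_of_eventuallyEq (Eventually.of_forall fun y => ?_)
      simp only [id]
      ring
    have h3 := h2.exp
    convert h3 using 1
    ring
  have h2 := intervalIntegral.integral_comp_mul_deriv (g := fun ρ => 2 * Real.pi * ρ * A ρ) h1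
    (by fun_prop) (by fun_prop)
  rw [intervalIntegral.integral_symm (Real.exp (-(2 * Real.pi * Y₁))), ← h2,
    ← intervalIntegral.integral_neg]
  refine intervalIntegral.integral_congr fun y _ => ?_
  simp only [Function.comp]
  ring

/-- retraction to the disc -/
theorem disc_retract {r : ℝ} (hr : 0 < r) : ∃ R : ℂ → ℂ, Continuous R ∧
    (∀ w, ‖R w‖ ≤ r) ∧ ∀ w, ‖w‖ ≤ r → R w = w := by
  refine ⟨fun w => ((r / max r ‖w‖ : ℝ) : ℂ) * w, ?_, ?_, ?_⟩
  · refine (Complex.continuous_ofReal.comp ?_).mul continuous_id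
    refine continuous_const.div (continuous_const.max continuous_norm) fun w => ?_
    exact (lt_of_lt_of_le hr (le_max_left _ _)).ne'
  · intro w
    have h1 : 0 < max r ‖w‖ := lt_of_lt_of_le hr (le_max_left _ _)
    rw [norm_mul, Complex.norm_real, Real.norm_of_nonneg (div_nonneg hr.le h1.le),
      div_mul_eq_mul_div, div_le_iff₀ h1]
    exact mul_le_mul_of_nonneg_left (le_max_right _ _) hr.le
  · intro w hw
    change ((r / max r ‖w‖ : ℝ) : ℂ) * w = w
    rw [max_eq_left hw, div_self hr.ne', Complex.ofReal_one, one_mul]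

theorem disc_exp_tendsto :
    Tendsto (fun y : ℝ => Real.exp (-(2 * Real.pi * y))) atTop (𝓝 0) := by
  have h1 : Tendsto (fun y : ℝ => 2 * Real.pi * y) atTop atTop :=
    tendsto_id.const_mul_atTop (by positivity)
  exact Real.tendsto_exp_neg_atTop_nhds_zero.comp h1

/-- polar coordinates: the integral over a disc in terms of the cylinder -/
theorem disc_integral {j : ℂ → ℂ} {Ω : Set ℂ} (hΩ : IsOpen Ω) (hj : SmS Ω j) {z₀ : ℂ} {r : ℝ}
    (hr : 0 < r) (hball : Metric.closedBall z₀ r ⊆ Ω) {Y₁ : ℝ}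
    (hY : Real.exp (-(2 * Real.pi * Y₁)) = r) :
    ∫ z in Metric.ball z₀ r, rho j z = -flux (pb (fun ζ => z₀ + qq ζ) j) 1 Y₁ := by
  obtain ⟨δ, hδ, hδΩ⟩ := (isCompact_closedBall z₀ r).exists_thickening_subset_open hΩ hball
  rw [thickening_closedBall hδ hr.le] at hδΩ
  set r' : ℝ := δ + r with hr'
  have hr'pos : 0 < r' := by positivity
  set Y₀ : ℝ := -Real.log r' / (2 * Real.pi) with hY₀
  have hpi := Real.pi_pos
  have hY₀' : Real.exp (-(2 * Real.pi * Y₀)) = r' := by
    rw [hY₀]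
    rw [show -(2 * Real.pi * (-Real.log r' / (2 * Real.pi))) = Real.log r' by field_simp]
    exact Real.exp_log hr'pos
  have h01 : Y₀ < Y₁ := by
    have h1 : Real.exp (-(2 * Real.pi * Y₁)) < Real.exp (-(2 * Real.pi * Y₀)) := by
      rw [hY, hY₀', hr']
      linarith
    rw [Real.exp_lt_exp] at h1
    nlinarith
  set φ : ℂ → ℂ := fun ζ => z₀ + qq ζ with hφdef
  have hφd : ∀ ζ, HasDerivAt φ (2 * Real.pi * I * qq ζ) ζ := fun ζ =>
    (hasDerivAt_qq ζ).const_add z₀
  have hφ : DifferentiableOn ℂ φ (Hc Y₀) := fun ζ _ =>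
    (hφd ζ).differentiableAt.differentiableWithinAt
  have hm : ∀ ζ ∈ Hc Y₀, φ ζ ∈ Ω := by
    intro ζ hζ
    apply hδΩ
    rw [Metric.mem_ball, dist_eq_norm, hφdef]
    simp only [add_sub_cancel_left]
    rw [norm_qq, ← hY₀', Real.exp_lt_exp]
    have : Y₀ < ζ.im := hζ
    nlinarith
  have hJ : SmS (Hc Y₀) (pb φ j) := SmS_pb hΩ (isOpen_Hc Y₀) hj hφ hm
  have hp : ∀ ζ ∈ Hc Y₀, pb φ j (ζ + (1 : ℝ)) = pb φ j ζ := by
    intro ζ _
    have h1 : qq (ζ + (1 : ℝ)) = qq ζ := by
      have := qq_add_nat ζ 1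
      simpa using this
    rw [pb, pb, (hφd _).deriv, (hφd _).deriv, h1]
    simp only [hφdef, h1]
  -- the function in polar coordinates
  obtain ⟨R, hRc, hRr, hRid⟩ := disc_retract hr
  have hrho : ContinuousOn (rho j) Ω := by
    have h1 : ContinuousOn (dzb j) Ω := (SmS.dzb hΩ hj).continuousOn
    exact continuousOn_const.mul (Complex.continuous_re.comp_continuousOn h1)
  set G : ℂ → ℝ := fun w => rho j (z₀ + R w) with hG
  have hGc : Continuous G := by
    refine hrho.comp_continuous (continuous_const.add hRc) fun w => hball ?_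
    rw [Metric.mem_closedBall, dist_eq_norm, add_sub_cancel_left]
    exact hRr w
  set A : ℝ → ℝ := fun ρ => ∫ x in (0 : ℝ)..1, G (ρ * qq x) with hA
  have hAc : Continuous A := by
    refine intervalIntegral.continuous_parametric_intervalIntegral_of_continuous' ?_ 0 1
    refine hGc.comp ?_
    exact (Complex.continuous_ofReal.comp continuous_fst).mul
      (disc_continuous_qq.comp (Complex.continuous_ofReal.comp continuous_snd))
  have hLHS : ∫ z in Metric.ball z₀ r, rho j z = ∫ ρ in (0 : ℝ)..r, 2 * Real.pi * ρ * A ρ := by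
    rw [← disc_polar hGc hr, ← integral_indicator measurableSet_ball,
      ← integral_indicator measurableSet_ball,
      ← integral_add_left_eq_self (μ := volume)
        (fun z => (Metric.ball z₀ r).indicator (fun z => rho j z) z) z₀]
    refine integral_congr_ae (ae_of_all _ fun w => ?_)
    by_cases hw : ‖w‖ < r
    · have h1 : z₀ + w ∈ Metric.ball z₀ r := by
        rw [Metric.mem_ball, dist_eq_norm, add_sub_cancel_left]
        exact hw
      have h2 : w ∈ Metric.ball (0 : ℂ) r := mem_ball_zero_iff.mpr hw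
      simp only [Set.indicator_of_mem h1, Set.indicator_of_mem h2, hG, hRid w hw.le]
    · have h1 : z₀ + w ∉ Metric.ball z₀ r := by
        rw [Metric.mem_ball, dist_eq_norm, add_sub_cancel_left]
        exact hw
      have h2 : w ∉ Metric.ball (0 : ℂ) r := fun h => hw (mem_ball_zero_iff.mp h)
      simp only [Set.indicator_of_notMem h1, Set.indicator_of_notMem h2]
  -- Green
  have hGreen : ∀ Y₂, Y₁ ≤ Y₂ → flux (pb φ j) 1 Y₂ - flux (pb φ j) 1 Y₁ =
      (∫ ρ in (0 : ℝ)..r, 2 * Real.pi * ρ * A ρ) -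
        ∫ ρ in (0 : ℝ)..Real.exp (-(2 * Real.pi * Y₂)), 2 * Real.pi * ρ * A ρ := by
    intro Y₂ h12
    rw [flux_sub one_pos hJ hp h01 h12]
    have h1 : ∫ y in Y₁..Y₂, ∫ x in (0 : ℝ)..1, rho (pb φ j) (x + y * I) =
        ∫ y in Y₁..Y₂, (2 * Real.pi * Real.exp (-(2 * Real.pi * y))) ^ 2 *
          A (Real.exp (-(2 * Real.pi * y))) := by
      refine intervalIntegral.integral_congr fun y hy => ?_
      rw [Set.uIcc_of_le h12] at hy
      simp only [hA]
      rw [← intervalIntegral.integral_const_mul]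
      refine intervalIntegral.integral_congr fun x _ => ?_
      have h2 : ((x : ℂ) + y * I) ∈ Hc Y₀ := by
        change Y₀ < ((x : ℂ) + y * I).im
        simp only [add_im, ofReal_im, mul_im, ofReal_re, Complex.I_im, mul_one, Complex.I_re,
          mul_zero, add_zero, zero_add]
        exact lt_of_lt_of_le h01 hy.1
      have h3 : ‖qq ((x : ℂ) + y * I)‖ = Real.exp (-(2 * Real.pi * y)) := by
        rw [norm_qq]
        simp
      have h4 : Real.exp (-(2 * Real.pi * y)) ≤ r := by
        rw [← hY, Real.exp_le_exp]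
        nlinarith [hy.1]
      change rho (pb φ j) (x + y * I) = _
      rw [rho_pb hΩ (isOpen_Hc Y₀) hj hφ hm h2, (hφd _).deriv, norm_mul, h3]
      have h5 : ‖(2 * Real.pi * I : ℂ)‖ = 2 * Real.pi := by
        rw [norm_mul, norm_mul, norm_I, mul_one, Complex.norm_real, Real.norm_of_nonneg hpi.le]
        simp
      have h6 : φ ((x : ℂ) + y * I) =
          z₀ + R ((Real.exp (-(2 * Real.pi * y)) : ℝ) * qq x) := by
        rw [hRid]
        · rw [hφdef]
          simp only [disc_qq_eq]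
        · rw [← disc_qq_eq, h3]
          exact h4
      rw [h5, h6]
      simp only [hG]
      ring
    have hint : ∀ a b : ℝ, IntervalIntegrable (fun ρ => 2 * Real.pi * ρ * A ρ) volume a b :=
      fun a b => (by fun_prop : Continuous fun ρ => 2 * Real.pi * ρ * A ρ).intervalIntegrable a b
    rw [h1, disc_subst hAc, hY, intervalIntegral.integral_interval_sub_left (hint _ _) (hint _ _)]
  have hlim1 : Tendsto (fun Y₂ => flux (pb φ j) 1 Y₂) atTop (𝓝 0) := by
    obtain ⟨M, hM⟩ := (isCompact_closedBall z₀ r).exists_bound_of_continuousOn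
      (hj.continuousOn.mono hball)
    have h1 : Tendsto (fun Y₂ : ℝ => |M| * (2 * Real.pi * Real.exp (-(2 * Real.pi * Y₂)))) atTop
        (𝓝 0) := by
      have := (disc_exp_tendsto.const_mul (2 * Real.pi)).const_mul |M|
      simpa using this
    refine squeeze_zero_norm' ?_ h1
    filter_upwards [eventually_ge_atTop Y₁] with Y₂ h12
    have h4 : Real.exp (-(2 * Real.pi * Y₂)) ≤ r := by
      rw [← hY, Real.exp_le_exp]
      nlinarith
    have h2 := intervalIntegral.norm_integral_le_of_norm_le_const (a := 0) (b := 1)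
      (f := fun x : ℝ => (I * pb φ j (x + Y₂ * I)).re)
      (C := |M| * (2 * Real.pi * Real.exp (-(2 * Real.pi * Y₂)))) ?_
    · simpa [flux] using h2
    · intro x _
      have h3 : ‖qq ((x : ℂ) + Y₂ * I)‖ = Real.exp (-(2 * Real.pi * Y₂)) := by
        rw [norm_qq]
        simp
      have h5 : ‖(2 * Real.pi * I : ℂ)‖ = 2 * Real.pi := by
        rw [norm_mul, norm_mul, norm_I, mul_one, Complex.norm_real, Real.norm_of_nonneg hpi.le]
        simp
      rw [Real.norm_eq_abs]
      refine (Complex.abs_re_le_norm _).trans ?_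
      rw [norm_mul, norm_I, one_mul, pb, (hφd _).deriv, norm_mul, norm_mul, h5, h3]
      refine mul_le_mul_of_nonneg_right ?_ (by positivity)
      refine (hM _ ?_).trans (le_abs_self M)
      rw [Metric.mem_closedBall, dist_eq_norm, hφdef]
      simp only [add_sub_cancel_left]
      rw [h3]
      exact h4
  have hlim2 : Tendsto (fun Y₂ : ℝ => (∫ ρ in (0 : ℝ)..r, 2 * Real.pi * ρ * A ρ) -
      ∫ ρ in (0 : ℝ)..Real.exp (-(2 * Real.pi * Y₂)), 2 * Real.pi * ρ * A ρ) atTop
      (𝓝 (∫ ρ in (0 : ℝ)..r, 2 * Real.pi * ρ * A ρ)) := by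
    have hcont : Continuous fun b : ℝ => ∫ ρ in (0 : ℝ)..b, 2 * Real.pi * ρ * A ρ :=
      intervalIntegral.continuous_primitive (fun a b =>
        (by fun_prop : Continuous fun ρ => 2 * Real.pi * ρ * A ρ).intervalIntegrable a b) 0
    have h1 := (hcont.tendsto 0).comp disc_exp_tendsto
    rw [intervalIntegral.integral_same] at h1
    have h2 := (tendsto_const_nhds (x := ∫ ρ in (0 : ℝ)..r, 2 * Real.pi * ρ * A ρ)).sub h1
    rw [sub_zero] at h2
    exact h2
  have hlim3 : Tendsto (fun Y₂ => flux (pb φ j) 1 Y₂ - flux (pb φ j) 1 Y₁) atTop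
      (𝓝 (0 - flux (pb φ j) 1 Y₁)) := hlim1.sub tendsto_const_nhds
  have hfin := tendsto_nhds_unique (hlim3.congr' ?_) hlim2
  · rw [hLHS, ← hfin, zero_sub]
  · filter_upwards [eventually_ge_atTop Y₁] with Y₂ h12
    exact hGreen Y₂ h12

end US38
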