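import Pool.Agent.LibSP38.Gro1
import Pool.Agent.LibUS38.WirtC

/-! The sharp Ahlfors lemma on the upper half plane. -/

open Matrix Complex
open scoped ComplexOrder ContDiff

namespace US38

open SP38

/-- the Cayley map -/
noncomputable def ahlH_phi (x y : ℝ) (w : ℂ) : ℂ := x + I * y * ((1 + w) / (1 - w))

theorem ahlH_ne {w : ℂ} (hw : w ∈ Metric.ball (0 : ℂ) 1) : 1 - w ≠ 0 := by
  intro h
  have h1 : w = 1 := (sub_eq_zero.1 h).symm
  rw [h1, mem_ball_zero_iff, norm_one] at hw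
  exact lt_irrefl _ hw

theorem ahlH_hasDeriv (x y : ℝ) {w : ℂ} (hw : w ∈ Metric.ball (0 : ℂ) 1) :
    HasDerivAt (ahlH_phi x y) (I * y * (2 / (1 - w) ^ 2)) w := by
  have h1 : HasDerivAt (fun w : ℂ => 1 + w) 1 w := (hasDerivAt_id w).const_add 1
  have h2 : HasDerivAt (fun w : ℂ => 1 - w) (-1) w := by
    simpa using (hasDerivAt_id w).const_sub (1 : ℂ)
  have h3 := ((h1.div h2 (ahlH_ne hw)).const_mul (I * (y : ℂ))).const_add (x : ℂ)
  refine h3.congr_deriv ?_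
  congr 2
  ring

theorem ahlH_mem {x y : ℝ} (hy : 0 < y) {w : ℂ} (hw : w ∈ Metric.ball (0 : ℂ) 1) :
    ahlH_phi x y w ∈ Hc 0 := by
  change 0 < (ahlH_phi x y w).im
  have h1 : (ahlH_phi x y w).im = y * ((1 + w) / (1 - w)).re := by
    simp [ahlH_phi]
  have h2 : ((1 + w) / (1 - w)).re = (1 - normSq w) / normSq (1 - w) := by
    rw [div_re, ← add_div]
    congr 1
    simp only [add_re, one_re, sub_re, add_im, one_im, sub_im, normSq_apply]
    ring
  rw [h1, h2]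
  have h3 : 0 < normSq (1 - w) := normSq_pos.2 (ahlH_ne hw)
  have h4 : 0 < 1 - normSq w := by
    rw [mem_ball_zero_iff] at hw
    rw [normSq_eq_norm_sq]
    nlinarith [norm_nonneg w]
  positivity

section Main

variable {f φ : ℂ → ℂ} {B : Set ℂ} {w : ℂ}

theorem ahlH_dz (hB : IsOpen B) (hf : SmS (Hc 0) f) (hφ : DifferentiableOn ℂ φ B)
    (hm : ∀ w ∈ B, φ w ∈ Hc 0) (hw : w ∈ B) :
    dz (fun w => f (φ w) * (deriv φ w * (starRingEnd ℂ) (deriv φ w))) w =
      (starRingEnd ℂ) (deriv φ w) *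
        (dz f (φ w) * deriv φ w ^ 2 + f (φ w) * deriv (deriv φ) w) := by
  have ha : DifferentiableOn ℂ (deriv φ) B := hφ.deriv hB
  have ha' : DifferentiableAt ℂ (deriv φ) w := ha.differentiableAt (hB.mem_nhds hw)
  have ha2 : DifferentiableAt ℝ (deriv φ) w := ha'.restrictScalars ℝ
  have ha3 : DifferentiableAt ℝ (fun w => (starRingEnd ℂ) (deriv φ w)) w :=
    (conjCLE : ℂ →L[ℝ] ℂ).differentiableAt.comp w ha2
  have hφ' : DifferentiableAt ℂ φ w := hφ.differentiableAt (hB.mem_nhds hw)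
  have hf1 : DifferentiableAt ℝ f (φ w) := SmS.differentiableAt (isOpen_Hc 0) hf (hm w hw)
  have hf2 : DifferentiableAt ℝ (fun w => f (φ w)) w :=
    SmS.differentiableAt hB (SmS.compS hB hf hφ hm) hw
  have h1 : DifferentiableAt ℝ (fun w => deriv φ w * (starRingEnd ℂ) (deriv φ w)) w := ha2.mul ha3
  rw [dz_mul hf2 h1, dz_comp hf1 hφ', dz_mul ha2 ha3, dz_of_holo ha', dz_conj ha2,
    dzb_of_holo ha', map_zero]
  ring

theorem ahlH_dzb (hB : IsOpen B) (hf : SmS (Hc 0) f) (hre : ∀ z ∈ Hc 0, (f z).im = 0)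
    (hφ : DifferentiableOn ℂ φ B) (hm : ∀ w ∈ B, φ w ∈ Hc 0) (hw : w ∈ B) :
    dzb (dz (fun w => f (φ w) * (deriv φ w * (starRingEnd ℂ) (deriv φ w)))) w =
      (starRingEnd ℂ) (deriv (deriv φ) w) *
        (dz f (φ w) * deriv φ w ^ 2 + f (φ w) * deriv (deriv φ) w) +
      (starRingEnd ℂ) (deriv φ w) ^ 2 * (dzb (dz f) (φ w) * deriv φ w ^ 2 +
        (starRingEnd ℂ) (dz f (φ w)) * deriv (deriv φ) w) := by
  have ha : DifferentiableOn ℂ (deriv φ) B := hφ.deriv hB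
  have hb : DifferentiableOn ℂ (deriv (deriv φ)) B := ha.deriv hB
  have ha' : DifferentiableAt ℂ (deriv φ) w := ha.differentiableAt (hB.mem_nhds hw)
  have hb' : DifferentiableAt ℂ (deriv (deriv φ)) w := hb.differentiableAt (hB.mem_nhds hw)
  have ha2 : DifferentiableAt ℝ (deriv φ) w := ha'.restrictScalars ℝ
  have hb2 : DifferentiableAt ℝ (deriv (deriv φ)) w := hb'.restrictScalars ℝ
  have ha3 : DifferentiableAt ℝ (fun w => (starRingEnd ℂ) (deriv φ w)) w :=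
    (conjCLE : ℂ →L[ℝ] ℂ).differentiableAt.comp w ha2
  have hφ' : DifferentiableAt ℂ φ w := hφ.differentiableAt (hB.mem_nhds hw)
  have hdf := SmS.dz (isOpen_Hc 0) hf
  have hf1 : DifferentiableAt ℝ f (φ w) := SmS.differentiableAt (isOpen_Hc 0) hf (hm w hw)
  have hf2 : DifferentiableAt ℝ (fun w => f (φ w)) w :=
    SmS.differentiableAt hB (SmS.compS hB hf hφ hm) hw
  have hg1 : DifferentiableAt ℝ (dz f) (φ w) := SmS.differentiableAt (isOpen_Hc 0) hdf (hm w hw)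
  have hg2 : DifferentiableAt ℝ (fun w => dz f (φ w)) w :=
    SmS.differentiableAt hB (SmS.compS hB hdf hφ hm) hw
  have h1 : dz (fun w => f (φ w) * (deriv φ w * (starRingEnd ℂ) (deriv φ w))) =ᶠ[nhds w]
      fun w => (starRingEnd ℂ) (deriv φ w) *
        (dz f (φ w) * (deriv φ w * deriv φ w) + f (φ w) * deriv (deriv φ) w) := by
    filter_upwards [hB.mem_nhds hw] with x hx
    rw [ahlH_dz hB hf hφ hm hx, pow_two]
  have h2 : DifferentiableAt ℝ (fun w => deriv φ w * deriv φ w) w := ha2.mul ha2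
  have h3 : DifferentiableAt ℝ (fun w => dz f (φ w) * (deriv φ w * deriv φ w)) w := hg2.mul h2
  have h4 : DifferentiableAt ℝ (fun w => f (φ w) * deriv (deriv φ) w) w := hf2.mul hb2
  have h5 : DifferentiableAt ℝ (fun w => dz f (φ w) * (deriv φ w * deriv φ w) +
      f (φ w) * deriv (deriv φ) w) w := h3.add h4
  have h6 : dzb f (φ w) = (starRingEnd ℂ) (dz f (φ w)) := by
    rw [← dzb_conj hf1]
    refine dzb_congr ?_
    filter_upwards [(isOpen_Hc 0).mem_nhds (hm w hw)] with x hx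
    exact (conj_eq_iff_im.2 (hre x hx)).symm
  rw [dzb_congr h1, dzb_mul ha3 h5, dzb_add h3 h4, dzb_mul hg2 h2, dzb_mul ha2 ha2,
    dzb_of_holo ha', dzb_mul hf2 hb2, dzb_of_holo hb', dzb_comp hf1 hφ', dzb_comp hg1 hφ',
    dzb_conj ha2, dz_of_holo ha', h6]
  ring

theorem ahlH_alg {F : ℝ} {a b p q : ℂ} :
    (F * normSq a) * ((starRingEnd ℂ) b * (p * a ^ 2 + F * b) +
      (starRingEnd ℂ) a ^ 2 * (q * a ^ 2 + (starRingEnd ℂ) p * b)).re -
        normSq ((starRingEnd ℂ) a * (p * a ^ 2 + F * b)) =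
      normSq a ^ 3 * (F * q.re - normSq p) := by
  simp only [normSq_apply, pow_two, mul_re, mul_im, add_re, add_im, conj_re, conj_im, ofReal_re,
    ofReal_im]
  ring

end Main

/-- the Ahlfors lemma with the complete metric of the half plane -/
theorem ahlfors_H {f : ℂ → ℂ} (hf : SmS (Hc 0) f) (hre : ∀ z ∈ Hc 0, (f z).im = 0)
    (hpos : ∀ z ∈ Hc 0, 0 ≤ (f z).re) {κ : ℝ} (hκ : 0 < κ)
    (hcurv : ∀ z ∈ Hc 0,
      κ * (f z).re ^ 3 ≤ (f z).re * (dzb (dz f) z).re - ‖dz f z‖ ^ 2)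
    {z : ℂ} (hz : z ∈ Hc 0) : (f z).re ≤ 1 / (2 * κ * z.im ^ 2) := by
  have hy : 0 < z.im := hz
  set φ : ℂ → ℂ := ahlH_phi z.re z.im with hφdef
  set B : Set ℂ := Metric.ball (0 : ℂ) 1 with hBdef
  have hB : IsOpen B := Metric.isOpen_ball
  have hφ : DifferentiableOn ℂ φ B := fun w hw =>
    (ahlH_hasDeriv z.re z.im hw).differentiableAt.differentiableWithinAt
  have hm : ∀ w ∈ B, φ w ∈ Hc 0 := fun w hw => ahlH_mem hy hw
  have ha : DifferentiableOn ℂ (deriv φ) B := hφ.deriv hB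
  have hsa : SmS B (deriv φ) := SmS.of_holo hB ha
  have hsb : SmS B (fun w => (starRingEnd ℂ) (deriv φ w)) :=
    (conjCLE : ℂ →L[ℝ] ℂ).contDiff.comp_contDiffOn hsa
  set g : ℂ → ℂ := fun w => f (φ w) * (deriv φ w * (starRingEnd ℂ) (deriv φ w)) with hgdef
  have hg : SmS B g := SmS.mulS (SmS.compS hB hf hφ hm) (SmS.mulS hsa hsb)
  have hfr : ∀ z ∈ Hc 0, f z = ((f z).re : ℂ) := by
    intro z hz
    apply Complex.ext
    · simp
    · simpa using hre z hz
  have hgv : ∀ w ∈ B, g w = (((f (φ w)).re * normSq (deriv φ w) : ℝ) : ℂ) := by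
    intro w hw
    rw [hgdef]
    simp only
    rw [mul_conj, hfr _ (hm w hw), ofReal_mul, ofReal_re]
  have hgim : ∀ w ∈ B, (g w).im = 0 := fun w hw => by rw [hgv w hw, ofReal_im]
  have hgre : ∀ w ∈ B, (g w).re = (f (φ w)).re * normSq (deriv φ w) := fun w hw => by
    rw [hgv w hw, ofReal_re]
  have hgpos : ∀ w ∈ B, 0 ≤ (g w).re := fun w hw => by
    rw [hgre w hw]
    exact mul_nonneg (hpos _ (hm w hw)) (normSq_nonneg _)
  have hgc : ∀ w ∈ B, κ * (g w).re ^ 3 ≤ (g w).re * (dzb (dz g) w).re - ‖dz g w‖ ^ 2 := by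
    intro w hw
    have h1 := hcurv _ (hm w hw)
    rw [← normSq_eq_norm_sq] at h1
    rw [ahlH_dzb hB hf hre hφ hm hw, ahlH_dz hB hf hφ hm hw, hgre w hw, ← normSq_eq_norm_sq]
    have h2 := @ahlH_alg (f (φ w)).re (deriv φ w) (deriv (deriv φ) w) (dz f (φ w))
      (dzb (dz f) (φ w))
    rw [← hfr _ (hm w hw)] at h2
    rw [h2]
    have h3 := mul_le_mul_of_nonneg_left h1 (pow_nonneg (normSq_nonneg (deriv φ w)) 3)
    refine le_trans (le_of_eq ?_) h3
    ring
  have h0 : (0 : ℂ) ∈ B := Metric.mem_ball_self one_pos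
  have hd0 : normSq (deriv φ 0) = 4 * z.im ^ 2 := by
    rw [(ahlH_hasDeriv z.re z.im h0).deriv]
    simp only [map_mul, normSq_I, normSq_ofReal, map_div₀, map_pow, sub_zero, map_one]
    have h4 : normSq (2 : ℂ) = 4 := by
      rw [show (2 : ℂ) = ((2 : ℝ) : ℂ) by norm_num, normSq_ofReal]
      norm_num
    rw [h4]
    ring
  have hp0 : φ 0 = z := by
    rw [hφdef, ahlH_phi]
    apply Complex.ext <;> simp
  have key : ∀ r : ℝ, 0 < r → r < 1 → (f z).re * (4 * z.im ^ 2) * κ * r ^ 2 ≤ 2 := by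
    intro r hr hr1
    have h1 := ahlfors_disc hB hg hgim hgpos hκ hgc hr
      (Metric.closedBall_subset_ball hr1)
    rw [hgre 0 h0, hd0, hp0, le_div_iff₀ (by positivity)] at h1
    refine le_trans (le_of_eq ?_) h1
    ring
  have ht : Filter.Tendsto (fun r : ℝ => (f z).re * (4 * z.im ^ 2) * κ * r ^ 2)
      (nhdsWithin 1 (Set.Iio 1)) (nhds ((f z).re * (4 * z.im ^ 2) * κ * 1 ^ 2)) :=
    (Continuous.tendsto (by fun_prop) 1).mono_left nhdsWithin_le_nhds
  have hle := le_of_tendsto ht (Filter.mem_of_superset (Ioo_mem_nhdsLT (zero_lt_one' ℝ))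
    fun r hr => key r hr.1 hr.2)
  rw [le_div_iff₀ (by positivity)]
  nlinarith [hle]

end US38
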