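import Pool.Agent.LibUS38.Kap2

/-! Properties of the cutoff function. -/

open Matrix Complex
open UpperHalfPlane hiding I
open scoped ContDiff

namespace US38

open SP38

variable {ι : Type} [Fintype ι] {Δ : Subgroup (Matrix.SpecialLinearGroup (Fin 2) ℝ)}
  {σ : ι → Matrix.SpecialLinearGroup (Fin 2) ℝ} {h : ι → ℝ} {D : Set ℍ} {z : ℂ} {Y : ℝ}

theorem kap3_kk_zero (hY : 1 ≤ Y) : ∀ y, y ≤ 1 → kk Y y = 0 := fun _ hy =>
  kk_zero (by linarith) (by linarith)

theorem kap_range (hc : IsCurve Δ σ h D) (hY : 1 ≤ Y) (hz : z ∈ Hc 0) :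
    (kap Δ σ h Y z).im = 0 ∧ 0 ≤ (kap Δ σ h Y z).re ∧ (kap Δ σ h Y z).re ≤ 1 := by
  rcases height_cases (Δ := Δ) (σ := σ) z hz with hall | ⟨i, δ, hδ, ζ, hζ, he⟩
  · have h0 : kap Δ σ h Y z = 0 := csum_core (kap3_kk_zero hY) hz hall
    rw [h0]
    simp
  · have h0 : kap Δ σ h Y z = (kk Y ζ.im : ℂ) := by
      unfold kap
      rw [← csum_invariant (kk Y) hδ hz, he]
      exact csum_cusp hc (kap3_kk_zero hY) i hζ
    rw [h0]
    exact ⟨Complex.ofReal_im _, by rw [Complex.ofReal_re]; exact kk_nonneg _ _,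
      by rw [Complex.ofReal_re]; exact kk_le_one _ _⟩

/-- derivative of a function of the height -/
theorem kap3_dzb_im (b : ℝ → ℝ) (hb : Differentiable ℝ b) {ζ : ℂ} (h0 : deriv b ζ.im = 0) :
    dzb (fun w : ℂ => ((b w.im : ℝ) : ℂ)) ζ = 0 := by
  have h1 : HasFDerivAt (fun w : ℂ => b w.im)
      ((ContinuousLinearMap.smulRight (1 : ℝ →L[ℝ] ℝ) (deriv b ζ.im)).comp Complex.imCLM) ζ :=
    HasFDerivAt.comp ζ (hb ζ.im).hasDerivAt.hasFDerivAt Complex.imCLM.hasFDerivAt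
  have h2 : HasFDerivAt (fun w : ℂ => ((b w.im : ℝ) : ℂ)) (Complex.ofRealCLM.comp
      ((ContinuousLinearMap.smulRight (1 : ℝ →L[ℝ] ℝ) (deriv b ζ.im)).comp Complex.imCLM)) ζ :=
    HasFDerivAt.comp ζ Complex.ofRealCLM.hasFDerivAt h1
  unfold dzb
  rw [h2.fderiv, h0]
  simp

/-- where `dzb kap` does not vanish, the bump `kk (Y/2) - kk (2Y)` is `1` and `kap ≠ 1` -/
theorem dzb_kap (hc : IsCurve Δ σ h D) (hY : 2 ≤ Y) (hz : z ∈ Hc 0)
    (hne : dzb (kap Δ σ h Y) z ≠ 0) :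
    csum Δ σ h (fun y => kk (Y / 2) y - kk (2 * Y) y) z = 1 ∧ kap Δ σ h Y z ≠ 1 := by
  have hY0 : 0 < Y := by linarith
  rcases height_cases (Δ := Δ) (σ := σ) z hz with hall | ⟨i, δ, hδ, ζ, hζ, he⟩
  · exfalso
    apply hne
    have hLF : ∀ i, LF Δ (strf (σ i) (h i) (kk Y)) := fun i =>
      strf_LF hc i one_pos (kap3_kk_zero (by linarith))
    have hsm : ∀ i, SmS (Hc 0) (strf (σ i) (h i) (kk Y)) := fun i =>
      strf_smooth (σ i) (h i) (kk_smooth Y)
    have h1 : dzb (kap Δ σ h Y) z = ∑ i, dzb (Per Δ (strf (σ i) (h i) (kk Y))) z :=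
      WirtM_dzb_sum _ fun i _ => (SmS_Per (hLF i) (hsm i)).differentiableAt (isOpen_Hc 0) hz
    rw [h1]
    refine Finset.sum_eq_zero fun i _ => ?_
    rw [dzb_Per (hLF i) (hsm i) hz]
    have h2 : ∀ δ : Δ, dzb (strf (σ i) (h i) (kk Y))
        (mob (δ : Matrix.SpecialLinearGroup (Fin 2) ℝ) z) *
        (starRingEnd ℂ) (deriv (mob (δ : Matrix.SpecialLinearGroup (Fin 2) ℝ)) z) = 0 := by
      intro δ
      have hw : mob (δ : Matrix.SpecialLinearGroup (Fin 2) ℝ) z ∈ Hc 0 := mob_mem _ hz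
      have hcont : ContinuousAt (fun w => (mob (σ i)⁻¹ w).im)
          (mob (δ : Matrix.SpecialLinearGroup (Fin 2) ℝ) z) :=
        Complex.continuous_im.continuousAt.comp
          (((mob_holo (σ i)⁻¹).differentiableAt ((isOpen_Hc 0).mem_nhds hw)).continuousAt)
      have hlt : (mob (σ i)⁻¹ (mob (δ : Matrix.SpecialLinearGroup (Fin 2) ℝ) z)).im < Y :=
        lt_of_le_of_lt (hall i δ δ.2) (by linarith)
      have h3 : dzb (strf (σ i) (h i) (kk Y)) (mob (δ : Matrix.SpecialLinearGroup (Fin 2) ℝ) z) =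
          dzb (fun _ => 0) (mob (δ : Matrix.SpecialLinearGroup (Fin 2) ℝ) z) := by
        apply dzb_congr
        filter_upwards [hcont.eventually (gt_mem_nhds hlt)] with w hw'
        unfold strf
        rw [kk_zero hY0 hw'.le, mul_zero, Complex.ofReal_zero]
      rw [h3, dzb_const, zero_mul]
    rw [finsum_congr h2, finsum_zero]
  · have hζ1 : 1 < ζ.im := mem_Hc.1 hζ
    have hζ0 : ζ ∈ Hc 0 := mem_Hc.2 (by linarith)
    -- the local coordinate
    have hψ : mob (σ i)⁻¹ (mob δ z) = ζ := by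
      rw [he]
      exact (mob_inv_mob (σ i) hζ0).1
    have hδz : mob δ z ∈ Hc 0 := mob_mem δ hz
    have hd1 : DifferentiableAt ℂ (mob δ) z :=
      (mob_holo δ).differentiableAt ((isOpen_Hc 0).mem_nhds hz)
    have hd2 : DifferentiableAt ℂ (mob (σ i)⁻¹) (mob δ z) :=
      (mob_holo (σ i)⁻¹).differentiableAt ((isOpen_Hc 0).mem_nhds hδz)
    have hd : DifferentiableAt ℂ (fun w => mob (σ i)⁻¹ (mob δ w)) z := hd2.comp z hd1
    have hcont : ContinuousAt (fun w => (mob (σ i)⁻¹ (mob δ w)).im) z :=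
      Complex.continuous_im.continuousAt.comp hd.continuousAt
    have hev : ∀ᶠ w in nhds z, kap Δ σ h Y w =
        (fun v : ℂ => ((kk Y v.im : ℝ) : ℂ)) (mob (σ i)⁻¹ (mob δ w)) := by
      have hlt : 1 < (mob (σ i)⁻¹ (mob δ z)).im := by rw [hψ]; exact hζ1
      filter_upwards [hcont.eventually (lt_mem_nhds hlt), (isOpen_Hc 0).mem_nhds hz] with w hw hw0
      have h1 : mob δ w = mob (σ i) (mob (σ i)⁻¹ (mob δ w)) :=
        ((mob_inv_mob (σ i) (mob_mem δ hw0)).2).symm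
      unfold kap
      rw [← csum_invariant (kk Y) hδ hw0, h1,
        csum_cusp hc (kap3_kk_zero (by linarith)) i (mem_Hc.2 hw), ← h1]
    have hkk : Differentiable ℝ (kk Y) := (kk_smooth Y).differentiable (by simp)
    have hF : DifferentiableAt ℝ (fun v : ℂ => ((kk Y v.im : ℝ) : ℂ))
        (mob (σ i)⁻¹ (mob δ z)) := by
      have h1 : Differentiable ℝ (fun v : ℂ => ((kk Y v.im : ℝ) : ℂ)) :=
        Complex.ofRealCLM.differentiable.comp (hkk.comp Complex.imCLM.differentiable)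
      exact h1 _
    have hdz : dzb (kap Δ σ h Y) z = dzb (fun v : ℂ => ((kk Y v.im : ℝ) : ℂ)) ζ *
        (starRingEnd ℂ) (deriv (fun w => mob (σ i)⁻¹ (mob δ w)) z) := by
      rw [dzb_congr hev, dzb_comp (φ := fun w => mob (σ i)⁻¹ (mob δ w)) hF hd, hψ]
    have hmid : Y < ζ.im ∧ ζ.im < 2 * Y := by
      by_contra hcon
      apply hne
      have h1 : ζ.im ≤ Y ∨ 2 * Y ≤ ζ.im := by
        by_contra h2
        push Not at h2
        exact hcon h2
      rw [hdz, kap3_dzb_im (kk Y) hkk (kk_deriv_zero hY0 h1), zero_mul]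
    constructor
    · rw [← csum_invariant _ hδ hz, he, csum_cusp hc _ i hζ]
      · rw [kk_one (by linarith) (by linarith : 2 * (Y / 2) ≤ ζ.im),
          kk_zero (by linarith) (by linarith : ζ.im ≤ 2 * Y)]
        simp
      · intro y hy
        rw [kk_zero (by linarith) (by linarith : y ≤ Y / 2),
          kk_zero (by linarith) (by linarith : y ≤ 2 * Y), sub_zero]
    · have h1 : kap Δ σ h Y z = (kk Y ζ.im : ℂ) := by
        unfold kap
        rw [← csum_invariant (kk Y) hδ hz, he]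
        exact csum_cusp hc (kap3_kk_zero (by linarith)) i hζ
      rw [h1]
      intro h2
      have h3 : kk Y ζ.im = 1 := by exact_mod_cast h2
      exact absurd h3 (kk_lt_one hY0 hmid.2).ne

/-- a compact part of `ℍ` lies where `kap = 0` -/
theorem kap_eventually_zero (hc : IsCurve Δ σ h D) {L : Set ℂ} (hL : IsCompact L)
    (hLU : L ⊆ Hc 0) : ∃ Y₀ : ℝ, ∀ Y, Y₀ ≤ Y → ∀ z ∈ L, kap Δ σ h Y z = 0 := by
  obtain ⟨Y₁, hY₁⟩ := hc.height_bdd (per1_compact hL hLU)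
  refine ⟨max Y₁ 1, fun Y hY z hz => ?_⟩
  have h1 : Y₁ ≤ Y := (le_max_left _ _).trans hY
  have h2 : 1 ≤ Y := (le_max_right _ _).trans hY
  have hz0 := hLU hz
  refine csum_core (y₀ := Y) (fun y hy => kk_zero (by linarith) hy) hz0 fun i δ hδ => ?_
  obtain ⟨τ, rfl⟩ : ∃ τ : ℍ, (τ : ℂ) = z := ⟨⟨z, mem_Hc.1 hz0⟩, rfl⟩
  rw [mob_coe, mob_coe]
  exact (hY₁ i δ hδ τ hz).trans h1

end US38
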