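import Pool.Agent.LibSP38.Gro1

/-! A bump function. -/

open Matrix Complex
open UpperHalfPlane hiding I
open scoped ContDiff

namespace US38

open SP38

variable {ι : Type} [Fintype ι] {Δ : Subgroup (Matrix.SpecialLinearGroup (Fin 2) ℝ)}
  {σ : ι → Matrix.SpecialLinearGroup (Fin 2) ℝ} {h : ι → ℝ} {D : Set ℍ} {z : ℂ} {Y : ℝ}

/-- a bump function which is positive on a given compact set -/
theorem exists_bump {L : Set ℂ} (hL : IsCompact L) (hLU : L ⊆ Hc 0) :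
    ∃ b : ℂ → ℂ, SmS Set.univ b ∧ (∃ K : Set ℂ, IsCompact K ∧ K ⊆ Hc 0 ∧ ∀ z, z ∉ K → b z = 0) ∧
      (∀ z, (b z).im = 0 ∧ 0 ≤ (b z).re) ∧ ∀ z ∈ L, 0 < (b z).re := by
  obtain ⟨K, hK, hLK, hKU⟩ := exists_compact_between hL (isOpen_Hc 0) hLU
  obtain ⟨f, hf1, hf2, hf3⟩ := IsOpen.exists_contDiff_support_eq (n := ⊤)
    (isOpen_interior (s := K))
  have hnn : ∀ z, 0 ≤ f z := fun z => (hf3 ⟨z, rfl⟩).1
  refine ⟨fun z => (f z : ℂ), ?_, ⟨K, hK, hKU, fun z hz => ?_⟩, fun z => ⟨ofReal_im _, ?_⟩,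
    fun z hz => ?_⟩
  · exact (Complex.ofRealCLM.contDiff.comp hf2).contDiffOn
  · have h1 : z ∉ Function.support f := by
      rw [hf1]
      exact fun h => hz (interior_subset h)
    show (f z : ℂ) = 0
    rw [Function.notMem_support.1 h1, ofReal_zero]
  · show 0 ≤ ((f z : ℂ)).re
    rw [ofReal_re]
    exact hnn z
  · show 0 < ((f z : ℂ)).re
    rw [ofReal_re]
    have h1 : z ∈ Function.support f := by
      rw [hf1]
      exact hLK hz
    exact lt_of_le_of_ne (hnn z) (Ne.symm h1)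

end US38
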