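import Pool.Agent.LibUS38.Geo2
import Pool.Agent.LibUS38.Kap3
import Pool.Agent.LibUS38.Part0

/-! A partition of unity. -/

open Matrix Complex
open UpperHalfPlane hiding I
open scoped ContDiff

namespace US38

open SP38

variable {ι : Type} [Fintype ι] {Δ : Subgroup (Matrix.SpecialLinearGroup (Fin 2) ℝ)}
  {σ : ι → Matrix.SpecialLinearGroup (Fin 2) ℝ} {h : ι → ℝ} {D : Set ℍ} {z : ℂ} {Y : ℝ}

theorem part_per_real {b : ℂ → ℂ} (hb : LF Δ b) (hr : ∀ z, (b z).im = 0 ∧ 0 ≤ (b z).re)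
    (hz : z ∈ Hc 0) : (Per Δ b z).im = 0 ∧ 0 ≤ (Per Δ b z).re ∧
      ∀ δ ∈ Δ, 0 < (b (mob δ z)).re → 0 < (Per Δ b z).re := by
  obtain ⟨F, hF⟩ := Per_eventually hb hz
  obtain ⟨h1, h2⟩ := hF.self_of_nhds
  rw [h1]
  refine ⟨?_, ?_, fun δ hδ hpos => ?_⟩
  · rw [im_sum]
    exact Finset.sum_eq_zero fun δ _ => (hr _).1
  · rw [re_sum]
    exact Finset.sum_nonneg fun δ _ => (hr _).2
  · rw [re_sum]
    refine Finset.sum_pos' (fun δ _ => (hr _).2) ⟨⟨δ, hδ⟩, ?_, hpos⟩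
    by_contra hn
    rw [h2 ⟨δ, hδ⟩ hn] at hpos
    simp at hpos

theorem part_kap (hc : IsCurve Δ σ h D) (hY : 1 ≤ Y) {δ : Matrix.SpecialLinearGroup (Fin 2) ℝ}
    (hδ : δ ∈ Δ) (hz : z ∈ Hc 0) {i : ι} {ζ : ℂ} (hζ : ζ ∈ Hc 1) (he : mob δ z = mob (σ i) ζ) :
    kap Δ σ h Y z = (kk Y ζ.im : ℂ) := by
  unfold kap
  rw [← csum_invariant (kk Y) hδ hz, he, csum_cusp hc (fun y hy => kk_zero (by linarith)
    (by linarith)) i hζ]

/-- a partition of unity on the part of height at most `2 Y` -/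
theorem exists_partition (hc : IsCurve Δ σ h D) (hY : 1 ≤ Y) :
    ∃ φ : ℂ → ℂ, SmS Set.univ φ ∧
      (∃ K : Set ℂ, IsCompact K ∧ K ⊆ Hc 0 ∧ ∀ z, z ∉ K → φ z = 0) ∧
      (∀ z, (φ z).im = 0 ∧ 0 ≤ (φ z).re) ∧
      (∀ z ∈ Hc 0, (Per Δ φ z).im = 0 ∧ (Per Δ φ z).re ≤ 1) ∧
      (∀ z ∈ Hc 0, kap Δ σ h Y z ≠ 1 → Per Δ φ z = 1) := by
  obtain ⟨L', hL', hcov⟩ := hc.exists_compact (4 * Y)
  have hL : IsCompact ((fun τ : ℍ => (τ : ℂ)) '' L') := hL'.image continuous_coe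
  have hLU : (fun τ : ℍ => (τ : ℂ)) '' L' ⊆ Hc 0 := by
    rintro _ ⟨τ, _, rfl⟩
    exact τ.im_pos
  obtain ⟨b, hbs, ⟨K, hK, hKU, hbK⟩, hbr, hbL⟩ := exists_bump hL hLU
  have hLF : LF Δ b := LF_of_compact hc hK hKU hbK
  have hY2 : (1 : ℝ) ≤ 2 * Y := by linarith
  set K2 : ℂ → ℂ := kap Δ σ h (2 * Y) with hK2
  set den : ℂ → ℂ := fun z => Per Δ b z + K2 z with hden
  -- real and positive
  have hPB : ∀ z ∈ Hc 0, (Per Δ b z).im = 0 ∧ 0 ≤ (Per Δ b z).re := fun z hz =>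
    ⟨(part_per_real hLF hbr hz).1, (part_per_real hLF hbr hz).2.1⟩
  have hKr : ∀ z ∈ Hc 0, (K2 z).im = 0 ∧ 0 ≤ (K2 z).re := fun z hz =>
    ⟨(kap_range hc hY2 hz).1, (kap_range hc hY2 hz).2.1⟩
  have hpos : ∀ z ∈ Hc 0, 0 < (Per Δ b z).re + (K2 z).re := by
    intro z hz
    by_cases hh : ∀ i, ∀ δ ∈ Δ, (mob (σ i)⁻¹ (mob δ z)).im ≤ 4 * Y
    · obtain ⟨δ, hδ, hδL⟩ := hcov ⟨z, hz⟩ (fun i δ hδ => by
        have h1 := hh i δ hδ
        have h2 : mob (σ i)⁻¹ (mob δ z) = (((σ i)⁻¹ • (δ • (⟨z, hz⟩ : ℍ)) : ℍ) : ℂ) := by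
          rw [← mob_coe, ← mob_coe]
        rw [h2] at h1
        exact h1)
      have h3 : 0 < (b (mob δ z)).re := hbL _ ⟨_, hδL, by
        show ((δ • (⟨z, hz⟩ : ℍ) : ℍ) : ℂ) = mob δ z
        rw [← mob_coe]⟩
      have h4 := (part_per_real hLF hbr hz).2.2 δ hδ h3
      linarith [(hKr z hz).2]
    · push Not at hh
      obtain ⟨i, δ, hδ, h1⟩ := hh
      have hζ : mob (σ i)⁻¹ (mob δ z) ∈ Hc 1 := by
        rw [mem_Hc]
        linarith
      have h2 := part_kap hc hY2 hδ hz hζ ((mob_inv_mob (σ i) (mob_mem δ hz)).2).symm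
      have h3 : K2 z = 1 := by
        rw [hK2, h2, kk_one (by linarith) (by linarith)]
        simp
      rw [h3, one_re]
      linarith [(hPB z hz).2]
  have hcast : ∀ z ∈ Hc 0, Per Δ b z = ((Per Δ b z).re : ℂ) ∧ K2 z = ((K2 z).re : ℂ) :=
    fun z hz => ⟨Complex.ext rfl (by rw [(hPB z hz).1, ofReal_im]),
      Complex.ext rfl (by rw [(hKr z hz).1, ofReal_im])⟩
  have hdenr : ∀ z ∈ Hc 0, den z = (((Per Δ b z).re + (K2 z).re : ℝ) : ℂ) := fun z hz => by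
    rw [hden]
    show Per Δ b z + K2 z = _
    rw [ofReal_add, ← (hcast z hz).1, ← (hcast z hz).2]
  have hden0 : ∀ z ∈ Hc 0, den z ≠ 0 := fun z hz => by
    rw [hdenr z hz]
    exact ofReal_ne_zero.2 (hpos z hz).ne'
  have hinv : ∀ δ ∈ Δ, ∀ z ∈ Hc 0, (fun z => (den z)⁻¹) (mob δ z) = (fun z => (den z)⁻¹) z := by
    intro δ hδ z hz
    show (Per Δ b (mob δ z) + K2 (mob δ z))⁻¹ = (Per Δ b z + K2 z)⁻¹
    rw [Per_invariant b hδ hz, hK2]
    unfold kap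
    rw [csum_invariant _ hδ hz]
  have hPer : ∀ z ∈ Hc 0, Per Δ (fun z => b z * (den z)⁻¹) z =
      (((Per Δ b z).re / ((Per Δ b z).re + (K2 z).re) : ℝ) : ℂ) := by
    intro z hz
    rw [Per_mul (f := b) (g := fun z => (den z)⁻¹) hinv hz]
    show Per Δ b z * (den z)⁻¹ = _
    rw [hdenr z hz, ofReal_div, div_eq_mul_inv, ← (hcast z hz).1]
  refine ⟨fun z => b z * (den z)⁻¹, ?_, ⟨K, hK, hKU, fun z hz => ?_⟩, ?_, ?_, ?_⟩
  · intro z _
    by_cases hz : z ∈ Hc 0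
    · have hn : Hc 0 ∈ nhds z := (isOpen_Hc 0).mem_nhds hz
      have h1 : ContDiffAt ℝ ∞ b z := (hbs z (Set.mem_univ z)).contDiffAt Filter.univ_mem
      have h2 : ContDiffAt ℝ ∞ (Per Δ b) z :=
        (SmS_Per hLF (fun w _ => (hbs w (Set.mem_univ w)).mono (Set.subset_univ _)) z hz).contDiffAt
          hn
      have h3 : ContDiffAt ℝ ∞ K2 z := (csum_smooth hc (kk_smooth (2 * Y)) (fun y hy =>
        kk_zero (by linarith) (by linarith)) z hz).contDiffAt hn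
      exact (h1.mul ((h2.add h3).inv (hden0 z hz))).contDiffWithinAt
    · have hzK : z ∉ K := fun h => hz (hKU h)
      have h1 : (fun z => b z * (den z)⁻¹) =ᶠ[nhds z] fun _ => 0 := by
        filter_upwards [hK.isClosed.isOpen_compl.mem_nhds hzK] with w hw
        rw [hbK w hw, zero_mul]
      exact (contDiffAt_const.congr_of_eventuallyEq h1).contDiffWithinAt
  · show b z * (den z)⁻¹ = 0
    rw [hbK z hz, zero_mul]
  · intro z
    show (b z * (den z)⁻¹).im = 0 ∧ 0 ≤ (b z * (den z)⁻¹).re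
    by_cases hz : z ∈ Hc 0
    · have hb : b z = ((b z).re : ℂ) := Complex.ext rfl (by rw [(hbr z).1, ofReal_im])
      rw [hdenr z hz, hb, ← ofReal_inv, ← ofReal_mul, ofReal_im, ofReal_re]
      exact ⟨rfl, mul_nonneg (hbr z).2 (inv_nonneg.2 (hpos z hz).le)⟩
    · rw [hbK z fun h => hz (hKU h), zero_mul]
      simp
  · intro z hz
    rw [hPer z hz, ofReal_im, ofReal_re]
    exact ⟨rfl, (div_le_one (hpos z hz)).2 (by linarith [(hKr z hz).2])⟩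
  · intro z hz hne
    have hK0 : K2 z = 0 := by
      rcases height_cases (Δ := Δ) (σ := σ) z hz with h1 | ⟨i, δ, hδ, ζ, hζ, he⟩
      · exact csum_core (y₀ := 2 * Y) (fun y hy => kk_zero (by linarith) hy) hz
          fun i δ hδ => (h1 i δ hδ).trans hY2
      · rw [part_kap hc hY hδ hz hζ he] at hne
        have h2 : ζ.im < 2 * Y := by
          by_contra hc'
          push Not at hc'
          apply hne
          rw [kk_one (by linarith) hc', ofReal_one]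
        rw [hK2, part_kap hc hY2 hδ hz hζ he, kk_zero (by linarith) h2.le, ofReal_zero]
    have h1 := hpos z hz
    rw [hPer z hz, hK0, zero_re, add_zero]
    rw [hK0, zero_re, add_zero] at h1
    rw [div_self h1.ne', ofReal_one]

end US38
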