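import Pool.Agent.LibUS38.Flu2
import Pool.Agent.LibUS38.Part

/-! The global inequality. -/

open Matrix Complex MeasureTheory
open UpperHalfPlane hiding I
open scoped ContDiff

namespace US38

open SP38

variable {ι : Type} [Fintype ι] {Δ : Subgroup (Matrix.SpecialLinearGroup (Fin 2) ℝ)}
  {σ : ι → Matrix.SpecialLinearGroup (Fin 2) ℝ} {h : ι → ℝ} {D : Set ℍ} {z : ℂ} {Y κ : ℝ}

/-- `rho` of an invariant form is an invariant density -/
theorem rho_invariant {j : ℂ → ℂ} (hj : SmS (Hc 0) j)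
    (hinv : ∀ δ ∈ Δ, ∀ z ∈ Hc 0, pb (mob δ) j z = j z) {δ : Matrix.SpecialLinearGroup (Fin 2) ℝ}
    (hδ : δ ∈ Δ) (hz : z ∈ Hc 0) :
    rho j (mob δ z) * (mob δ z).im ^ 2 = rho j z * z.im ^ 2 := by
  have h1 := rho_pb (isOpen_Hc 0) (isOpen_Hc 0) hj (mob_holo δ) (fun z hz => mob_mem δ hz) hz
  have h2 : rho (pb (mob δ) j) z = rho j z := by
    unfold rho
    rw [dzb_congr]
    filter_upwards [(isOpen_Hc 0).mem_nhds hz] with w hw
    exact hinv δ hδ w hw
  rw [im_mob δ hz, ← h2, h1]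
  ring

theorem glob_integrable {E : Type*} [NormedAddCommGroup E] {f : ℂ → E}
    (hf : ContinuousOn f (Hc 0)) {K : Set ℂ} (hK : IsCompact K) (hKU : K ⊆ Hc 0)
    (h0 : ∀ z, z ∉ K → f z = 0) : IntegrableOn f (Hc 0) := by
  have h1 : IntegrableOn f K := (hf.mono hKU).integrableOn_compact hK
  have h2 : Integrable f := (integrableOn_iff_integrable_of_support_subset fun z hz => by
    by_contra hn
    exact hz (h0 z hn)).1 h1
  exact h2.integrableOn

theorem glob_strip (hY : 2 ≤ Y) {J : ℂ → ℂ} {H : ℝ} (hH : 0 < H) (hκ : 0 ≤ κ)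
    (hflux : ∀ Y : ℝ, 1 ≤ Y → flux J H Y ≤ H * κ / Y) :
    ∫ y in Y..(2 * Y), deriv (kk Y) y * flux J H y ≤ H * κ / Y := by
  have hY0 : 0 < Y := by linarith
  by_cases hi : IntervalIntegrable (fun y => deriv (kk Y) y * flux J H y) volume Y (2 * Y)
  · have hc : Continuous (deriv (kk Y)) := (kk_smooth Y).continuous_deriv (by simp)
    have h1 : ∫ y in Y..(2 * Y), deriv (kk Y) y * flux J H y ≤
        ∫ y in Y..(2 * Y), deriv (kk Y) y * (H * κ / Y) := by
      refine intervalIntegral.integral_mono_on (by linarith) hi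
        ((hc.mul continuous_const).intervalIntegrable _ _) fun y hy => ?_
      refine mul_le_mul_of_nonneg_left ?_ (kk_deriv_nonneg hY0 y)
      refine (hflux y (by linarith [hy.1])).trans ?_
      exact div_le_div_of_nonneg_left (by positivity) hY0 hy.1
    rw [intervalIntegral.integral_mul_const, kk_integral hY0, one_mul] at h1
    exact h1
  · rw [intervalIntegral.integral_undef hi]
    positivity

theorem glob_bound (hc : IsCurve Δ σ h D) {j : ℂ → ℂ} (hj : SmS (Hc 0) j)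
    (hinv : ∀ δ ∈ Δ, ∀ z ∈ Hc 0, pb (mob δ) j z = j z) (hκ : 0 ≤ κ)
    (hρ : ∀ z ∈ Hc 0, -(κ / z.im ^ 2) ≤ rho j z)
    (hflux : ∀ i, ∀ Y : ℝ, 1 ≤ Y → flux (pb (mob (σ i)) j) (h i) Y ≤ h i * κ / Y)
    {S : Set ℂ} (hS : MeasurableSet S) (hSc : ∃ K : Set ℂ, IsCompact K ∧ K ⊆ Hc 0 ∧ S ⊆ K)
    (hSi : ∀ δ ∈ Δ, ∀ z ∈ S, mob δ z ∈ S → δ = 1) (hY : 2 ≤ Y)
    (hkS : ∀ z ∈ S, kap Δ σ h Y z = 0) :
    ∫ z in S, (rho j z + κ / z.im ^ 2) ≤ κ * (volume D).toReal + (∑ i, h i * κ) / Y := by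
  have hY1 : 1 ≤ Y := by linarith
  obtain ⟨φ, hφs, ⟨K, hK, hKU, hφK⟩, hφr, hφP, hφ1⟩ := exists_partition (σ := σ) hc hY1
  have hSU : S ⊆ Hc 0 := by
    obtain ⟨K, _, h1, h2⟩ := hSc
    exact h2.trans h1
  have hkr : ∀ z ∈ Hc 0, (kap Δ σ h Y z).im = 0 ∧ 0 ≤ (kap Δ σ h Y z).re ∧
      (kap Δ σ h Y z).re ≤ 1 := fun z hz => kap_range hc hY1 hz
  have hkc : ContinuousOn (kap Δ σ h Y) (Hc 0) :=
    (csum_smooth hc (kk_smooth Y) fun y hy => kk_zero (by linarith) (by linarith)).continuousOn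
  have hρc : ContinuousOn (rho j) (Hc 0) :=
    continuousOn_const.mul (continuous_re.comp_continuousOn
      (SmS.dzb (isOpen_Hc 0) hj).continuousOn)
  have hφc : ContinuousOn φ (Hc 0) := hφs.continuousOn.mono (Set.subset_univ _)
  have him : ContinuousOn (fun z : ℂ => z.im) (Hc 0) := continuous_im.continuousOn
  have hkcr : ContinuousOn (fun z => 1 - (kap Δ σ h Y z).re) (Hc 0) :=
    continuousOn_const.sub (continuous_re.comp_continuousOn hkc)
  set F : ℂ → ℝ := fun z => (1 - (kap Δ σ h Y z).re) * (rho j z * z.im ^ 2 + κ) with hF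
  have hFc : ContinuousOn F (Hc 0) :=
    hkcr.mul ((hρc.mul (him.pow 2)).add continuousOn_const)
  have hρ' : ∀ z ∈ Hc 0, 0 ≤ rho j z * z.im ^ 2 + κ := fun z hz => by
    have h1 : 0 < z.im := hz
    have h2 := mul_le_mul_of_nonneg_right (hρ z hz) (sq_nonneg z.im)
    rw [neg_mul, div_mul_cancel₀ _ (pow_pos h1 2).ne'] at h2
    linarith
  have hFn : ∀ z ∈ Hc 0, 0 ≤ F z := fun z hz =>
    mul_nonneg (by linarith [(hkr z hz).2.2]) (hρ' z hz)
  have hki : ∀ δ ∈ Δ, ∀ z ∈ Hc 0, kap Δ σ h Y (mob δ z) = kap Δ σ h Y z :=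
    fun δ hδ z hz => csum_invariant _ hδ hz
  have hFi : ∀ δ ∈ Δ, ∀ z ∈ Hc 0, F (mob δ z) = F z := fun δ hδ z hz => by
    simp only [hF]
    rw [rho_invariant hj hinv hδ hz, hki δ hδ z hz]
  have step1 : ∫ z in S, (rho j z + κ / z.im ^ 2) = ∫ τ in {τ : ℍ | (τ : ℂ) ∈ S}, F (τ : ℂ) := by
    rw [setIntegral_H F hS hSU]
    refine setIntegral_congr_fun hS fun z hz => ?_
    have h1 : 0 < z.im := hSU hz
    simp only [hF, hkS z hz, zero_re, sub_zero, one_mul, smul_eq_mul]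
    field_simp
  have step2 := setIntegral_le hc hFc hFn hFi hφc ⟨K, hK, hKU, hφK⟩ hφr hS hSc hSi
    fun z hz => hφ1 z (hSU hz) (by rw [hkS z hz]; exact zero_ne_one)
  -- the two parts
  set A : ℂ → ℝ := fun z => (φ z).re * (1 - (kap Δ σ h Y z).re) * rho j z with hA
  set B : ℂ → ℝ := fun z => (1 / z.im ^ 2) • ((φ z).re * (1 - (kap Δ σ h Y z).re)) with hB
  have hφcr : ContinuousOn (fun z => (φ z).re) (Hc 0) := continuous_re.comp_continuousOn hφc
  have hAi : IntegrableOn A (Hc 0) := glob_integrable ((hφcr.mul hkcr).mul hρc) hK hKU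
    fun z hz => by simp [hA, hφK z hz]
  have hBi : IntegrableOn B (Hc 0) := glob_integrable ((continuousOn_const.div (him.pow 2)
    fun z hz => (pow_pos (show 0 < z.im from hz) 2).ne').smul (hφcr.mul hkcr)) hK hKU
    fun z hz => by simp [hB, hφK z hz]
  have step3 : ∫ τ : ℍ, (φ (τ : ℂ)).re * F (τ : ℂ) = (∫ z in Hc 0, A z) +
      κ * ∫ z in Hc 0, B z := by
    rw [integral_H fun z => (φ z).re * F z, ← integral_const_mul, ← integral_add hAi
      (hBi.const_mul κ)]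
    refine setIntegral_congr_fun (isOpen_Hc 0).measurableSet fun z hz => ?_
    have h1 : z.im ≠ 0 := (show 0 < z.im from hz).ne'
    simp only [hF, hA, hB, smul_eq_mul]
    field_simp
  -- the area
  have hfr : ∀ z ∈ Hc 0, φ z * (1 - kap Δ σ h Y z) =
      (((φ z).re * (1 - (kap Δ σ h Y z).re) : ℝ) : ℂ) := by
    intro z hz
    apply Complex.ext
    · simp [mul_re, (hφr z).1]
    · simp [mul_im, (hφr z).1, (hkr z hz).1]
  have step4 : ∫ z in Hc 0, B z ≤ (volume D).toReal := by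
    rw [hB, ← integral_H fun z => (φ z).re * (1 - (kap Δ σ h Y z).re)]
    have h1 := integral_le_area hc (f := fun z => φ z * (1 - kap Δ σ h Y z))
      (hφc.mul (continuousOn_const.sub hkc)) ⟨K, hK, hKU, fun z hz => by simp [hφK z hz]⟩
      (fun z => by
        by_cases hz : z ∈ Hc 0
        · simp only [hfr z hz, ofReal_im, ofReal_re]
          exact ⟨trivial, mul_nonneg (hφr z).2 (by linarith [(hkr z hz).2.2])⟩
        · have : φ z = 0 := hφK z fun h => hz (hKU h)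
          simp [this]) (fun z hz => by
        rw [Per_mul (f := φ) (g := fun z => 1 - kap Δ σ h Y z) (fun δ hδ z hz => by
          simp only [hki δ hδ z hz]) hz, mul_re, (hφP z hz).1, zero_mul, sub_zero]
        have h2 := (hφP z hz).2
        have h3 : (1 - kap Δ σ h Y z).re = 1 - (kap Δ σ h Y z).re := by simp
        rw [h3]
        have h4 := (hkr z hz).2.1
        have h5 := (hkr z hz).2.2
        nlinarith)
    refine le_of_eq_of_le ?_ h1
    refine integral_congr_ae (Filter.Eventually.of_forall fun τ => ?_)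
    show _ = (φ (τ : ℂ) * (1 - kap Δ σ h Y (τ : ℂ))).re
    rw [hfr _ τ.im_pos, ofReal_re]
  -- Stokes
  have step5 : ∫ z in Hc 0, A z =
      2 * (∫ z in Hc 0, φ z * ((1 - kap Δ σ h Y z) * dzb j z)).re := by
    have h1 : IntegrableOn (fun z => φ z * ((1 - kap Δ σ h Y z) * dzb j z)) (Hc 0) :=
      glob_integrable (hφc.mul ((continuousOn_const.sub hkc).mul
        (SmS.dzb (isOpen_Hc 0) hj).continuousOn)) hK hKU fun z hz => by simp [hφK z hz]
    have h2 : (∫ z in Hc 0, φ z * ((1 - kap Δ σ h Y z) * dzb j z)).re =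
        ∫ z in Hc 0, (φ z * ((1 - kap Δ σ h Y z) * dzb j z)).re := by
      have := integral_re h1
      exact this.symm
    rw [h2, ← integral_const_mul]
    refine setIntegral_congr_fun (isOpen_Hc 0).measurableSet fun z hz => ?_
    simp only [hA]
    rw [← mul_assoc, hfr z hz, re_ofReal_mul, rho]
    ring
  have step6 : ∫ z in Hc 0, A z ≤ (∑ i, h i * κ) / Y := by
    rw [step5, stokes hc hY hj hinv hφs ⟨K, hK, hKU, hφK⟩ hφ1,
      boundary_unfold hc hY hj hinv hφs ⟨K, hK, hKU, hφK⟩ hφ1, re_sum, Finset.mul_sum,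
      Finset.sum_div]
    refine Finset.sum_le_sum fun i _ => ?_
    rw [strip_integral hc hY hj hinv i]
    exact glob_strip hY (hc.width i).1 hκ (hflux i)
  rw [step1]
  refine step2.trans ?_
  rw [step3]
  have := mul_le_mul_of_nonneg_left step4 hκ
  linarith

theorem global_ineq (hc : IsCurve Δ σ h D) {j : ℂ → ℂ} (hj : SmS (Hc 0) j)
    (hinv : ∀ δ ∈ Δ, ∀ z ∈ Hc 0, pb (mob δ) j z = j z) (hκ : 0 ≤ κ)
    (hρ : ∀ z ∈ Hc 0, -(κ / z.im ^ 2) ≤ rho j z)
    (hflux : ∀ i, ∀ Y : ℝ, 1 ≤ Y → flux (pb (mob (σ i)) j) (h i) Y ≤ h i * κ / Y)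
    {S : Set ℂ} (hS : MeasurableSet S) (hSc : ∃ K : Set ℂ, IsCompact K ∧ K ⊆ Hc 0 ∧ S ⊆ K)
    (hSi : ∀ δ ∈ Δ, ∀ z ∈ S, mob δ z ∈ S → δ = 1) :
    ∫ z in S, (rho j z + κ / z.im ^ 2) ≤ κ * (volume D).toReal := by
  have hSc' := hSc
  obtain ⟨K, hK, hKU, hSK⟩ := hSc'
  obtain ⟨Y₀, hY₀⟩ := kap_eventually_zero hc hK hKU
  have h1 : Filter.Tendsto (fun Y : ℝ => κ * (volume D).toReal + (∑ i, h i * κ) / Y)
      Filter.atTop (nhds (κ * (volume D).toReal + 0)) :=
    tendsto_const_nhds.add (Filter.Tendsto.div_atTop tendsto_const_nhds Filter.tendsto_id)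
  rw [add_zero] at h1
  refine ge_of_tendsto h1 ?_
  filter_upwards [Filter.eventually_ge_atTop (max Y₀ 2)] with Y hY
  exact glob_bound hc hj hinv hκ hρ hflux hS hSc hSi ((le_max_right _ _).trans hY)
    fun z hz => hY₀ Y ((le_max_left _ _).trans hY) z (hSK hz)

end US38
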