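import Pool.Agent.LibUS38.Cyl2
import Pool.Agent.LibUS38.Disc

/-! The mass at a zero of `N`. -/

open Matrix Complex MeasureTheory Filter Topology
open UpperHalfPlane hiding I
open scoped ContDiff

namespace US38

open SP38

variable {Δ : Subgroup (Matrix.SpecialLinearGroup (Fin 2) ℝ)} {κ : ℝ} {N T : ℂ → ℂ}

/-- a nonnegative `C²` function vanishes to second order at a zero -/
theorem zerom_quadratic {f : ℂ → ℝ} {z₀ : ℂ} (hf : ContDiffAt ℝ 2 f z₀) (h0 : f z₀ = 0)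
    (hmin : ∀ᶠ z in 𝓝 z₀, 0 ≤ f z) :
    ∃ C : ℝ, 0 < C ∧ ∀ᶠ z in 𝓝 z₀, f z ≤ C * ‖z - z₀‖ ^ 2 := by
  have hlm : IsLocalMin f z₀ := by
    filter_upwards [hmin] with z hz
    rw [h0]
    exact hz
  have hfd0 : fderiv ℝ f z₀ = 0 := hlm.fderiv_eq_zero
  have hd : DifferentiableAt ℝ (fderiv ℝ f) z₀ :=
    (hf.fderiv_right (m := 1) (by norm_num)).differentiableAt (by norm_num)
  obtain ⟨C, hC, hbound⟩ := (hd.hasFDerivAt.isBigO_sub).exists_pos
  rw [Asymptotics.isBigOWith_iff] at hbound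
  have hdiff : ∀ᶠ z in 𝓝 z₀, DifferentiableAt ℝ f z := by
    filter_upwards [hf.eventually (by simp)] with z hz
    exact hz.differentiableAt (by norm_num)
  obtain ⟨δ, hδ, hball⟩ := Metric.eventually_nhds_iff_ball.mp (hbound.and hdiff)
  refine ⟨C, hC, ?_⟩
  filter_upwards [Metric.ball_mem_nhds z₀ hδ] with z hz
  have h1 : ∀ x ∈ Metric.closedBall z₀ ‖z - z₀‖, x ∈ Metric.ball z₀ δ := by
    intro x hx
    rw [Metric.mem_closedBall] at hx
    rw [Metric.mem_ball]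
    refine lt_of_le_of_lt hx ?_
    rw [← dist_eq_norm]
    exact hz
  have h2 := Convex.norm_image_sub_le_of_norm_fderiv_le (𝕜 := ℝ) (f := f)
    (s := Metric.closedBall z₀ ‖z - z₀‖) (C := C * ‖z - z₀‖)
    (fun x hx => (hball x (h1 x hx)).2) (fun x hx => by
      have h3 := (hball x (h1 x hx)).1
      rw [hfd0, sub_zero] at h3
      refine h3.trans (mul_le_mul_of_nonneg_left ?_ hC.le)
      rw [Metric.mem_closedBall, dist_eq_norm] at hx
      exact hx) (convex_closedBall _ _)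
    (Metric.mem_closedBall_self (norm_nonneg _))
    (show z ∈ Metric.closedBall z₀ ‖z - z₀‖ by rw [Metric.mem_closedBall, dist_eq_norm])
  rw [h0, sub_zero] at h2
  calc f z ≤ ‖f z‖ := le_abs_self _
    _ ≤ C * ‖z - z₀‖ * ‖z - z₀‖ := h2
    _ = C * ‖z - z₀‖ ^ 2 := by ring

theorem zerom_integral (c : ℝ) (hc : 0 ≤ c) (Y₁ Y₂ : ℝ) :
    ∫ y in Y₁..Y₂, c * Real.exp (-(2 * Real.pi * y)) ≤
      c * (Real.exp (-(2 * Real.pi * Y₁)) / (2 * Real.pi)) := by
  have hpi := Real.pi_pos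
  have h1 : ∀ y ∈ Set.uIcc Y₁ Y₂, HasDerivAt
      (fun y : ℝ => -(c * (Real.exp (-(2 * Real.pi * y)) / (2 * Real.pi))))
      (c * Real.exp (-(2 * Real.pi * y))) y := by
    intro y _
    have h2 : HasDerivAt (fun y : ℝ => -(2 * Real.pi * y)) (-(2 * Real.pi)) y := by
      have h0 := (hasDerivAt_id y).const_mul (-(2 * Real.pi))
      rw [mul_one] at h0
      refine h0.congr_of_eventuallyEq (Eventually.of_forall fun y => ?_)
      simp only [id]
      ring
    have h3 := ((h2.exp.div_const (2 * Real.pi)).const_mul c).neg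
    refine (h3.congr_deriv ?_).congr_of_eventuallyEq (Eventually.of_forall fun y => ?_)
    · field_simp
    · rfl
  rw [intervalIntegral.integral_eq_sub_of_hasDerivAt h1
    ((by fun_prop : Continuous fun y : ℝ => c * Real.exp (-(2 * Real.pi * y))).intervalIntegrable
      _ _)]
  have h2 : 0 ≤ c * (Real.exp (-(2 * Real.pi * Y₂)) / (2 * Real.pi)) := by positivity
  linarith

/-- the mass at an isolated zero is at least `π` -/
theorem zero_mass (hP : Pot Δ κ N T) {z₀ : ℂ} (hz₀ : 0 < z₀.im) (h0 : N z₀ = 0)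
    (hiso : ∀ᶠ z in 𝓝[≠] z₀, N z ≠ 0) {tol r₁ : ℝ} (htol : 0 < tol) (hr₁ : 0 < r₁) :
    ∃ r, 0 < r ∧ r < r₁ ∧ r < z₀.im ∧ ∃ ε₀, 0 < ε₀ ∧ ∀ ε, 0 < ε → ε < ε₀ →
      Real.pi - tol ≤ ∫ z in Metric.ball z₀ r, rho (jj N T ε) z := by
  have hpi := Real.pi_pos
  have hz₀U : z₀ ∈ Hc 0 := hz₀
  -- quadratic bound and isolation
  have hNre : ContDiffAt ℝ 2 (fun z => (N z).re) z₀ := by
    have h1 : ContDiffAt ℝ ∞ N z₀ := hP.smN.contDiffAt ((isOpen_Hc 0).mem_nhds hz₀U)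
    have h2 : ContDiffAt ℝ ∞ (fun z => (N z).re) z₀ :=
      (Complex.reCLM.contDiff.contDiffAt (x := N z₀)).comp z₀ h1
    exact h2.of_le (WithTop.coe_le_coe.2 (le_top (a := (2 : ℕ∞))))
  obtain ⟨C, hC, hquad⟩ := zerom_quadratic hNre (by rw [h0, Complex.zero_re]) (by
    filter_upwards [(isOpen_Hc 0).mem_nhds hz₀U] with z hz
    exact hP.nn z hz)
  rw [eventually_nhdsWithin_iff] at hiso
  obtain ⟨r₂, hr₂, hball⟩ := Metric.eventually_nhds_iff_ball.mp (hquad.and hiso)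
  -- constants
  set a : ℝ := z₀.im / 2 with ha
  have hapos : 0 < a := by positivity
  set ck : ℝ := κ / a ^ 2 * (2 * Real.pi) ^ 2 with hck
  set ce : ℝ := √κ / a * (2 * Real.pi) with hce
  have hck0 : 0 ≤ ck := by
    have := hP.kappa
    positivity
  have hce0 : 0 ≤ ce := by positivity
  set r₀ : ℝ := min (min (a / 2) (r₂ / 2)) (min (r₁ / 2) 1) with hr₀
  have hr₀pos : 0 < r₀ := by positivity
  set r : ℝ := min r₀ (tol / 2 * (2 * Real.pi) / (ck + 1)) / 2 with hr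
  have hrpos : 0 < r := by positivity
  have hrr₀ : r < r₀ := by
    have : min r₀ (tol / 2 * (2 * Real.pi) / (ck + 1)) ≤ r₀ := min_le_left _ _
    have h2 : 0 < min r₀ (tol / 2 * (2 * Real.pi) / (ck + 1)) := by positivity
    rw [hr]
    linarith
  have hrtol : ck * (r / (2 * Real.pi)) ≤ tol / 2 := by
    have h1 : r ≤ tol / 2 * (2 * Real.pi) / (ck + 1) := by
      have h3 : min r₀ (tol / 2 * (2 * Real.pi) / (ck + 1)) ≤
        tol / 2 * (2 * Real.pi) / (ck + 1) := min_le_right _ _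
      have h2 : 0 < min r₀ (tol / 2 * (2 * Real.pi) / (ck + 1)) := by positivity
      rw [hr]
      linarith
    rw [le_div_iff₀ (by positivity)] at h1
    rw [← mul_div_assoc, div_le_iff₀ (by positivity)]
    nlinarith
  have hr₀a : r₀ ≤ a / 2 := (min_le_left _ _).trans (min_le_left _ _)
  have hr₀r₂ : r₀ ≤ r₂ / 2 := (min_le_left _ _).trans (min_le_right _ _)
  have hr₀r₁ : r₀ ≤ r₁ / 2 := (min_le_right _ _).trans (min_le_left _ _)
  have hr₀1 : r₀ ≤ 1 := (min_le_right _ _).trans (min_le_right _ _)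
  set Y₀ : ℝ := -Real.log r₀ / (2 * Real.pi) with hY₀
  set Y₁ : ℝ := -Real.log r / (2 * Real.pi) with hY₁
  have hE₀ : Real.exp (-(2 * Real.pi * Y₀)) = r₀ := by
    rw [hY₀, show -(2 * Real.pi * (-Real.log r₀ / (2 * Real.pi))) = Real.log r₀ by field_simp]
    exact Real.exp_log hr₀pos
  have hE₁ : Real.exp (-(2 * Real.pi * Y₁)) = r := by
    rw [hY₁, show -(2 * Real.pi * (-Real.log r / (2 * Real.pi))) = Real.log r by field_simp]
    exact Real.exp_log hrpos
  have h01 : Y₀ < Y₁ := by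
    have h1 : Real.exp (-(2 * Real.pi * Y₁)) < Real.exp (-(2 * Real.pi * Y₀)) := by
      rw [hE₁, hE₀]
      exact hrr₀
    rw [Real.exp_lt_exp] at h1
    nlinarith
  -- the coordinate
  set φ : ℂ → ℂ := fun ζ => z₀ + qq ζ with hφdef
  have hφd : ∀ ζ, HasDerivAt φ (2 * Real.pi * I * qq ζ) ζ := fun ζ =>
    (hasDerivAt_qq ζ).const_add z₀
  have hφ : DifferentiableOn ℂ φ (Hc Y₀) := fun ζ _ =>
    (hφd ζ).differentiableAt.differentiableWithinAt
  have hφn : ∀ ζ, ‖φ ζ - z₀‖ = Real.exp (-(2 * Real.pi * ζ.im)) := by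
    intro ζ
    rw [hφdef]
    simp only [add_sub_cancel_left]
    exact norm_qq ζ
  have hφr₀ : ∀ ζ ∈ Hc Y₀, ‖φ ζ - z₀‖ < r₀ := by
    intro ζ hζ
    have h1 : Y₀ < ζ.im := hζ
    rw [hφn, ← hE₀, Real.exp_lt_exp]
    nlinarith
  have him_lower : ∀ ζ ∈ Hc Y₀, a ≤ (φ ζ).im := by
    intro ζ hζ
    have h1 := hφr₀ ζ hζ
    have h2 := Complex.abs_im_le_norm (φ ζ - z₀)
    rw [Complex.sub_im] at h2
    have h3 := (abs_le.mp h2).1
    rw [ha] at *
    linarith
  have hm : ∀ ζ ∈ Hc Y₀, φ ζ ∈ Hc 0 := by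
    intro ζ hζ
    exact lt_of_lt_of_le hapos (him_lower ζ hζ)
  have hφdn : ∀ ζ, ‖deriv φ ζ‖ = 2 * Real.pi * Real.exp (-(2 * Real.pi * ζ.im)) := by
    intro ζ
    rw [(hφd ζ).deriv, norm_mul, norm_qq, norm_mul, norm_mul, Complex.norm_I, mul_one,
      Complex.norm_real, Real.norm_of_nonneg hpi.le]
    simp
  set N' : ℂ → ℂ := fun ζ => N (φ ζ) with hN'
  set T' : ℂ → ℂ := pb φ T with hT'
  have hsN' : SmS (Hc Y₀) N' := SmS.compS (isOpen_Hc Y₀) hP.smN hφ hm
  have hsT' : SmS (Hc Y₀) T' := SmS_pb (isOpen_Hc 0) (isOpen_Hc Y₀) hP.smT hφ hm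
  have himN' : ∀ ζ ∈ Hc Y₀, (N' ζ).im = 0 := fun ζ hζ => hP.im _ (hm ζ hζ)
  have hnnN' : ∀ ζ ∈ Hc Y₀, 0 ≤ (N' ζ).re := fun ζ hζ => hP.nn _ (hm ζ hζ)
  have hqq1 : ∀ ζ : ℂ, qq (ζ + (1 : ℝ)) = qq ζ := by
    intro ζ
    have := qq_add_nat ζ 1
    simpa using this
  have hφ1 : ∀ ζ : ℂ, φ (ζ + (1 : ℝ)) = φ ζ := by
    intro ζ
    simp only [hφdef, hqq1]
  have hpN' : ∀ ζ ∈ Hc Y₀, N' (ζ + (1 : ℝ)) = N' ζ := by
    intro ζ _
    simp only [hN', hφ1]
  have hpT' : ∀ ζ ∈ Hc Y₀, T' (ζ + (1 : ℝ)) = T' ζ := by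
    intro ζ _
    rw [hT', pb, pb, (hφd _).deriv, (hφd _).deriv, hqq1, hφ1]
  have hjj : ∀ ε : ℝ, ∀ ζ ∈ Hc Y₀, jj N' T' ε ζ = pb φ (jj N T ε) ζ := fun ε ζ hζ =>
    jj_pb (isOpen_Hc 0) hP.smN (hφd ζ).differentiableAt (hm ζ hζ)
  have hrhojj : ∀ ε : ℝ, 0 < ε → ∀ ζ ∈ Hc Y₀,
      rho (jj N' T' ε) ζ = rho (jj N T ε) (φ ζ) * ‖deriv φ ζ‖ ^ 2 := by
    intro ε hε ζ hζ
    rw [← rho_pb (isOpen_Hc 0) (isOpen_Hc Y₀)
      (SmS_jj (isOpen_Hc 0) hP.smN hP.smT hP.im hP.nn hε) hφ hm hζ]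
    rw [rho, rho, dzb_congr (f := jj N' T' ε) (g := pb φ (jj N T ε))]
    filter_upwards [(isOpen_Hc Y₀).mem_nhds hζ] with ξ hξ
    exact hjj ε ξ hξ
  -- the point on the horocycle
  have hpt : ∀ (x y : ℝ), ((x : ℂ) + y * I).im = y := by
    intro x y
    simp
  have hptHc : ∀ (x y : ℝ), Y₀ < y → (x : ℂ) + y * I ∈ Hc Y₀ := by
    intro x y hy
    change Y₀ < ((x : ℂ) + y * I).im
    rw [hpt]
    exact hy
  -- bounds for k and e
  have hρ : ∀ ε : ℝ, 0 < ε → ∀ ζ : ℂ, Y₁ ≤ ζ.im →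
      -(ck * Real.exp (-(2 * Real.pi * ζ.im))) ≤ rho (jj N' T' ε) ζ := by
    intro ε hε ζ hζ
    have hζ' : ζ ∈ Hc Y₀ := lt_of_lt_of_le h01 hζ
    rw [hrhojj ε hε ζ hζ', hφdn]
    have h1 := hP.ineq ε hε (φ ζ) (hm ζ hζ')
    have h2 : κ / (φ ζ).im ^ 2 ≤ κ / a ^ 2 := by
      refine div_le_div_of_nonneg_left hP.kappa (by positivity) ?_
      exact pow_le_pow_left₀ hapos.le (him_lower ζ hζ') 2
    set E : ℝ := Real.exp (-(2 * Real.pi * ζ.im)) with hE
    have hEpos : 0 < E := Real.exp_pos _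
    have hE1 : E ≤ 1 := by
      rw [hE, ← hφn]
      exact ((hφr₀ ζ hζ').le).trans hr₀1
    have h3 : -(κ / a ^ 2) * (2 * Real.pi * E) ^ 2 ≤
        rho (jj N T ε) (φ ζ) * (2 * Real.pi * E) ^ 2 :=
      mul_le_mul_of_nonneg_right (by linarith) (by positivity)
    refine le_trans ?_ h3
    have h4 : κ / a ^ 2 * (2 * Real.pi * E) ^ 2 = ck * (E * E) := by
      rw [hck]
      ring
    have h5 : E * E ≤ E := by nlinarith
    have h6 : ck * (E * E) ≤ ck * E := mul_le_mul_of_nonneg_left h5 hck0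
    have h7 : -(κ / a ^ 2) * (2 * Real.pi * E) ^ 2 = -(ck * (E * E)) := by
      rw [← h4]
      ring
    rw [h7]
    linarith
  have hTe : ∀ ζ : ℂ, Y₁ ≤ ζ.im →
      ‖T' ζ‖ ≤ ce * Real.exp (-(2 * Real.pi * ζ.im)) * (N' ζ).re := by
    intro ζ hζ
    have hζ' : ζ ∈ Hc Y₀ := lt_of_lt_of_le h01 hζ
    rw [hT', pb, norm_mul, hφdn]
    have h1 := hP.bd (φ ζ) (hm ζ hζ')
    have h2 : √κ / (φ ζ).im ≤ √κ / a :=
      div_le_div_of_nonneg_left (Real.sqrt_nonneg _) hapos (him_lower ζ hζ')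
    have h3 : ‖T (φ ζ)‖ ≤ √κ / a * (N' ζ).re :=
      h1.trans (mul_le_mul_of_nonneg_right h2 (hnnN' ζ hζ'))
    have h4 := mul_le_mul_of_nonneg_right h3
      (show 0 ≤ 2 * Real.pi * Real.exp (-(2 * Real.pi * ζ.im)) by positivity)
    refine h4.trans (le_of_eq ?_)
    rw [hce]
    ring
  -- the mean at Y₁
  have hNpos : ∀ x : ℝ, 0 < (N' (x + Y₁ * I)).re := by
    intro x
    have h1 := hptHc x Y₁ h01
    have h2 : φ (x + Y₁ * I) ∈ Metric.ball z₀ r₂ := by
      rw [Metric.mem_ball, dist_eq_norm]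
      have := hφr₀ _ h1
      linarith
    have h3 : φ (x + Y₁ * I) ≠ z₀ := by
      intro h4
      have h5 := hφn (x + Y₁ * I)
      rw [h4, sub_self, norm_zero] at h5
      exact (Real.exp_pos _).ne h5
    have h6 := (hball _ h2).2 h3
    refine lt_of_le_of_ne (hnnN' _ h1) fun h7 => h6 ?_
    apply Complex.ext
    · exact h7.symm
    · exact himN' _ h1
  set A : ℝ := ∫ x in (0 : ℝ)..1, Real.log (N' (x + Y₁ * I)).re with hA
  have hcontN : Continuous fun x : ℝ => (N' (x + Y₁ * I)).re := by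
    refine Complex.continuous_re.comp ?_
    refine hsN'.continuousOn.comp_continuous ?_ fun x => hptHc x Y₁ h01
    exact (Complex.continuous_ofReal).add continuous_const
  have hcontN2 : ∀ y, Y₀ < y → Continuous fun x : ℝ => (N' (x + y * I)).re := by
    intro y hy
    refine Complex.continuous_re.comp ?_
    refine hsN'.continuousOn.comp_continuous ?_ fun x => hptHc x y hy
    exact (Complex.continuous_ofReal).add continuous_const
  have hmean1 : ∀ ε : ℝ, 0 < ε → A ≤ ∫ x in (0 : ℝ)..1, Real.log ((N' (x + Y₁ * I)).re + ε) := by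
    intro ε hε
    refine intervalIntegral.integral_mono_on zero_le_one ?_ ?_ fun x _ => ?_
    · exact (hcontN.log fun x => (hNpos x).ne').intervalIntegrable _ _
    · exact ((hcontN.add continuous_const).log fun x =>
        (add_pos (hNpos x) hε).ne').intervalIntegrable _ _
    · exact Real.log_le_log (hNpos x) (by linarith)
  -- the mean at Y₂
  have hmean2 : ∀ ε : ℝ, 0 < ε → ∀ Y₂, Y₁ ≤ Y₂ →
      ∫ x in (0 : ℝ)..1, Real.log ((N' (x + Y₂ * I)).re + ε) ≤
        Real.log (C * Real.exp (-(2 * Real.pi * Y₂)) ^ 2 + ε) := by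
    intro ε hε Y₂ h12
    have h02 : Y₀ < Y₂ := lt_of_lt_of_le h01 h12
    have h1 : ∫ x in (0 : ℝ)..1, Real.log ((N' (x + Y₂ * I)).re + ε) ≤
        ∫ _ in (0 : ℝ)..1, Real.log (C * Real.exp (-(2 * Real.pi * Y₂)) ^ 2 + ε) := by
      refine intervalIntegral.integral_mono_on zero_le_one ?_ ?_ fun x _ => ?_
      · exact (((hcontN2 Y₂ h02).add continuous_const).log fun x =>
          (add_pos_of_nonneg_of_pos (hnnN' _ (hptHc x Y₂ h02)) hε).ne').intervalIntegrable _ _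
      · exact intervalIntegrable_const
      · refine Real.log_le_log
          (add_pos_of_nonneg_of_pos (hnnN' _ (hptHc x Y₂ h02)) hε) ?_
        have h3 : φ (x + Y₂ * I) ∈ Metric.ball z₀ r₂ := by
          rw [Metric.mem_ball, dist_eq_norm]
          have := hφr₀ _ (hptHc x Y₂ h02)
          linarith
        have h4 := (hball _ h3).1
        rw [hφn, hpt] at h4
        simp only [hN']
        linarith
    simpa using h1
  -- choice of Y₂
  set B : ℝ := Real.log (2 * C) - A + 8 * (ce * (r / (2 * Real.pi))) - 4 * Real.pi * Y₁ with hB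
  set M : ℝ := |B| / (2 * tol) + 1 with hM
  have hMpos : 0 < M := by positivity
  set Y₂ : ℝ := Y₁ + M with hY₂
  have h12 : Y₁ ≤ Y₂ := by linarith
  refine ⟨r, hrpos, by linarith, by rw [ha] at hr₀a; linarith,
    C * Real.exp (-(2 * Real.pi * Y₂)) ^ 2, by positivity, ?_⟩
  intro ε hε hε₀
  have hdisc := disc_integral (isOpen_Hc 0)
    (SmS_jj (isOpen_Hc 0) hP.smN hP.smT hP.im hP.nn hε) hrpos (z₀ := z₀) (Y₁ := Y₁) ?_ hE₁
  · rw [hdisc]
    have hflux : flux (pb (fun ζ => z₀ + qq ζ) (jj N T ε)) 1 Y₁ = flux (jj N' T' ε) 1 Y₁ := by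
      rw [flux, flux]
      refine intervalIntegral.integral_congr fun x _ => ?_
      change (I * pb φ (jj N T ε) (x + Y₁ * I)).re = (I * jj N' T' ε (x + Y₁ * I)).re
      rw [hjj ε _ (hptHc x Y₁ h01)]
    rw [hflux]
    have hcyl := cyl (Y₀ := Y₀) (h := 1) one_pos hε hsN' hsT' himN' hnnN' hpN' hpT'
      (k := fun y => ck * Real.exp (-(2 * Real.pi * y)))
      (e := fun y => ce * Real.exp (-(2 * Real.pi * y))) h01 h12
      (by fun_prop) (by fun_prop) (fun y _ => by positivity) (fun y _ => by positivity)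
      (fun ζ hζ _ => hρ ε hε ζ hζ) (fun ζ hζ _ => hTe ζ hζ)
    have hk := zerom_integral ck hck0 Y₁ Y₂
    have he := zerom_integral ce hce0 Y₁ Y₂
    rw [hE₁] at hk he
    have hm1 := hmean1 ε hε
    have hm2 := hmean2 ε hε Y₂ h12
    have hlog : Real.log (C * Real.exp (-(2 * Real.pi * Y₂)) ^ 2 + ε) ≤
        Real.log (2 * C) - 4 * Real.pi * Y₂ := by
      have h1 : C * Real.exp (-(2 * Real.pi * Y₂)) ^ 2 + ε ≤
          2 * C * Real.exp (-(4 * Real.pi * Y₂)) := by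
        have h2 : Real.exp (-(2 * Real.pi * Y₂)) ^ 2 = Real.exp (-(4 * Real.pi * Y₂)) := by
          rw [← Real.exp_nat_mul]
          congr 1
          push_cast
          ring
        rw [h2] at hε₀ ⊢
        linarith
      refine (Real.log_le_log (by positivity) h1).trans (le_of_eq ?_)
      rw [Real.log_mul (by positivity) (by positivity), Real.log_exp]
      ring
    have hYY : Y₂ - Y₁ = M := by rw [hY₂]; ring
    rw [hYY] at hcyl
    set fl : ℝ := flux (jj N' T' ε) 1 Y₁ with hfl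
    have h1 : 4 * M * (fl - tol / 2) ≤ B - 4 * Real.pi * M := by
      have h2 : 4 * M * (fl - tol / 2) ≤
          4 * M * (fl - 1 * ∫ y in Y₁..Y₂, ck * Real.exp (-(2 * Real.pi * y))) := by
        refine mul_le_mul_of_nonneg_left ?_ (by positivity)
        linarith
      refine h2.trans (hcyl.trans ?_)
      rw [hB]
      have h3 : 4 * Real.pi * Y₂ = 4 * Real.pi * Y₁ + 4 * Real.pi * M := by
        rw [hY₂]
        ring
      linarith
    have h2 : B ≤ 2 * tol * M := by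
      rw [hM]
      have h3 : 2 * tol * (|B| / (2 * tol) + 1) = |B| + 2 * tol := by
        field_simp
      rw [h3]
      have := le_abs_self B
      linarith
    have h3 : 4 * M * (fl - tol / 2) ≤ 4 * M * (tol / 2 - Real.pi) := by
      refine h1.trans ?_
      nlinarith
    have h4 := le_of_mul_le_mul_left h3 (by positivity)
    linarith
  · intro z hz
    rw [Metric.mem_closedBall, dist_eq_norm] at hz
    have h2 := Complex.abs_im_le_norm (z - z₀)
    rw [Complex.sub_im] at h2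
    have h3 := (abs_le.mp h2).1
    change 0 < z.im
    rw [ha] at hr₀a
    linarith

end US38
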