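import Pool.Agent.LibUS38.CuspF
import Pool.Agent.LibUS38.Glob
import Pool.Agent.LibUS38.ZeroM

/-! The number of zeros. -/

open Matrix Complex MeasureTheory Filter Topology
open UpperHalfPlane hiding I
open scoped ContDiff

namespace US38

open SP38

variable {ι : Type} [Fintype ι] {Δ : Subgroup (Matrix.SpecialLinearGroup (Fin 2) ℝ)}
  {σ : ι → Matrix.SpecialLinearGroup (Fin 2) ℝ} {h : ι → ℝ} {D : Set ℍ} {κ : ℝ} {N T : ℂ → ℂ}

theorem jj_invariant (hP : Pot Δ κ N T) {ε : ℝ} {δ : Matrix.SpecialLinearGroup (Fin 2) ℝ}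
    (hδ : δ ∈ Δ) {z : ℂ} (hz : z ∈ Hc 0) : pb (mob δ) (jj N T ε) z = jj N T ε z := by
  have hn : Hc 0 ∈ 𝓝 z := (isOpen_Hc 0).mem_nhds hz
  rw [← jj_pb (isOpen_Hc 0) hP.smN ((mob_holo δ).differentiableAt hn) (mob_mem δ hz)]
  unfold jj
  have h1 : dz (fun z => N (mob δ z)) z = dz N z := by
    apply dz_congr
    filter_upwards [hn] with w hw
    exact hP.invN δ hδ w hw
  rw [h1, hP.invT δ hδ z hz]
  show _ / (N (mob δ z) + _) = _
  rw [hP.invN δ hδ z hz]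

theorem cnt_closedBall {z₀ : ℂ} {r : ℝ} (hr : r < z₀.im) : Metric.closedBall z₀ r ⊆ Hc 0 := by
  intro w hw
  have h1 : ‖w - z₀‖ ≤ r := by
    rw [← dist_eq_norm]
    exact hw
  have h2 : |(w - z₀).im| ≤ ‖w - z₀‖ := abs_im_le_norm _
  rw [sub_im] at h2
  have h3 := (abs_le.1 (h2.trans h1)).1
  show 0 < w.im
  linarith

theorem cnt_tol (hc : IsCurve Δ σ h D) (hP : Pot Δ κ N T)
    (hgr : ∀ i, ∃ (C : ℕ) (Y₀ : ℝ), ∀ ζ : ℂ, 0 < ζ.im → Y₀ ≤ ζ.im →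
      (N (mob (σ i) ζ)).re ≤ ζ.im ^ C)
    (hiso : ∀ z₀ : ℂ, 0 < z₀.im → ∀ᶠ z in 𝓝[≠] z₀, N z ≠ 0)
    (Z : Finset ℍ) (hZ0 : ∀ z ∈ Z, N (z : ℂ) = 0)
    (hZ : ∀ z ∈ Z, ∀ z' ∈ Z, ∀ δ ∈ Δ, δ • z = z' → z = z') {tol : ℝ} (htol : 0 < tol) :
    (Z.card : ℝ) * (Real.pi - tol) ≤ κ * (volume D).toReal := by
  obtain ⟨r₀, hr₀, hrad⟩ := hc.exists_radius Z hZ
  have hm : ∀ z ∈ Z, ∃ r, 0 < r ∧ r < r₀ ∧ r < (z : ℂ).im ∧ ∃ ε₀, 0 < ε₀ ∧ ∀ ε, 0 < ε → ε < ε₀ →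
      Real.pi - tol ≤ ∫ w in Metric.ball (z : ℂ) r, rho (jj N T ε) w := fun z hz =>
    zero_mass hP z.im_pos (hZ0 z hz) (hiso _ z.im_pos) htol hr₀
  choose! r hr0 hrr hrim ε₀ hε₀ hmass using hm
  have hev : ∀ᶠ ε : ℝ in 𝓝[>] 0, ∀ z ∈ Z, ε < ε₀ z :=
    (Filter.eventually_all_finset Z).2 fun z hz =>
      nhdsWithin_le_nhds (Iio_mem_nhds (hε₀ z hz))
  obtain ⟨ε, hεlt, hεpos⟩ := (hev.and self_mem_nhdsWithin).exists
  have hε : 0 < ε := hεpos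
  set S : Set ℂ := ⋃ z ∈ Z, Metric.ball (z : ℂ) (r z) with hSdef
  have hcb : ∀ z ∈ Z, Metric.closedBall (z : ℂ) (r z) ⊆ Hc 0 := fun z hz =>
    cnt_closedBall (hrim z hz)
  have hjs : SmS (Hc 0) (jj N T ε) := SmS_jj (isOpen_Hc 0) hP.smN hP.smT hP.im hP.nn hε
  have hρc : ContinuousOn (rho (jj N T ε)) (Hc 0) :=
    continuousOn_const.mul (continuous_re.comp_continuousOn
      (SmS.dzb (isOpen_Hc 0) hjs).continuousOn)
  have hkc : ContinuousOn (fun z : ℂ => κ / z.im ^ 2) (Hc 0) :=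
    continuousOn_const.div (continuous_im.continuousOn.pow 2)
      fun z hz => (pow_pos (show 0 < z.im from hz) 2).ne'
  have key : ∀ z ∈ Z, ∀ z' ∈ Z, ∀ δ ∈ Δ, ∀ w : ℂ, w ∈ Metric.ball (z : ℂ) (r z) →
      mob δ w ∈ Metric.ball (z' : ℂ) (r z') → z = z' ∧ δ = 1 := by
    intro z hz z' hz' δ hδ w hw hw'
    have hwH : 0 < w.im := hcb z hz (Metric.ball_subset_closedBall hw)
    refine hrad z hz z' hz' δ hδ ⟨w, hwH⟩ (δ • ⟨w, hwH⟩) ?_ ?_ rfl
    · have h1 : ‖w - z‖ < r z := by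
        rw [← dist_eq_norm]
        exact hw
      exact h1.trans (hrr z hz)
    · rw [← mob_coe]
      have h1 : ‖mob δ w - z'‖ < r z' := by
        rw [← dist_eq_norm]
        exact hw'
      exact h1.trans (hrr z' hz')
  have h1 := global_ineq hc (j := jj N T ε) hjs (fun δ hδ z hz => jj_invariant hP hδ hz) hP.kappa
    (hP.ineq ε hε) (fun i Y hY => by
      obtain ⟨C, Y₀, hCY⟩ := hgr i
      obtain ⟨π, hπ1, hπ2, -⟩ := hc.gen i
      exact cusp_flux hP (hc.width i).1 hπ1 hπ2 hCY hε (by linarith)) (S := S)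
    (Finset.measurableSet_biUnion _ fun z _ => Metric.isOpen_ball.measurableSet)
    ⟨⋃ z ∈ Z, Metric.closedBall (z : ℂ) (r z),
      Z.isCompact_biUnion fun z _ => isCompact_closedBall _ _,
      Set.iUnion₂_subset hcb, Set.iUnion₂_mono fun z _ => Metric.ball_subset_closedBall⟩
    (fun δ hδ w hw hw' => by
      simp only [hSdef, Set.mem_iUnion] at hw hw'
      obtain ⟨z, hz, hw⟩ := hw
      obtain ⟨z', hz', hw'⟩ := hw'
      exact (key z hz z' hz' δ hδ w hw hw').2)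
  refine le_trans ?_ h1
  rw [hSdef, integral_biUnion_finset Z (fun z _ => Metric.isOpen_ball.measurableSet) ?_ ?_]
  · rw [← nsmul_eq_mul]
    refine Finset.card_nsmul_le_sum Z _ _ fun z hz => ?_
    refine (hmass z hz ε hε (hεlt z hz)).trans ?_
    refine setIntegral_mono_on ?_ ?_ Metric.isOpen_ball.measurableSet fun w hw => ?_
    · exact ((hρc.mono (hcb z hz)).integrableOn_compact (isCompact_closedBall _ _)).mono_set
        Metric.ball_subset_closedBall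
    · exact (((hρc.add hkc).mono (hcb z hz)).integrableOn_compact
        (isCompact_closedBall _ _)).mono_set Metric.ball_subset_closedBall
    · have : 0 ≤ κ / w.im ^ 2 := div_nonneg hP.kappa (sq_nonneg _)
      linarith
  · intro z hz z' hz' hne
    rw [Function.onFun, Set.disjoint_left]
    intro w hw hw'
    exact hne (key z hz z' hz' 1 Δ.one_mem w hw (by rw [mob_one]; exact hw')).1
  · intro z hz
    exact (((hρc.add hkc).mono (hcb z hz)).integrableOn_compact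
      (isCompact_closedBall _ _)).mono_set Metric.ball_subset_closedBall

/-- the number of inequivalent zeros -/
theorem zeros_le (hc : IsCurve Δ σ h D) (hP : Pot Δ κ N T)
    (hgr : ∀ i, ∃ (C : ℕ) (Y₀ : ℝ), ∀ ζ : ℂ, 0 < ζ.im → Y₀ ≤ ζ.im →
      (N (mob (σ i) ζ)).re ≤ ζ.im ^ C)
    (hiso : ∀ z₀ : ℂ, 0 < z₀.im → ∀ᶠ z in 𝓝[≠] z₀, N z ≠ 0)
    (Z : Finset ℍ) (hZ0 : ∀ z ∈ Z, N (z : ℂ) = 0)
    (hZ : ∀ z ∈ Z, ∀ z' ∈ Z, ∀ δ ∈ Δ, δ • z = z' → z = z') :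
    (Z.card : ℝ) * Real.pi ≤ κ * (volume D).toReal := by
  refine le_of_forall_pos_le_add fun η hη => ?_
  have hpos : 0 < (Z.card : ℝ) + 1 := by positivity
  have h1 := cnt_tol hc hP hgr hiso Z hZ0 hZ (tol := η / (Z.card + 1)) (by positivity)
  have h2 : (Z.card : ℝ) * (η / (Z.card + 1)) ≤ η := by
    rw [mul_div_assoc', div_le_iff₀ hpos]
    nlinarith
  linarith

end US38
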