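import Pool.Agent.LibUS38.Cyl2

/-! The flux at a cusp. -/

open Matrix Complex
open UpperHalfPlane hiding I
open scoped ContDiff

namespace US38

open SP38

variable {Δ : Subgroup (Matrix.SpecialLinearGroup (Fin 2) ℝ)} {κ : ℝ} {N T : ℂ → ℂ}

theorem cuspF_mob_trans {g : Matrix.SpecialLinearGroup (Fin 2) ℝ} {h : ℝ} {ζ : ℂ} (hζ : ζ ∈ Hc 0) :
    mob g (ζ + h) = mob (g * trans h * g⁻¹) (mob g ζ) := by
  rw [← mob_trans h ζ, ← mob_mul g (trans h) hζ, ← mob_mul (g * trans h * g⁻¹) g hζ,
    inv_mul_cancel_right]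

theorem cuspF_N (hP : Pot Δ κ N T) {g π : Matrix.SpecialLinearGroup (Fin 2) ℝ} {h : ℝ}
    (hπ : π ∈ Δ) (hg : mob π = mob (g * trans h * g⁻¹)) {ζ : ℂ} (hζ : ζ ∈ Hc 0) :
    N (mob g (ζ + h)) = N (mob g ζ) := by
  rw [cuspF_mob_trans hζ, ← hg]
  exact hP.invN _ hπ _ (mob_mem g hζ)

theorem cuspF_T (hP : Pot Δ κ N T) {g π : Matrix.SpecialLinearGroup (Fin 2) ℝ} {h : ℝ}
    (hπ : π ∈ Δ) (hg : mob π = mob (g * trans h * g⁻¹)) {ζ : ℂ} (hζ : ζ ∈ Hc 0) :
    pb (mob g) T (ζ + h) = pb (mob g) T ζ := by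
  have h1 : pb (mob (g * trans h * g⁻¹ * g)) T ζ = pb (mob g) (pb (mob (g * trans h * g⁻¹)) T) ζ :=
    pb_mul _ _ _ hζ
  rw [inv_mul_cancel_right, pb_mul _ _ _ hζ] at h1
  have h2 : pb (mob g) (pb (mob (g * trans h * g⁻¹)) T) ζ = pb (mob g) T ζ := by
    rw [← hg, pb, hP.invT _ hπ _ (mob_mem g hζ), pb]
  have h3 : pb (mob (trans h)) (pb (mob g) T) ζ = pb (mob g) T (ζ + h) := by
    rw [pb]
    have : mob (trans h) = fun z => z + (h : ℂ) := funext fun z => mob_trans h z
    rw [this]
    simp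
  rw [← h3, h1, h2]

/-- the analytic comparison at infinity -/
theorem cuspF_growth {c A B Y : ℝ} (hB : 0 ≤ B)
    (H : ∀ᶠ y : ℝ in Filter.atTop, 4 * (y - Y) * c ≤ A + B * Real.log y) : c ≤ 0 := by
  by_contra hc
  push Not at hc
  have h1 := Real.isLittleO_log_id_atTop.def (c := c / (B + 1)) (by positivity)
  have h2 := Filter.eventually_gt_atTop (max 1 ((A + 4 * Y * c) / (3 * c)))
  obtain ⟨y, hy1, hy2, hy3⟩ := (H.and (h1.and h2)).exists
  have hy4 : 1 < y := lt_of_le_of_lt (le_max_left _ _) hy3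
  have hy5 : (A + 4 * Y * c) / (3 * c) < y := lt_of_le_of_lt (le_max_right _ _) hy3
  rw [div_lt_iff₀ (by positivity)] at hy5
  simp only [id, Real.norm_eq_abs] at hy2
  rw [abs_of_pos (by linarith : 0 < y)] at hy2
  have h6 : Real.log y ≤ c / (B + 1) * y := (le_abs_self _).trans hy2
  have h7 : B * Real.log y ≤ c * y := by
    have h8 := mul_le_mul_of_nonneg_left h6 hB
    have h9 : B * (c / (B + 1) * y) ≤ c * y := by
      have h10 : B / (B + 1) ≤ 1 := by
        rw [div_le_one (by positivity)]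
        linarith
      have h11 : B * (c / (B + 1) * y) = B / (B + 1) * (c * y) := by ring
      rw [h11]
      have : 0 < c * y := by positivity
      nlinarith
    linarith
  nlinarith

/-- polynomial growth of `N` at the cusp implies that the flux is at most `h κ / Y` -/
theorem cusp_flux (hP : Pot Δ κ N T) {g π : Matrix.SpecialLinearGroup (Fin 2) ℝ} {h : ℝ}
    (hh : 0 < h) (hπ : π ∈ Δ) (hg : mob π = mob (g * trans h * g⁻¹)) {C : ℕ} {Y₀ : ℝ}
    (hgr : ∀ ζ : ℂ, 0 < ζ.im → Y₀ ≤ ζ.im → (N (mob g ζ)).re ≤ ζ.im ^ C) {ε : ℝ} (hε : 0 < ε)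
    {Y : ℝ} (hY : 0 < Y) :
    flux (pb (mob g) (jj N T ε)) h Y ≤ h * κ / Y := by
  have hΩ := isOpen_Hc 0
  have hmm : ∀ z ∈ Hc 0, mob g z ∈ Hc 0 := fun z hz => mob_mem g hz
  have hmem : ∀ x y' : ℝ, 0 < y' → ((x : ℂ) + y' * I) ∈ Hc 0 := by
    intro x y' hy'
    show 0 < ((x : ℂ) + y' * I).im
    simpa using hy'
  have himr : ∀ x y' : ℝ, ((x : ℂ) + y' * I).im = y' := by intro x y'; simp
  have hN : SmS (Hc 0) (fun ζ => N (mob g ζ)) := SmS.compS hΩ hP.smN (mob_holo g) hmm
  have hT : SmS (Hc 0) (pb (mob g) T) := SmS_pb hΩ hΩ hP.smT (mob_holo g) hmm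
  have hJ : ∀ z ∈ Hc 0, jj (fun ζ => N (mob g ζ)) (pb (mob g) T) ε z = pb (mob g) (jj N T ε) z :=
    fun z hz => jj_pb hΩ hP.smN ((mob_holo g).differentiableAt (hΩ.mem_nhds hz)) (hmm z hz)
  have hjj : SmS (Hc 0) (jj N T ε) := SmS_jj hΩ hP.smN hP.smT hP.im hP.nn hε
  have hfl : flux (pb (mob g) (jj N T ε)) h Y =
      flux (jj (fun ζ => N (mob g ζ)) (pb (mob g) T) ε) h Y := by
    rw [flux, flux]
    apply intervalIntegral.integral_congr
    intro x _
    simp only
    rw [hJ _ (hmem x Y hY)]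
  have hd0 : ∀ z ∈ Hc 0, 0 < ‖deriv (mob g) z‖ := fun z hz => norm_pos_iff.2 (deriv_mob_ne_zero g hz)
  have hρ : ∀ z ∈ Hc 0, -(κ / z.im ^ 2) ≤ rho (jj (fun ζ => N (mob g ζ)) (pb (mob g) T) ε) z := by
    intro z hz
    have h1 : rho (jj (fun ζ => N (mob g ζ)) (pb (mob g) T) ε) z = rho (pb (mob g) (jj N T ε)) z := by
      rw [rho, rho]
      congr 2
      apply dzb_congr
      filter_upwards [hΩ.mem_nhds hz] with w hw
      exact hJ w hw
    rw [h1, rho_pb hΩ hΩ hjj (mob_holo g) hmm hz]
    have h2 := hP.ineq ε hε (mob g z) (hmm z hz)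
    rw [im_mob g hz] at h2
    have h3 := mul_le_mul_of_nonneg_right h2 (sq_nonneg ‖deriv (mob g) z‖)
    have hz' : 0 < z.im := hz
    have hd := hd0 z hz
    have h4 : -(κ / (z.im * ‖deriv (mob g) z‖) ^ 2) * ‖deriv (mob g) z‖ ^ 2 = -(κ / z.im ^ 2) := by
      field_simp
    rw [h4] at h3
    exact h3
  have hTe : ∀ z ∈ Hc 0, ‖pb (mob g) T z‖ ≤ √κ / z.im * (N (mob g z)).re := by
    intro z hz
    have h2 := hP.bd (mob g z) (hmm z hz)
    rw [im_mob g hz] at h2
    have h3 := mul_le_mul_of_nonneg_right h2 (norm_nonneg (deriv (mob g) z))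
    have hz' : 0 < z.im := hz
    have hd := hd0 z hz
    have h4 : √κ / (z.im * ‖deriv (mob g) z‖) * (N (mob g z)).re * ‖deriv (mob g) z‖ =
        √κ / z.im * (N (mob g z)).re := by
      field_simp
    rw [h4, ← norm_mul] at h3
    exact h3
  rw [hfl]
  -- apply the cylinder lemma on `[Y, y]`
  set F := flux (jj (fun ζ => N (mob g ζ)) (pb (mob g) T) ε) h Y with hF
  have hk0 := hP.kappa
  have key : ∀ y : ℝ, max (max Y Y₀) 1 ≤ y → 4 * (y - Y) * (F - h * κ / Y) ≤
      (h * Real.log (1 + ε) - h * Real.log ε - 8 * h * √κ * Real.log Y) +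
        (h * C + 8 * h * √κ) * Real.log y := by
    intro y hy
    have hy1 : Y ≤ y := (le_max_left _ _).trans ((le_max_left _ _).trans hy)
    have hy2 : Y₀ ≤ y := (le_max_right _ _).trans ((le_max_left _ _).trans hy)
    have hy3 : 1 ≤ y := (le_max_right _ _).trans hy
    have hy0 : 0 < y := by linarith
    have hkc : ContinuousOn (fun t : ℝ => κ / t ^ 2) (Set.Icc Y y) := by
      apply ContinuousOn.div continuousOn_const (by fun_prop)
      intro t ht
      have : 0 < t := hY.trans_le ht.1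
      positivity
    have hec : ContinuousOn (fun t : ℝ => √κ / t) (Set.Icc Y y) := by
      apply ContinuousOn.div continuousOn_const (by fun_prop)
      intro t ht
      have : 0 < t := hY.trans_le ht.1
      positivity
    have h1 := cyl (Y₀ := 0) (N := fun ζ => N (mob g ζ)) (T := pb (mob g) T) (k := fun t => κ / t ^ 2)
      (e := fun t => √κ / t) (Y₁ := Y) (Y₂ := y) hh hε hN hT (fun z hz => hP.im _ (hmm z hz))
      (fun z hz => hP.nn _ (hmm z hz)) (fun z hz => cuspF_N hP hπ hg hz) (fun z hz => cuspF_T hP hπ hg hz)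
      hY hy1 hkc hec (fun t ht => by positivity)
      (fun t ht => by
        have : 0 < t := hY.trans_le ht.1
        positivity)
      (fun z h1 _ => by
        have : z ∈ Hc 0 := hY.trans_le h1
        exact hρ z this)
      (fun z h1 _ => by
        have : z ∈ Hc 0 := hY.trans_le h1
        exact hTe z this)
    have h2 : ∫ t in Y..y, κ / t ^ 2 = κ / Y - κ / y := by
      rw [intervalIntegral.integral_eq_sub_of_hasDerivAt (f := fun t => -(κ / t))]
      · ring
      · intro t ht
        rw [Set.uIcc_of_le hy1] at ht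
        have ht0 : t ≠ 0 := (hY.trans_le ht.1).ne'
        have := ((hasDerivAt_inv ht0).const_mul κ).neg
        refine (this.congr_deriv ?_).congr_of_eventuallyEq ?_
        · field_simp
        · exact Filter.Eventually.of_forall fun s => by simp [div_eq_mul_inv]
      · apply ContinuousOn.intervalIntegrable
        rwa [Set.uIcc_of_le hy1]
    have h3 : ∫ t in Y..y, √κ / t = √κ * Real.log y - √κ * Real.log Y := by
      rw [intervalIntegral.integral_eq_sub_of_hasDerivAt (f := fun t => √κ * Real.log t)]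
      · intro t ht
        rw [Set.uIcc_of_le hy1] at ht
        have ht0 : t ≠ 0 := (hY.trans_le ht.1).ne'
        have := (Real.hasDerivAt_log ht0).const_mul (√κ)
        exact this.congr_deriv (by rw [div_eq_mul_inv])
      · apply ContinuousOn.intervalIntegrable
        rwa [Set.uIcc_of_le hy1]
    have hNc : ∀ y' : ℝ, 0 < y' → IntervalIntegrable
        (fun x : ℝ => Real.log ((N (mob g (x + y' * I))).re + ε)) MeasureTheory.volume 0 h := by
      intro y' hy'
      apply Continuous.intervalIntegrable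
      apply Continuous.log
      · exact (Complex.continuous_re.comp (hN.continuousOn.comp_continuous
          (f := fun x : ℝ => ((x : ℂ) + y' * I)) (by fun_prop) fun x => hmem x y' hy')).add continuous_const
      · intro x
        have := hP.nn _ (hmm _ (hmem x y' hy'))
        linarith
    have h4 : ∫ x in (0 : ℝ)..h, Real.log ((N (mob g (x + y * I))).re + ε) ≤
        h * (Real.log (1 + ε) + C * Real.log y) := by
      have : ∫ x in (0 : ℝ)..h, Real.log ((N (mob g (x + y * I))).re + ε) ≤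
          ∫ _ in (0 : ℝ)..h, (Real.log (1 + ε) + C * Real.log y) := by
        apply intervalIntegral.integral_mono_on hh.le (hNc y hy0) intervalIntegrable_const
        intro x _
        have h5 := hgr (x + y * I) (by rw [himr]; exact hy0) (by rw [himr]; exact hy2)
        rw [himr] at h5
        have h6 := hP.nn _ (hmm _ (hmem x y hy0))
        have h7 : (N (mob g (x + y * I))).re + ε ≤ (1 + ε) * y ^ C := by
          have : 1 ≤ y ^ C := one_le_pow₀ hy3
          nlinarith
        calc Real.log ((N (mob g (x + y * I))).re + ε) ≤ Real.log ((1 + ε) * y ^ C) :=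
              Real.log_le_log (by linarith) h7
          _ = Real.log (1 + ε) + C * Real.log y := by
              rw [Real.log_mul (by positivity) (by positivity), Real.log_pow]
      rw [intervalIntegral.integral_const, smul_eq_mul, sub_zero] at this
      exact this
    have h5 : h * Real.log ε ≤ ∫ x in (0 : ℝ)..h, Real.log ((N (mob g (x + Y * I))).re + ε) := by
      have : ∫ _ in (0 : ℝ)..h, Real.log ε ≤
          ∫ x in (0 : ℝ)..h, Real.log ((N (mob g (x + Y * I))).re + ε) := by
        apply intervalIntegral.integral_mono_on hh.le intervalIntegrable_const (hNc Y hY)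
        intro x _
        have h6 := hP.nn _ (hmm _ (hmem x Y hY))
        exact Real.log_le_log hε (by linarith)
      rw [intervalIntegral.integral_const, smul_eq_mul, sub_zero] at this
      exact this
    rw [h2, h3] at h1
    have h6 : 4 * (y - Y) * (F - h * κ / Y) ≤ 4 * (y - Y) * (F - h * (κ / Y - κ / y)) := by
      apply mul_le_mul_of_nonneg_left _ (by linarith)
      have : 0 ≤ κ / y := by positivity
      have : h * κ / Y = h * (κ / Y) := by ring
      nlinarith
    have h7 : 8 * h * (√κ * Real.log y - √κ * Real.log Y) =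
      8 * h * √κ * Real.log y - 8 * h * √κ * Real.log Y := by ring
    nlinarith
  have hB : 0 ≤ h * C + 8 * h * √κ := by positivity
  have := cuspF_growth (c := F - h * κ / Y) (Y := Y) hB (Filter.eventually_atTop.2 ⟨_, key⟩)
  linarith

end US38
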