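import Pool.Agent.LibUS38.Cyl
import Pool.Agent.LibUS38.CylM

/-! The cylinder lemma. -/

open Matrix Complex
open UpperHalfPlane hiding I
open scoped ContDiff

namespace US38

open SP38

variable {N T J : ℂ → ℂ} {Y₀ h ε : ℝ}

/-- the form `jj` is periodic -/
theorem cyl2_jj_periodic (hpN : ∀ ζ ∈ Hc Y₀, N (ζ + h) = N ζ) (hpT : ∀ ζ ∈ Hc Y₀, T (ζ + h) = T ζ)
    {ζ : ℂ} (hζ : ζ ∈ Hc Y₀) : jj N T ε (ζ + h) = jj N T ε ζ := by
  have h1 : SP38.dz N (ζ + h) = SP38.dz N ζ := by
    have h2 : SP38.dz N (ζ + h) = SP38.dz (fun z => N (z + h)) ζ := by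
      rw [SP38.dz, SP38.dz, fderiv_comp_add_right]
    rw [h2]
    apply dz_congr
    filter_upwards [(isOpen_Hc Y₀).mem_nhds hζ] with z hz
    exact hpN z hz
  rw [jj, jj, h1, hpN ζ hζ, hpT ζ hζ]

/-- the cylinder lemma -/
theorem cyl (hh : 0 < h) (hε : 0 < ε) (hN : SmS (Hc Y₀) N) (hT : SmS (Hc Y₀) T)
    (him : ∀ ζ ∈ Hc Y₀, (N ζ).im = 0) (hnn : ∀ ζ ∈ Hc Y₀, 0 ≤ (N ζ).re)
    (hpN : ∀ ζ ∈ Hc Y₀, N (ζ + h) = N ζ) (hpT : ∀ ζ ∈ Hc Y₀, T (ζ + h) = T ζ)
    {k e : ℝ → ℝ} {Y₁ Y₂ : ℝ} (h01 : Y₀ < Y₁) (h12 : Y₁ ≤ Y₂)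
    (hk : ContinuousOn k (Set.Icc Y₁ Y₂)) (he : ContinuousOn e (Set.Icc Y₁ Y₂))
    (hk0 : ∀ y ∈ Set.Icc Y₁ Y₂, 0 ≤ k y) (he0 : ∀ y ∈ Set.Icc Y₁ Y₂, 0 ≤ e y)
    (hρ : ∀ ζ : ℂ, Y₁ ≤ ζ.im → ζ.im ≤ Y₂ → -k ζ.im ≤ rho (jj N T ε) ζ)
    (hTe : ∀ ζ : ℂ, Y₁ ≤ ζ.im → ζ.im ≤ Y₂ → ‖T ζ‖ ≤ e ζ.im * (N ζ).re) :
    4 * (Y₂ - Y₁) * (flux (jj N T ε) h Y₁ - h * ∫ y in Y₁..Y₂, k y) ≤
      (∫ x in (0 : ℝ)..h, Real.log ((N (x + Y₂ * I)).re + ε)) -
      (∫ x in (0 : ℝ)..h, Real.log ((N (x + Y₁ * I)).re + ε)) +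
      8 * h * ∫ y in Y₁..Y₂, e y := by
  have hΩ := isOpen_Hc Y₀
  have hmem : ∀ x y' : ℝ, Y₀ < y' → ((x : ℂ) + y' * I) ∈ Hc Y₀ := by
    intro x y' hy'
    show Y₀ < ((x : ℂ) + y' * I).im
    simpa using hy'
  have himr : ∀ x y' : ℝ, ((x : ℂ) + y' * I).im = y' := by intro x y'; simp
  have hne : ∀ z ∈ Hc Y₀, (N z + ε : ℂ) ≠ 0 := by
    intro z hz h0
    have := congrArg Complex.re h0
    simp at this
    linarith [hnn z hz]
  have hjj : SmS (Hc Y₀) (jj N T ε) := SmS_jj hΩ hN hT him hnn hε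
  have hq : SmS (Hc Y₀) (fun z => T z / (N z + ε)) :=
    SmS.divS hT (SmS.addS hN (SmS_const _)) hne
  have hper : ∀ ζ ∈ Hc Y₀, jj N T ε (ζ + h) = jj N T ε ζ := fun ζ hζ => cyl2_jj_periodic hpN hpT hζ
  have hρc : ContinuousOn (rho (jj N T ε)) (Hc Y₀) := by
    have : ContinuousOn (SP38.dzb (jj N T ε)) (Hc Y₀) := (SmS.dzb hΩ hjj).continuousOn
    exact continuousOn_const.mul (Complex.continuous_re.comp_continuousOn this)
  -- the flux is bounded below
  have hkint : ∀ y ∈ Set.Icc Y₁ Y₂, IntervalIntegrable k MeasureTheory.volume Y₁ y := by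
    intro y hy
    apply ContinuousOn.intervalIntegrable
    rw [Set.uIcc_of_le hy.1]
    exact hk.mono fun t ht => ⟨ht.1, ht.2.trans hy.2⟩
  have hrc : ∀ y : ℝ, Y₀ < y → Continuous fun x : ℝ => rho (jj N T ε) (x + y * I) := fun y hy =>
    hρc.comp_continuous (by fun_prop) fun x => hmem x y hy
  have hflux : ∀ y ∈ Set.Icc Y₁ Y₂, flux (jj N T ε) h Y₁ - h * ∫ y in Y₁..Y₂, k y ≤
      flux (jj N T ε) h y := by
    intro y hy
    have h1 := flux_sub hh hjj hper h01 hy.1
    have h2 : ∫ t in Y₁..y, -(h * k t) ≤ ∫ t in Y₁..y, ∫ x in (0 : ℝ)..h, rho (jj N T ε) (x + t * I) := by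
      apply intervalIntegral.integral_mono_on hy.1
      · exact ((hkint y hy).const_mul h).neg
      · apply ContinuousOn.intervalIntegrable
        rw [Set.uIcc_of_le hy.1]
        exact (cyl_continuous hρc h01 h).mono fun t ht => ht.1
      · intro t ht
        have h3 : ∫ _ in (0 : ℝ)..h, -k t ≤ ∫ x in (0 : ℝ)..h, rho (jj N T ε) (x + t * I) := by
          apply intervalIntegral.integral_mono_on hh.le
          · exact intervalIntegrable_const
          · exact (hrc t (h01.trans_le ht.1)).intervalIntegrable _ _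
          · intro x _
            have := hρ (x + t * I) (by rw [himr]; exact ht.1) (by rw [himr]; exact ht.2.trans hy.2)
            rwa [himr] at this
        rw [intervalIntegral.integral_const, smul_eq_mul] at h3
        linarith
    have h4 : ∫ t in Y₁..y, -(h * k t) = -(h * ∫ t in Y₁..y, k t) := by
      rw [intervalIntegral.integral_neg, intervalIntegral.integral_const_mul]
    have h5 : ∫ t in Y₁..y, k t ≤ ∫ t in Y₁..Y₂, k t := by
      apply intervalIntegral.integral_mono_interval le_rfl hy.1 hy.2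
      · refine (MeasureTheory.ae_restrict_iff' measurableSet_Ioc).2 (Filter.Eventually.of_forall fun t ht => ?_)
        exact hk0 t ⟨ht.1.le, ht.2⟩
      · exact hkint Y₂ ⟨h12, le_rfl⟩
    have h6 := mul_le_mul_of_nonneg_left h5 hh.le
    linarith
  -- the error term
  set Q : ℝ → ℝ := fun y => ∫ x in (0 : ℝ)..h, (I * (T (x + y * I) / (N (x + y * I) + ε))).re with hQ
  have hqc : ContinuousOn (fun ζ => (I * (T ζ / (N ζ + ε))).re) (Hc Y₀) :=
    Complex.continuous_re.comp_continuousOn (continuousOn_const.mul hq.continuousOn)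
  have hQe : ∀ y ∈ Set.Icc Y₁ Y₂, Q y ≤ h * e y := by
    intro y hy
    have h3 : Q y ≤ ∫ _ in (0 : ℝ)..h, e y := by
      rw [hQ]
      apply intervalIntegral.integral_mono_on hh.le
      · exact (hqc.comp_continuous (f := fun x : ℝ => ((x : ℂ) + y * I)) (by fun_prop)
          fun x => hmem x y (h01.trans_le hy.1)).intervalIntegrable _ _
      · exact intervalIntegrable_const
      · intro x _
        have hz := hmem x y (h01.trans_le hy.1)
        set ζ : ℂ := x + y * I with hζ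
        have h4 := hTe ζ (by rw [hζ, himr]; exact hy.1) (by rw [hζ, himr]; exact hy.2)
        have h4' : ζ.im = y := by rw [hζ, himr]
        rw [h4'] at h4
        have hpos : 0 < (N ζ).re + ε := by linarith [hnn ζ hz]
        have h7 : (N ζ + ε : ℂ) = (((N ζ).re + ε : ℝ) : ℂ) := by
          apply Complex.ext
          · simp
          · simp [him ζ hz]
        calc (I * (T ζ / (N ζ + ε))).re ≤ ‖I * (T ζ / (N ζ + ε))‖ := Complex.re_le_norm _
          _ = ‖T ζ‖ / ((N ζ).re + ε) := by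
            rw [norm_mul, Complex.norm_I, one_mul, norm_div, h7, Complex.norm_real, Real.norm_of_nonneg hpos.le]
          _ ≤ e y := by
            rw [div_le_iff₀ hpos]
            have := mul_nonneg (he0 y hy) hε.le
            linarith
    rw [intervalIntegral.integral_const, smul_eq_mul, sub_zero] at h3
    exact h3
  -- the mean
  have hFc : ContinuousOn (flux (jj N T ε) h) (Set.Icc Y₁ Y₂) := fun y hy =>
    (cyl_hasDerivAt_flux hh hjj hper (h01.trans_le hy.1)).continuousAt.continuousWithinAt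
  have hQc : ContinuousOn Q (Set.Icc Y₁ Y₂) := (cyl_continuous hqc h01 h).mono fun t ht => ht.1
  have hM := intervalIntegral.integral_eq_sub_of_hasDerivAt
    (f := fun y : ℝ => ∫ x in (0 : ℝ)..h, Real.log ((N (x + y * I)).re + ε))
    (f' := fun y => 4 * flux (jj N T ε) h y - 8 * Q y) (a := Y₁) (b := Y₂)
    (fun y hy => by
      rw [Set.uIcc_of_le h12] at hy
      exact hasDerivAt_mean hh hε hN hT him hnn (h01.trans_le hy.1))
    (by
      apply ContinuousOn.intervalIntegrable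
      rw [Set.uIcc_of_le h12]
      exact (continuousOn_const.mul hFc).sub (continuousOn_const.mul hQc))
  rw [← hM]
  set A := flux (jj N T ε) h Y₁ - h * ∫ y in Y₁..Y₂, k y with hA
  have heint : IntervalIntegrable e MeasureTheory.volume Y₁ Y₂ := by
    apply ContinuousOn.intervalIntegrable
    rwa [Set.uIcc_of_le h12]
  have h8 : ∫ y in Y₁..Y₂, (4 * A - 8 * h * e y) ≤ ∫ y in Y₁..Y₂, (4 * flux (jj N T ε) h y - 8 * Q y) := by
    apply intervalIntegral.integral_mono_on h12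
    · exact intervalIntegrable_const.sub (heint.const_mul _)
    · apply ContinuousOn.intervalIntegrable
      rw [Set.uIcc_of_le h12]
      exact (continuousOn_const.mul hFc).sub (continuousOn_const.mul hQc)
    · intro y hy
      have h9 := hflux y hy
      have h10 := hQe y hy
      linarith
  have h11 : ∫ y in Y₁..Y₂, (4 * A - 8 * h * e y) =
      4 * (Y₂ - Y₁) * A - 8 * h * ∫ y in Y₁..Y₂, e y := by
    rw [intervalIntegral.integral_sub intervalIntegrable_const (heint.const_mul _),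
      intervalIntegral.integral_const, smul_eq_mul, intervalIntegral.integral_const_mul]
    ring
  rw [h11] at h8
  linarith

end US38
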