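import Pool.Agent.LibSP38.Glo1

/-! The projector on the real extension class. -/

open Matrix Complex
open scoped ComplexOrder ContDiff

namespace US38

open SP38

variable {m : ℕ} {w : ℤ} {K : ℕ} {Q : Matrix (Fin m) (Fin m) ℝ}

/-- the projector onto the types `(a, b)` with `a, b < 0` -/
noncomputable def Rm (w : ℤ) (P : ℤ → Matrix (Fin m) (Fin m) ℂ) : Matrix (Fin m) (Fin m) ℂ :=
  ∑ b ∈ Finset.Ioo w 0, P b

/-- the imaginary part -/
noncomputable def imv (x : Fin m → ℂ) : Fin m → ℂ := fun i => ((x i).im : ℂ)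

theorem Rm_P {P : ℤ → Matrix (Fin m) (Fin m) ℂ} (h : HD w K Q P) (a : ℤ) :
    Rm w P * P a = (if w < a ∧ a < 0 then P a else 0) ∧
    P a * Rm w P = (if w < a ∧ a < 0 then P a else 0) := by
  constructor
  · rw [Rm, Finset.sum_mul]
    simp only [h.mul]
    by_cases ha : w < a ∧ a < 0
    · rw [if_pos ha, Finset.sum_eq_single_of_mem a (Finset.mem_Ioo.mpr ha)]
      · rw [if_pos rfl]
      · intro b _ hb
        rw [if_neg hb]
    · rw [if_neg ha]
      apply Finset.sum_eq_zero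
      intro b hb
      rw [if_neg]
      rintro rfl
      exact ha (Finset.mem_Ioo.mp hb)
  · rw [Rm, Finset.mul_sum]
    simp only [h.mul]
    by_cases ha : w < a ∧ a < 0
    · rw [if_pos ha, Finset.sum_eq_single_of_mem a (Finset.mem_Ioo.mpr ha)]
      · rw [if_pos rfl]
      · intro b _ hb
        rw [if_neg (Ne.symm hb)]
    · rw [if_neg ha]
      apply Finset.sum_eq_zero
      intro b hb
      rw [if_neg]
      rintro rfl
      exact ha (Finset.mem_Ioo.mp hb)

theorem Rm_Rm {P : ℤ → Matrix (Fin m) (Fin m) ℂ} (h : HD w K Q P) : Rm w P * Rm w P = Rm w P := by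
  have h1 : Rm w P * Rm w P = ∑ b ∈ Finset.Ioo w 0, Rm w P * P b := by
    rw [← Finset.mul_sum]
    rfl
  rw [h1]
  refine Finset.sum_congr rfl fun b hb => ?_
  rw [(Rm_P h b).1, if_pos (Finset.mem_Ioo.mp hb)]

theorem Rm_real {P : ℤ → Matrix (Fin m) (Fin m) ℂ} (h : HD w K Q P) :
    (Rm w P).map (starRingEnd ℂ) = Rm w P := by
  have h1 : (Rm w P).map (starRingEnd ℂ) = ∑ b ∈ Finset.Ioo w 0, (P b).map (starRingEnd ℂ) := by
    ext i j
    simp only [Rm, Matrix.map_apply, Matrix.sum_apply, map_sum]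
  rw [h1, Rm]
  simp only [h.conj]
  refine Finset.sum_nbij' (fun b => w - b) (fun b => w - b) ?_ ?_ ?_ ?_ ?_
  · intro b hb
    rw [Finset.mem_Ioo] at hb ⊢
    omega
  · intro b hb
    rw [Finset.mem_Ioo] at hb ⊢
    omega
  · intro b _
    ring
  · intro b _
    ring
  · intro b _
    rfl

theorem adj_Rm {P : ℤ → Matrix (Fin m) (Fin m) ℂ} (h : HD w K Q P) :
    adj (metr w K Q P) (Rm w P) = Rm w P := by
  have hadd : ∀ s : Finset ℤ, adj (metr w K Q P) (∑ a ∈ s, P a) = ∑ a ∈ s, P a := by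
    intro s
    induction s using Finset.induction_on with
    | empty => simp [adj]
    | insert a s ha ih =>
      rw [Finset.sum_insert ha, adj_add, ih, h.adj_P]
  exact hadd _

theorem del_cj_sub (x y : Fin m → ℂ) : cj (x - y) = cj x - cj y := by
  funext i
  simp only [cj, Pi.sub_apply, map_sub]

theorem del_cj_add (x y : Fin m → ℂ) : cj (x + y) = cj x + cj y := by
  funext i
  simp only [cj, Pi.add_apply, map_add]

theorem del_cj_smul (c : ℂ) (x : Fin m → ℂ) : cj (c • x) = (starRingEnd ℂ) c • cj x := by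
  funext i
  simp only [cj, Pi.smul_apply, smul_eq_mul, map_mul]

theorem del_cj_ofR (e : Fin m → ℝ) : cj (ofR e) = ofR e := by
  funext i
  simp only [cj, ofR, Complex.conj_ofReal]

theorem del_cj_imv (x : Fin m → ℂ) : cj (imv x) = imv x := by
  funext i
  simp only [cj, imv, Complex.conj_ofReal]

theorem del_imv (x : Fin m → ℂ) : x - cj x = (2 * I) • imv x := by
  funext i
  simp only [cj, imv, Pi.sub_apply, Pi.smul_apply, smul_eq_mul]
  rw [Complex.sub_conj]
  push_cast
  ring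

theorem del_ofR {x : Fin m → ℂ} (hx : cj x = x) : ofR (fun i => (x i).re) = x := by
  funext i
  exact Complex.conj_eq_iff_re.mp (congrFun hx i)

theorem del_Rm_mulVec_eq_zero {P : ℤ → Matrix (Fin m) (Fin m) ℂ} {x : Fin m → ℂ}
    (hx : ∀ b < 0, P b *ᵥ x = 0) : Rm w P *ᵥ x = 0 := by
  rw [Rm, Matrix.sum_mulVec]
  exact Finset.sum_eq_zero fun b hb => hx b (Finset.mem_Ioo.mp hb).2

theorem del_ext {P : ℤ → Matrix (Fin m) (Fin m) ℂ} (h : HD w K Q P) {x y : Fin m → ℂ}
    (hxy : ∀ b, P b *ᵥ x = P b *ᵥ y) : x = y := by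
  rw [h.hd1_decomp x, h.hd1_decomp y]
  exact Finset.sum_congr rfl fun b _ => hxy b

/-- a vector with prescribed multiples of the components -/
theorem del_P_sum {P : ℤ → Matrix (Fin m) (Fin m) ℂ} (h : HD w K Q P) (c : ℤ → ℂ) (v : Fin m → ℂ)
    (b : ℤ) : P b *ᵥ (∑ a ∈ Finset.Icc (-(K : ℤ)) K, c a • (P a *ᵥ v)) = c b • (P b *ᵥ v) := by
  rw [Matrix.mulVec_sum]
  by_cases hb : b ∈ Finset.Icc (-(K : ℤ)) K
  · rw [Finset.sum_eq_single_of_mem b hb]
    · rw [Matrix.mulVec_smul, Matrix.mulVec_mulVec, h.mul, if_pos rfl]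
    · intro a _ ha
      rw [Matrix.mulVec_smul, Matrix.mulVec_mulVec, h.mul, if_neg (Ne.symm ha),
        Matrix.zero_mulVec, smul_zero]
  · rw [h.hd2_zero hb]
    simp

/-- the extension splits over `ℝ` iff `δ = 0` -/
theorem split_iff {p : Fin m → ℤ} {s : Equiv.Perm (Fin m)} {G : Matrix (Fin m) (Fin m) ℂ}
    (h : IsPHS w p Q G) (hs : ∀ j, p (s j) = w - p j) (x : Fin m → ℂ) :
    (∃ e : Fin m → ℝ, x - ofR e ∈ Fil p G 0) ↔ Rm w (PP p s G) *ᵥ imv x = 0 := by
  obtain ⟨K, hK⟩ := glo1_exists_bound p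
  have hd : HD w K Q (PP p s G) := h.hd hs hK
  have h2I : (2 * I : ℂ) ≠ 0 := mul_ne_zero two_ne_zero I_ne_zero
  constructor
  · rintro ⟨e, he⟩
    rw [h.mem_Fil_iff_PP hs] at he
    have h1 : Rm w (PP p s G) *ᵥ (x - ofR e) = 0 := del_Rm_mulVec_eq_zero he
    rw [Matrix.mulVec_sub, sub_eq_zero] at h1
    have h2 : Rm w (PP p s G) *ᵥ cj x = Rm w (PP p s G) *ᵥ ofR e := by
      have h3 := congrArg cj h1
      rw [hd1_cj_mulVec, hd1_cj_mulVec, Rm_real hd, del_cj_ofR] at h3
      exact h3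
    have h4 : (2 * I) • (Rm w (PP p s G) *ᵥ imv x) = 0 := by
      rw [← Matrix.mulVec_smul, ← del_imv, Matrix.mulVec_sub, h1, h2, sub_self]
    exact (smul_eq_zero.mp h4).resolve_left h2I
  · intro hR
    set v := imv x with hv
    set c : ℤ → ℂ := fun a => if 0 ≤ a then (if a ≤ w then 1 / 2 else 1) else 0 with hc
    have hcr : ∀ a, (starRingEnd ℂ) (c a) = c a := by
      intro a
      simp only [hc]
      split_ifs
      · rw [map_div₀, map_one, map_ofNat]
      · rw [map_one]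
      · rw [map_zero]
    set f := ∑ a ∈ Finset.Icc (-(K : ℤ)) K, c a • (PP p s G a *ᵥ v) with hf
    have hPf : ∀ b, PP p s G b *ᵥ f = c b • (PP p s G b *ᵥ v) := fun b => del_P_sum hd c v b
    have hPf' : ∀ b, PP p s G b *ᵥ cj f = c (w - b) • (PP p s G b *ᵥ v) := by
      intro b
      have h1 := hd.hd1_cj (w - b) f
      rw [sub_sub_cancel] at h1
      rw [← h1, hPf, del_cj_smul, hcr, hd.hd1_cj, sub_sub_cancel, del_cj_imv]
    have hsum : f + cj f = v := by
      apply del_ext hd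
      intro b
      rw [Matrix.mulVec_add, hPf, hPf', ← add_smul]
      by_cases hb : w < b ∧ b < 0
      · have h1 : PP p s G b *ᵥ v = 0 := by
          have h2 := (Rm_P hd b).2
          rw [if_pos hb] at h2
          rw [← h2, ← Matrix.mulVec_mulVec, hR, Matrix.mulVec_zero]
        rw [h1, smul_zero]
      · have h1 : c b + c (w - b) = 1 := by
          simp only [hc]
          split_ifs <;> first | omega | norm_num
        rw [h1, one_smul]
    set y := x - (2 * I) • f with hy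
    have hyr : cj y = y := by
      have h1 : y - cj y = 0 := by
        rw [hy, del_cj_sub, del_cj_smul, map_mul, Complex.conj_I, map_ofNat]
        have h2 : x - (2 * I) • f - (cj x - (2 * -I) • cj f) =
            (x - cj x) - (2 * I) • (f + cj f) := by
          funext i
          simp only [Pi.sub_apply, Pi.add_apply, Pi.smul_apply, smul_eq_mul]
          ring
        rw [h2, hsum, del_imv, sub_self]
      exact (sub_eq_zero.mp h1).symm
    refine ⟨fun i => (y i).re, ?_⟩
    rw [del_ofR hyr, hy, sub_sub_cancel, h.mem_Fil_iff_PP hs]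
    intro b hb
    rw [Matrix.mulVec_smul, hPf]
    have h1 : c b = 0 := by
      simp only [hc]
      rw [if_neg (not_le.mpr hb)]
    rw [h1, zero_smul, smul_zero]

/-- `δ` only depends on `x` modulo `F^0` and real vectors -/
theorem Rm_imv_Fil {p : Fin m → ℤ} {s : Equiv.Perm (Fin m)} {G : Matrix (Fin m) (Fin m) ℂ}
    (h : IsPHS w p Q G) (hs : ∀ j, p (s j) = w - p j) {x : Fin m → ℂ} (hx : x ∈ Fil p G 0) :
    Rm w (PP p s G) *ᵥ imv x = 0 := by
  rw [← split_iff h hs]
  refine ⟨0, ?_⟩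
  have h1 : x - ofR (0 : Fin m → ℝ) = x := by
    funext i
    simp [ofR]
  rw [h1]
  exact hx

end US38
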