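import Pool.Agent.LibUS38.Del
import Pool.Agent.LibUS38.Hm

/-! The data of an extension. -/

open Matrix Complex
open scoped ComplexOrder ContDiff

namespace US38

open SP38

variable {m : ℕ} {w : ℤ} {K : ℕ} {Q : Matrix (Fin m) (Fin m) ℝ}

/-- the data of an extension over `Ω`: `v` is the imaginary part of the period vector, `u` its
derivative -/
structure Ext (w : ℤ) (K : ℕ) (Q : Matrix (Fin m) (Fin m) ℝ) (Ω : Set ℂ)
    (P : ℂ → ℤ → Matrix (Fin m) (Fin m) ℂ) (θ : ℂ → Matrix (Fin m) (Fin m) ℂ)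
    (v u : ℂ → Fin m → ℂ) : Prop where
  pv : PV w K Q Ω P θ
  smv : SmV Ω v
  smu : SmV Ω u
  real : ∀ z ∈ Ω, cj (v z) = v z
  dv : ∀ z ∈ Ω, DV v z = u z
  du : ∀ z ∈ Ω, DVb u z = 0
  tr : ∀ z ∈ Ω, ∀ a, a < -1 → P z a *ᵥ u z = 0

theorem del2_im (x : ℂ) : (x.im : ℂ) = (2 * I)⁻¹ * (x - (starRingEnd ℂ) x) := by
  rw [Complex.sub_conj]
  have h2I : (2 * I : ℂ) ≠ 0 := mul_ne_zero two_ne_zero I_ne_zero
  field_simp
  push_cast
  ring

/-- construction of the data -/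
theorem exists_Ext {p : Fin m → ℤ} {s : Equiv.Perm (Fin m)} {G : ℂ → Matrix (Fin m) (Fin m) ℂ}
    {ν : ℂ → Fin m → ℂ} (hv : IsVar w p Q G ν) (hs : ∀ j, p (s j) = w - p j)
    (hK : ∀ j, |p j| ≤ K) :
    ∃ (θ : ℂ → Matrix (Fin m) (Fin m) ℂ) (u : ℂ → Fin m → ℂ),
      Ext w K Q (Hc 0) (fun z => PP p s (G z)) θ (fun z => imv (ν z)) u := by
  have hΩ : IsOpen (Hc 0) := isOpen_Hc 0
  obtain ⟨θ, hθ⟩ := exists_PV (K := K) (G := G) hΩ hv.holG (fun z hz => hv.phs z hz) hs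
    (fun z hz => hv.trG z hz) hK
  have hd : ∀ i, ∀ z ∈ Hc 0, DifferentiableAt ℂ (fun z => ν z i) z := fun i z hz =>
    (hv.holn i).differentiableAt (hΩ.mem_nhds hz)
  have hdd : ∀ i, DifferentiableOn ℂ (fun z => (2 * I)⁻¹ * deriv (fun z => ν z i) z) (Hc 0) :=
    fun i => (((hv.holn i).deriv hΩ).const_mul _)
  have hsm : ∀ i, SmS (Hc 0) (fun z => ν z i) := fun i => SmS.of_holo hΩ (hv.holn i)
  have hcj : ∀ i, SmS (Hc 0) (fun z => (starRingEnd ℂ) (ν z i)) := fun i =>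
    Complex.conjCLE.contDiff.comp_contDiffOn (hsm i)
  have himv : ∀ i, (fun z => imv (ν z) i) =
      fun z => (2 * I)⁻¹ * (ν z i - (starRingEnd ℂ) (ν z i)) := by
    intro i
    funext z
    exact del2_im _
  refine ⟨θ, fun z i => (2 * I)⁻¹ * deriv (fun z => ν z i) z, hθ, ?_, ?_, ?_, ?_, ?_, ?_⟩
  · intro i
    rw [himv]
    exact ContDiffOn.mul contDiffOn_const (ContDiffOn.sub (hsm i) (hcj i))
  · intro i
    exact SmS.of_holo hΩ (hdd i)
  · intro z _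
    exact del_cj_imv _
  · intro z hz
    funext i
    show dz (fun z => imv (ν z) i) z = (2 * I)⁻¹ * deriv (fun z => ν z i) z
    have h1 := (hsm i).differentiableAt hΩ hz
    have h2 := (hcj i).differentiableAt hΩ hz
    have h3 : dz (fun z => (2 * I)⁻¹ * (ν z i - (starRingEnd ℂ) (ν z i))) z =
        (2 * I)⁻¹ * dz (fun z => ν z i - (starRingEnd ℂ) (ν z i)) z :=
      WirtM_dz_smul _ (h1.sub h2)
    rw [himv, h3, WirtM_dz_sub h1 h2, dz_of_holo (hd i z hz), dz_conj h1,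
      dzb_of_holo (hd i z hz), map_zero, sub_zero]
  · intro z hz
    funext i
    exact dzb_of_holo ((hdd i).differentiableAt (hΩ.mem_nhds hz))
  · intro z hz a ha
    have h1 := ((hv.phs z hz).mem_Fil_iff_PP hs (-1) _).mp (hv.trn z hz) a ha
    have h2 : (fun i => (2 * I)⁻¹ * deriv (fun z => ν z i) z) =
        (2 * I)⁻¹ • (fun i => deriv (fun z => ν z i) z) := rfl
    show PP p s (G z) a *ᵥ (fun i => (2 * I)⁻¹ * deriv (fun z => ν z i) z) = 0
    rw [h2, Matrix.mulVec_smul, h1, smul_zero]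

end US38
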