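import Pool.Agent.LibUS38.Del2

/-! Derivatives of `δ`, easy part. -/

open Matrix Complex
open scoped ComplexOrder ContDiff

namespace US38

open SP38

variable {m : ℕ} {w : ℤ} {K : ℕ} {Q : Matrix (Fin m) (Fin m) ℝ} {Ω : Set ℂ}
  {P : ℂ → ℤ → Matrix (Fin m) (Fin m) ℂ} {θ : ℂ → Matrix (Fin m) (Fin m) ℂ}
  {v u : ℂ → Fin m → ℂ} {z : ℂ}

/-- `δ` -/
noncomputable def del (w : ℤ) (P : ℂ → ℤ → Matrix (Fin m) (Fin m) ℂ) (v : ℂ → Fin m → ℂ) (z : ℂ) :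
    Fin m → ℂ := Rm w (P z) *ᵥ v z

/-- the covariant derivative of the component of type `(-1, w + 1)` -/
noncomputable def eta (P : ℂ → ℤ → Matrix (Fin m) (Fin m) ℂ)
    (θ : ℂ → Matrix (Fin m) (Fin m) ℂ) (v u : ℂ → Fin m → ℂ) (z : ℂ) : Fin m → ℂ :=
  P z (-1) *ᵥ (u z - θ z *ᵥ v z)

/-- `∂̄` of a real vector -/
theorem delD_DVb_real {x : ℂ → Fin m → ℂ} (hΩ : IsOpen Ω) (hz : z ∈ Ω) (hx : SmV Ω x)
    (hr : ∀ z ∈ Ω, cj (x z) = x z) : DVb x z = cj (DV x z) := by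
  funext i
  show dzb (fun z => x z i) z = (starRingEnd ℂ) (dz (fun z => x z i) z)
  rw [← dzb_conj ((hx i).differentiableAt hΩ hz)]
  refine dzb_congr (Filter.eventually_of_mem (hΩ.mem_nhds hz) fun y hy => ?_)
  exact (congrFun (hr y hy) i).symm

theorem delD_sm_Rm (h : PV w K Q Ω P θ) : Sm Ω (fun z => Rm w (P z)) :=
  Sm.sum (Finset.Ioo w 0) fun b _ => h.sm b

theorem Ext.dvb (h : Ext w K Q Ω P θ v u) (hΩ : IsOpen Ω) (hz : z ∈ Ω) :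
    DVb v z = cj (u z) := by
  rw [delD_DVb_real hΩ hz h.smv h.real, h.dv z hz]

theorem Ext.sm_del (h : Ext w K Q Ω P θ v u) (hΩ : IsOpen Ω) : SmV Ω (del w P v) := by
  have _ := hΩ
  exact SmV.mulVec (delD_sm_Rm h.pv) h.smv

theorem Ext.sm_eta (h : Ext w K Q Ω P θ v u) (hΩ : IsOpen Ω) : SmV Ω (eta P θ v u) := by
  have _ := hΩ
  exact SmV.mulVec (h.pv.sm (-1)) (SmV.sub h.smu (SmV.mulVec h.pv.smθ h.smv))

theorem Ext.cj_del (h : Ext w K Q Ω P θ v u) (hz : z ∈ Ω) : cj (del w P v z) = del w P v z := by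
  rw [del, hd1_cj_mulVec, Rm_real (h.pv.hd z hz), h.real z hz]

theorem Ext.D2_del (h : Ext w K Q Ω P θ v u) (hΩ : IsOpen Ω) (hz : z ∈ Ω) :
    D2 θ (del w P v) z = cj (D1 θ (del w P v) z) := by
  rw [D2, D1, delD_DVb_real hΩ hz (h.sm_del hΩ) fun y hy => h.cj_del hy, del_cj_sub,
    hd1_cj_mulVec, h.cj_del hz, tb]

theorem Ext.D2_theta_del (h : Ext w K Q Ω P θ v u) (hΩ : IsOpen Ω) (hz : z ∈ Ω) :
    D2 θ (fun z => θ z *ᵥ del w P v z) z = θ z *ᵥ D2 θ (del w P v) z := by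
  rw [D2, D2, DVb_mulVec hΩ hz h.pv.smθ (h.sm_del hΩ), h.pv.DB_θ hΩ hz, tb, Matrix.mulVec_sub,
    Matrix.sub_mulVec, Matrix.mulVec_mulVec, Matrix.mulVec_mulVec]
  abel

end US38
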