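import Pool.Agent.LibUS38.DelD

/-! Derivatives of `δ`. -/

open Matrix Complex
open scoped ComplexOrder ContDiff

namespace US38

open SP38

variable {m : ℕ} {w : ℤ} {K : ℕ} {Q : Matrix (Fin m) (Fin m) ℝ} {Ω : Set ℂ}
  {P : ℂ → ℤ → Matrix (Fin m) (Fin m) ℂ} {θ : ℂ → Matrix (Fin m) (Fin m) ℂ}
  {v u : ℂ → Fin m → ℂ} {z : ℂ}

theorem delD2_DZ_Rm (hΩ : IsOpen Ω) (h : PV w K Q Ω P θ) (hz : z ∈ Ω) :
    DZ (fun z => Rm w (P z)) z = θ z * Rm w (P z) - Rm w (P z) * θ z := by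
  have h1 : DZ (fun z => Rm w (P z)) z = ∑ b ∈ Finset.Ioo w 0, DZ (fun z => P z b) z :=
    DZ_sum hΩ hz (Finset.Ioo w 0) fun b _ => h.sm b
  rw [h1, Rm, Finset.mul_sum, Finset.sum_mul, ← Finset.sum_sub_distrib]
  exact Finset.sum_congr rfl fun b _ => h.der z hz b

theorem delD2_Rm_theta (h : PV w K Q Ω P θ) (hw : w < -1) (hz : z ∈ Ω) :
    Rm w (P z) * θ z * Rm w (P z) = Rm w (P z) * θ z - P z (-1) * θ z := by
  have h1 : ∀ b ∈ Finset.Ioo w 0, P z b * θ z * Rm w (P z) =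
      P z b * θ z - (if b = -1 then P z b * θ z else 0) := by
    intro b hb
    rw [Finset.mem_Ioo] at hb
    have e := h.deg z hz (b + 1)
    rw [add_sub_cancel_right] at e
    rw [← e, Matrix.mul_assoc, (Rm_P (h.hd z hz) (b + 1)).2]
    by_cases hb1 : b = -1
    · rw [if_neg (by omega), if_pos hb1, Matrix.mul_zero, sub_self]
    · rw [if_pos (by omega), if_neg hb1, sub_zero]
  have h2 : Rm w (P z) * θ z * Rm w (P z) = ∑ b ∈ Finset.Ioo w 0, P z b * θ z * Rm w (P z) := by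
    rw [← Finset.sum_mul, ← Finset.sum_mul]
    rfl
  have h3 : Rm w (P z) * θ z = ∑ b ∈ Finset.Ioo w 0, P z b * θ z := by
    rw [← Finset.sum_mul]
    rfl
  rw [h2, Finset.sum_congr rfl h1, Finset.sum_sub_distrib, ← h3, Finset.sum_ite_eq' ]
  rw [if_pos (Finset.mem_Ioo.mpr ⟨hw, by norm_num⟩)]

theorem delD2_Rm_u (h : Ext w K Q Ω P θ v u) (hw : w < -1) (hz : z ∈ Ω) :
    Rm w (P z) *ᵥ u z = P z (-1) *ᵥ u z := by
  rw [Rm, Matrix.sum_mulVec]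
  refine Finset.sum_eq_single_of_mem (-1) (Finset.mem_Ioo.mpr ⟨hw, by norm_num⟩) fun b hb hb1 => ?_
  rw [Finset.mem_Ioo] at hb
  exact h.tr z hz b (by omega)

theorem Ext.D1_del (h : Ext w K Q Ω P θ v u) (hΩ : IsOpen Ω) (hw : w ≤ -3) (hz : z ∈ Ω) :
    D1 θ (del w P v) z = eta P θ v u z - Rm w (P z) *ᵥ (θ z *ᵥ del w P v z) := by
  have h1 : DV (del w P v) z = DZ (fun z => Rm w (P z)) z *ᵥ v z + Rm w (P z) *ᵥ DV v z :=
    DV_mulVec hΩ hz (delD_sm_Rm h.pv) h.smv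
  rw [D1, h1, delD2_DZ_Rm hΩ h.pv hz, h.dv z hz, delD2_Rm_u h (by omega) hz, eta, del,
    Matrix.mulVec_mulVec, Matrix.mulVec_mulVec, ← Matrix.mul_assoc,
    delD2_Rm_theta h.pv (by omega) hz, Matrix.sub_mulVec, Matrix.sub_mulVec, Matrix.mulVec_sub,
    Matrix.mulVec_mulVec]
  abel

theorem Ext.D2_eta (h : Ext w K Q Ω P θ v u) (hΩ : IsOpen Ω) (hw : w ≤ -3) (hz : z ∈ Ω) :
    D2 θ (eta P θ v u) z = θ z *ᵥ (tb θ z *ᵥ (P z (-1) *ᵥ v z)) := by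
  have hsy : SmV Ω (fun z => θ z *ᵥ v z) := SmV.mulVec h.pv.smθ h.smv
  have h1 : DVb (eta P θ v u) z = DB (fun z => P z (-1)) z *ᵥ (u z - θ z *ᵥ v z) +
      P z (-1) *ᵥ DVb (fun z => u z - θ z *ᵥ v z) z :=
    DVb_mulVec hΩ hz (h.pv.sm (-1)) (SmV.sub h.smu hsy)
  have h2 : DVb (fun z => u z - θ z *ᵥ v z) z =
      -((tb θ z * θ z - θ z * tb θ z) *ᵥ v z + θ z *ᵥ cj (u z)) := by
    rw [DVb_sub hΩ hz h.smu hsy, h.du z hz, DVb_mulVec hΩ hz h.pv.smθ h.smv, h.pv.DB_θ hΩ hz,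
      h.dvb hΩ hz, zero_sub]
    rfl
  have e1 : P z (-1) * tb θ z = tb θ z * P z (-2) := by
    have e := h.pv.degB hz (-2)
    rw [show (-2 : ℤ) + 1 = -1 by norm_num] at e
    exact e.symm
  have e2 : P z (-1) * θ z = θ z * P z 0 := by
    have e := h.pv.deg z hz 0
    rw [zero_sub] at e
    exact e.symm
  have e3 : P z 0 * tb θ z = tb θ z * P z (-1) := by
    have e := h.pv.degB hz (-1)
    rw [show (-1 : ℤ) + 1 = 0 by norm_num] at e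
    exact e.symm
  have f1 : P z (-2) *ᵥ u z = 0 := h.tr z hz (-2) (by norm_num)
  have f2 : P z 0 *ᵥ cj (u z) = 0 := by
    have e := (h.pv.hd z hz).hd1_cj w (u z)
    rw [h.tr z hz w (by omega), sub_self] at e
    rw [← e]
    funext i
    simp [cj]
  have f3 : DB (fun z => P z (-1)) z = tb θ z * P z (-1) - P z (-1) * tb θ z :=
    h.pv.derB hΩ hz (-1)
  rw [D2, h1, h2, f3, eta]
  have g1 : P z (-1) *ᵥ (tb θ z *ᵥ u z) = 0 := by
    rw [Matrix.mulVec_mulVec, e1, ← Matrix.mulVec_mulVec, f1, Matrix.mulVec_zero]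
  have g2 : P z (-1) *ᵥ (θ z *ᵥ cj (u z)) = 0 := by
    rw [Matrix.mulVec_mulVec, e2, ← Matrix.mulVec_mulVec, f2, Matrix.mulVec_zero]
  have g3 : P z (-1) *ᵥ (θ z *ᵥ (tb θ z *ᵥ v z)) = θ z *ᵥ (tb θ z *ᵥ (P z (-1) *ᵥ v z)) := by
    rw [Matrix.mulVec_mulVec, e2, ← Matrix.mulVec_mulVec, Matrix.mulVec_mulVec (v z), e3,
      ← Matrix.mulVec_mulVec]
  simp only [Matrix.sub_mulVec, Matrix.mulVec_sub, Matrix.mulVec_neg, Matrix.mulVec_add,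
    ← Matrix.mulVec_mulVec]
  rw [g1, g2, g3]
  abel

end US38
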