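import Pool.Agent.LibSP38.Gro1

/-! Integration by parts for compactly supported functions. -/

open Matrix Complex MeasureTheory
open UpperHalfPlane hiding I
open scoped ContDiff

namespace US38

open SP38

variable {ι : Type} [Fintype ι] {Δ : Subgroup (Matrix.SpecialLinearGroup (Fin 2) ℝ)}
  {σ : ι → Matrix.SpecialLinearGroup (Fin 2) ℝ} {h : ι → ℝ} {D : Set ℍ} {z : ℂ} {Y : ℝ}

/-- extension by zero of a smooth function with compact support -/
theorem sto0_contDiff {f : ℂ → ℂ} (hf : SmS (Hc 0) f) {K : Set ℂ} (hK : IsCompact K)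
    (hKU : K ⊆ Hc 0) (hf0 : ∀ z, z ∉ K → f z = 0) : ContDiff ℝ ∞ f := by
  rw [contDiff_iff_contDiffAt]
  intro z
  by_cases hz : z ∈ K
  · exact ContDiffOn.contDiffAt hf ((isOpen_Hc 0).mem_nhds (hKU hz))
  · have h1 : f =ᶠ[nhds z] fun _ => (0 : ℂ) := by
      filter_upwards [hK.isClosed.isOpen_compl.mem_nhds hz] with w hw
      exact hf0 w hw
    exact contDiffAt_const.congr_of_eventuallyEq h1

theorem sto0_integral_fderiv {f : ℂ → ℂ} (hf : ContDiff ℝ ∞ f) {K : Set ℂ} (hK : IsCompact K)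
    (hf0 : ∀ z, z ∉ K → f z = 0) (v : ℂ) :
    Integrable (fun z => fderiv ℝ f z v) ∧ ∫ z, fderiv ℝ f z v = 0 := by
  have hcs : HasCompactSupport f := HasCompactSupport.intro hK hf0
  have hd : Differentiable ℝ f := hf.differentiable (by simp)
  have hc1 : Continuous (fun z => fderiv ℝ f z v) :=
    (hf.continuous_fderiv (by simp)).clm_apply continuous_const
  have hcs1 : HasCompactSupport (fun z => fderiv ℝ f z v) :=
    hcs.fderiv_apply ℝ v
  have hi : Integrable (fun z => fderiv ℝ f z v) := hc1.integrable_of_hasCompactSupport hcs1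
  refine ⟨hi, ?_⟩
  have h1 := integral_mul_fderiv_eq_neg_fderiv_mul_of_integrable (μ := (volume : Measure ℂ))
    (f := fun _ : ℂ => (1 : ℂ)) (g := f) (v := v) (by simp) (by simpa using hi)
    (by simpa using hf.continuous.integrable_of_hasCompactSupport hcs)
    (fun x _ => differentiableAt_const _) (fun x _ => hd x)
  simpa using h1

/-- integration by parts for compactly supported functions -/
theorem integral_dzb_zero {f : ℂ → ℂ} (hf : SmS (Hc 0) f)
    (hfc : ∃ K : Set ℂ, IsCompact K ∧ K ⊆ Hc 0 ∧ ∀ z, z ∉ K → f z = 0) :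
    ∫ z in Hc 0, dzb f z = 0 := by
  obtain ⟨K, hK, hKU, hf0⟩ := hfc
  have hs := sto0_contDiff hf hK hKU hf0
  have h0 : ∀ z, z ∉ Hc 0 → dzb f z = 0 := by
    intro z hz
    have hz' : z ∉ K := fun h => hz (hKU h)
    have h1 : f =ᶠ[nhds z] fun _ => (0 : ℂ) := by
      filter_upwards [hK.isClosed.isOpen_compl.mem_nhds hz'] with w hw
      exact hf0 w hw
    rw [dzb_congr h1, dzb_const]
  rw [setIntegral_eq_integral_of_forall_compl_eq_zero h0]
  obtain ⟨i1, e1⟩ := sto0_integral_fderiv hs hK hf0 1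
  obtain ⟨i2, e2⟩ := sto0_integral_fderiv hs hK hf0 I
  have h2 : ∫ z, dzb f z = (∫ z, (fderiv ℝ f z 1 + I * fderiv ℝ f z I)) / 2 := by
    rw [← integral_div]
    rfl
  rw [h2, integral_add i1 (i2.const_mul I), integral_const_mul, e1, e2]
  simp

end US38
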