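import Pool.Agent.LibSP38.Tra2
import Pool.Agent.LibUS38.Defs

/-! Moebius maps on the upper half plane. -/

open Matrix Complex
open UpperHalfPlane hiding I
open scoped ContDiff

namespace US38

open SP38

variable {g g' : Matrix.SpecialLinearGroup (Fin 2) ℝ} {z : ℂ}

theorem mem_Hc {c : ℝ} : z ∈ Hc c ↔ c < z.im := Iff.rfl

theorem mob_coe (g : Matrix.SpecialLinearGroup (Fin 2) ℝ) (τ : ℍ) :
    mob g (τ : ℂ) = ((g • τ : ℍ) : ℂ) := by
  rw [UpperHalfPlane.coe_specialLinearGroup_apply]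
  rfl

theorem mob_mem (g : Matrix.SpecialLinearGroup (Fin 2) ℝ) (hz : z ∈ Hc 0) : mob g z ∈ Hc 0 := by
  have h1 := mob_coe g ⟨z, hz⟩
  change mob g z = _ at h1
  rw [h1]
  exact (g • (⟨z, hz⟩ : ℍ)).im_pos

theorem mob_one (z : ℂ) : mob 1 z = z := by
  simp [mob]

theorem mob_mul (g g' : Matrix.SpecialLinearGroup (Fin 2) ℝ) (hz : z ∈ Hc 0) :
    mob (g * g') z = mob g (mob g' z) := by
  have h1 := mob_coe (g * g') ⟨z, hz⟩
  change mob (g * g') z = _ at h1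
  have h2 := mob_coe g' ⟨z, hz⟩
  change mob g' z = _ at h2
  rw [h1, h2, mob_coe, mul_smul]

theorem mob_trans (a : ℝ) (z : ℂ) : mob (trans a) z = z + a := by
  simp [mob, SP38.trans]

theorem mob_denom (g : Matrix.SpecialLinearGroup (Fin 2) ℝ) (hz : z ∈ Hc 0) :
    ((g 1 0 : ℝ) : ℂ) * z + ((g 1 1 : ℝ) : ℂ) ≠ 0 := tra2_denom_ne g hz

theorem mob_hasDeriv (g : Matrix.SpecialLinearGroup (Fin 2) ℝ) (hz : z ∈ Hc 0) :
    HasDerivAt (mob g) (1 / ((g 1 0 : ℝ) * z + (g 1 1 : ℝ)) ^ 2) z := by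
  have h1 : HasDerivAt (fun z : ℂ => ((g 0 0 : ℝ) : ℂ) * z + ((g 0 1 : ℝ) : ℂ))
      ((g 0 0 : ℝ) : ℂ) z := by
    simpa using ((hasDerivAt_id z).const_mul ((g 0 0 : ℝ) : ℂ)).add_const ((g 0 1 : ℝ) : ℂ)
  have h2 : HasDerivAt (fun z : ℂ => ((g 1 0 : ℝ) : ℂ) * z + ((g 1 1 : ℝ) : ℂ))
      ((g 1 0 : ℝ) : ℂ) z := by
    simpa using ((hasDerivAt_id z).const_mul ((g 1 0 : ℝ) : ℂ)).add_const ((g 1 1 : ℝ) : ℂ)
  have h3 := h1.div h2 (mob_denom g hz)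
  have h4 : (g 0 0 : ℝ) * (g 1 1 : ℝ) - (g 0 1 : ℝ) * (g 1 0 : ℝ) = 1 := by
    have := g.det_coe
    rwa [Matrix.det_fin_two] at this
  have h5 : ((g 0 0 : ℝ) : ℂ) * ((g 1 1 : ℝ) : ℂ) - ((g 0 1 : ℝ) : ℂ) * ((g 1 0 : ℝ) : ℂ) = 1 := by
    exact_mod_cast h4
  refine h3.congr_deriv ?_
  congr 1
  linear_combination h5

theorem mob_holo (g : Matrix.SpecialLinearGroup (Fin 2) ℝ) : DifferentiableOn ℂ (mob g) (Hc 0) :=
  fun _ hz => (mob_hasDeriv g hz).differentiableAt.differentiableWithinAt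

theorem mob_diffAt (g : Matrix.SpecialLinearGroup (Fin 2) ℝ) (hz : z ∈ Hc 0) :
    DifferentiableAt ℂ (mob g) z := (mob_hasDeriv g hz).differentiableAt

theorem deriv_mob (g : Matrix.SpecialLinearGroup (Fin 2) ℝ) (hz : z ∈ Hc 0) :
    deriv (mob g) z = 1 / ((g 1 0 : ℝ) * z + (g 1 1 : ℝ)) ^ 2 := (mob_hasDeriv g hz).deriv

theorem deriv_mob_ne_zero (g : Matrix.SpecialLinearGroup (Fin 2) ℝ) (hz : z ∈ Hc 0) :
    deriv (mob g) z ≠ 0 := by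
  rw [deriv_mob g hz]
  exact one_div_ne_zero (pow_ne_zero 2 (mob_denom g hz))

theorem im_mob (g : Matrix.SpecialLinearGroup (Fin 2) ℝ) (hz : z ∈ Hc 0) :
    (mob g z).im = z.im * ‖deriv (mob g) z‖ := by
  have h4 : (g 0 0 : ℝ) * (g 1 1 : ℝ) - (g 0 1 : ℝ) * (g 1 0 : ℝ) = 1 := by
    have := g.det_coe
    rwa [Matrix.det_fin_two] at this
  have h5 := mob_denom g hz
  rw [deriv_mob g hz, norm_div, norm_one, norm_pow, ← normSq_eq_norm_sq, mob, div_im]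
  have h6 : normSq (((g 1 0 : ℝ) : ℂ) * z + ((g 1 1 : ℝ) : ℂ)) ≠ 0 := by
    rwa [Ne, normSq_eq_zero]
  simp only [add_im, mul_im, ofReal_re, ofReal_im, add_re, mul_re, zero_mul, sub_zero, add_zero]
  rw [← sub_div, mul_one_div]
  congr 1
  linear_combination z.im * h4

theorem deriv_mob_mul (g g' : Matrix.SpecialLinearGroup (Fin 2) ℝ) (hz : z ∈ Hc 0) :
    deriv (mob (g * g')) z = deriv (mob g) (mob g' z) * deriv (mob g') z := by
  have h1 : mob (g * g') =ᶠ[nhds z] fun z => mob g (mob g' z) := by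
    filter_upwards [(isOpen_Hc 0).mem_nhds hz] with x hx
    exact mob_mul g g' hx
  rw [h1.deriv_eq]
  exact deriv_comp z (mob_diffAt g (mob_mem g' hz)) (mob_diffAt g' hz)

/-- pull backs compose -/
theorem pb_mul (g g' : Matrix.SpecialLinearGroup (Fin 2) ℝ) (j : ℂ → ℂ) (hz : z ∈ Hc 0) :
    pb (mob (g * g')) j z = pb (mob g') (pb (mob g) j) z := by
  rw [pb, pb, pb, deriv_mob_mul g g' hz, mob_mul g g' hz, mul_assoc]

theorem mob_inv_mob (g : Matrix.SpecialLinearGroup (Fin 2) ℝ) (hz : z ∈ Hc 0) :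
    mob g⁻¹ (mob g z) = z ∧ mob g (mob g⁻¹ z) = z := by
  rw [← mob_mul _ _ hz, ← mob_mul _ _ hz, inv_mul_cancel, mul_inv_cancel, mob_one]
  exact ⟨rfl, rfl⟩

end US38
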