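import Pool.Agent.LibUS38.Geo1
import Pool.Agent.LibUS38.Mob

/-! Periodization over `Δ`. -/

open Matrix Complex
open UpperHalfPlane hiding I
open scoped ContDiff

namespace US38

open SP38

variable {ι : Type} [Fintype ι] {Δ : Subgroup (Matrix.SpecialLinearGroup (Fin 2) ℝ)}
  {σ : ι → Matrix.SpecialLinearGroup (Fin 2) ℝ} {h : ι → ℝ} {D : Set ℍ} {f g : ℂ → ℂ} {z : ℂ}

/-- the sum over `Δ` -/
noncomputable def Per (Δ : Subgroup (Matrix.SpecialLinearGroup (Fin 2) ℝ)) (f : ℂ → ℂ) (z : ℂ) :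
    ℂ := ∑ᶠ δ : Δ, f (mob (δ : Matrix.SpecialLinearGroup (Fin 2) ℝ) z)

/-- locally finite -/
def LF (Δ : Subgroup (Matrix.SpecialLinearGroup (Fin 2) ℝ)) (f : ℂ → ℂ) : Prop :=
  ∀ L : Set ℂ, IsCompact L → L ⊆ Hc 0 →
    {δ : Δ | ∃ z ∈ L, f (mob (δ : Matrix.SpecialLinearGroup (Fin 2) ℝ) z) ≠ 0}.Finite

/-- compact subsets of `Hc 0` are compact subsets of `ℍ` -/
theorem per1_compact {L : Set ℂ} (hL : IsCompact L) (hLU : L ⊆ Hc 0) :
    IsCompact (((↑) : ℍ → ℂ) ⁻¹' L) := by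
  rw [UpperHalfPlane.isEmbedding_coe.isInducing.isCompact_preimage_iff]
  · exact hL
  · intro z hz
    exact ⟨⟨z, mem_Hc.1 (hLU hz)⟩, rfl⟩

theorem LF_of_compact (hc : IsCurve Δ σ h D) {L : Set ℂ} (hL : IsCompact L) (hLU : L ⊆ Hc 0)
    (hf : ∀ z, z ∉ L → f z = 0) : LF Δ f := by
  intro K hK hKU
  have h1 := hc.disc2 (per1_compact hK hKU) (per1_compact hL hLU)
  refine Set.Finite.of_finite_image (f := Subtype.val) (h1.subset ?_) Subtype.val_injective.injOn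
  rintro _ ⟨δ, ⟨z, hz, hne⟩, rfl⟩
  refine ⟨δ.2, ⟨z, mem_Hc.1 (hKU hz)⟩, hz, ?_⟩
  rw [Set.mem_preimage, ← mob_coe]
  by_contra hcon
  exact hne (hf _ hcon)

theorem Per_invariant (f : ℂ → ℂ) {δ : Matrix.SpecialLinearGroup (Fin 2) ℝ} (hδ : δ ∈ Δ)
    (hz : z ∈ Hc 0) : Per Δ f (mob δ z) = Per Δ f z := by
  unfold Per
  rw [← finsum_comp_equiv (Equiv.mulRight (⟨δ, hδ⟩ : Δ))
    (f := fun δ' : Δ => f (mob (δ' : Matrix.SpecialLinearGroup (Fin 2) ℝ) z))]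
  refine finsum_congr fun δ' => ?_
  rw [Equiv.coe_mulRight, Subgroup.coe_mul, mob_mul _ _ hz]

/-- multiplication by an invariant function -/
theorem Per_mul (hg : ∀ δ ∈ Δ, ∀ z ∈ Hc 0, g (mob δ z) = g z) (hz : z ∈ Hc 0) :
    Per Δ (fun z => f z * g z) z = Per Δ f z * g z := by
  unfold Per
  have h1 : ∀ δ : Δ, f (mob (δ : Matrix.SpecialLinearGroup (Fin 2) ℝ) z) *
      g (mob (δ : Matrix.SpecialLinearGroup (Fin 2) ℝ) z) =
      g z • f (mob (δ : Matrix.SpecialLinearGroup (Fin 2) ℝ) z) := by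
    intro δ
    rw [hg δ δ.2 z hz, smul_eq_mul, mul_comm]
  rw [finsum_congr h1, ← smul_finsum, smul_eq_mul, mul_comm]

end US38
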