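import Pool.Agent.LibUS38.Mob

/-! Integration on the upper half plane. -/

open Matrix Complex MeasureTheory
open UpperHalfPlane hiding I
open scoped ContDiff

namespace US38

open SP38

variable {ι : Type} [Fintype ι] {Δ : Subgroup (Matrix.SpecialLinearGroup (Fin 2) ℝ)}
  {σ : ι → Matrix.SpecialLinearGroup (Fin 2) ℝ} {h : ι → ℝ} {D : Set ℍ} {z : ℂ}

theorem unf_range : Set.range UpperHalfPlane.coe = Hc 0 := by
  ext z
  constructor
  · rintro ⟨τ, rfl⟩
    exact τ.im_pos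
  · intro hz
    exact ⟨⟨z, hz⟩, rfl⟩

theorem unf_measurableSet_Hc (c : ℝ) : MeasurableSet (Hc c) := (isOpen_Hc c).measurableSet

/-- the hyperbolic measure -/
theorem integral_H {E : Type*} [NormedAddCommGroup E] [NormedSpace ℝ E] (f : ℂ → E) :
    ∫ τ : ℍ, f (τ : ℂ) = ∫ z in Hc 0, (1 / z.im ^ 2) • f z := by
  have hm : Measurable fun z : ℍ => ((1 / NNReal.mk z.im z.im_pos.le : NNReal) ^ 2) := by
    refine Continuous.measurable ?_
    refine .pow (.div₀ continuous_const ?_ ?_) _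
    · exact UpperHalfPlane.continuous_im.subtype_mk _
    · exact fun x ↦ NNReal.ne_iff.mp x.im_ne_zero
  have h1 : ∫ τ : ℍ, f (τ : ℂ) = ∫ τ : ℍ, ((1 / NNReal.mk τ.im τ.im_pos.le : NNReal) ^ 2) •
      f (τ : ℂ) ∂(volume.comap UpperHalfPlane.coe) := by
    rw [UpperHalfPlane.volume_def]
    exact integral_withDensity_eq_integral_smul hm _
  have h2 : ∀ τ : ℍ, ((1 / NNReal.mk τ.im τ.im_pos.le : NNReal) ^ 2) • f (τ : ℂ) =
      (fun z : ℂ => (1 / z.im ^ 2) • f z) (UpperHalfPlane.coe τ) := by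
    intro τ
    rw [NNReal.smul_def]
    simp
  have h3 := measurableEmbedding_coe.integral_map (μ := volume.comap UpperHalfPlane.coe)
    (fun z : ℂ => (1 / z.im ^ 2) • f z)
  rw [measurableEmbedding_coe.map_comap, unf_range] at h3
  rw [h1, h3]
  exact integral_congr_ae (ae_of_all _ h2)

theorem setIntegral_H {E : Type*} [NormedAddCommGroup E] [NormedSpace ℝ E] (f : ℂ → E)
    {S : Set ℂ} (hS : MeasurableSet S) (hSU : S ⊆ Hc 0) :
    ∫ τ in {τ : ℍ | (τ : ℂ) ∈ S}, f (τ : ℂ) = ∫ z in S, (1 / z.im ^ 2) • f z := by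
  have hS' : MeasurableSet {τ : ℍ | (τ : ℂ) ∈ S} := measurable_coe hS
  rw [← integral_indicator hS']
  have h1 : ({τ : ℍ | (τ : ℂ) ∈ S}.indicator fun τ : ℍ => f (τ : ℂ)) =
      fun τ : ℍ => (S.indicator f) (τ : ℂ) := by
    funext τ
    by_cases h : (τ : ℂ) ∈ S
    · rw [Set.indicator_of_mem (show τ ∈ {τ : ℍ | (τ : ℂ) ∈ S} from h), Set.indicator_of_mem h]
    · rw [Set.indicator_of_notMem (show τ ∉ {τ : ℍ | (τ : ℂ) ∈ S} from h),
        Set.indicator_of_notMem h]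
  rw [h1, integral_H]
  have h2 : (fun z : ℂ => (1 / z.im ^ 2) • (S.indicator f) z) =
      S.indicator (fun z => (1 / z.im ^ 2) • f z) := by
    funext z
    by_cases h : z ∈ S
    · rw [Set.indicator_of_mem h, Set.indicator_of_mem h]
    · rw [Set.indicator_of_notMem h, Set.indicator_of_notMem h, smul_zero]
  rw [h2, setIntegral_indicator hS, Set.inter_eq_right.mpr hSU]

theorem integral_mob {E : Type*} [NormedAddCommGroup E] [NormedSpace ℝ E] (f : ℂ → E)
    (g : Matrix.SpecialLinearGroup (Fin 2) ℝ) :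
    ∫ τ : ℍ, f (mob g (τ : ℂ)) = ∫ τ : ℍ, f (τ : ℂ) := by
  simp_rw [mob_coe]
  have h1 : ∀ τ : ℍ, g • τ = (Matrix.SpecialLinearGroup.mapGL ℝ g) • τ := fun τ =>
    MulAction.compHom_smul_def _ g τ
  simp_rw [h1]
  exact integral_smul_eq_self (fun τ : ℍ => f (τ : ℂ))

end US38
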