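import Pool.Agent.LibUS38.Geo2
import Pool.Agent.LibUS38.Per1
import Pool.Agent.LibUS38.Unf

/-! Unfolding. -/

open Matrix Complex MeasureTheory
open UpperHalfPlane hiding I
open scoped ContDiff

namespace US38

open SP38

variable {ι : Type} [Fintype ι] {Δ : Subgroup (Matrix.SpecialLinearGroup (Fin 2) ℝ)}
  {σ : ι → Matrix.SpecialLinearGroup (Fin 2) ℝ} {h : ι → ℝ} {D : Set ℍ} {z : ℂ}

theorem unf2_isCompact {K : Set ℂ} (hK : IsCompact K) (hKU : K ⊆ Hc 0) :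
    IsCompact {τ : ℍ | (τ : ℂ) ∈ K} := by
  rw [UpperHalfPlane.isEmbedding_coe.isCompact_iff]
  have h1 : ((↑) : ℍ → ℂ) '' {τ : ℍ | (τ : ℂ) ∈ K} = K := by
    ext z
    constructor
    · rintro ⟨τ, hτ, rfl⟩
      exact hτ
    · intro hz
      exact ⟨⟨z, hKU hz⟩, hz, rfl⟩
  rw [h1]
  exact hK

theorem unf2_continuous {E : Type*} [TopologicalSpace E] {f : ℂ → E} (hf : ContinuousOn f (Hc 0)) :
    Continuous fun τ : ℍ => f (τ : ℂ) :=
  hf.comp_continuous UpperHalfPlane.continuous_coe fun τ => τ.im_pos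

theorem unf2_continuous_mob {E : Type*} [TopologicalSpace E] {f : ℂ → E}
    (hf : ContinuousOn f (Hc 0)) (g : Matrix.SpecialLinearGroup (Fin 2) ℝ) :
    Continuous fun τ : ℍ => f (mob g (τ : ℂ)) := by
  simp_rw [mob_coe]
  exact (unf2_continuous hf).comp (continuous_const_smul g)

theorem unf2_integrable_mob {E : Type*} [NormedAddCommGroup E]
    (g : Matrix.SpecialLinearGroup (Fin 2) ℝ) {f : ℂ → E}
    (hf : Integrable fun τ : ℍ => f (τ : ℂ)) : Integrable fun τ : ℍ => f (mob g (τ : ℂ)) := by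
  have _ := geo2_smulInvariant
  simp_rw [mob_coe]
  have h1 := (measurePreserving_smul g (volume : Measure ℍ)).integrable_comp_emb
    (measurableEmbedding_const_smul g) (g := fun τ : ℍ => f (τ : ℂ))
  exact h1.mpr hf

/-- symmetric unfolding, general form -/
theorem unf2_symm (hc : IsCurve Δ σ h D) {f g : ℂ → ℂ}
    (hfc : ∃ K : Set ℂ, IsCompact K ∧ K ⊆ Hc 0 ∧ ∀ z, z ∉ K → f z = 0)
    (hgc : ∃ K : Set ℂ, IsCompact K ∧ K ⊆ Hc 0 ∧ ∀ z, z ∉ K → g z = 0)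
    (hint : ∀ δ ∈ Δ, Integrable fun τ : ℍ => f (τ : ℂ) * g (mob δ (τ : ℂ))) :
    ∫ τ : ℍ, f (τ : ℂ) * Per Δ g (τ : ℂ) = ∫ τ : ℍ, Per Δ f (τ : ℂ) * g (τ : ℂ) := by
  obtain ⟨Kf, hKf, hKfU, hf0⟩ := hfc
  obtain ⟨Kg, hKg, hKgU, hg0⟩ := hgc
  have hfin := hc.disc2 (unf2_isCompact hKf hKfU) (unf2_isCompact hKg hKgU)
  have hfin' : {δ : Δ | ∃ τ ∈ {τ : ℍ | (τ : ℂ) ∈ Kf},
      (δ : Matrix.SpecialLinearGroup (Fin 2) ℝ) • τ ∈ {τ : ℍ | (τ : ℂ) ∈ Kg}}.Finite := by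
    refine (hfin.preimage (f := fun δ : Δ => (δ : Matrix.SpecialLinearGroup (Fin 2) ℝ))
      Subtype.val_injective.injOn).subset ?_
    rintro δ ⟨τ, h1, h2⟩
    exact ⟨δ.2, τ, h1, h2⟩
  set F : Finset Δ := hfin'.toFinset with hF
  have h1 : ∀ τ : ℍ, f (τ : ℂ) * Per Δ g (τ : ℂ) = ∑ δ ∈ F, f (τ : ℂ) *
      g (mob (δ : Matrix.SpecialLinearGroup (Fin 2) ℝ) (τ : ℂ)) := by
    intro τ
    by_cases hτ : (τ : ℂ) ∈ Kf
    · rw [Per, finsum_eq_sum_of_support_subset (s := F), Finset.mul_sum]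
      intro δ hδ
      rw [hF, Set.Finite.coe_toFinset]
      refine ⟨τ, hτ, ?_⟩
      by_contra h2
      refine hδ (hg0 _ ?_)
      rw [mob_coe]
      exact h2
    · rw [hf0 _ hτ]
      simp
  have h2 : ∀ τ : ℍ, Per Δ f (τ : ℂ) * g (τ : ℂ) = ∑ δ ∈ F,
      f (mob (δ : Matrix.SpecialLinearGroup (Fin 2) ℝ)⁻¹ (τ : ℂ)) * g (τ : ℂ) := by
    intro τ
    by_cases hτ : (τ : ℂ) ∈ Kg
    · have h3 : Per Δ f (τ : ℂ) =
          ∑ᶠ δ : Δ, f (mob (δ : Matrix.SpecialLinearGroup (Fin 2) ℝ)⁻¹ (τ : ℂ)) := by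
        rw [Per, ← finsum_comp_equiv (Equiv.inv Δ)]
        rfl
      rw [h3, finsum_eq_sum_of_support_subset (s := F), Finset.sum_mul]
      intro δ hδ
      rw [hF, Set.Finite.coe_toFinset]
      refine ⟨(δ : Matrix.SpecialLinearGroup (Fin 2) ℝ)⁻¹ • τ, ?_, ?_⟩
      · by_contra h2
        refine hδ (hf0 _ ?_)
        rw [mob_coe]
        exact h2
      · rw [smul_inv_smul]
        exact hτ
    · rw [hg0 _ hτ]
      simp
  have h3 : ∀ δ : Matrix.SpecialLinearGroup (Fin 2) ℝ, ∀ τ : ℍ,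
      f (mob δ⁻¹ (τ : ℂ)) * g (τ : ℂ) =
        (fun z => f z * g (mob δ z)) (mob δ⁻¹ (τ : ℂ)) := by
    intro δ τ
    have := (mob_inv_mob δ (z := (τ : ℂ)) τ.im_pos).2
    simp only [this]
  simp_rw [h1, h2]
  rw [integral_finsetSum, integral_finsetSum]
  · refine Finset.sum_congr rfl fun δ _ => ?_
    simp_rw [h3]
    exact (integral_mob (fun z => f z *
      g (mob (δ : Matrix.SpecialLinearGroup (Fin 2) ℝ) z)) _).symm
  · intro δ _
    simp_rw [h3]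
    exact unf2_integrable_mob _ (f := fun z => f z *
      g (mob (δ : Matrix.SpecialLinearGroup (Fin 2) ℝ) z)) (hint δ δ.2)
  · intro δ _
    exact hint δ δ.2

/-- symmetric unfolding -/
theorem unfold_symm (hc : IsCurve Δ σ h D) {f g : ℂ → ℂ} (hf : ContinuousOn f (Hc 0))
    (hg : ContinuousOn g (Hc 0))
    (hfc : ∃ K : Set ℂ, IsCompact K ∧ K ⊆ Hc 0 ∧ ∀ z, z ∉ K → f z = 0)
    (hgc : ∃ K : Set ℂ, IsCompact K ∧ K ⊆ Hc 0 ∧ ∀ z, z ∉ K → g z = 0) :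
    ∫ τ : ℍ, f (τ : ℂ) * Per Δ g (τ : ℂ) = ∫ τ : ℍ, Per Δ f (τ : ℂ) * g (τ : ℂ) := by
  refine unf2_symm hc hfc hgc fun δ hδ => ?_
  obtain ⟨Kf, hKf, hKfU, hf0⟩ := hfc
  refine Continuous.integrable_of_hasCompactSupport
    ((unf2_continuous hf).mul (unf2_continuous_mob hg δ))
    (HasCompactSupport.intro (unf2_isCompact hKf hKfU) ?_)
  intro τ hτ
  change f (τ : ℂ) * g (mob δ (τ : ℂ)) = 0
  rw [hf0 _ hτ, zero_mul]

/-- the integral of a function with `Per ≤ 1` is at most the area -/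
theorem integral_le_area (hc : IsCurve Δ σ h D) {f : ℂ → ℂ} (hf : ContinuousOn f (Hc 0))
    (hfc : ∃ K : Set ℂ, IsCompact K ∧ K ⊆ Hc 0 ∧ ∀ z, z ∉ K → f z = 0)
    (hnn : ∀ z, (f z).im = 0 ∧ 0 ≤ (f z).re) (hle : ∀ z ∈ Hc 0, (Per Δ f z).re ≤ 1) :
    ∫ τ : ℍ, (f (τ : ℂ)).re ≤ (volume D).toReal := by
  haveI := geo2_smulInvariant
  haveI := geo2_countable hc
  obtain ⟨K, hK, hKU, hf0⟩ := hfc
  have hcont : Continuous fun τ : ℍ => (f (τ : ℂ)).re :=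
    Complex.continuous_re.comp (unf2_continuous hf)
  rw [integral_eq_lintegral_of_nonneg_ae (ae_of_all _ fun τ => (hnn _).2)
    hcont.aestronglyMeasurable]
  refine ENNReal.toReal_mono hc.volume_lt_top.ne ?_
  rw [(geo2_fund hc).lintegral_eq_tsum']
  have hmeas : ∀ g : Δ, Measurable fun τ : ℍ => ENNReal.ofReal (f ((g⁻¹ • τ : ℍ) : ℂ)).re :=
    fun g => (hcont.comp (continuous_const_smul g⁻¹)).measurable.ennreal_ofReal
  rw [← lintegral_tsum fun g => (hmeas g).aemeasurable]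
  have hsum : ∀ τ : ℍ, ∑' g : Δ, ENNReal.ofReal (f ((g⁻¹ • τ : ℍ) : ℂ)).re ≤ 1 := by
    intro τ
    have h1 : ∑' g : Δ, ENNReal.ofReal (f ((g⁻¹ • τ : ℍ) : ℂ)).re =
        ∑' g : Δ, ENNReal.ofReal (f ((g • τ : ℍ) : ℂ)).re :=
      (Equiv.inv Δ).tsum_eq fun g : Δ => ENNReal.ofReal (f ((g • τ : ℍ) : ℂ)).re
    have hLF := LF_of_compact hc hK hKU hf0 {(τ : ℂ)} isCompact_singleton
      (Set.singleton_subset_iff.mpr τ.im_pos)
    have h2 : ∀ g : Δ, mob (g : Matrix.SpecialLinearGroup (Fin 2) ℝ) (τ : ℂ) =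
        ((g • τ : ℍ) : ℂ) := fun g => mob_coe _ _
    have h3 : ∀ g ∉ hLF.toFinset, f ((g • τ : ℍ) : ℂ) = 0 := by
      intro g hg
      rw [Set.Finite.mem_toFinset] at hg
      by_contra h4
      refine hg ⟨τ, rfl, ?_⟩
      rw [h2]
      exact h4
    have h4 : Per Δ f (τ : ℂ) = ∑ g ∈ hLF.toFinset, f ((g • τ : ℍ) : ℂ) := by
      rw [Per, finsum_eq_sum_of_support_subset (s := hLF.toFinset)]
      · exact Finset.sum_congr rfl fun g _ => by rw [h2]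
      · intro g hg
        by_contra h5
        have h6 := h3 g h5
        rw [← h2] at h6
        exact hg h6
    rw [h1, tsum_eq_sum (s := hLF.toFinset), ← ENNReal.ofReal_sum_of_nonneg]
    · rw [← ENNReal.ofReal_one]
      refine ENNReal.ofReal_le_ofReal ?_
      have h5 := hle τ τ.im_pos
      rw [h4, Complex.re_sum] at h5
      exact h5
    · intro g _
      exact (hnn _).2
    · intro g hg
      rw [h3 g hg]
      simp
  calc ∫⁻ τ in D, ∑' g : Δ, ENNReal.ofReal (f ((g⁻¹ • τ : ℍ) : ℂ)).re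
      ≤ ∫⁻ _ in D, 1 := lintegral_mono fun τ => hsum τ
    _ = volume D := by simp

/-- the integral of an invariant nonnegative function over a set which embeds in `X` -/
theorem setIntegral_le (hc : IsCurve Δ σ h D) {F : ℂ → ℝ} (hF : ContinuousOn F (Hc 0))
    (hFn : ∀ z ∈ Hc 0, 0 ≤ F z) (hFi : ∀ δ ∈ Δ, ∀ z ∈ Hc 0, F (mob δ z) = F z)
    {φ : ℂ → ℂ} (hφ : ContinuousOn φ (Hc 0))
    (hφc : ∃ K : Set ℂ, IsCompact K ∧ K ⊆ Hc 0 ∧ ∀ z, z ∉ K → φ z = 0)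
    (hnn : ∀ z, (φ z).im = 0 ∧ 0 ≤ (φ z).re) {S : Set ℂ} (hS : MeasurableSet S)
    (hSc : ∃ K : Set ℂ, IsCompact K ∧ K ⊆ Hc 0 ∧ S ⊆ K)
    (hSi : ∀ δ ∈ Δ, ∀ z ∈ S, mob δ z ∈ S → δ = 1) (hφS : ∀ z ∈ S, Per Δ φ z = 1) :
    ∫ τ in {τ : ℍ | (τ : ℂ) ∈ S}, F (τ : ℂ) ≤ ∫ τ : ℍ, (φ (τ : ℂ)).re * F (τ : ℂ) := by
  obtain ⟨K, hK, hKU, hSK⟩ := hSc
  have hS' : MeasurableSet {τ : ℍ | (τ : ℂ) ∈ S} := measurable_coe hS
  set f : ℂ → ℂ := S.indicator fun z => (F z : ℂ) with hf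
  have hFc : ContinuousOn (fun z => (F z : ℂ)) (Hc 0) :=
    Complex.continuous_ofReal.comp_continuousOn hF
  have hf0 : ∀ z, z ∉ K → f z = 0 := fun z hz =>
    Set.indicator_of_notMem (fun h => hz (hSK h)) _
  have hint : ∀ δ ∈ Δ, Integrable fun τ : ℍ => f (τ : ℂ) * φ (mob δ (τ : ℂ)) := by
    intro δ _
    have h1 : (fun τ : ℍ => f (τ : ℂ) * φ (mob δ (τ : ℂ))) =
        {τ : ℍ | (τ : ℂ) ∈ S}.indicator fun τ => (F (τ : ℂ) : ℂ) * φ (mob δ (τ : ℂ)) := by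
      funext τ
      by_cases hτ : (τ : ℂ) ∈ S
      · rw [Set.indicator_of_mem (show τ ∈ {τ : ℍ | (τ : ℂ) ∈ S} from hτ), hf,
          Set.indicator_of_mem hτ]
      · rw [Set.indicator_of_notMem (show τ ∉ {τ : ℍ | (τ : ℂ) ∈ S} from hτ), hf,
          Set.indicator_of_notMem hτ, zero_mul]
    rw [h1, integrable_indicator_iff hS']
    have h2 : Continuous fun τ : ℍ => (F (τ : ℂ) : ℂ) * φ (mob δ (τ : ℂ)) :=
      (unf2_continuous hFc).mul (unf2_continuous_mob hφ δ)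
    exact (h2.continuousOn.integrableOn_compact (unf2_isCompact hK hKU)).mono_set
      fun τ hτ => hSK hτ
  have hsym := unf2_symm hc (f := f) (g := φ) ⟨K, hK, hKU, hf0⟩ hφc hint
  -- the left side
  have hL : ((∫ τ in {τ : ℍ | (τ : ℂ) ∈ S}, F (τ : ℂ) : ℝ) : ℂ) =
      ∫ τ : ℍ, f (τ : ℂ) * Per Δ φ (τ : ℂ) := by
    rw [← integral_complex_ofReal, ← integral_indicator hS']
    refine integral_congr_ae (ae_of_all _ fun τ => ?_)
    by_cases hτ : (τ : ℂ) ∈ S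
    · simp only [hf]
      rw [Set.indicator_of_mem (show τ ∈ {τ : ℍ | (τ : ℂ) ∈ S} from hτ),
        Set.indicator_of_mem hτ, hφS _ hτ, mul_one]
    · simp only [hf]
      rw [Set.indicator_of_notMem (show τ ∉ {τ : ℍ | (τ : ℂ) ∈ S} from hτ),
        Set.indicator_of_notMem hτ, zero_mul]
  -- the periodization of `f`
  have hPer : ∀ z ∈ Hc 0, ∃ c : ℝ, 0 ≤ c ∧ c ≤ 1 ∧ Per Δ f z = ((c * F z : ℝ) : ℂ) := by
    intro z hz
    by_cases hex : ∃ δ : Δ, mob (δ : Matrix.SpecialLinearGroup (Fin 2) ℝ) z ∈ S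
    · obtain ⟨δ, hδ⟩ := hex
      refine ⟨1, zero_le_one, le_rfl, ?_⟩
      have h1 : ∀ δ' : Δ, δ' ≠ δ → f (mob (δ' : Matrix.SpecialLinearGroup (Fin 2) ℝ) z) = 0 := by
        intro δ' hne
        refine Set.indicator_of_notMem (fun h2 => hne ?_) _
        have h3 := hSi ((δ' : Matrix.SpecialLinearGroup (Fin 2) ℝ) *
          (δ : Matrix.SpecialLinearGroup (Fin 2) ℝ)⁻¹) (Δ.mul_mem δ'.2 (Δ.inv_mem δ.2)) _ hδ ?_
        · apply Subtype.ext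
          exact mul_inv_eq_one.mp h3
        · rw [mob_mul _ _ (mob_mem _ hz), (mob_inv_mob _ hz).1]
          exact h2
      rw [Per, finsum_eq_single _ δ h1, hf, Set.indicator_of_mem hδ, one_mul, hFi _ δ.2 z hz]
    · refine ⟨0, le_rfl, zero_le_one, ?_⟩
      have h1 : ∀ δ : Δ, f (mob (δ : Matrix.SpecialLinearGroup (Fin 2) ℝ) z) = 0 := by
        intro δ
        exact Set.indicator_of_notMem (fun h2 => hex ⟨δ, h2⟩) _
      rw [Per]
      simp_rw [h1]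
      simp
  obtain ⟨Kφ, hKφ, hKφU, hφ0⟩ := hφc
  have hφF : Continuous fun τ : ℍ => (φ (τ : ℂ)).re * F (τ : ℂ) :=
    (Complex.continuous_re.comp (unf2_continuous hφ)).mul (unf2_continuous hF)
  have hint2 : Integrable fun τ : ℍ => (φ (τ : ℂ)).re * F (τ : ℂ) := by
    refine hφF.integrable_of_hasCompactSupport
      (HasCompactSupport.intro (unf2_isCompact hKφ hKφU) ?_)
    intro τ hτ
    change (φ (τ : ℂ)).re * F (τ : ℂ) = 0
    rw [hφ0 _ hτ, Complex.zero_re, zero_mul]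
  have hR : ∫ τ : ℍ, Per Δ f (τ : ℂ) * φ (τ : ℂ) =
      ((∫ τ : ℍ, (Per Δ f (τ : ℂ)).re * (φ (τ : ℂ)).re : ℝ) : ℂ) := by
    rw [← integral_complex_ofReal]
    refine integral_congr_ae (ae_of_all _ fun τ => ?_)
    obtain ⟨c, _, _, h3⟩ := hPer τ τ.im_pos
    change Per Δ f (τ : ℂ) * φ (τ : ℂ) = (((Per Δ f (τ : ℂ)).re * (φ (τ : ℂ)).re : ℝ) : ℂ)
    rw [h3, Complex.ofReal_re, Complex.ofReal_mul]
    congr 1
    apply Complex.ext
    · simp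
    · simp [(hnn (τ : ℂ)).1]
  have hmain : ∫ τ in {τ : ℍ | (τ : ℂ) ∈ S}, F (τ : ℂ) =
      ∫ τ : ℍ, (Per Δ f (τ : ℂ)).re * (φ (τ : ℂ)).re := by
    have := hL.trans (hsym.trans hR)
    exact_mod_cast this
  rw [hmain]
  refine integral_mono_of_nonneg (ae_of_all _ fun τ => ?_) hint2 (ae_of_all _ fun τ => ?_)
  · obtain ⟨c, h1, _, h3⟩ := hPer τ τ.im_pos
    change 0 ≤ (Per Δ f (τ : ℂ)).re * (φ (τ : ℂ)).re
    rw [h3, Complex.ofReal_re]
    exact mul_nonneg (mul_nonneg h1 (hFn _ τ.im_pos)) (hnn _).2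
  · obtain ⟨c, _, h2, h3⟩ := hPer τ τ.im_pos
    change (Per Δ f (τ : ℂ)).re * (φ (τ : ℂ)).re ≤ (φ (τ : ℂ)).re * F (τ : ℂ)
    rw [h3, Complex.ofReal_re, mul_comm]
    refine mul_le_mul_of_nonneg_left ?_ (hnn _).2
    exact (mul_le_mul_of_nonneg_right h2 (hFn _ τ.im_pos)).trans_eq (one_mul _)

end US38
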