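import Pool.Agent.LibUS38.Kap
import Pool.Agent.LibUS38.Sto0
import Pool.Agent.LibUS38.Unf2

/-! Stokes on `X`. -/

open Matrix Complex MeasureTheory
open UpperHalfPlane hiding I
open scoped ContDiff

namespace US38

open SP38

variable {ι : Type} [Fintype ι] {Δ : Subgroup (Matrix.SpecialLinearGroup (Fin 2) ℝ)}
  {σ : ι → Matrix.SpecialLinearGroup (Fin 2) ℝ} {h : ι → ℝ} {D : Set ℍ} {z : ℂ} {Y : ℝ}

theorem sto_integrableOn {f : ℂ → ℂ} (hf : ContinuousOn f (Hc 0)) {K : Set ℂ} (hK : IsCompact K)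
    (hKU : K ⊆ Hc 0) (hf0 : ∀ z, z ∉ K → f z = 0) : IntegrableOn f (Hc 0) := by
  have hc : Continuous f := by
    rw [continuous_iff_continuousAt]
    intro z
    by_cases hz : z ∈ K
    · exact hf.continuousAt ((isOpen_Hc 0).mem_nhds (hKU hz))
    · have h1 : f =ᶠ[nhds z] fun _ => (0 : ℂ) := by
        filter_upwards [hK.isClosed.isOpen_compl.mem_nhds hz] with w hw
        exact hf0 w hw
      exact continuousAt_const.congr h1.symm
  exact (hc.integrable_of_hasCompactSupport (HasCompactSupport.intro hK hf0)).integrableOn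

theorem sto_dzb_zero {f : ℂ → ℂ} {K : Set ℂ} (hK : IsCompact K) (hf0 : ∀ z, z ∉ K → f z = 0)
    (z : ℂ) (hz : z ∉ K) : dzb f z = 0 := by
  have h1 : f =ᶠ[nhds z] fun _ => (0 : ℂ) := by
    filter_upwards [hK.isClosed.isOpen_compl.mem_nhds hz] with w hw
    exact hf0 w hw
  rw [dzb_congr h1, dzb_const]

theorem sto_kap_smooth (hc : IsCurve Δ σ h D) (hY : 2 ≤ Y) : SmS (Hc 0) (kap Δ σ h Y) :=
  csum_smooth hc (kk_smooth Y) (fun _ hy => kk_zero (by linarith) (by linarith))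

/-- transformation of the coefficient of an invariant form times the area density -/
theorem sto_form {j : ℂ → ℂ} {g : Matrix.SpecialLinearGroup (Fin 2) ℝ}
    (hz : z ∈ Hc 0) (hinv : pb (mob g) j z = j z) :
    j (mob g z) * ((mob g z).im : ℂ) ^ 2 =
      (starRingEnd ℂ) (deriv (mob g) z) * (j z * (z.im : ℂ) ^ 2) := by
  have h1 : ((mob g z).im : ℂ) ^ 2 = (z.im : ℂ) ^ 2 *
      (deriv (mob g) z * (starRingEnd ℂ) (deriv (mob g) z)) := by
    rw [im_mob g hz, mul_conj, normSq_eq_norm_sq]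
    push_cast
    ring
  rw [h1, ← hinv, pb]
  ring

/-- `∫ dzb φ (1 - kap) j = 0` -/
theorem sto_key (hc : IsCurve Δ σ h D) (hY : 2 ≤ Y) {j : ℂ → ℂ} (hj : SmS (Hc 0) j)
    (hinv : ∀ δ ∈ Δ, ∀ z ∈ Hc 0, pb (mob δ) j z = j z) {φ : ℂ → ℂ} (hφ : SmS Set.univ φ)
    (hφc : ∃ K : Set ℂ, IsCompact K ∧ K ⊆ Hc 0 ∧ ∀ z, z ∉ K → φ z = 0)
    (hφ1 : ∀ z ∈ Hc 0, kap Δ σ h Y z ≠ 1 → Per Δ φ z = 1) :
    ∫ z in Hc 0, dzb φ z * ((1 - kap Δ σ h Y z) * j z) = 0 := by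
  obtain ⟨K, hK, hKU, hφ0⟩ := hφc
  have hφ' : SmS (Hc 0) φ := ContDiffOn.mono hφ (Set.subset_univ _)
  have hκ := sto_kap_smooth (Y := Y) hc hY
  have hdφ0 := sto_dzb_zero hK hφ0
  set F : ℂ → ℂ := fun z => dzb φ z * ((1 - kap Δ σ h Y z) * j z) * (z.im : ℂ) ^ 2 with hF
  have hFc : ContinuousOn F (Hc 0) := by
    refine ContinuousOn.mul (ContinuousOn.mul ?_ (ContinuousOn.mul ?_ ?_)) ?_
    · exact (SmS.dzb (isOpen_Hc 0) hφ').continuousOn
    · exact continuousOn_const.sub hκ.continuousOn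
    · exact hj.continuousOn
    · exact (((continuous_ofReal.comp Complex.continuous_im).pow 2)).continuousOn
  have hF0 : ∀ z, z ∉ K → F z = 0 := by
    intro z hz
    rw [hF]
    simp only
    rw [hdφ0 z hz, zero_mul, zero_mul]
  -- step 1: integral over the upper half plane
  have e1 : ∫ z in Hc 0, dzb φ z * ((1 - kap Δ σ h Y z) * j z) = ∫ τ : ℍ, F (τ : ℂ) := by
    rw [integral_H F]
    refine setIntegral_congr_fun (isOpen_Hc 0).measurableSet (fun z hz => ?_)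
    have hz0 : (z.im : ℂ) ≠ 0 := by
      have : 0 < z.im := hz
      exact_mod_cast this.ne'
    simp only [hF, real_smul]
    push_cast
    field_simp
  -- step 2: insert `Per φ`
  have e2 : ∫ τ : ℍ, F (τ : ℂ) = ∫ τ : ℍ, F (τ : ℂ) * Per Δ φ (τ : ℂ) := by
    refine integral_congr_ae (Filter.Eventually.of_forall (fun τ => ?_))
    have hτ : (τ : ℂ) ∈ Hc 0 := mem_Hc.mpr τ.im_pos
    show F (τ : ℂ) = F (τ : ℂ) * Per Δ φ (τ : ℂ)
    by_cases hk : kap Δ σ h Y (τ : ℂ) = 1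
    · have : F (τ : ℂ) = 0 := by
        simp only [hF]
        rw [hk, sub_self, zero_mul, mul_zero, zero_mul]
      rw [this, zero_mul]
    · rw [hφ1 _ hτ hk, mul_one]
  have e3 := unfold_symm hc hFc (ContDiffOn.continuousOn hφ') ⟨K, hK, hKU, hF0⟩ ⟨K, hK, hKU, hφ0⟩
  -- step 3: `Per F = 0`
  have hLFφ : LF Δ φ := LF_of_compact hc hK hKU hφ0
  have hPF : ∀ z ∈ Hc 0, Per Δ F z = 0 := by
    intro z hz
    by_cases hk : kap Δ σ h Y z = 1
    · rw [Per]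
      refine finsum_eq_zero_of_forall_eq_zero (fun δ => ?_)
      have hk' : kap Δ σ h Y (mob (δ : Matrix.SpecialLinearGroup (Fin 2) ℝ) z) = 1 := by
        rw [kap, csum_invariant _ δ.2 hz]; exact hk
      simp only [hF]
      rw [hk', sub_self, zero_mul, mul_zero, zero_mul]
    · have h1 : Per Δ F z = (∑ᶠ δ : Δ, dzb φ (mob (δ : Matrix.SpecialLinearGroup (Fin 2) ℝ) z) *
          (starRingEnd ℂ) (deriv (mob (δ : Matrix.SpecialLinearGroup (Fin 2) ℝ)) z)) *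
          ((1 - kap Δ σ h Y z) * (j z * (z.im : ℂ) ^ 2)) := by
        rw [finsum_mul, Per]
        refine finsum_congr (fun δ => ?_)
        have hk' : kap Δ σ h Y (mob (δ : Matrix.SpecialLinearGroup (Fin 2) ℝ) z) =
            kap Δ σ h Y z := csum_invariant _ δ.2 hz
        have h2 := sto_form (j := j) hz (hinv δ δ.2 z hz)
        simp only [hF]
        rw [hk']
        linear_combination (dzb φ (mob (δ : Matrix.SpecialLinearGroup (Fin 2) ℝ) z) *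
          (1 - kap Δ σ h Y z)) * h2
      rw [h1, ← dzb_Per hLFφ hφ' hz]
      have h2 : Per Δ φ =ᶠ[nhds z] fun _ => (1 : ℂ) := by
        have h3 : ∀ᶠ w in nhds z, kap Δ σ h Y w ≠ 1 :=
          ((hκ.continuousOn.continuousAt ((isOpen_Hc 0).mem_nhds hz))).eventually_ne hk
        filter_upwards [h3, (isOpen_Hc 0).mem_nhds hz] with w hw hw'
        exact hφ1 w hw' hw
      rw [dzb_congr h2, dzb_const, zero_mul]
  rw [e1, e2, e3]
  have h4 : ∀ τ : ℍ, Per Δ F (τ : ℂ) * φ (τ : ℂ) = 0 := fun τ => by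
    rw [hPF _ (mem_Hc.mpr τ.im_pos), zero_mul]
  simp [h4]

/-- Stokes for the invariant form `(1 - kap) j` -/
theorem stokes (hc : IsCurve Δ σ h D) (hY : 2 ≤ Y) {j : ℂ → ℂ} (hj : SmS (Hc 0) j)
    (hinv : ∀ δ ∈ Δ, ∀ z ∈ Hc 0, pb (mob δ) j z = j z) {φ : ℂ → ℂ} (hφ : SmS Set.univ φ)
    (hφc : ∃ K : Set ℂ, IsCompact K ∧ K ⊆ Hc 0 ∧ ∀ z, z ∉ K → φ z = 0)
    (hφ1 : ∀ z ∈ Hc 0, kap Δ σ h Y z ≠ 1 → Per Δ φ z = 1) :
    ∫ z in Hc 0, φ z * ((1 - kap Δ σ h Y z) * dzb j z) =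
      ∫ z in Hc 0, φ z * (dzb (kap Δ σ h Y) z * j z) := by
  have hkey := sto_key hc hY hj hinv hφ hφc hφ1
  obtain ⟨K, hK, hKU, hφ0⟩ := hφc
  have hφ' : SmS (Hc 0) φ := ContDiffOn.mono hφ (Set.subset_univ _)
  have hκ := sto_kap_smooth (Y := Y) hc hY
  have h1κ : SmS (Hc 0) (fun z => 1 - kap Δ σ h Y z) := ContDiffOn.sub contDiffOn_const hκ
  have hdφ0 := sto_dzb_zero hK hφ0
  have hdφ : SmS (Hc 0) (dzb φ) := SmS.dzb (isOpen_Hc 0) hφ'
  have hdj : SmS (Hc 0) (dzb j) := SmS.dzb (isOpen_Hc 0) hj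
  have hdκ : SmS (Hc 0) (dzb (kap Δ σ h Y)) := SmS.dzb (isOpen_Hc 0) hκ
  have hsm : SmS (Hc 0) (fun z => φ z * ((1 - kap Δ σ h Y z) * j z)) :=
    SmS.mulS hφ' (SmS.mulS h1κ hj)
  have h0 := integral_dzb_zero hsm ⟨K, hK, hKU, fun z hz => by rw [hφ0 z hz, zero_mul]⟩
  have hd : ∀ z ∈ Hc 0, dzb (fun z => φ z * ((1 - kap Δ σ h Y z) * j z)) z =
      dzb φ z * ((1 - kap Δ σ h Y z) * j z) + (φ z * ((1 - kap Δ σ h Y z) * dzb j z) -
        φ z * (dzb (kap Δ σ h Y) z * j z)) := by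
    intro z hz
    have d1 := SmS.differentiableAt (isOpen_Hc 0) hφ' hz
    have d2 := SmS.differentiableAt (isOpen_Hc 0) h1κ hz
    have d3 := SmS.differentiableAt (isOpen_Hc 0) hj hz
    have d4 := SmS.differentiableAt (isOpen_Hc 0) hκ hz
    have d5 : DifferentiableAt ℝ (fun z => (1 - kap Δ σ h Y z) * j z) z := d2.mul d3
    rw [dzb_mul d1 d5, dzb_mul d2 d3]
    have h5 : dzb (fun z => 1 - kap Δ σ h Y z) z = - dzb (kap Δ σ h Y) z := by
      rw [dzb, dzb, fderiv_const_sub]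
      simp only [_root_.neg_apply]
      ring
    rw [h5]
    ring
  rw [setIntegral_congr_fun (isOpen_Hc 0).measurableSet hd] at h0
  have i1 : IntegrableOn (fun z => dzb φ z * ((1 - kap Δ σ h Y z) * j z)) (Hc 0) :=
    sto_integrableOn (SmS.mulS hdφ (SmS.mulS h1κ hj)).continuousOn hK hKU
      (fun z hz => by rw [hdφ0 z hz, zero_mul])
  have i2 : IntegrableOn (fun z => φ z * ((1 - kap Δ σ h Y z) * dzb j z)) (Hc 0) :=
    sto_integrableOn (SmS.mulS hφ' (SmS.mulS h1κ hdj)).continuousOn hK hKU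
      (fun z hz => by rw [hφ0 z hz, zero_mul])
  have i3 : IntegrableOn (fun z => φ z * (dzb (kap Δ σ h Y) z * j z)) (Hc 0) :=
    sto_integrableOn (SmS.mulS hφ' (SmS.mulS hdκ hj)).continuousOn hK hKU
      (fun z hz => by rw [hφ0 z hz, zero_mul])
  have i4 : IntegrableOn (fun z => φ z * ((1 - kap Δ σ h Y z) * dzb j z) -
      φ z * (dzb (kap Δ σ h Y) z * j z)) (Hc 0) := i2.sub i3
  rw [integral_add i1 i4, hkey, zero_add, integral_sub i2 i3, sub_eq_zero] at h0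
  exact h0

end US38
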