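import Pool.Agent.LibUS38.Kap3
import Pool.Agent.LibUS38.Sto

/-! The boundary term: unfolding. -/

open Matrix Complex MeasureTheory
open UpperHalfPlane hiding I
open scoped ContDiff

namespace US38

open SP38

variable {ι : Type} [Fintype ι] {Δ : Subgroup (Matrix.SpecialLinearGroup (Fin 2) ℝ)}
  {σ : ι → Matrix.SpecialLinearGroup (Fin 2) ℝ} {h : ι → ℝ} {D : Set ℍ} {z : ℂ} {Y : ℝ}

theorem flu_mob_im (g : Matrix.SpecialLinearGroup (Fin 2) ℝ) (z : ℂ) :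
    (mob g z).im = z.im / normSq ((g 1 0 : ℝ) * z + (g 1 1 : ℝ)) := by
  have hdet : g 0 0 * g 1 1 - g 0 1 * g 1 0 = 1 := by
    have := g.det_coe
    rwa [Matrix.det_fin_two] at this
  rw [mob, Complex.div_im]
  simp only [add_re, mul_re, ofReal_re, ofReal_im, zero_mul, sub_zero, add_im, mul_im, add_zero]
  rw [← sub_div]
  congr 1
  linear_combination z.im * hdet

/-- outside of the upper half plane a Moebius map has nonpositive imaginary part -/
theorem flu_im_nonpos (g : Matrix.SpecialLinearGroup (Fin 2) ℝ) (hz : z ∉ Hc 0) :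
    (mob g z).im ≤ 0 := by
  rw [flu_mob_im]
  have h1 : z.im ≤ 0 := by
    rw [mem_Hc, not_lt] at hz
    exact hz
  exact div_nonpos_of_nonpos_of_nonneg h1 (normSq_nonneg _)

/-- compact support of the functions on cusp strips -/
theorem flu_strf_compact (g : Matrix.SpecialLinearGroup (Fin 2) ℝ) {h : ℝ} (hh : 0 < h)
    {b : ℝ → ℝ} {y₀ y₁ : ℝ} (hy₀ : 0 < y₀) (hb : ∀ y, y ≤ y₀ → b y = 0)
    (hb' : ∀ y, y₁ ≤ y → b y = 0) :
    ∃ K : Set ℂ, IsCompact K ∧ K ⊆ Hc 0 ∧ ∀ z, z ∉ K → strf g h b z = 0 := by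
  set B : Set ℂ := (Set.Icc (-h) h) ×ℂ (Set.Icc y₀ y₁) with hB
  have hBc : IsCompact B := isCompact_Icc.reProdIm isCompact_Icc
  have hBU : B ⊆ Hc 0 := by
    intro w hw
    rw [hB, mem_reProdIm] at hw
    exact mem_Hc.mpr (lt_of_lt_of_le hy₀ hw.2.1)
  refine ⟨mob g '' B, hBc.image_of_continuousOn ((mob_holo g).continuousOn.mono hBU), ?_, ?_⟩
  · rintro _ ⟨w, hw, rfl⟩
    exact mob_mem g (hBU hw)
  · intro z hz
    rw [strf]
    by_cases hzU : z ∈ Hc 0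
    · have hw : mob g⁻¹ z ∉ B := by
        intro hw
        exact hz ⟨_, hw, (mob_inv_mob g hzU).2⟩
      rw [hB, mem_reProdIm, not_and_or] at hw
      rcases hw with hw | hw
      · have h1 : h ≤ |(mob g⁻¹ z).re| := by
          by_contra hcon
          push Not at hcon
          rw [abs_lt] at hcon
          exact hw ⟨hcon.1.le, hcon.2.le⟩
        rw [aa_zero hh h1]; simp
      · rw [Set.mem_Icc, not_and_or, not_le, not_le] at hw
        rcases hw with hw | hw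
        · rw [hb _ hw.le]; simp
        · rw [hb' _ hw.le]; simp
    · rw [hb _ ((flu_im_nonpos _ hzU).trans hy₀.le)]; simp

/-- the bump in the height -/
theorem flu_bump (hY : 2 ≤ Y) : (∀ y, y ≤ Y / 2 → kk (Y / 2) y - kk (2 * Y) y = 0) ∧
    (∀ y, 4 * Y ≤ y → kk (Y / 2) y - kk (2 * Y) y = 0) := by
  constructor
  · intro y hy
    rw [kk_zero (by linarith) hy, kk_zero (by linarith) (by linarith), sub_self]
  · intro y hy
    rw [kk_one (by linarith) (by linarith), kk_one (by linarith) (by linarith), sub_self]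

/-- invariance of `dzb κ` -/
theorem flu_dzb_kap (hc : IsCurve Δ σ h D) (hY : 2 ≤ Y)
    {δ : Matrix.SpecialLinearGroup (Fin 2) ℝ} (hδ : δ ∈ Δ) (hz : z ∈ Hc 0) :
    dzb (kap Δ σ h Y) (mob δ z) * (starRingEnd ℂ) (deriv (mob δ) z) =
      dzb (kap Δ σ h Y) z := by
  have hκ := sto_kap_smooth (Y := Y) hc hY
  rw [← dzb_comp (SmS.differentiableAt (isOpen_Hc 0) hκ (mob_mem δ hz))
    ((mob_holo δ).differentiableAt ((isOpen_Hc 0).mem_nhds hz))]
  refine dzb_congr ?_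
  filter_upwards [(isOpen_Hc 0).mem_nhds hz] with w hw
  exact csum_invariant _ hδ hw

/-- unfolding of the boundary term to the cusp strips -/
theorem boundary_unfold (hc : IsCurve Δ σ h D) (hY : 2 ≤ Y) {j : ℂ → ℂ} (hj : SmS (Hc 0) j)
    (hinv : ∀ δ ∈ Δ, ∀ z ∈ Hc 0, pb (mob δ) j z = j z) {φ : ℂ → ℂ} (hφ : SmS Set.univ φ)
    (hφc : ∃ K : Set ℂ, IsCompact K ∧ K ⊆ Hc 0 ∧ ∀ z, z ∉ K → φ z = 0)
    (hφ1 : ∀ z ∈ Hc 0, kap Δ σ h Y z ≠ 1 → Per Δ φ z = 1) :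
    ∫ z in Hc 0, φ z * (dzb (kap Δ σ h Y) z * j z) =
      ∑ i, ∫ z in Hc 0, strf (σ i) (h i) (fun y => kk (Y / 2) y - kk (2 * Y) y) z *
        (dzb (kap Δ σ h Y) z * j z) := by
  obtain ⟨K, hK, hKU, hφ0⟩ := hφc
  have hφ' : SmS (Hc 0) φ := ContDiffOn.mono hφ (Set.subset_univ _)
  have hκ := sto_kap_smooth (Y := Y) hc hY
  obtain ⟨hb0, hb1⟩ := flu_bump hY
  set b : ℝ → ℝ := fun y => kk (Y / 2) y - kk (2 * Y) y with hb
  have hbs : ContDiff ℝ ∞ b := (kk_smooth _).sub (kk_smooth _)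
  -- the invariant function
  set f : ℂ → ℂ := fun z => dzb (kap Δ σ h Y) z * (j z * (z.im : ℂ) ^ 2) with hf
  have hfs : ContinuousOn f (Hc 0) := by
    refine ContinuousOn.mul (SmS.dzb (isOpen_Hc 0) hκ).continuousOn (hj.continuousOn.mul ?_)
    exact (((continuous_ofReal.comp Complex.continuous_im).pow 2)).continuousOn
  have hfi : ∀ δ ∈ Δ, ∀ z ∈ Hc 0, f (mob δ z) = f z := by
    intro δ hδ z hz
    have h1 := sto_form (j := j) hz (hinv δ hδ z hz)
    have h2 := flu_dzb_kap (z := z) (Y := Y) hc hY hδ hz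
    simp only [hf]
    rw [h1, ← h2]
    ring
  have hf1 : ∀ z ∈ Hc 0, f z ≠ 0 → csum Δ σ h b z = 1 ∧ kap Δ σ h Y z ≠ 1 := by
    intro z hz hne
    refine dzb_kap hc hY hz ?_
    intro h0
    apply hne
    simp only [hf]
    rw [h0, zero_mul]
  have hH : ∀ ψ : ℂ → ℂ, ∫ z in Hc 0, ψ z * (dzb (kap Δ σ h Y) z * j z) =
      ∫ τ : ℍ, ψ (τ : ℂ) * f (τ : ℂ) := by
    intro ψ
    rw [integral_H (fun z => ψ z * f z)]
    refine setIntegral_congr_fun (isOpen_Hc 0).measurableSet (fun z hz => ?_)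
    have hz0 : (z.im : ℂ) ≠ 0 := by
      have : 0 < z.im := hz
      exact_mod_cast this.ne'
    simp only [hf, real_smul]
    push_cast
    field_simp
  rw [hH φ]
  have hsup : ∀ i, ∃ K : Set ℂ, IsCompact K ∧ K ⊆ Hc 0 ∧ ∀ z, z ∉ K → strf (σ i) (h i) b z = 0 :=
    fun i => flu_strf_compact (σ i) (hc.width i).1 (y₀ := Y / 2) (y₁ := 4 * Y) (by linarith)
      hb0 hb1
  have hφf : ContinuousOn (fun z => φ z * f z) (Hc 0) := hφ'.continuousOn.mul hfs
  have hφf0 : ∀ z, z ∉ K → φ z * f z = 0 := fun z hz => by rw [hφ0 z hz, zero_mul]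
  -- insert the bump
  have e1 : ∫ τ : ℍ, φ (τ : ℂ) * f (τ : ℂ) =
      ∫ τ : ℍ, ∑ i, (φ (τ : ℂ) * f (τ : ℂ)) * Per Δ (strf (σ i) (h i) b) (τ : ℂ) := by
    refine integral_congr_ae (Filter.Eventually.of_forall (fun τ => ?_))
    have hτ : (τ : ℂ) ∈ Hc 0 := mem_Hc.mpr τ.im_pos
    show φ (τ : ℂ) * f (τ : ℂ) = ∑ i, (φ (τ : ℂ) * f (τ : ℂ)) *
      Per Δ (strf (σ i) (h i) b) (τ : ℂ)
    rw [← Finset.mul_sum]
    by_cases h0 : f (τ : ℂ) = 0
    · rw [h0, mul_zero, zero_mul]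
    · have h1 := (hf1 _ hτ h0).1
      rw [csum] at h1
      rw [h1, mul_one]
  have hPs : ∀ i, ContinuousOn (Per Δ (strf (σ i) (h i) b)) (Hc 0) := fun i =>
    (SmS_Per (strf_LF hc i (y₀ := Y / 2) (by linarith) hb0)
      (strf_smooth (σ i) (h i) hbs)).continuousOn
  have hint : ∀ i, Integrable (fun τ : ℍ => (φ (τ : ℂ) * f (τ : ℂ)) *
      Per Δ (strf (σ i) (h i) b) (τ : ℂ)) := by
    intro i
    have hcont : Continuous (fun τ : ℍ => (φ (τ : ℂ) * f (τ : ℂ)) *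
        Per Δ (strf (σ i) (h i) b) (τ : ℂ)) :=
      (hφf.mul (hPs i)).comp_continuous UpperHalfPlane.continuous_coe
        (fun τ => mem_Hc.mpr τ.im_pos)
    refine hcont.integrable_of_hasCompactSupport ?_
    have hK' : IsCompact ((fun τ : ℍ => (τ : ℂ)) ⁻¹' K) := by
      refine UpperHalfPlane.isOpenEmbedding_coe.isInducing.isCompact_preimage' hK ?_
      intro w hw
      exact ⟨⟨w, hKU hw⟩, rfl⟩
    refine HasCompactSupport.intro hK' (fun τ hτ => ?_)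
    rw [hφf0 _ hτ, zero_mul]
  rw [e1, integral_finsetSum _ (fun i _ => hint i)]
  refine Finset.sum_congr rfl (fun i _ => ?_)
  have e2 := unfold_symm hc hφf (strf_smooth (σ i) (h i) hbs).continuousOn ⟨K, hK, hKU, hφf0⟩
    (hsup i)
  rw [e2, hH]
  refine integral_congr_ae (Filter.Eventually.of_forall (fun τ => ?_))
  have hτ : (τ : ℂ) ∈ Hc 0 := mem_Hc.mpr τ.im_pos
  show Per Δ (fun z => φ z * f z) (τ : ℂ) * strf (σ i) (h i) b (τ : ℂ) =
    strf (σ i) (h i) b (τ : ℂ) * f (τ : ℂ)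
  rw [Per_mul hfi hτ]
  by_cases h0 : f (τ : ℂ) = 0
  · rw [h0]; ring
  · rw [hφ1 _ hτ (hf1 _ hτ h0).2]; ring

end US38
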