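import Pool.Agent.LibSP38.Glo2
import Pool.Agent.LibUS38.Mob

/-! The sign of the parabolic generators. -/

open Matrix Complex
open UpperHalfPlane hiding I

namespace US38

open SP38

variable {ι : Type} [Fintype ι] {Δ : Subgroup (Matrix.SpecialLinearGroup (Fin 2) ℝ)}
  {σ : ι → Matrix.SpecialLinearGroup (Fin 2) ℝ} {h : ι → ℝ} {D : Set ℍ}

theorem mob_neg (g : Matrix.SpecialLinearGroup (Fin 2) ℝ) : mob (-g) = mob g := by
  funext z
  unfold mob
  have h1 : ∀ i j, (-g) i j = - g i j := fun i j => rfl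
  rw [h1, h1, h1, h1]
  push_cast
  rw [← neg_div_neg_eq]
  congr 1 <;> ring

theorem neg_smul_H (g : Matrix.SpecialLinearGroup (Fin 2) ℝ) (τ : ℍ) : (-g) • τ = g • τ := by
  apply UpperHalfPlane.ext
  rw [← mob_coe, ← mob_coe, mob_neg]

omit [Fintype ι] in
/-- a parabolic element of `Δ` at the cusp `i` -/
theorem IsCurve.gen (hc : IsCurve Δ σ h D) (i : ι) : ∃ π ∈ Δ,
    mob π = mob (σ i * trans (h i) * (σ i)⁻¹) ∧
    ∀ τ : ℍ, π • τ = (σ i * trans (h i) * (σ i)⁻¹) • τ := by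
  rcases (hc.width i).2 with h1 | h1
  · exact ⟨_, h1, rfl, fun τ => rfl⟩
  · exact ⟨_, h1, mob_neg _, fun τ => neg_smul_H _ τ⟩

theorem gen_zpow {σ π : Matrix.SpecialLinearGroup (Fin 2) ℝ} {h : ℝ}
    (hπ : ∀ τ : ℍ, π • τ = (σ * trans h * σ⁻¹) • τ) (n : ℤ) (τ : ℍ) :
    (π ^ n) • τ = (σ * trans (n * h) * σ⁻¹) • τ := by
  have key : ∀ (m : ℕ) (τ : ℍ), (π ^ m) • τ = ((σ * trans h * σ⁻¹) ^ m) • τ := by
    intro m
    induction m with
    | zero => intro τ; simp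
    | succ m ih =>
      intro τ
      rw [pow_succ, pow_succ, mul_smul, mul_smul, hπ, ih]
  have key2 : (π ^ n) • τ = ((σ * trans h * σ⁻¹) ^ n) • τ := by
    rcases Int.eq_nat_or_neg n with ⟨m, rfl | rfl⟩
    · rw [zpow_natCast, zpow_natCast, key]
    · rw [_root_.zpow_neg, _root_.zpow_neg, zpow_natCast, zpow_natCast, inv_smul_eq_iff, key, smul_inv_smul]
  rw [key2, conj_zpow, glo2_trans_zpow]

/-- moving a point near a cusp to the strip -/
theorem gen_move {σ π : Matrix.SpecialLinearGroup (Fin 2) ℝ} {h : ℝ} (hh : 0 < h) (hmem : π ∈ Δ)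
    (hπ : ∀ τ : ℍ, π • τ = (σ * trans h * σ⁻¹) • τ) (τ : ℍ) :
    ∃ (δ : Matrix.SpecialLinearGroup (Fin 2) ℝ) (τ' : ℍ), δ ∈ Δ ∧ δ • (σ • τ) = σ • τ' ∧
      τ'.im = τ.im ∧ 0 ≤ ((τ' : ℂ) / h).re ∧ ((τ' : ℂ) / h).re ≤ 1 := by
  set n : ℤ := -⌊((τ : ℂ) / h).re⌋ with hn
  refine ⟨π ^ n, trans (n * h) • τ, Δ.zpow_mem hmem n, ?_, glo2_im_trans _ _,
    ?_, ?_⟩
  · rw [gen_zpow hπ, smul_smul, smul_smul]
    congr 1
    group
  · have e1 : ((trans (n * h) • τ : ℍ) : ℂ) / h = (τ : ℂ) / h + n := by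
      rw [glo2_coe_trans]
      have : (h : ℂ) ≠ 0 := by exact_mod_cast hh.ne'
      push_cast
      field_simp
    rw [e1]
    simp only [Complex.add_re, hn, Int.cast_neg, Complex.neg_re, Complex.intCast_re]
    have := Int.floor_le (((τ : ℂ) / h).re)
    linarith
  · have e1 : ((trans (n * h) • τ : ℍ) : ℂ) / h = (τ : ℂ) / h + n := by
      rw [glo2_coe_trans]
      have : (h : ℂ) ≠ 0 := by exact_mod_cast hh.ne'
      push_cast
      field_simp
    rw [e1]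
    simp only [Complex.add_re, hn, Int.cast_neg, Complex.neg_re, Complex.intCast_re]
    have := Int.lt_floor_add_one (((τ : ℂ) / h).re)
    linarith

end US38
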