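import Pool.Agent.LibUS38.Flu
import Pool.Agent.LibUS38.WirtC2
import Pool.Agent.LibUS38.Sgn

/-! The boundary term: the strips. -/

open Matrix Complex MeasureTheory
open UpperHalfPlane hiding I
open scoped ContDiff

namespace US38

open SP38

variable {ι : Type} [Fintype ι] {Δ : Subgroup (Matrix.SpecialLinearGroup (Fin 2) ℝ)}
  {σ : ι → Matrix.SpecialLinearGroup (Fin 2) ℝ} {h : ι → ℝ} {D : Set ℍ} {z : ℂ} {Y : ℝ}

omit [Fintype ι] in
/-- periodicity of the pull back to the cusp -/
theorem flu2_period (hc : IsCurve Δ σ h D) {j : ℂ → ℂ}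
    (hinv : ∀ δ ∈ Δ, ∀ z ∈ Hc 0, pb (mob δ) j z = j z) (i : ι) (hz : z ∈ Hc 0) :
    pb (mob (σ i)) j (z + h i) = pb (mob (σ i)) j z := by
  have h1 : pb (mob (σ i * trans (h i))) j z = pb (mob (σ i)) j (z + h i) := by
    rw [pb_mul _ _ _ hz]
    have h2 : deriv (mob (trans (h i))) z = 1 := by
      have h3 : mob (trans (h i)) = fun z => z + (h i : ℂ) := by
        funext z
        exact mob_trans _ _
      rw [h3]
      simp
    rw [pb, mob_trans, h2, mul_one]
  have h2 : σ i * trans (h i) = (σ i * trans (h i) * (σ i)⁻¹) * σ i := by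
    rw [inv_mul_cancel_right]
  rw [← h1, h2, pb_mul _ _ _ hz]
  show pb (mob (σ i * trans (h i) * (σ i)⁻¹)) j (mob (σ i) z) * deriv (mob (σ i)) z = _
  obtain ⟨π, hπ1, hπ2, -⟩ := hc.gen i
  rw [← hπ2, hinv _ hπ1 _ (mob_mem _ hz)]
  rfl

/-- `dzb` of a function of the height -/
theorem flu2_dzb_height {k : ℝ → ℝ} (hk : DifferentiableAt ℝ k z.im) :
    dzb (fun z => ((k z.im : ℝ) : ℂ)) z = I / 2 * ((deriv k z.im : ℝ) : ℂ) := by
  have h1 : HasFDerivAt (fun z : ℂ => ((k z.im : ℝ) : ℂ))
      (ofRealCLM.comp ((ContinuousLinearMap.toSpanSingleton ℝ (deriv k z.im)).comp imCLM)) z := by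
    have h2 : HasFDerivAt k (ContinuousLinearMap.toSpanSingleton ℝ (deriv k z.im)) (imCLM z) :=
      hk.hasDerivAt.hasFDerivAt
    exact ofRealCLM.hasFDerivAt.comp z (h2.comp z imCLM.hasFDerivAt)
  rw [dzb, h1.fderiv]
  simp
  ring

/-- Fubini for functions on `ℂ` -/
theorem flu2_fubini {P : ℂ → ℂ} (hP : Integrable P) :
    ∫ z, P z = ∫ y : ℝ, ∫ x : ℝ, P (x + y * I) ∧
    Integrable (fun y : ℝ => ∫ x : ℝ, P (x + y * I)) := by
  have hmp := Complex.volume_preserving_equiv_real_prod.symm
  have hP2 : Integrable (fun p : ℝ × ℝ => P (p.1 + p.2 * I)) := by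
    have := hmp.integrable_comp_of_integrable hP
    refine this.congr (Filter.Eventually.of_forall (fun p => ?_))
    simp only [Function.comp]
    congr 1
    apply Complex.ext <;> simp [measurableEquivRealProd]
  constructor
  · have h1 : ∫ z, P z = ∫ p : ℝ × ℝ, P (p.1 + p.2 * I) := by
      rw [← hmp.integral_comp' P]
      refine integral_congr_ae (Filter.Eventually.of_forall (fun p => ?_))
      show P _ = P _
      congr 1
      apply Complex.ext <;> simp [measurableEquivRealProd]
    rw [h1]
    exact integral_prod_symm _ hP2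
  · exact hP2.integral_prod_right

/-- the integral over a cusp strip -/
theorem strip_integral (hc : IsCurve Δ σ h D) (hY : 2 ≤ Y) {j : ℂ → ℂ} (hj : SmS (Hc 0) j)
    (hinv : ∀ δ ∈ Δ, ∀ z ∈ Hc 0, pb (mob δ) j z = j z) (i : ι) :
    2 * (∫ z in Hc 0, strf (σ i) (h i) (fun y => kk (Y / 2) y - kk (2 * Y) y) z *
        (dzb (kap Δ σ h Y) z * j z)).re =
      ∫ y in Y..(2 * Y), deriv (kk Y) y * flux (pb (mob (σ i)) j) (h i) y := by
  have hκ := sto_kap_smooth (Y := Y) hc hY
  obtain ⟨hb0, hb1⟩ := flu_bump hY
  have hh := (hc.width i).1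
  set b : ℝ → ℝ := fun y => kk (Y / 2) y - kk (2 * Y) y with hb
  set J : ℂ → ℂ := pb (mob (σ i)) j with hJ
  have hJs : SmS (Hc 0) J := SmS_pb (isOpen_Hc 0) (isOpen_Hc 0) hj (mob_holo _)
    (fun z hz => mob_mem _ hz)
  have hJp : ∀ z ∈ Hc 0, J (z + h i) = J z := fun z hz => flu2_period hc hinv i hz
  have hkd : ∀ y, deriv (kk Y) y ≠ 0 → Y < y ∧ y < 2 * Y := by
    intro y hy
    constructor
    · by_contra hcon
      exact hy (kk_deriv_zero (by linarith) (Or.inl (not_lt.mp hcon)))
    · by_contra hcon
      exact hy (kk_deriv_zero (by linarith) (Or.inr (not_lt.mp hcon)))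
  -- the integrand after the change of variables
  set P : ℂ → ℂ := fun z => (aa (h i) z.re : ℂ) * (I / 2 * ((deriv (kk Y) z.im : ℝ) : ℂ) * J z) with hP
  have e1 : ∫ z in Hc 0, strf (σ i) (h i) b z * (dzb (kap Δ σ h Y) z * j z) =
      ∫ z in Hc 0, P z := by
    set G : ℂ → ℂ := fun z => strf (σ i) (h i) b z *
      (dzb (kap Δ σ h Y) z * (j z * (z.im : ℂ) ^ 2)) with hG
    have h1 : ∫ z in Hc 0, strf (σ i) (h i) b z * (dzb (kap Δ σ h Y) z * j z) =
        ∫ τ : ℍ, G (τ : ℂ) := by
      rw [integral_H G]
      refine setIntegral_congr_fun (isOpen_Hc 0).measurableSet (fun z hz => ?_)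
      have hz0 : (z.im : ℂ) ≠ 0 := by
        have : 0 < z.im := hz
        exact_mod_cast this.ne'
      simp only [hG, real_smul]
      push_cast
      field_simp
    rw [h1, ← integral_mob G (σ i), integral_H (fun z => G (mob (σ i) z))]
    refine setIntegral_congr_fun (isOpen_Hc 0).measurableSet (fun z hz => ?_)
    have hz' : 0 < z.im := hz
    have hz0 : (z.im : ℂ) ≠ 0 := by exact_mod_cast hz'.ne'
    have hs : strf (σ i) (h i) b (mob (σ i) z) = ((aa (h i) z.re * b z.im : ℝ) : ℂ) := by
      rw [strf, (mob_inv_mob (σ i) hz).1]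
    have him : ((mob (σ i) z).im : ℂ) ^ 2 = (z.im : ℂ) ^ 2 *
        (deriv (mob (σ i)) z * (starRingEnd ℂ) (deriv (mob (σ i)) z)) := by
      rw [im_mob (σ i) hz, mul_conj, normSq_eq_norm_sq]
      push_cast
      ring
    show (1 / z.im ^ 2 : ℝ) • G (mob (σ i) z) = P z
    simp only [hG, hP, real_smul]
    rw [hs, him]
    by_cases hb' : b z.im = 0
    · -- then `kk' = 0`
      have hk0 : deriv (kk Y) z.im = 0 := by
        by_contra hne
        obtain ⟨h2, h3⟩ := hkd _ hne
        have : b z.im = 1 := by
          simp only [hb]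
          rw [kk_one (by linarith) (by linarith), kk_zero (by linarith) (by linarith), sub_zero]
        rw [hb'] at this
        norm_num at this
      rw [hb', hk0]
      simp
    · have hz1 : z ∈ Hc 1 := by
        rw [mem_Hc]
        by_contra hcon
        exact hb' (hb0 _ (by linarith))
      have hkap : dzb (kap Δ σ h Y) (mob (σ i) z) * (starRingEnd ℂ) (deriv (mob (σ i)) z) =
          I / 2 * ((deriv (kk Y) z.im : ℝ) : ℂ) := by
        rw [← dzb_comp (SmS.differentiableAt (isOpen_Hc 0) hκ (mob_mem _ hz))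
          ((mob_holo (σ i)).differentiableAt ((isOpen_Hc 0).mem_nhds hz)),
          ← flu2_dzb_height (((kk_smooth Y).differentiable (by simp)) z.im)]
        refine dzb_congr ?_
        filter_upwards [(isOpen_Hc 1).mem_nhds hz1] with w hw
        exact csum_cusp hc (fun y hy => kk_zero (by linarith) (by linarith)) i hw
      have hbk : ((b z.im : ℝ) : ℂ) * ((deriv (kk Y) z.im : ℝ) : ℂ) = ((deriv (kk Y) z.im : ℝ) : ℂ) := by
        by_cases hk0 : deriv (kk Y) z.im = 0
        · rw [hk0]; simp
        · obtain ⟨h2, h3⟩ := hkd _ hk0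
          have : b z.im = 1 := by
            simp only [hb]
            rw [kk_one (by linarith) (by linarith), kk_zero (by linarith) (by linarith), sub_zero]
          rw [this]; simp
      have hJz : J z = j (mob (σ i) z) * deriv (mob (σ i)) z := rfl
      rw [hJz]
      push_cast
      field_simp
      linear_combination (2 * (aa (h i) z.re : ℂ) * ((b z.im : ℝ) : ℂ) *
        j (mob (σ i) z) * deriv (mob (σ i)) z) * hkap + ((aa (h i) z.re : ℂ) *
        j (mob (σ i) z) * deriv (mob (σ i)) z * I) * hbk
  -- support and continuity of `P`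
  have hP0 : ∀ z : ℂ, z.im ≤ Y → P z = 0 := by
    intro z hz
    simp only [hP]
    rw [kk_deriv_zero (by linarith) (Or.inl hz)]
    simp
  have hPc : Continuous P := by
    rw [continuous_iff_continuousAt]
    intro z
    by_cases hz : z ∈ Hc 0
    · refine ContinuousOn.continuousAt (s := Hc 0) ?_ ((isOpen_Hc 0).mem_nhds hz)
      have hkk : Continuous (deriv (kk Y)) := (kk_smooth Y).continuous_deriv (by simp)
      refine ContinuousOn.mul ?_ (ContinuousOn.mul ?_ hJs.continuousOn)
      · exact (continuous_ofReal.comp ((aa_smooth (h i)).continuous.comp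
          Complex.continuous_re)).continuousOn
      · exact (continuous_const.mul (continuous_ofReal.comp (hkk.comp
          Complex.continuous_im))).continuousOn
    · have h1 : P =ᶠ[nhds z] fun _ => (0 : ℂ) := by
        have h2 : {w : ℂ | w.im < Y} ∈ nhds z :=
          (isOpen_lt Complex.continuous_im continuous_const).mem_nhds (by
            rw [mem_Hc, not_lt] at hz
            show z.im < Y
            linarith)
        filter_upwards [h2] with w hw
        exact hP0 w (le_of_lt hw)
      exact continuousAt_const.congr h1.symm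
  have hPs : HasCompactSupport P := by
    have hBc : IsCompact ((Set.Icc (-(h i)) (h i)) ×ℂ (Set.Icc Y (2 * Y))) :=
      isCompact_Icc.reProdIm isCompact_Icc
    refine HasCompactSupport.intro hBc (fun z hz => ?_)
    rw [mem_reProdIm, not_and_or] at hz
    rcases hz with hz | hz
    · have h1 : h i ≤ |z.re| := by
        by_contra hcon
        push Not at hcon
        rw [abs_lt] at hcon
        exact hz ⟨hcon.1.le, hcon.2.le⟩
      simp only [hP]
      rw [aa_zero hh h1]; simp
    · rw [Set.mem_Icc, not_and_or, not_le, not_le] at hz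
      rcases hz with hz | hz
      · exact hP0 z hz.le
      · simp only [hP]
        rw [kk_deriv_zero (by linarith) (Or.inr hz.le)]; simp
  have hPi : Integrable P := hPc.integrable_of_hasCompactSupport hPs
  have e2 : ∫ z in Hc 0, P z = ∫ z, P z := by
    refine setIntegral_eq_integral_of_forall_compl_eq_zero (fun z hz => hP0 z ?_)
    rw [mem_Hc, not_lt] at hz
    linarith
  obtain ⟨e3, hint⟩ := flu2_fubini hPi
  -- the inner integral
  have e4 : ∀ y : ℝ, ∫ x : ℝ, P (x + y * I) =
      I / 2 * ((deriv (kk Y) y : ℝ) : ℂ) * ∫ x in (0 : ℝ)..(h i), J (x + y * I) := by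
    intro y
    by_cases hk0 : deriv (kk Y) y = 0
    · have : ∀ x : ℝ, P (x + y * I) = 0 := by
        intro x
        simp only [hP]
        have : ((x : ℂ) + y * I).im = y := by simp
        rw [this, hk0]; simp
      simp [this, hk0]
    · obtain ⟨h2, h3⟩ := hkd _ hk0
      have hy0 : 0 < y := by linarith
      have hmem : ∀ x : ℝ, (x : ℂ) + y * I ∈ Hc 0 := by
        intro x
        rw [mem_Hc]
        simpa using hy0
      have hfc : Continuous (fun x : ℝ => J (x + y * I)) := by
        refine hJs.continuousOn.comp_continuous ?_ hmem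
        exact (continuous_ofReal.add continuous_const)
      have hper : ∀ x : ℝ, J (((x + h i : ℝ) : ℂ) + y * I) = J (x + y * I) := by
        intro x
        rw [← hJp _ (hmem x)]
        congr 1
        push_cast
        ring
      rw [← aa_integral hh hfc hper, ← integral_const_mul]
      refine integral_congr_ae (Filter.Eventually.of_forall (fun x => ?_))
      simp only [hP]
      have h4 : ((x : ℂ) + y * I).im = y := by simp
      have h5 : ((x : ℂ) + y * I).re = x := by simp
      rw [h4, h5]
      ring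
  have e5 : ∀ y : ℝ, 2 * (∫ x : ℝ, P (x + y * I)).re = deriv (kk Y) y * flux J (h i) y := by
    intro y
    rw [e4 y]
    by_cases hk0 : deriv (kk Y) y = 0
    · rw [hk0]; simp
    · obtain ⟨h2, h3⟩ := hkd _ hk0
      have hy0 : 0 < y := by linarith
      have hmem : ∀ x : ℝ, (x : ℂ) + y * I ∈ Hc 0 := by
        intro x
        rw [mem_Hc]
        simpa using hy0
      have hfc : Continuous (fun x : ℝ => J (x + y * I)) := by
        refine hJs.continuousOn.comp_continuous ?_ hmem
        exact (continuous_ofReal.add continuous_const)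
      have h6 : flux J (h i) y = (I * ∫ x in (0 : ℝ)..(h i), J (x + y * I)).re := by
        rw [flux, ← intervalIntegral.integral_const_mul]
        have h7 := intervalIntegral.intervalIntegral_re (f := fun x : ℝ => I * J (x + y * I))
          (a := 0) (b := h i) (μ := volume)
          ((continuous_const.mul hfc).intervalIntegrable _ _)
        simpa using h7
      rw [h6]
      have h8 : I / 2 * ((deriv (kk Y) y : ℝ) : ℂ) * ∫ x in (0 : ℝ)..(h i), J (x + y * I) =
          ((deriv (kk Y) y / 2 : ℝ) : ℂ) * (I * ∫ x in (0 : ℝ)..(h i), J (x + y * I)) := by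
        push_cast
        ring
      rw [h8, re_ofReal_mul]
      ring
  rw [e1, e2, e3]
  have e6 : (∫ y : ℝ, ∫ x : ℝ, P (x + y * I)).re = ∫ y : ℝ, (∫ x : ℝ, P (x + y * I)).re := by
    have := integral_re hint
    exact this.symm
  rw [e6, ← integral_const_mul, intervalIntegral.integral_of_le (by linarith)]
  rw [setIntegral_eq_integral_of_forall_compl_eq_zero]
  · exact integral_congr_ae (Filter.Eventually.of_forall e5)
  · intro y hy
    have : deriv (kk Y) y = 0 := by
      by_contra hne
      obtain ⟨h2, h3⟩ := hkd _ hne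
      exact hy ⟨h2, h3.le⟩
    rw [this, zero_mul]

end US38
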