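import Pool.Agent.LibSP38.Glo2
import Pool.Agent.LibUS38.Defs
import Pool.Agent.LibUS38.Sgn

/-! Geometry of the action: heights. -/

open Matrix Complex
open UpperHalfPlane hiding I

namespace US38

open SP38

variable {ι : Type} [Fintype ι] {Δ : Subgroup (Matrix.SpecialLinearGroup (Fin 2) ℝ)}
  {σ : ι → Matrix.SpecialLinearGroup (Fin 2) ℝ} {h : ι → ℝ} {D : Set ℍ}

theorem geo1_arsinh_le {x : ℝ} (hx : 0 ≤ x) : Real.arsinh x ≤ x := by
  have h1 : Real.arsinh x ≤ Real.arsinh (Real.sinh x) :=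
    Real.arsinh_le_arsinh.2 (Real.self_le_sinh_iff.2 hx)
  rwa [Real.arsinh_sinh] at h1

/-- the hyperbolic distance of horizontally separated points -/
theorem dist_trans_le (a : ℝ) (τ : ℍ) : dist (trans a • τ : ℍ) τ ≤ |a| / τ.im := by
  have hy : 0 < τ.im := τ.im_pos
  rw [UpperHalfPlane.dist_eq, glo2_im_trans, glo2_coe_trans, Real.sqrt_mul_self hy.le]
  have h1 : dist ((τ : ℂ) + (a : ℂ)) (τ : ℂ) = |a| := by
    rw [dist_eq_norm, add_sub_cancel_left, Complex.norm_real, Real.norm_eq_abs]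
  rw [h1]
  have h2 := geo1_arsinh_le (x := |a| / (2 * τ.im)) (by positivity)
  have h3 : |a| / τ.im = 2 * (|a| / (2 * τ.im)) := by
    field_simp
  rw [h3]
  exact mul_le_mul_of_nonneg_left h2 (by norm_num)

theorem geo1_exists_pos {α : Type*} (s : Finset α) (m : α → ℝ) (hm : ∀ i, 0 < m i) :
    ∃ m0 : ℝ, 0 < m0 ∧ ∀ i ∈ s, m0 ≤ m i := by
  classical
  induction s using Finset.induction_on with
  | empty => exact ⟨1, one_pos, by simp⟩
  | insert a s _ ih =>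
    obtain ⟨m0, h0, h1⟩ := ih
    refine ⟨min (m a) m0, lt_min (hm a) h0, fun i hi => ?_⟩
    rcases Finset.mem_insert.1 hi with rfl | hi
    · exact min_le_left _ _
    · exact (min_le_right _ _).trans (h1 i hi)

theorem geo1_trans_ne {a : ℝ} (ha : 0 < a) : SP38.trans a ≠ 1 := by
  intro h1
  have h2 := congrArg (fun g : Matrix.SpecialLinearGroup (Fin 2) ℝ => (g 0 1 : ℝ)) h1
  simp [SP38.trans] at h2
  exact ha.ne' h2

/-- heights are bounded on compact sets -/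
theorem IsCurve.height_bdd (hc : IsCurve Δ σ h D) {L : Set ℍ} (hL : IsCompact L) :
    ∃ Y : ℝ, ∀ i, ∀ δ ∈ Δ, ∀ τ ∈ L, ((σ i)⁻¹ • (δ • τ) : ℍ).im ≤ Y := by
  set L' : Set ℍ := Metric.cthickening 1 L with hL'def
  have hL' : IsCompact L' := hL.cthickening
  have hF := hc.disc L' hL'
  have hex : ∀ γ : Matrix.SpecialLinearGroup (Fin 2) ℝ, ∃ m : ℝ, 0 < m ∧
      (γ ∈ Δ → γ ≠ 1 → ∀ τ ∈ L', m ≤ dist (γ • τ) τ) := by
    intro γ
    by_cases hγ : γ ∈ Δ ∧ γ ≠ 1 ∧ L'.Nonempty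
    · obtain ⟨hγ1, hγ2, hne⟩ := hγ
      have hcont : ContinuousOn (fun τ : ℍ => dist (γ • τ) τ) L' :=
        ((continuous_const_smul γ).dist continuous_id).continuousOn
      obtain ⟨τ0, h0, h1⟩ := hL'.exists_isMinOn hne hcont
      refine ⟨dist (γ • τ0) τ0, ?_, fun _ _ τ hτ => h1 hτ⟩
      rw [dist_pos]
      intro h2
      exact hγ2 (hc.free γ hγ1 τ0 h2)
    · refine ⟨1, one_pos, fun h1 h2 τ hτ => absurd ⟨h1, h2, ⟨τ, hτ⟩⟩ hγ⟩
  choose m hm0 hm using hex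
  obtain ⟨m0, hm0', hm1⟩ := geo1_exists_pos hF.toFinset m hm0
  refine ⟨∑ j, (h j + h j / m0), fun i δ hδ τ hτ => ?_⟩
  have hi := (hc.width i).1
  obtain ⟨π, hiΔ, -, hπ⟩ := hc.gen i
  have hle : h i + h i / m0 ≤ ∑ j, (h j + h j / m0) :=
    Finset.single_le_sum (f := fun j => h j + h j / m0)
      (fun j _ => by
        have := (hc.width j).1
        positivity) (Finset.mem_univ i)
  refine le_trans ?_ hle
  set ζ : ℍ := (σ i)⁻¹ • (δ • τ) with hζ
  have hy : 0 < ζ.im := ζ.im_pos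
  rcases le_or_gt ζ.im (h i) with h1 | h1
  · have : 0 ≤ h i / m0 := by positivity
    linarith
  set γ : Matrix.SpecialLinearGroup (Fin 2) ℝ := δ⁻¹ * π * δ with hγdef
  have hγ : γ ∈ Δ := Δ.mul_mem (Δ.mul_mem (Δ.inv_mem hδ) hiΔ) hδ
  have hγ1 : γ ≠ 1 := by
    intro h2
    have h3 : π = 1 := by
      have h4 : π = δ * γ * δ⁻¹ := by
        rw [hγdef]
        group
      rw [h4, h2]
      group
    have h4 := hπ (σ i • ζ)
    rw [h3, one_smul, mul_smul, mul_smul, inv_smul_smul, smul_left_cancel_iff] at h4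
    have h5 := congrArg (fun τ : ℍ => (τ : ℂ).re) h4
    simp only [glo2_coe_trans, Complex.add_re, Complex.ofReal_re] at h5
    linarith
  have e1 : δ⁻¹ • (σ i • ζ) = τ := by
    rw [hζ, smul_inv_smul, inv_smul_smul]
  have e2 : γ • τ = δ⁻¹ • (σ i • (SP38.trans (h i) • ζ)) := by
    rw [hγdef, hζ]
    simp only [mul_smul, hπ]
  have hd : dist (γ • τ) τ ≤ h i / ζ.im := by
    have h3 : dist (γ • τ) τ = dist (SP38.trans (h i) • ζ) ζ := by
      conv_lhs => rw [e2]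
      rw [show dist (δ⁻¹ • (σ i • (SP38.trans (h i) • ζ))) τ =
        dist (δ⁻¹ • (σ i • (SP38.trans (h i) • ζ))) (δ⁻¹ • (σ i • ζ)) by rw [e1],
        dist_smul, dist_smul]
    rw [h3]
    have h4 := dist_trans_le (h i) ζ
    rwa [abs_of_pos hi] at h4
  have hd1 : dist (γ • τ) τ ≤ 1 := hd.trans ((div_le_one hy).2 h1.le)
  have hτ' : τ ∈ L' := Metric.self_subset_cthickening L hτ
  have hγτ : γ • τ ∈ L' := Metric.mem_cthickening_of_dist_le _ _ _ _ hτ hd1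
  have h5 : γ ∈ hF.toFinset := by
    rw [Set.Finite.mem_toFinset]
    exact ⟨hγ, τ, hτ', hγτ⟩
  have h6 : m0 ≤ h i / ζ.im := (hm1 γ h5).trans ((hm γ hγ hγ1 τ hτ').trans hd)
  have h7 : ζ.im ≤ h i / m0 := by
    rw [le_div_iff₀ hm0']
    rw [le_div_iff₀ hy] at h6
    linarith
  linarith

/-- proper discontinuity for two compact sets -/
theorem IsCurve.disc2 (hc : IsCurve Δ σ h D) {K L : Set ℍ} (hK : IsCompact K) (hL : IsCompact L) :
    {δ | δ ∈ Δ ∧ ∃ τ ∈ K, δ • τ ∈ L}.Finite := by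
  refine (hc.disc (K ∪ L) (hK.union hL)).subset ?_
  rintro δ ⟨hδ, τ, hτ, hτ'⟩
  exact ⟨hδ, τ, Or.inl hτ, Or.inr hτ'⟩

end US38
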