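import Pool.Agent.LibSP38.Glo3
import Pool.Agent.LibUS38.Geo1

/-! Geometry of the action: discs, compact part, area. -/

open Matrix Complex
open UpperHalfPlane hiding I

namespace US38

open SP38

variable {ι : Type} [Fintype ι] {Δ : Subgroup (Matrix.SpecialLinearGroup (Fin 2) ℝ)}
  {σ : ι → Matrix.SpecialLinearGroup (Fin 2) ℝ} {h : ι → ℝ} {D : Set ℍ}

open Filter Topology MeasureTheory in
/-- euclidean discs are a basis of neighbourhoods of a pair of points -/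
theorem geo2_eventually_prod {z z' : ℍ} {P : ℍ → ℍ → Prop}
    (h : ∀ᶠ p in 𝓝 z ×ˢ 𝓝 z', P p.1 p.2) :
    ∃ r : ℝ, 0 < r ∧ ∀ τ τ' : ℍ, ‖(τ : ℂ) - z‖ < r → ‖(τ' : ℂ) - z'‖ < r → P τ τ' := by
  have hb : ∀ w : ℍ, (𝓝 w).HasBasis (fun r : ℝ => 0 < r)
      (fun r => {τ : ℍ | ‖(τ : ℂ) - w‖ < r}) := by
    intro w
    rw [UpperHalfPlane.isEmbedding_coe.nhds_eq_comap]
    have h1 := (Metric.nhds_basis_ball (x := (w : ℂ))).comap (UpperHalfPlane.coe)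
    refine h1.congr (fun _ => Iff.rfl) ?_
    intro r _
    ext τ
    simp [dist_eq_norm]
  obtain ⟨⟨r, r'⟩, ⟨hr, hr'⟩, h2⟩ := ((hb z).prod (hb z')).eventually_iff.mp h
  refine ⟨min r r', lt_min hr hr', fun τ τ' h3 h4 => ?_⟩
  exact @h2 (τ, τ') ⟨lt_of_lt_of_le h3 (min_le_left _ _), lt_of_lt_of_le h4 (min_le_right _ _)⟩

open Filter Topology MeasureTheory in
theorem geo2_pair (hc : IsCurve Δ σ h D) (z z' : ℍ) (hZ : ∀ δ ∈ Δ, δ • z = z' → z = z') :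
    ∃ r : ℝ, 0 < r ∧ ∀ δ ∈ Δ, ∀ τ τ' : ℍ, ‖(τ : ℂ) - z‖ < r →
      ‖(τ' : ℂ) - z'‖ < r → δ • τ = τ' → z = z' ∧ δ = 1 := by
  obtain ⟨K, hK, hzK⟩ := exists_compact_mem_nhds z
  obtain ⟨K', hK', hzK'⟩ := exists_compact_mem_nhds z'
  have hfin := hc.disc2 hK hK'
  have h1 : ∀ δ ∈ {δ | δ ∈ Δ ∧ ∃ τ ∈ K, δ • τ ∈ K'},
      ∀ᶠ p in 𝓝 z ×ˢ 𝓝 z', δ • p.1 = p.2 → z = z' ∧ δ = 1 := by
    intro δ hδ
    by_cases h2 : z = z' ∧ δ = 1
    · exact Eventually.of_forall fun _ _ => h2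
    · have h3 : δ • z ≠ z' := by
        intro h4
        have h5 := hZ δ hδ.1 h4
        refine h2 ⟨h5, hc.free δ hδ.1 z ?_⟩
        rw [h4, h5]
      have h6 : IsOpen {p : ℍ × ℍ | δ • p.1 ≠ p.2} := by
        refine isOpen_ne_fun ?_ continuous_snd
        exact (continuous_const_smul δ).comp continuous_fst
      have h7 : {p : ℍ × ℍ | δ • p.1 ≠ p.2} ∈ 𝓝 (z, z') := h6.mem_nhds h3
      rw [nhds_prod_eq] at h7
      filter_upwards [h7] with p hp h8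
      exact absurd h8 hp
  have h2 : ∀ᶠ p in 𝓝 z ×ˢ 𝓝 z', ∀ δ ∈ {δ | δ ∈ Δ ∧ ∃ τ ∈ K, δ • τ ∈ K'},
      δ • p.1 = p.2 → z = z' ∧ δ = 1 := (Filter.eventually_all_finite hfin).mpr h1
  have h3 : ∀ᶠ p in 𝓝 z ×ˢ 𝓝 z', p.1 ∈ K ∧ p.2 ∈ K' :=
    (Filter.tendsto_fst.eventually hzK).and (Filter.tendsto_snd.eventually hzK')
  have h4 : ∀ᶠ p in 𝓝 z ×ˢ 𝓝 z', ∀ δ ∈ Δ, δ • p.1 = p.2 → z = z' ∧ δ = 1 := by
    filter_upwards [h2, h3] with p h5 h6 δ hδ h7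
    refine h5 δ ⟨hδ, p.1, h6.1, ?_⟩ h7
    rw [h7]
    exact h6.2
  obtain ⟨r, hr, h5⟩ := geo2_eventually_prod
    (P := fun τ τ' => ∀ δ ∈ Δ, δ • τ = τ' → z = z' ∧ δ = 1) h4
  exact ⟨r, hr, fun δ hδ τ τ' h6 h7 h8 => h5 τ τ' h6 h7 δ hδ h8⟩

open Filter Topology MeasureTheory in
/-- inequivalent points have small discs which embed disjointly in `X` -/
theorem IsCurve.exists_radius (hc : IsCurve Δ σ h D) (Z : Finset ℍ)
    (hZ : ∀ z ∈ Z, ∀ z' ∈ Z, ∀ δ ∈ Δ, δ • z = z' → z = z') :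
    ∃ r : ℝ, 0 < r ∧ ∀ z ∈ Z, ∀ z' ∈ Z, ∀ δ ∈ Δ, ∀ τ τ' : ℍ, ‖(τ : ℂ) - z‖ < r →
      ‖(τ' : ℂ) - z'‖ < r → δ • τ = τ' → z = z' ∧ δ = 1 := by
  have h1 : ∀ z ∈ Z, ∀ z' ∈ Z, ∀ᶠ r in 𝓝[>] (0 : ℝ), ∀ δ ∈ Δ, ∀ τ τ' : ℍ,
      ‖(τ : ℂ) - z‖ < r → ‖(τ' : ℂ) - z'‖ < r → δ • τ = τ' → z = z' ∧ δ = 1 := by
    intro z hz z' hz'
    obtain ⟨r, hr, h2⟩ := geo2_pair hc z z' (fun δ hδ => hZ z hz z' hz' δ hδ)
    have h3 : Set.Ioo 0 r ∈ 𝓝[>] (0 : ℝ) := Ioo_mem_nhdsGT hr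
    filter_upwards [h3] with s hs δ hδ τ τ' h4 h5 h6
    exact h2 δ hδ τ τ' (h4.trans hs.2) (h5.trans hs.2) h6
  have h2 : ∀ᶠ r in 𝓝[>] (0 : ℝ), ∀ z ∈ Z, ∀ z' ∈ Z, ∀ δ ∈ Δ, ∀ τ τ' : ℍ,
      ‖(τ : ℂ) - z‖ < r → ‖(τ' : ℂ) - z'‖ < r → δ • τ = τ' → z = z' ∧ δ = 1 := by
    rw [Filter.eventually_all_finset]
    intro z hz
    rw [Filter.eventually_all_finset]
    intro z' hz'
    exact h1 z hz z' hz'
  obtain ⟨r, h3, h4⟩ := (h2.and self_mem_nhdsWithin).exists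
  exact ⟨r, h4, h3⟩

/-- the points of height at most `Y` are covered by a compact set -/
theorem IsCurve.exists_compact (hc : IsCurve Δ σ h D) (Y : ℝ) :
    ∃ L : Set ℍ, IsCompact L ∧ ∀ τ : ℍ, (∀ i, ∀ δ ∈ Δ, ((σ i)⁻¹ • (δ • τ) : ℍ).im ≤ Y) →
      ∃ δ ∈ Δ, δ • τ ∈ L := by
  obtain ⟨K, hK, hcov⟩ := hc.cpt
  refine ⟨K ∪ ⋃ i, (fun τ : ℍ => σ i • τ) ''
    {τ : ℍ | (0 ≤ ((τ : ℂ)).re ∧ ((τ : ℂ)).re ≤ h i) ∧ 1 ≤ τ.im ∧ τ.im ≤ Y},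
    hK.union (isCompact_iUnion fun i => (glo3_box_compact (h i) 1 Y one_pos).image
      (continuous_const_smul (σ i))), ?_⟩
  intro τ hτ
  obtain ⟨δ, hδ, h1 | ⟨i, h1⟩⟩ := hcov τ
  · exact ⟨δ, hδ, Or.inl h1⟩
  · obtain ⟨π, hπ1, -, hπ2⟩ := hc.gen i
    obtain ⟨δ', τ', hδ', h2, h3, h4, h5⟩ := gen_move (σ := σ i) (Δ := Δ) (hc.width i).1
      hπ1 hπ2 ((σ i)⁻¹ • (δ • τ))
    refine ⟨δ' * δ, Δ.mul_mem hδ' hδ, Or.inr (Set.mem_iUnion.mpr ⟨i, τ', ?_, ?_⟩)⟩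
    · have hpos := (hc.width i).1
      have h6 : ((τ' : ℂ) / (h i : ℝ)).re = (τ' : ℂ).re / h i := Complex.div_ofReal_re _ _
      rw [h6] at h4 h5
      refine ⟨⟨?_, ?_⟩, ?_, ?_⟩
      · have := mul_nonneg h4 hpos.le
        rwa [div_mul_cancel₀ _ hpos.ne'] at this
      · rwa [div_le_one hpos] at h5
      · rw [h3]
        exact h1.le
      · rw [h3]
        exact hτ i δ hδ
    · change σ i • τ' = (δ' * δ) • τ
      rw [← h2, smul_inv_smul, smul_smul]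

open MeasureTheory in
theorem geo2_smulInvariant :
    SMulInvariantMeasure (Matrix.SpecialLinearGroup (Fin 2) ℝ) ℍ volume := by
  constructor
  intro c s hs
  have h1 : (fun x : ℍ => c • x) ⁻¹' s =
      (fun x : ℍ => (Matrix.SpecialLinearGroup.mapGL ℝ c) • x) ⁻¹' s := by
    ext x
    rw [Set.mem_preimage, Set.mem_preimage, MulAction.compHom_smul_def]
  rw [h1]
  exact measure_preimage_smul_of_nullMeasurableSet hs.nullMeasurableSet _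

theorem geo2_countable (hc : IsCurve Δ σ h D) : Countable Δ := by
  have h1 : (Δ : Set (Matrix.SpecialLinearGroup (Fin 2) ℝ)) ⊆
      ⋃ n : ℕ, {δ | δ ∈ Δ ∧ ∃ τ ∈ compactCovering ℍ n, δ • τ ∈ compactCovering ℍ n} := by
    intro δ hδ
    obtain ⟨n, hn⟩ := exists_mem_compactCovering (UpperHalfPlane.I)
    obtain ⟨k, hk⟩ := exists_mem_compactCovering (δ • UpperHalfPlane.I)
    refine Set.mem_iUnion.mpr ⟨max n k, hδ, UpperHalfPlane.I, ?_, ?_⟩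
    · exact compactCovering_subset ℍ (le_max_left _ _) hn
    · exact compactCovering_subset ℍ (le_max_right _ _) hk
  exact ((Set.countable_iUnion fun n =>
    (hc.disc _ (isCompact_compactCovering ℍ n)).countable).mono h1).to_subtype

open MeasureTheory in
theorem geo2_fund (hc : IsCurve Δ σ h D) : IsFundamentalDomain Δ D (volume : Measure ℍ) := by
  refine IsFundamentalDomain.mk' hc.meas.nullMeasurableSet ?_
  intro τ
  obtain ⟨δ, ⟨h1, h2⟩, h3⟩ := hc.fund τ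
  refine ⟨⟨δ, h1⟩, h2, ?_⟩
  rintro ⟨δ', h4⟩ h5
  exact Subtype.ext (h3 δ' ⟨h4, h5⟩)

open MeasureTheory in
/-- the area of a cusp strip is finite -/
theorem geo2_strip (a : ℝ) :
    volume {τ : ℍ | (0 ≤ ((τ : ℂ)).re ∧ ((τ : ℂ)).re ≤ a) ∧ 1 < τ.im} < ⊤ := by
  rw [UpperHalfPlane.volume_eq_lintegral]
  have h1 : ((↑) : ℍ → ℂ) '' {τ : ℍ | (0 ≤ ((τ : ℂ)).re ∧ ((τ : ℂ)).re ≤ a) ∧ 1 < τ.im} ⊆
      Complex.measurableEquivRealProd ⁻¹' (Set.Icc 0 a ×ˢ Set.Ioi 1) := by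
    rintro _ ⟨τ, ⟨h2, h3⟩, rfl⟩
    exact ⟨h2, h3⟩
  refine lt_of_le_of_lt (lintegral_mono_set h1) ?_
  have h2 := (Complex.volume_preserving_equiv_real_prod).setLIntegral_comp_preimage_emb
    Complex.measurableEquivRealProd.measurableEmbedding
    (fun p : ℝ × ℝ => (((1 / ‖p.2‖₊) ^ 2 : NNReal) : ENNReal))
    (Set.Icc 0 a ×ˢ Set.Ioi 1)
  have h3 : ∀ z : ℂ, (Complex.measurableEquivRealProd z).2 = z.im := fun z => rfl
  simp only [h3] at h2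
  rw [h2]
  have h4 : (volume : Measure (ℝ × ℝ)).restrict (Set.Icc 0 a ×ˢ Set.Ioi 1) =
      (volume.restrict (Set.Icc (0:ℝ) a)).prod (volume.restrict (Set.Ioi (1:ℝ))) := by
    rw [Measure.prod_restrict]
    rfl
  rw [h4, lintegral_prod _ (by fun_prop)]
  simp only [lintegral_const]
  refine ENNReal.mul_lt_top ?_ ?_
  · have h5 : IntegrableOn (fun y : ℝ => y ^ (-2 : ℝ)) (Set.Ioi 1) :=
      integrableOn_Ioi_rpow_of_lt (by norm_num) one_pos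
    have h6 := h5.hasFiniteIntegral
    rw [hasFiniteIntegral_iff_enorm] at h6
    refine lt_of_le_of_lt (le_of_eq ?_) h6
    refine setLIntegral_congr_fun measurableSet_Ioi ?_
    intro y hy
    have hy' : (0 : ℝ) < y := lt_trans one_pos hy
    change (((1 / ‖y‖₊) ^ 2 : NNReal) : ENNReal) = ‖y ^ (-2 : ℝ)‖ₑ
    rw [enorm_eq_nnnorm]
    congr 1
    ext
    rw [NNReal.coe_pow, NNReal.coe_div, coe_nnnorm, coe_nnnorm, NNReal.coe_one,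
      Real.norm_of_nonneg hy'.le, Real.norm_of_nonneg (Real.rpow_nonneg hy'.le _),
      Real.rpow_neg hy'.le]
    rw [show (2 : ℝ) = ((2 : ℕ) : ℝ) by norm_num, Real.rpow_natCast]
    field_simp
  · rw [Measure.restrict_apply_univ]
    exact measure_Icc_lt_top

open MeasureTheory in
/-- the area is finite -/
theorem IsCurve.volume_lt_top (hc : IsCurve Δ σ h D) : MeasureTheory.volume D < ⊤ := by
  haveI := geo2_smulInvariant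
  haveI := geo2_countable hc
  obtain ⟨K, hK, hcov⟩ := hc.cpt
  set A : Set ℍ := K ∪ ⋃ i, (fun τ : ℍ => (σ i)⁻¹ • τ) ⁻¹'
    {τ : ℍ | (0 ≤ ((τ : ℂ)).re ∧ ((τ : ℂ)).re ≤ h i) ∧ 1 < τ.im} with hA
  have hAfin : volume A < ⊤ := by
    refine lt_of_le_of_lt (measure_union_le _ _) (ENNReal.add_lt_top.mpr ⟨hK.measure_lt_top, ?_⟩)
    refine lt_of_le_of_lt (measure_iUnion_le _) ?_
    rw [tsum_fintype]
    refine ENNReal.sum_lt_top.mpr fun i _ => ?_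
    rw [measure_preimage_smul]
    exact geo2_strip (h i)
  refine lt_of_le_of_lt ?_ hAfin
  rw [(geo2_fund hc).measure_eq_tsum A]
  refine le_trans ?_ (measure_iUnion_le _)
  refine measure_mono ?_
  intro τ hτ
  obtain ⟨δ, hδ, h1⟩ : ∃ δ ∈ Δ, δ • τ ∈ A := by
    obtain ⟨δ, hδ, h1 | ⟨i, h1⟩⟩ := hcov τ
    · exact ⟨δ, hδ, Or.inl h1⟩
    · obtain ⟨π, hπ1, -, hπ2⟩ := hc.gen i
      obtain ⟨δ', τ', hδ', h2, h3, h4, h5⟩ := gen_move (σ := σ i) (Δ := Δ) (hc.width i).1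
        hπ1 hπ2 ((σ i)⁻¹ • (δ • τ))
      refine ⟨δ' * δ, Δ.mul_mem hδ' hδ, Or.inr (Set.mem_iUnion.mpr ⟨i, ?_⟩)⟩
      have hpos := (hc.width i).1
      have h6 : ((τ' : ℂ) / (h i : ℝ)).re = (τ' : ℂ).re / h i := Complex.div_ofReal_re _ _
      rw [h6] at h4 h5
      have h7 : (σ i)⁻¹ • ((δ' * δ) • τ) = τ' := by
        rw [← smul_smul, ← smul_inv_smul (σ i) (δ • τ), h2, inv_smul_smul]
      rw [Set.mem_preimage, h7]
      refine ⟨⟨?_, ?_⟩, ?_⟩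
      · have := mul_nonneg h4 hpos.le
        rwa [div_mul_cancel₀ _ hpos.ne'] at this
      · rwa [div_le_one hpos] at h5
      · rw [h3]
        exact h1
  refine Set.mem_iUnion.mpr ⟨⟨δ, hδ⟩⁻¹, ?_, hτ⟩
  rw [Set.mem_smul_set_iff_inv_smul_mem, inv_inv]
  exact h1

end US38
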