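import Pool.Agent.LibSP38.Fam4

/-! The Higgs field on real vectors. -/

open Matrix Complex
open scoped ComplexOrder ContDiff

namespace US38

open SP38

variable {m : ℕ} {w : ℤ} {K : ℕ} {Q : Matrix (Fin m) (Fin m) ℝ} {Ω : Set ℂ}
  {P : ℂ → ℤ → Matrix (Fin m) (Fin m) ℂ} {θ : ℂ → Matrix (Fin m) (Fin m) ℂ} {z : ℂ}

theorem half_hs (h : PV w K Q Ω P θ) (hz : z ∈ Ω) (a : ℤ) :
    hs (metr w K Q (P z)) (θ z * P z a) =
      (Matrix.trace (θ z * P z a * (θ z).map (starRingEnd ℂ))).re := by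
  have hd := h.hd z hz
  rw [hs, adj_mul hd.posDef, hd.adj_P, fam4_adj h hz]
  congr 2
  rw [Matrix.mul_assoc (θ z), ← Matrix.mul_assoc (P z a), hd.mul, if_pos rfl, Matrix.mul_assoc]

theorem hs_theta_P (h : PV w K Q Ω P θ) (hz : z ∈ Ω) (a : ℤ) :
    hs (metr w K Q (P z)) (θ z * P z a) = hs (metr w K Q (P z)) (θ z * P z (w + 1 - a)) := by
  have hd := h.hd z hz
  rw [half_hs h hz, half_hs h hz]
  have h1 : (starRingEnd ℂ) (Matrix.trace (θ z * P z a * (θ z).map (starRingEnd ℂ))) =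
      Matrix.trace (θ z * P z (w + 1 - a) * (θ z).map (starRingEnd ℂ)) := by
    have h2 : (starRingEnd ℂ) (Matrix.trace (θ z * P z a * (θ z).map (starRingEnd ℂ))) =
        Matrix.trace ((θ z * P z a * (θ z).map (starRingEnd ℂ)).map (starRingEnd ℂ)) := by
      simp only [Matrix.trace, map_sum, Matrix.diag_apply, Matrix.map_apply]
    rw [h2, Matrix.map_mul, Matrix.map_mul, hd.conj, fam4_conj_conj, Matrix.mul_assoc,
      Matrix.trace_mul_comm]
    have h3 : P z (w - a) * θ z = θ z * P z (w + 1 - a) := by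
      rw [h.deg z hz]
      congr 2
      ring
    rw [h3]
  rw [← h1, Complex.conj_re]

theorem hs_theta_sum (h : PV w K Q Ω P θ) (hz : z ∈ Ω) :
    hs (metr w K Q (P z)) (θ z) =
      ∑ a ∈ Finset.Icc (-(K : ℤ)) K, hs (metr w K Q (P z)) (θ z * P z a) := by
  have hd := h.hd z hz
  rw [Finset.sum_congr rfl fun a _ => half_hs h hz a, ← Complex.re_sum, ← Matrix.trace_sum,
    ← Finset.sum_mul, ← Finset.mul_sum, hd.sum, Matrix.mul_one, hs, fam4_adj h hz]

theorem half_qf_zero {M : Matrix (Fin m) (Fin m) ℂ} : qf M 0 = 0 := by simp [qf]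

theorem half_two {n : ℤ → ℝ} (hn : ∀ a, 0 ≤ n a) {S : Finset ℤ} (hS : ∀ a, a ∉ S → n a = 0)
    (a : ℤ) : n a + n (a - 1) ≤ ∑ b ∈ S, n b := by
  have h1 : n a + n (a - 1) = ∑ b ∈ ({a, a - 1} : Finset ℤ), n b := by
    rw [Finset.sum_pair (by omega)]
  rw [h1, ← Finset.sum_filter_ne_zero]
  apply Finset.sum_le_sum_of_subset_of_nonneg
  · intro b hb
    by_contra hcon
    exact (Finset.mem_filter.1 hb).2 (hS b hcon)
  · intro b _ _
    exact hn b

/-- on real vectors the Higgs field gains a factor `1 / 2` -/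
theorem qf_theta_real_le (h : PV w K Q Ω P θ) (hz : z ∈ Ω) {x : Fin m → ℂ} (hx : cj x = x) :
    qf (metr w K Q (P z)) (θ z *ᵥ x) ≤
      hs (metr w K Q (P z)) (θ z) / 2 * qf (metr w K Q (P z)) x := by
  have hd := h.hd z hz
  have hM := hd.posDef
  set M := metr w K Q (P z) with hMdef
  set s : ℤ → ℝ := fun a => hs M (θ z * P z a) with hs_def
  set n : ℤ → ℝ := fun a => qf M (P z a *ᵥ x) with hn_def
  set S := Finset.Icc (-(K : ℤ)) K with hS
  have hs0 : ∀ a, 0 ≤ s a := fun a => hs_nonneg hM _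
  have hn0 : ∀ a, 0 ≤ n a := fun a => qf_nonneg hM _
  have hsz : ∀ a, a ∉ S → s a = 0 := by
    intro a ha
    simp only [hs_def]
    rw [hd.hd2_zero ha, Matrix.mul_zero]
    simp [hs]
  have hnz : ∀ a, a ∉ S → n a = 0 := by
    intro a ha
    simp only [hn_def]
    rw [hd.hd2_zero ha, Matrix.zero_mulVec, half_qf_zero]
  have hss : ∀ a, s (w + 1 - a) = s a := fun a => (hs_theta_P h hz a).symm
  have hnn : ∀ a, n (w + 1 - a) = n (a - 1) := by
    intro a
    have h1 := hd.qf_cj (a - 1) x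
    rw [hx] at h1
    simp only [hn_def]
    rw [h1]
    congr 3
    ring
  have hsum : qf M x = ∑ a ∈ S, n a := hd.qf_sum x
  have hths : hs M (θ z) = ∑ a ∈ S, s a := hs_theta_sum h hz
  -- the first bound
  have h1 : qf M (θ z *ᵥ x) ≤ ∑ a ∈ S, s a * n a := by
    rw [hd.qf_sum]
    have h2 : ∀ b : ℤ, qf M (P z b *ᵥ (θ z *ᵥ x)) ≤ s (b + 1) * n (b + 1) := by
      intro b
      have h3 : P z b *ᵥ (θ z *ᵥ x) = (θ z * P z (b + 1)) *ᵥ (P z (b + 1) *ᵥ x) := by
        rw [Matrix.mulVec_mulVec, Matrix.mulVec_mulVec, Matrix.mul_assoc, hd.mul, if_pos rfl,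
          h.deg z hz, add_sub_cancel_right]
      rw [h3]
      exact qf_mulVec_le hM _ _
    refine (Finset.sum_le_sum fun b _ => h2 b).trans ?_
    have h4 : ∑ b ∈ S, s (b + 1) * n (b + 1) =
        ∑ a ∈ Finset.Icc (-(K : ℤ) + 1) (K + 1), s a * n a := by
      refine Finset.sum_nbij' (fun a => a + 1) (fun a => a - 1) ?_ ?_ ?_ ?_ ?_
      · intro a ha; rw [hS, Finset.mem_Icc] at ha; rw [Finset.mem_Icc]; omega
      · intro a ha; rw [Finset.mem_Icc] at ha; rw [hS, Finset.mem_Icc]; omega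
      · intro a _; simp
      · intro a _; simp
      · intro a _; rfl
    rw [h4, ← Finset.sum_filter_ne_zero]
    apply Finset.sum_le_sum_of_subset_of_nonneg
    · intro b hb
      by_contra hcon
      apply (Finset.mem_filter.1 hb).2
      rw [hsz b hcon, zero_mul]
    · intro b _ _
      exact mul_nonneg (hs0 b) (hn0 b)
  -- the symmetry
  have h5 : ∑ a ∈ S, s a * n a = ∑ a ∈ S, s a * n (a - 1) := by
    refine Finset.sum_bij_ne_zero (fun a _ _ => w + 1 - a) ?_ ?_ ?_ ?_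
    · intro a _ ha
      by_contra hcon
      apply ha
      rw [← hss a, hsz _ hcon, zero_mul]
    · intro a _ _ b _ _ hab
      omega
    · intro b hb hb0
      have hbs : s b ≠ 0 := left_ne_zero_of_mul hb0
      refine ⟨w + 1 - b, ?_, ?_, ?_⟩
      · by_contra hcon
        apply hbs
        rw [← hss b, hsz _ hcon]
      · rw [hss, hnn]
        exact hb0
      · simp
    · intro a _ _
      rw [hss, ← hnn (w + 1 - a)]
      congr 2
      ring
  have h6 : ∑ a ∈ S, s a * (n a + n (a - 1)) ≤ ∑ a ∈ S, s a * qf M x := by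
    refine Finset.sum_le_sum fun a _ => mul_le_mul_of_nonneg_left ?_ (hs0 a)
    rw [hsum]
    exact half_two hn0 hnz a
  rw [← Finset.sum_mul, ← hths] at h6
  have h7 : ∑ a ∈ S, s a * (n a + n (a - 1)) =
      ∑ a ∈ S, s a * n a + ∑ a ∈ S, s a * n (a - 1) := by
    rw [← Finset.sum_add_distrib]
    exact Finset.sum_congr rfl fun a _ => mul_add _ _ _
  rw [h7, ← h5] at h6
  linarith

end US38
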