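import Pool.Agent.LibUS38.DelD
import Pool.Agent.LibUS38.Mob

/-! Invariance under `Δ`. -/

open Matrix Complex
open UpperHalfPlane hiding I
open scoped ComplexOrder ContDiff

namespace US38

open SP38

variable {m : ℕ} {w : ℤ} {K : ℕ} {p : Fin m → ℤ} {s : Equiv.Perm (Fin m)}
  {Q : Matrix (Fin m) (Fin m) ℝ} {G : ℂ → Matrix (Fin m) (Fin m) ℂ} {ν : ℂ → Fin m → ℂ}
  {Δ : Subgroup (Matrix.SpecialLinearGroup (Fin 2) ℝ)} {θ : ℂ → Matrix (Fin m) (Fin m) ℂ}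
  {u : ℂ → Fin m → ℂ} {z : ℂ}

/-- transport of the hermitian form by a real isometry -/
theorem hm_transport {P P' : ℤ → Matrix (Fin m) (Fin m) ℂ} {γ : Matrix (Fin m) (Fin m) ℝ}
    (hγ : γᵀ * Q * γ = Q) (hP' : ∀ a, P' a * cm γ = cm γ * P a) (x y : Fin m → ℂ) :
    hm (metr w K Q P') (cm γ *ᵥ x) (cm γ *ᵥ y) = hm (metr w K Q P) x y := by
  have hcm : ∀ A B : Matrix (Fin m) (Fin m) ℝ, cm (A * B) = cm A * cm B := by
    intro A B
    exact Matrix.map_mul (f := Complex.ofRealHom)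
  have h1 : (cm γ)ᴴ * (cm Q)ᵀ * cm γ = (cm Q)ᵀ := by
    have h2 : (cm γ)ᴴ = (cm γ)ᵀ := by
      ext i j
      simp [cm, Matrix.conjTranspose_apply]
    have h3 : (cm γ)ᵀ * cm Q * cm γ = cm Q := by
      have h4 : (cm γ)ᵀ = cm γᵀ := by
        ext i j
        simp [cm]
      rw [h4, ← hcm, ← hcm, hγ]
    rw [h2]
    have h5 := congrArg Matrix.transpose h3
    rw [Matrix.transpose_mul, Matrix.transpose_mul, Matrix.transpose_transpose,
      ← Matrix.mul_assoc] at h5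
    exact h5
  have h6 : (cm γ)ᴴ * metr w K Q P' * cm γ = metr w K Q P := by
    rw [metr, metr, Finset.mul_sum, Finset.sum_mul]
    refine Finset.sum_congr rfl fun a _ => ?_
    rw [mul_smul_comm, smul_mul_assoc]
    congr 1
    calc (cm γ)ᴴ * ((cm Q)ᵀ * P' a) * cm γ = (cm γ)ᴴ * (cm Q)ᵀ * (P' a * cm γ) := by
          simp only [Matrix.mul_assoc]
      _ = (cm γ)ᴴ * (cm Q)ᵀ * cm γ * P a := by rw [hP']; simp only [Matrix.mul_assoc]
      _ = (cm Q)ᵀ * P a := by rw [h1]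
  rw [hm, hm, Matrix.star_mulVec, ← Matrix.dotProduct_mulVec, Matrix.mulVec_mulVec,
    Matrix.mulVec_mulVec, ← h6]

theorem inv_Fil_mul (p : Fin m → ℤ) (A G : Matrix (Fin m) (Fin m) ℂ) (a : ℤ) :
    (Fil p G a).map (Matrix.mulVecLin A) = Fil p (A * G) a := by
  rw [Fil, Fil, Submodule.map_span]
  congr 1
  ext v
  constructor
  · rintro ⟨_, ⟨j, hj, rfl⟩, rfl⟩
    refine ⟨j, hj, ?_⟩
    funext i
    simp [Matrix.mulVec, dotProduct, Matrix.mul_apply]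
  · rintro ⟨j, hj, rfl⟩
    refine ⟨fun i => G i j, ⟨j, hj, rfl⟩, ?_⟩
    funext i
    simp [Matrix.mulVec, dotProduct, Matrix.mul_apply]

theorem PP_mob (hv : IsVar w p Q G ν) (hs : ∀ j, p (s j) = w - p j)
    {γ : Matrix (Fin m) (Fin m) ℝ} (hu : IsUnit γ) (hγ : γᵀ * Q * γ = Q)
    {δ : Matrix.SpecialLinearGroup (Fin 2) ℝ} (hz : z ∈ Hc 0)
    (hF : ∀ a, Fil p (G (mob δ z)) a = (Fil p (G z) a).map (Matrix.mulVecLin (cm γ))) (a : ℤ) :
    PP p s (G (mob δ z)) a * cm γ = cm γ * PP p s (G z) a := by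
  have hz0 : 0 < z.im := hz
  have hz1 : 0 < (mob δ z).im := mob_mem δ hz
  have hF' : ∀ a, Fil p (G (mob δ z)) a = Fil p (cm γ * G z) a := by
    intro a
    rw [hF, inv_Fil_mul]
  have hcmu : IsUnit (cm γ) := by
    have h1 : cm γ = (Complex.ofRealHom.mapMatrix : _ →+* _) γ := rfl
    rw [h1]
    exact hu.map _
  have h1 : IsPHS w p Q (cm γ * G z) :=
    (hv.phs _ hz1).congr (hcmu.mul (hv.phs _ hz0).unit) hF'
  rw [(hv.phs _ hz1).PP_congr h1 hs hF' a]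
  exact PP_transport hu hs (hv.phs _ hz0) a

theorem inv_imv_add (x y : Fin m → ℂ) : imv (x + y) = imv x + imv y := by
  funext i
  simp [imv]

theorem inv_imv_ofR (b : Fin m → ℝ) : imv (ofR b) = 0 := by
  funext i
  simp [imv, ofR]

theorem inv_imv_mulVec (γ : Matrix (Fin m) (Fin m) ℝ) (x : Fin m → ℂ) :
    imv (cm γ *ᵥ x) = cm γ *ᵥ imv x := by
  funext i
  simp only [imv, cm, Matrix.mulVec, dotProduct, Matrix.map_apply, Complex.im_sum]
  push_cast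
  refine Finset.sum_congr rfl fun j _ => ?_
  rw [Complex.im_ofReal_mul]
  push_cast
  rfl

/-- invariance of `δ` -/
theorem del_mob (hv : IsVar w p Q G ν) (hs : ∀ j, p (s j) = w - p j)
    {γ : Matrix (Fin m) (Fin m) ℝ} {b : Fin m → ℝ} (hu : IsUnit γ) (hγ : γᵀ * Q * γ = Q)
    {δ : Matrix.SpecialLinearGroup (Fin 2) ℝ} (hz : z ∈ Hc 0)
    (hF : ∀ a, Fil p (G (mob δ z)) a = (Fil p (G z) a).map (Matrix.mulVecLin (cm γ)))
    (hn : ν (mob δ z) - (cm γ *ᵥ ν z + ofR b) ∈ Fil p (G (mob δ z)) 0) :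
    del w (fun z => PP p s (G z)) (fun z => imv (ν z)) (mob δ z) =
      cm γ *ᵥ del w (fun z => PP p s (G z)) (fun z => imv (ν z)) z := by
  have hz1 : 0 < (mob δ z).im := mob_mem δ hz
  have h1 := Rm_imv_Fil (hv.phs _ hz1) hs hn
  have h2 : Rm w (PP p s (G (mob δ z))) * cm γ = cm γ * Rm w (PP p s (G z)) := by
    rw [Rm, Rm, Finset.sum_mul, Finset.mul_sum]
    exact Finset.sum_congr rfl fun a _ => PP_mob hv hs hu hγ hz hF a
  have h3 : imv (ν (mob δ z)) =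
      cm γ *ᵥ imv (ν z) + imv (ν (mob δ z) - (cm γ *ᵥ ν z + ofR b)) := by
    have h4 : ν (mob δ z) = (cm γ *ᵥ ν z + ofR b) + (ν (mob δ z) - (cm γ *ᵥ ν z + ofR b)) := by
      abel
    conv_lhs => rw [h4]
    rw [inv_imv_add, inv_imv_add, inv_imv_ofR, add_zero, inv_imv_mulVec]
  show Rm w (PP p s (G (mob δ z))) *ᵥ imv (ν (mob δ z)) =
    cm γ *ᵥ (Rm w (PP p s (G z)) *ᵥ imv (ν z))
  rw [h3, Matrix.mulVec_add, h1, add_zero, Matrix.mulVec_mulVec, Matrix.mulVec_mulVec, h2]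

end US38
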