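import Pool.Agent.LibUS38.Defs

/-! Step functions. -/

open Matrix Complex MeasureTheory
open scoped ContDiff

namespace US38

open SP38

/-- cutoff in the height: `0` for `y ≤ Y`, `1` for `y ≥ 2 Y` -/
noncomputable def kk (Y y : ℝ) : ℝ := Real.smoothTransition (y / Y - 1)

variable {Y y h x : ℝ}

theorem Step_kk_mono (hY : 0 < Y) : Monotone (kk Y) := by
  intro a b hab
  unfold kk
  apply Real.smoothTransition.monotone
  have := div_le_div_of_nonneg_right hab hY.le
  linarith

theorem kk_smooth (Y : ℝ) : ContDiff ℝ ∞ (kk Y) := by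
  unfold kk
  exact Real.smoothTransition.contDiff.comp ((contDiff_id.div_const Y).sub contDiff_const)

theorem kk_nonneg (Y y : ℝ) : 0 ≤ kk Y y := Real.smoothTransition.nonneg _

theorem kk_le_one (Y y : ℝ) : kk Y y ≤ 1 := Real.smoothTransition.le_one _

theorem kk_zero (hY : 0 < Y) (hy : y ≤ Y) : kk Y y = 0 := by
  unfold kk
  apply Real.smoothTransition.zero_of_nonpos
  have := (div_le_one hY).mpr hy
  linarith

theorem kk_one (hY : 0 < Y) (hy : 2 * Y ≤ y) : kk Y y = 1 := by
  unfold kk
  apply Real.smoothTransition.one_of_one_le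
  have := (le_div_iff₀ hY).mpr hy
  linarith

theorem kk_lt_one (hY : 0 < Y) (hy : y < 2 * Y) : kk Y y < 1 := by
  unfold kk
  apply Real.smoothTransition.lt_one_of_lt_one
  have := (div_lt_iff₀ hY).mpr hy
  linarith

theorem kk_deriv_nonneg (hY : 0 < Y) (y : ℝ) : 0 ≤ deriv (kk Y) y :=
  (Step_kk_mono hY).deriv_nonneg

theorem kk_deriv_zero (hY : 0 < Y) (hy : y ≤ Y ∨ 2 * Y ≤ y) : deriv (kk Y) y = 0 := by
  rcases hy with hy | hy
  · apply IsLocalMin.deriv_eq_zero
    refine Filter.Eventually.of_forall fun z => ?_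
    rw [kk_zero hY hy]
    exact kk_nonneg Y z
  · apply IsLocalMax.deriv_eq_zero
    refine Filter.Eventually.of_forall fun z => ?_
    rw [kk_one hY hy]
    exact kk_le_one Y z

theorem kk_integral (hY : 0 < Y) : ∫ y in Y..(2 * Y), deriv (kk Y) y = 1 := by
  have hs := kk_smooth Y
  have hd : ∀ y, DifferentiableAt ℝ (kk Y) y := fun y =>
    (hs.differentiable (by simp)).differentiableAt
  have hc : Continuous (deriv (kk Y)) := hs.continuous_deriv (by simp)
  rw [intervalIntegral.integral_deriv_eq_sub (fun y _ => hd y) (hc.intervalIntegrable _ _),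
    kk_one hY le_rfl, kk_zero hY le_rfl, sub_zero]

end US38
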