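import Pool.Agent.LibUS38.Defs

/-! A partition of unity of `ℝ / hℤ`. -/

open Matrix Complex MeasureTheory
open scoped ContDiff

namespace US38

open SP38

/-- partition of unity of `ℝ / hℤ` -/
noncomputable def aa (h x : ℝ) : ℝ :=
  Real.smoothTransition (x / h + 1) - Real.smoothTransition (x / h)

variable {Y y h x : ℝ}

theorem aa_smooth (h : ℝ) : ContDiff ℝ ∞ (aa h) := by
  unfold aa
  exact (Real.smoothTransition.contDiff.comp ((contDiff_id.div_const h).add contDiff_const)).sub
    (Real.smoothTransition.contDiff.comp (contDiff_id.div_const h))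

theorem aa_nonneg (hh : 0 < h) (x : ℝ) : 0 ≤ aa h x := by
  unfold aa
  exact sub_nonneg.2 (Real.smoothTransition.monotone (by linarith))

theorem aa_zero (hh : 0 < h) (hx : h ≤ |x|) : aa h x = 0 := by
  unfold aa
  rcases le_abs.1 hx with h1 | h1
  · have h2 : 1 ≤ x / h := (one_le_div hh).2 h1
    rw [Real.smoothTransition.one_of_one_le h2, Real.smoothTransition.one_of_one_le (by linarith),
      sub_self]
  · have h2 : x / h ≤ -1 := by
      rw [div_le_iff₀ hh]
      linarith
    rw [Real.smoothTransition.zero_of_nonpos (by linarith),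
      Real.smoothTransition.zero_of_nonpos (by linarith), sub_self]

theorem aa_sum (hh : 0 < h) (x : ℝ) : ∑ᶠ n : ℤ, aa h (x + n * h) = 1 := by
  have hd : ∀ n : ℤ, aa h (x + n * h) = Real.smoothTransition (x / h + n + 1) -
      Real.smoothTransition (x / h + n) := by
    intro n
    unfold aa
    have : (x + n * h) / h = x / h + n := by field_simp
    rw [this]
  set m : ℤ := ⌊-(x / h)⌋ with hm
  have hm1 : (m : ℝ) ≤ -(x / h) := Int.floor_le _
  have hm2 : -(x / h) < m + 1 := Int.lt_floor_add_one _
  have hsup : (Function.support fun n : ℤ => aa h (x + n * h)) ⊆ (({m, m + 1} : Finset ℤ) : Set ℤ) := by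
    intro n hn
    rw [Function.mem_support, hd] at hn
    have h1 : 0 < x / h + n + 1 := by
      by_contra hc
      push Not at hc
      apply hn
      rw [Real.smoothTransition.zero_of_nonpos hc,
        Real.smoothTransition.zero_of_nonpos (by linarith), sub_self]
    have h2 : x / h + n < 1 := by
      by_contra hc
      push Not at hc
      apply hn
      rw [Real.smoothTransition.one_of_one_le hc,
        Real.smoothTransition.one_of_one_le (by linarith), sub_self]
    have h3 : ((m - 1 : ℤ) : ℝ) < n := by push_cast; linarith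
    have h4 : (n : ℝ) < ((m + 2 : ℤ) : ℝ) := by push_cast; linarith
    have h5 : m - 1 < n := by exact_mod_cast h3
    have h6 : n < m + 2 := by exact_mod_cast h4
    simp only [Finset.coe_insert, Finset.coe_singleton, Set.mem_insert_iff, Set.mem_singleton_iff]
    omega
  rw [finsum_eq_sum_of_support_subset _ hsup, Finset.sum_pair (by omega), hd, hd]
  have e1 : Real.smoothTransition (x / h + m) = 0 :=
    Real.smoothTransition.zero_of_nonpos (by linarith)
  have e2 : Real.smoothTransition (x / h + ((m + 1 : ℤ) : ℝ) + 1) = 1 :=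
    Real.smoothTransition.one_of_one_le (by push_cast; linarith)
  have e3 : x / h + ((m + 1 : ℤ) : ℝ) = x / h + m + 1 := by push_cast; ring
  rw [e2, e3, e1]
  ring

/-- unfolding in one variable -/
theorem aa_integral (hh : 0 < h) {f : ℝ → ℂ} (hf : Continuous f) (hp : ∀ x, f (x + h) = f x) :
    ∫ x : ℝ, (aa h x : ℂ) * f x = ∫ x in (0 : ℝ)..h, f x := by
  have hc : Continuous fun x : ℝ => (aa h x : ℂ) * f x :=
    (continuous_ofReal.comp (aa_smooth h).continuous).mul hf
  have hsup : (Function.support fun x : ℝ => (aa h x : ℂ) * f x) ⊆ Set.Ioc (-h) h := by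
    intro x hx
    by_contra hx'
    apply hx
    have : aa h x = 0 := by
      apply aa_zero hh
      by_contra hlt
      push Not at hlt
      exact hx' ⟨(abs_lt.1 hlt).1, (abs_lt.1 hlt).2.le⟩
    simp [this]
  rw [← intervalIntegral.integral_eq_integral_of_support_subset hsup,
    ← intervalIntegral.integral_add_adjacent_intervals (b := 0) (hc.intervalIntegrable _ _)
      (hc.intervalIntegrable _ _)]
  have h1 : ∫ x in (-h)..0, (aa h x : ℂ) * f x =
      ∫ x in (0 : ℝ)..h, (aa h (x - h) : ℂ) * f (x - h) := by
    rw [intervalIntegral.integral_comp_sub_right fun x => (aa h x : ℂ) * f x]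
    simp
  rw [h1, ← intervalIntegral.integral_add]
  · refine intervalIntegral.integral_congr fun x hx => ?_
    rw [Set.uIcc_of_le hh.le] at hx
    have h2 : f (x - h) = f x := by rw [← hp (x - h), sub_add_cancel]
    have h3 : aa h (x - h) + aa h x = 1 := by
      unfold aa
      have e1 : (x - h) / h = x / h - 1 := by field_simp
      have e2 : 0 ≤ x / h := div_nonneg hx.1 hh.le
      have e3 : x / h ≤ 1 := (div_le_one hh).2 hx.2
      rw [e1, sub_add_cancel, Real.smoothTransition.zero_of_nonpos (show x / h - 1 ≤ 0 by linarith),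
        Real.smoothTransition.one_of_one_le (show 1 ≤ x / h + 1 by linarith)]
      ring
    show (aa h (x - h) : ℂ) * f (x - h) + (aa h x : ℂ) * f x = f x
    rw [h2, ← add_mul, ← ofReal_add, h3, ofReal_one, one_mul]
  · exact (hc.comp (continuous_id.sub continuous_const)).intervalIntegrable _ _
  · exact hc.intervalIntegrable _ _

end US38
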