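import Pool.Agent.LibUS38.Per2
import Pool.Agent.LibUS38.Step
import Pool.Agent.LibUS38.StepA

/-! The invariant cutoff function. -/

open Matrix Complex
open UpperHalfPlane hiding I
open scoped ContDiff

namespace US38

open SP38

variable {ι : Type} [Fintype ι] {Δ : Subgroup (Matrix.SpecialLinearGroup (Fin 2) ℝ)}
  {σ : ι → Matrix.SpecialLinearGroup (Fin 2) ℝ} {h : ι → ℝ} {D : Set ℍ} {z : ℂ} {Y : ℝ}

/-- a function on the cusp strip of `g`, `b` a function of the height -/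
noncomputable def strf (g : Matrix.SpecialLinearGroup (Fin 2) ℝ) (h : ℝ) (b : ℝ → ℝ) (z : ℂ) : ℂ :=
  ((aa h (mob g⁻¹ z).re * b (mob g⁻¹ z).im : ℝ) : ℂ)

/-- sum over all cusps of the periodizations -/
noncomputable def csum (Δ : Subgroup (Matrix.SpecialLinearGroup (Fin 2) ℝ))
    (σ : ι → Matrix.SpecialLinearGroup (Fin 2) ℝ) (h : ι → ℝ) (b : ℝ → ℝ) (z : ℂ) : ℂ :=
  ∑ i, Per Δ (strf (σ i) (h i) b) z

/-- the cutoff: `0` for heights `≤ Y`, `1` for heights `≥ 2 Y` -/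
noncomputable def kap (Δ : Subgroup (Matrix.SpecialLinearGroup (Fin 2) ℝ))
    (σ : ι → Matrix.SpecialLinearGroup (Fin 2) ℝ) (h : ι → ℝ) (Y : ℝ) (z : ℂ) : ℂ :=
  csum Δ σ h (kk Y) z

theorem kap_box_compact (h c y : ℝ) (hc : 0 < c) :
    IsCompact {τ : ℍ | (-h ≤ ((τ : ℂ)).re ∧ ((τ : ℂ)).re ≤ h) ∧ c ≤ τ.im ∧ τ.im ≤ y} := by
  rw [UpperHalfPlane.isEmbedding_coe.isCompact_iff]
  have h1 : ((↑) : ℍ → ℂ) ''
      {τ : ℍ | (-h ≤ ((τ : ℂ)).re ∧ ((τ : ℂ)).re ≤ h) ∧ c ≤ τ.im ∧ τ.im ≤ y} =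
      Set.Icc (-h) h ×ℂ Set.Icc c y := by
    ext z
    rw [Complex.mem_reProdIm]
    constructor
    · rintro ⟨τ, ⟨h2, h3⟩, rfl⟩
      exact ⟨h2, h3⟩
    · rintro ⟨h2, h3⟩
      refine ⟨⟨z, lt_of_lt_of_le hc h3.1⟩, ⟨h2, h3⟩, rfl⟩
  rw [h1]
  exact isCompact_Icc.reProdIm isCompact_Icc

theorem strf_LF (hc : IsCurve Δ σ h D) (i : ι) {b : ℝ → ℝ} {y₀ : ℝ} (hy₀ : 0 < y₀)
    (hb : ∀ y, y ≤ y₀ → b y = 0) : LF Δ (strf (σ i) (h i) b) := by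
  intro L hL hLU
  have hL' := per1_compact hL hLU
  obtain ⟨Y, hY⟩ := hc.height_bdd hL'
  have hbox := kap_box_compact (h i) y₀ Y hy₀
  have hK : IsCompact ((fun τ : ℍ => σ i • τ) ''
      {τ : ℍ | (-(h i) ≤ ((τ : ℂ)).re ∧ ((τ : ℂ)).re ≤ h i) ∧ y₀ ≤ τ.im ∧ τ.im ≤ Y}) :=
    hbox.image (continuous_const_smul (σ i))
  have hfin := hc.disc2 hL' hK
  refine Set.Finite.of_finite_image (f := Subtype.val) (hfin.subset ?_)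
    Subtype.val_injective.injOn
  rintro _ ⟨δ, ⟨z, hz, hne⟩, rfl⟩
  have hz0 : 0 < z.im := mem_Hc.1 (hLU hz)
  refine ⟨δ.2, ⟨z, hz0⟩, hz, (σ i)⁻¹ • ((δ : Matrix.SpecialLinearGroup (Fin 2) ℝ) •
    (⟨z, hz0⟩ : ℍ)), ?_, smul_inv_smul _ _⟩
  have hcoe : mob (σ i)⁻¹ (mob (δ : Matrix.SpecialLinearGroup (Fin 2) ℝ) z) =
      (((σ i)⁻¹ • ((δ : Matrix.SpecialLinearGroup (Fin 2) ℝ) • (⟨z, hz0⟩ : ℍ)) : ℍ) : ℂ) := by
    rw [← mob_coe, ← mob_coe]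
  unfold strf at hne
  rw [hcoe] at hne
  have hne' : aa (h i) ((((σ i)⁻¹ • ((δ : Matrix.SpecialLinearGroup (Fin 2) ℝ) •
      (⟨z, hz0⟩ : ℍ)) : ℍ) : ℂ)).re * b ((((σ i)⁻¹ •
      ((δ : Matrix.SpecialLinearGroup (Fin 2) ℝ) • (⟨z, hz0⟩ : ℍ)) : ℍ) : ℂ)).im ≠ 0 := by
    intro h0
    rw [h0] at hne
    exact hne Complex.ofReal_zero
  have h1 := left_ne_zero_of_mul hne'
  have h2 := right_ne_zero_of_mul hne'
  have h3 : |((((σ i)⁻¹ • ((δ : Matrix.SpecialLinearGroup (Fin 2) ℝ) •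
      (⟨z, hz0⟩ : ℍ)) : ℍ) : ℂ)).re| < h i := by
    by_contra hcon
    exact h1 (aa_zero (hc.width i).1 (not_lt.1 hcon))
  have h4 : y₀ < ((((σ i)⁻¹ • ((δ : Matrix.SpecialLinearGroup (Fin 2) ℝ) •
      (⟨z, hz0⟩ : ℍ)) : ℍ) : ℂ)).im := by
    by_contra hcon
    exact h2 (hb _ (not_lt.1 hcon))
  rw [abs_lt] at h3
  exact ⟨⟨h3.1.le, h3.2.le⟩, h4.le, hY i δ δ.2 ⟨z, hz0⟩ hz⟩

theorem strf_smooth (g : Matrix.SpecialLinearGroup (Fin 2) ℝ) (h : ℝ) {b : ℝ → ℝ}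
    (hb : ContDiff ℝ ∞ b) : SmS (Hc 0) (strf g h b) := by
  have h1 : ContDiff ℝ ∞ (fun w : ℂ => ((aa h w.re * b w.im : ℝ) : ℂ)) :=
    Complex.ofRealCLM.contDiff.comp
      (((aa_smooth h).comp Complex.reCLM.contDiff).mul (hb.comp Complex.imCLM.contDiff))
  have h2 : SmS Set.univ (fun w : ℂ => ((aa h w.re * b w.im : ℝ) : ℂ)) := h1.contDiffOn
  exact SmS.compS (f := fun w : ℂ => ((aa h w.re * b w.im : ℝ) : ℂ)) (φ := mob g⁻¹)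
    (isOpen_Hc 0) h2 (mob_holo g⁻¹) fun z _ => Set.mem_univ _

theorem csum_smooth (hc : IsCurve Δ σ h D) {b : ℝ → ℝ} (hbs : ContDiff ℝ ∞ b)
    (hb : ∀ y, y ≤ 1 → b y = 0) : SmS (Hc 0) (csum Δ σ h b) :=
  ContDiffOn.sum fun i _ => SmS_Per (strf_LF hc i one_pos hb) (strf_smooth (σ i) (h i) hbs)

theorem csum_invariant (b : ℝ → ℝ) {δ : Matrix.SpecialLinearGroup (Fin 2) ℝ} (hδ : δ ∈ Δ)
    (hz : z ∈ Hc 0) : csum Δ σ h b (mob δ z) = csum Δ σ h b z :=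
  Finset.sum_congr rfl fun _ _ => Per_invariant _ hδ hz

end US38
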