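import Pool.Agent.LibUS38.Kap

/-! Values of `csum`. -/

open Matrix Complex
open UpperHalfPlane hiding I
open scoped ContDiff

namespace US38

open SP38

variable {ι : Type} [Fintype ι] {Δ : Subgroup (Matrix.SpecialLinearGroup (Fin 2) ℝ)}
  {σ : ι → Matrix.SpecialLinearGroup (Fin 2) ℝ} {h : ι → ℝ} {D : Set ℍ} {z : ℂ} {Y : ℝ}

theorem kap2_strf_coe (g : Matrix.SpecialLinearGroup (Fin 2) ℝ) (h : ℝ) (b : ℝ → ℝ) (τ : ℍ) :
    strf g h b (τ : ℂ) =
      ((aa h ((g⁻¹ • τ : ℍ) : ℂ).re * b ((g⁻¹ • τ : ℍ) : ℂ).im : ℝ) : ℂ) := by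
  unfold strf
  rw [mob_coe]

/-- values on the horoballs -/
theorem csum_cusp (hc : IsCurve Δ σ h D) {b : ℝ → ℝ} (hb : ∀ y, y ≤ 1 → b y = 0) (i : ι)
    (hz : z ∈ Hc 1) : csum Δ σ h b (mob (σ i) z) = (b z.im : ℂ) := by
  have hz1 : 1 < z.im := mem_Hc.1 hz
  obtain ⟨τ, hτ⟩ : ∃ τ : ℍ, (τ : ℂ) = z := ⟨⟨z, by linarith⟩, rfl⟩
  subst hτ
  have him : 1 < τ.im := hz1
  obtain ⟨π, hπ1, -, hπ2⟩ := hc.gen i
  have hπ3 := gen_zpow hπ2
  -- nonvanishing terms
  have key : ∀ (j : ι) (δ : Δ), strf (σ j) (h j) b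
      (mob (δ : Matrix.SpecialLinearGroup (Fin 2) ℝ) (mob (σ i) (τ : ℂ))) ≠ 0 →
      i = j ∧ ∃ n : ℤ, (δ : Matrix.SpecialLinearGroup (Fin 2) ℝ) = π ^ n := by
    intro j δ hne
    rw [mob_coe, mob_coe, kap2_strf_coe] at hne
    have hne' : aa (h j) (((σ j)⁻¹ • ((δ : Matrix.SpecialLinearGroup (Fin 2) ℝ) •
        (σ i • τ)) : ℍ) : ℂ).re * b (((σ j)⁻¹ • ((δ : Matrix.SpecialLinearGroup (Fin 2) ℝ) •
        (σ i • τ)) : ℍ) : ℂ).im ≠ 0 := by
      intro h0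
      rw [h0] at hne
      exact hne Complex.ofReal_zero
    have h2 : 1 < ((σ j)⁻¹ • ((δ : Matrix.SpecialLinearGroup (Fin 2) ℝ) • (σ i • τ)) : ℍ).im := by
      by_contra hcon
      exact right_ne_zero_of_mul hne' (hb _ (not_lt.1 hcon))
    obtain ⟨h3, n, h4⟩ := hc.cusp i j τ
      ((σ j)⁻¹ • ((δ : Matrix.SpecialLinearGroup (Fin 2) ℝ) • (σ i • τ))) him h2 δ δ.2
      (smul_inv_smul _ _).symm
    subst h3
    refine ⟨rfl, n, ?_⟩
    have h5 : ((σ i)⁻¹ • ((δ : Matrix.SpecialLinearGroup (Fin 2) ℝ) • (σ i • τ)) : ℍ) =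
        trans (n * h i) • τ := by
      apply UpperHalfPlane.ext
      rw [h4, glo2_coe_trans]
      push_cast
      ring
    have h6 : (δ : Matrix.SpecialLinearGroup (Fin 2) ℝ) • (σ i • τ) =
        (σ i * trans (n * h i) * (σ i)⁻¹) • (σ i • τ) := by
      rw [mul_smul, mul_smul, inv_smul_smul, ← h5, smul_inv_smul]
    have h7 := hc.free ((π ^ n)⁻¹ *
      (δ : Matrix.SpecialLinearGroup (Fin 2) ℝ))
      (Subgroup.mul_mem _ (Subgroup.inv_mem _ (Subgroup.zpow_mem _ hπ1 n)) δ.2) (σ i • τ)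
      (by rw [mul_smul, h6, ← hπ3, inv_smul_smul])
    exact (inv_mul_eq_one.1 h7).symm
  unfold csum
  rw [Finset.sum_eq_single i]
  · unfold Per
    let g : ℤ → Δ := fun n => ⟨π ^ n, Subgroup.zpow_mem _ hπ1 n⟩
    have hg : Function.Injective g := by
      intro n m hnm
      have h1 : π ^ n = π ^ m := congrArg Subtype.val hnm
      have h2 : (trans (n * h i) • τ : ℍ) = trans (m * h i) • τ := by
        have h3 : (π ^ n) • (σ i • τ) = (π ^ m) • (σ i • τ) := by rw [h1]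
        rw [hπ3, hπ3] at h3
        simpa only [mul_smul, inv_smul_smul, smul_left_cancel_iff] using h3
      have h3 := congrArg (fun τ : ℍ => ((τ : ℍ) : ℂ).re) h2
      simp only [glo2_coe_trans] at h3
      have h4 : (n : ℝ) * h i = m * h i := by
        simpa using h3
      have h5 := mul_right_cancel₀ (hc.width i).1.ne' h4
      exact_mod_cast h5
    have hsupp : ∀ δ ∈ Function.support (fun δ : Δ => strf (σ i) (h i) b
        (mob (δ : Matrix.SpecialLinearGroup (Fin 2) ℝ) (mob (σ i) (τ : ℂ)))),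
        δ ∈ (Set.univ : Set Δ) ↔ δ ∈ Set.range g := by
      intro δ hδ
      refine ⟨fun _ => ?_, fun _ => Set.mem_univ _⟩
      obtain ⟨_, n, hn⟩ := key i δ hδ
      exact ⟨n, Subtype.ext hn.symm⟩
    rw [← finsum_mem_univ, finsum_mem_inter_support_eq' _ _ _ hsupp, finsum_mem_range hg]
    have hterm : ∀ n : ℤ, strf (σ i) (h i) b
        (mob ((g n : Δ) : Matrix.SpecialLinearGroup (Fin 2) ℝ) (mob (σ i) (τ : ℂ))) =
        Complex.ofRealHom.toAddMonoidHom (b τ.im • aa (h i) ((τ : ℂ).re + n * h i)) := by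
      intro n
      rw [mob_coe, mob_coe, kap2_strf_coe]
      have h1 : ((σ i)⁻¹ • (((g n : Δ) : Matrix.SpecialLinearGroup (Fin 2) ℝ) • (σ i • τ)) : ℍ) =
          trans (n * h i) • τ := by
        change ((σ i)⁻¹ • ((π ^ n) • (σ i • τ)) : ℍ) = _
        rw [hπ3, mul_smul, mul_smul, inv_smul_smul, inv_smul_smul]
      rw [h1, glo2_coe_trans]
      have h2 : ((τ : ℂ) + ((n * h i : ℝ) : ℂ)).re = (τ : ℂ).re + n * h i := by
        rw [Complex.add_re, Complex.ofReal_re]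
      have h3 : ((τ : ℂ) + ((n * h i : ℝ) : ℂ)).im = τ.im := by
        rw [Complex.add_im, Complex.ofReal_im, add_zero]
        rfl
      rw [h2, h3, smul_eq_mul, mul_comm (b τ.im)]
      rfl
    rw [finsum_congr hterm, ← AddMonoidHom.map_finsum_of_injective Complex.ofRealHom.toAddMonoidHom
      Complex.ofReal_injective, ← smul_finsum, aa_sum (hc.width i).1, smul_eq_mul, mul_one]
    rfl
  · intro j _ hj
    unfold Per
    have h0 : ∀ δ : Δ, strf (σ j) (h j) b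
        (mob (δ : Matrix.SpecialLinearGroup (Fin 2) ℝ) (mob (σ i) (τ : ℂ))) = 0 := by
      intro δ
      by_contra hne
      exact hj (key j δ hne).1.symm
    rw [finsum_congr h0, finsum_zero]
  · intro hi
    exact absurd (Finset.mem_univ i) hi

/-- values elsewhere -/
theorem csum_core {b : ℝ → ℝ} {y₀ : ℝ} (hb : ∀ y, y ≤ y₀ → b y = 0) (hz : z ∈ Hc 0)
    (hh : ∀ i, ∀ δ ∈ Δ, (mob (σ i)⁻¹ (mob δ z)).im ≤ y₀) : csum Δ σ h b z = 0 := by
  unfold csum
  refine Finset.sum_eq_zero fun i _ => ?_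
  unfold Per
  have h0 : ∀ δ : Δ, strf (σ i) (h i) b
      (mob (δ : Matrix.SpecialLinearGroup (Fin 2) ℝ) z) = 0 := by
    intro δ
    unfold strf
    rw [hb _ (hh i δ δ.2), mul_zero, Complex.ofReal_zero]
  rw [finsum_congr h0, finsum_zero]

/-- every point is equivalent to a point of a horoball or has height at most `1` -/
theorem height_cases (z : ℂ) (hz : z ∈ Hc 0) :
    (∀ i, ∀ δ ∈ Δ, (mob (σ i)⁻¹ (mob δ z)).im ≤ 1) ∨
    ∃ i, ∃ δ ∈ Δ, ∃ ζ ∈ Hc 1, mob δ z = mob (σ i) ζ := by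
  by_cases hall : ∀ i, ∀ δ ∈ Δ, (mob (σ i)⁻¹ (mob δ z)).im ≤ 1
  · exact Or.inl hall
  · right
    push Not at hall
    obtain ⟨i, δ, hδ, h1⟩ := hall
    exact ⟨i, δ, hδ, mob (σ i)⁻¹ (mob δ z), mem_Hc.2 h1,
      ((mob_inv_mob (σ i) (mob_mem δ hz)).2).symm⟩

end US38
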