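import Pool.Agent.LibUS38.Per1
import Pool.Agent.LibUS38.WirtC

/-! Periodization over `Δ`: smoothness. -/

open Matrix Complex
open UpperHalfPlane hiding I
open scoped ContDiff

namespace US38

open SP38

variable {ι : Type} [Fintype ι] {Δ : Subgroup (Matrix.SpecialLinearGroup (Fin 2) ℝ)}
  {σ : ι → Matrix.SpecialLinearGroup (Fin 2) ℝ} {h : ι → ℝ} {D : Set ℍ} {f g : ℂ → ℂ} {z : ℂ}

/-- near a point the sum is finite -/
theorem Per_eventually (hf : LF Δ f) (hz : z ∈ Hc 0) : ∃ F : Finset Δ, ∀ᶠ w in nhds z,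
    Per Δ f w = ∑ δ ∈ F, f (mob (δ : Matrix.SpecialLinearGroup (Fin 2) ℝ) w) ∧
    ∀ δ : Δ, δ ∉ F → f (mob (δ : Matrix.SpecialLinearGroup (Fin 2) ℝ) w) = 0 := by
  obtain ⟨r, hr, hrU⟩ := Metric.nhds_basis_closedBall.mem_iff.1 ((isOpen_Hc 0).mem_nhds hz)
  have hfin := hf (Metric.closedBall z r) (isCompact_closedBall z r) hrU
  refine ⟨hfin.toFinset, ?_⟩
  filter_upwards [Metric.closedBall_mem_nhds z hr] with w hw
  have h0 : ∀ δ : Δ, δ ∉ hfin.toFinset →
      f (mob (δ : Matrix.SpecialLinearGroup (Fin 2) ℝ) w) = 0 := by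
    intro δ hδ
    by_contra hne
    exact hδ (hfin.mem_toFinset.2 ⟨w, hw, hne⟩)
  refine ⟨finsum_eq_sum_of_support_subset _ ?_, h0⟩
  intro δ hδ
  by_contra hcon
  exact hδ (h0 δ hcon)

theorem SmS_Per (hf : LF Δ f) (hs : SmS (Hc 0) f) : SmS (Hc 0) (Per Δ f) := by
  intro z hz
  obtain ⟨F, hF⟩ := Per_eventually hf hz
  have h1 : SmS (Hc 0) (fun w => ∑ δ ∈ F, f (mob (δ : Matrix.SpecialLinearGroup (Fin 2) ℝ) w)) := by
    refine ContDiffOn.sum fun δ _ => ?_
    exact SmS.compS (isOpen_Hc 0) hs (mob_holo _) fun w hw => mob_mem _ hw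
  refine (h1 z hz).congr_of_eventuallyEq ?_ ?_
  · filter_upwards [mem_nhdsWithin_of_mem_nhds hF] with w hw
    exact hw.1
  · exact hF.self_of_nhds.1

theorem dzb_Per (hf : LF Δ f) (hs : SmS (Hc 0) f) (hz : z ∈ Hc 0) :
    dzb (Per Δ f) z = ∑ᶠ δ : Δ, dzb f (mob (δ : Matrix.SpecialLinearGroup (Fin 2) ℝ) z) *
      (starRingEnd ℂ) (deriv (mob (δ : Matrix.SpecialLinearGroup (Fin 2) ℝ)) z) := by
  obtain ⟨F, hF⟩ := Per_eventually hf hz
  have hterm : ∀ δ : Δ, dzb (fun w => f (mob (δ : Matrix.SpecialLinearGroup (Fin 2) ℝ) w)) z =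
      dzb f (mob (δ : Matrix.SpecialLinearGroup (Fin 2) ℝ) z) *
      (starRingEnd ℂ) (deriv (mob (δ : Matrix.SpecialLinearGroup (Fin 2) ℝ)) z) := by
    intro δ
    exact dzb_comp (hs.differentiableAt (isOpen_Hc 0) (mob_mem _ hz))
      ((mob_holo _).differentiableAt ((isOpen_Hc 0).mem_nhds hz))
  have h1 : dzb (Per Δ f) z =
      dzb (fun w => ∑ δ ∈ F, f (mob (δ : Matrix.SpecialLinearGroup (Fin 2) ℝ) w)) z := by
    apply dzb_congr
    filter_upwards [hF] with w hw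
    exact hw.1
  rw [h1, WirtM_dzb_sum, finsum_eq_sum_of_support_subset]
  · exact Finset.sum_congr rfl fun δ _ => hterm δ
  · intro δ hδ
    by_contra hcon
    apply hδ
    refine (hterm δ).symm.trans ?_
    have h2 : dzb (fun w => f (mob (δ : Matrix.SpecialLinearGroup (Fin 2) ℝ) w)) z =
        dzb (fun _ => 0) z := by
      apply dzb_congr
      filter_upwards [hF] with w hw
      exact hw.2 δ hcon
    rw [h2, dzb_const]
  · intro δ _
    exact (SmS.compS (isOpen_Hc 0) hs (mob_holo _) fun w hw => mob_mem _ hw).differentiableAt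
      (isOpen_Hc 0) hz

end US38
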